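import Pool.Agent.KS6_2.LL.Fm

open MeasureTheory Finset Filter Topology

namespace Pool.Agent.KS6_2.LL

/-- approximation by finite unions of balls -/
lemma exists_balls {E : Set ℝ} (hE : MeasurableSet E) (hEf : volume E ≠ ⊤) {ε : ℝ} (hε : 0 < ε) :
    ∃ (t : Finset ℝ) (r : ℝ → ℝ),
      volume (symmDiff E (⋃ y ∈ t, Set.Ioo (y - r y) (y + r y))) ≤ ENNReal.ofReal ε := by
  have hε2 : ENNReal.ofReal (ε / 2) ≠ 0 := by
    rw [Ne, ENNReal.ofReal_eq_zero]; linarith
  obtain ⟨O, hO, hOf, hOE⟩ := hE.exists_isOpen_symmDiff_lt hEf hε2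
  obtain ⟨K, hKO, hKc, hKlt⟩ := hO.measurableSet.exists_isCompact_sdiff_lt hOf.ne hε2
  have hball : ∀ y : ℝ, ∃ r : ℝ, y ∈ K → 0 < r ∧ Metric.ball y r ⊆ O := by
    intro y
    by_cases hy : y ∈ K
    · obtain ⟨r, hr, hr2⟩ := Metric.isOpen_iff.1 hO y (hKO hy)
      exact ⟨r, fun _ => ⟨hr, hr2⟩⟩
    · exact ⟨0, fun h => absurd h hy⟩
  choose r hr using hball
  obtain ⟨t, ht, htK⟩ := hKc.elim_nhds_subcover (fun y => Metric.ball y (r y))
    (fun y hy => Metric.ball_mem_nhds y (hr y hy).1)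
  refine ⟨t, r, ?_⟩
  have e1 : (⋃ y ∈ t, Set.Ioo (y - r y) (y + r y)) = ⋃ y ∈ t, Metric.ball y (r y) := by
    simp only [Real.ball_eq_Ioo]
  rw [e1]
  set E' := ⋃ y ∈ t, Metric.ball y (r y) with hE'
  have hE'O : E' ⊆ O := by
    intro z hz
    rw [hE', Set.mem_iUnion₂] at hz
    obtain ⟨y, hy, hz⟩ := hz
    exact (hr y (ht y hy)).2 hz
  have hsub : symmDiff E E' ⊆ symmDiff O E ∪ (O \ K) := by
    intro z
    simp only [Set.mem_symmDiff, Set.mem_union, Set.mem_sdiff]
    have h1 : z ∈ K → z ∈ E' := fun h => htK h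
    have h2 : z ∈ E' → z ∈ O := fun h => hE'O h
    tauto
  calc volume (symmDiff E E') ≤ volume (symmDiff O E ∪ (O \ K)) := measure_mono hsub
    _ ≤ volume (symmDiff O E) + volume (O \ K) := measure_union_le _ _
    _ ≤ ENNReal.ofReal (ε / 2) + ENNReal.ofReal (ε / 2) := add_le_add hOE.le hKlt.le
    _ = ENNReal.ofReal ε := by
        rw [← ENNReal.ofReal_add (by positivity) (by positivity)]; congr 1; ring

/-- bounded sets with a finite modulus -/
lemma exists_W {E : Set ℝ} (hE : MeasurableSet E) (hEf : volume E ≠ ⊤) {ε : ℝ} (hε : 0 < ε) :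
    ∃ (W : Set ℝ) (A : ℕ) (J : ℝ), MeasurableSet W ∧ W ⊆ Set.Ioc (-(A : ℝ)) A ∧ 0 ≤ J ∧
      Mod W (ENNReal.ofReal J) ∧ volume (symmDiff E W) ≤ ENNReal.ofReal ε := by
  obtain ⟨t, r, h⟩ := exists_balls hE hEf hε
  obtain ⟨A, hA⟩ := exists_nat_ge (∑ y ∈ t, (|y| + |r y|))
  refine ⟨_, A, 2 * t.card, ?_, ?_, by positivity, ?_, h⟩
  · exact Finset.measurableSet_biUnion _ fun y _ => measurableSet_Ioo
  · intro z hz
    rw [Set.mem_iUnion₂] at hz
    obtain ⟨y, hy, hz1, hz2⟩ := hz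
    have h1 : |y| + |r y| ≤ ∑ y ∈ t, (|y| + |r y|) :=
      single_le_sum (f := fun y => |y| + |r y|) (fun y _ => by positivity) hy
    have h2 := le_abs_self y
    have h3 := neg_abs_le y
    have h4 := le_abs_self (r y)
    constructor <;> linarith
  · have := Mod_biUnion t (fun y => Set.Ioo (y - r y) (y + r y)) (fun _ => 2)
      (fun y _ => Mod_Ioo _ _)
    refine this.mono (le_of_eq ?_)
    rw [sum_const, nsmul_eq_mul, ENNReal.ofReal_mul (by norm_num), ENNReal.ofReal_natCast]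
    rw [mul_comm]
    congr 1
    norm_num

/-- target sets -/
lemma exists_U {U : Set ℝ} (hU : MeasurableSet U) (hU0 : U ⊆ Set.Ioi 0) (hUf : volume U ≠ ⊤) {ε : ℝ}
    (hε : 0 < ε) :
    ∃ (U' : Set ℝ) (x JU : ℝ), 0 < x ∧ 0 ≤ JU ∧ MeasurableSet U' ∧ U' ⊆ Set.Ioo 0 x ∧
      (∀ q : ℕ, 0 < q → ∀ a : ℝ, 0 < a → ∀ r : ℤ, Mod (Comp U' q a r) (ENNReal.ofReal JU)) ∧
      volume (symmDiff U U') ≤ ENNReal.ofReal ε := by
  obtain ⟨t, r, h⟩ := exists_balls hU hUf hε
  have hsum0 : 0 ≤ ∑ y ∈ t, (|y| + |r y|) := sum_nonneg fun y _ => by positivity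
  refine ⟨⋃ y ∈ t, Set.Ioo (max (y - r y) 0) (y + r y), ∑ y ∈ t, (|y| + |r y|) + 1, 4 * t.card,
    by linarith, by positivity, ?_, ?_, ?_, ?_⟩
  · exact Finset.measurableSet_biUnion _ fun y _ => measurableSet_Ioo
  · intro z hz
    rw [Set.mem_iUnion₂] at hz
    obtain ⟨y, hy, hz1, hz2⟩ := hz
    have h1 : |y| + |r y| ≤ ∑ y ∈ t, (|y| + |r y|) :=
      single_le_sum (f := fun y => |y| + |r y|) (fun y _ => by positivity) hy
    have h2 := le_abs_self y
    have h4 := le_abs_self (r y)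
    exact ⟨lt_of_le_of_lt (le_max_right _ _) hz1, by linarith⟩
  · intro q hq a ha p
    refine (Mod_Comp_union t (fun y => max (y - r y) 0) (fun y => y + r y)
      (fun y _ => le_max_right _ _) hq ha p).mono (le_of_eq ?_)
    rw [ENNReal.ofReal_mul (by norm_num), ENNReal.ofReal_natCast]
    congr 1
    norm_num
  · refine le_trans (measure_mono ?_) h
    intro z
    simp only [Set.mem_symmDiff, Set.mem_iUnion₂, Set.mem_Ioo, max_lt_iff]
    rintro (⟨h1, h2⟩ | ⟨⟨y, hy, ⟨h1, h2⟩, h3⟩, h4⟩)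
    · left
      refine ⟨h1, ?_⟩
      rintro ⟨y, hy, h3, h4⟩
      exact h2 ⟨y, hy, ⟨h3, hU0 h1⟩, h4⟩
    · right
      exact ⟨⟨y, hy, h1, h3⟩, h4⟩

/-- real form of the comparison -/
lemma abs_real_sub_le {X Y : Set ℝ} (hX : MeasurableSet X) (hY : MeasurableSet Y)
    (hXf : volume X ≠ ⊤) (hYf : volume Y ≠ ⊤) {ε : ℝ} (hε : 0 ≤ ε)
    (h : volume (symmDiff X Y) ≤ ENNReal.ofReal ε) : |volume.real X - volume.real Y| ≤ ε := by
  refine (abs_measureReal_sub_le_measureReal_symmDiff' hX.nullMeasurableSet hY.nullMeasurableSet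
    hXf hYf).trans ?_
  exact ENNReal.toReal_le_of_le_ofReal hε h

lemma exp_lip {a b : ℝ} (ha : 0 ≤ a) (hb : 0 ≤ b) : |Real.exp (-a) - Real.exp (-b)| ≤ |a - b| := by
  rcases le_total a b with h | h
  · have := exp_diff ha (sub_nonneg.2 h)
    rw [show a + (b - a) = b by ring] at this
    rw [abs_sub_comm a b, abs_of_nonneg (sub_nonneg.2 h)]
    exact this
  · have := exp_diff hb (sub_nonneg.2 h)
    rw [show b + (a - b) = a by ring] at this
    rw [abs_sub_comm, abs_of_nonneg (sub_nonneg.2 h)]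
    exact this

lemma measurableSet_Hit {α : ℝ} {U : ℕ → Set ℝ} (hU : ∀ q, MeasurableSet (U q)) (Q : ℕ) :
    MeasurableSet (Hit α U Q) := by
  have : Hit α U Q = ⋃ q ∈ Icc 1 Q, Arc (U q) q (gg α q) (Real.log Q ^ 2 * (q * nint (q * α))) := by
    ext y
    unfold Hit
    rw [Set.mem_iUnion₂, Set.mem_ofPred_eq]
    constructor
    · rintro ⟨q, hq, h⟩; exact ⟨q, hq, h⟩
    · rintro ⟨q, hq, h⟩; exact ⟨q, hq, h⟩
  rw [this]
  exact Finset.measurableSet_biUnion _ fun q _ => measurableSet_Arc (hU q) _ _ _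

lemma lam_nonneg {α : ℝ} (U : ℕ → Set ℝ) (Q : ℕ) : 0 ≤ lam α U Q := by
  unfold lam
  refine sum_nonneg fun q hq => ?_
  have h2 := rr_nonneg α q
  have h3 := ph_nonneg α (q := q) (mem_Icc.1 hq).1
  have h4 : 0 ≤ volume.real (U q) := measureReal_nonneg
  positivity

lemma RS_ev {c α : ℝ} (hc : 0 < c) (h : Bad c α) :
    ∀ᶠ Q : ℕ in atTop, 1 ≤ Real.log Q ∧ 1 / Real.log Q ^ 2 * RS α Q ≤ 2 := by
  have h1 := (tendsto_RS hc h).eventually_lt_const (u := 2) (by norm_num)
  filter_upwards [h1, log_tendsto.eventually_ge_atTop 1] with Q hQ hQ1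
  refine ⟨hQ1, ?_⟩
  rw [one_div_mul_eq_div]; exact hQ.le

/-- **void probabilities for general sets, uniformly in the colouring** -/
theorem void_unif {c α : ℝ} (hc : 0 < c) (h : Bad c α) {ι : Type*} [Fintype ι] {U : ι → Set ℝ}
    (hU : ∀ j, MeasurableSet (U j)) (hU0 : ∀ j, U j ⊆ Set.Ioi 0) (hUf : ∀ j, volume (U j) ≠ ⊤)
    {E : Set ℝ} (hE : MeasurableSet E) (hEf : volume E ≠ ⊤) {ε : ℝ} (hε : 0 < ε) :
    ∀ᶠ Q : ℕ in atTop, ∀ κ : ℕ → ι,
      |volume.real (E \ Hit α (fun q => U (κ q)) Q) -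
        volume.real E * Real.exp (-lam α (fun q => U (κ q)) Q)| ≤ ε := by
  classical
  obtain ⟨W, A, J, hW, hWA, hJ0, hJ, hEW⟩ := exists_W hE hEf (ε := ε / 6) (by positivity)
  have hA0 : (0 : ℝ) ≤ A := Nat.cast_nonneg _
  set δ : ℝ := ε / (6 * (8 * A + 8)) with hδ
  have hδ0 : 0 < δ := by positivity
  have hUx : ∀ j, ∃ (U' : Set ℝ) (x JU : ℝ), 0 < x ∧ 0 ≤ JU ∧ MeasurableSet U' ∧ U' ⊆ Set.Ioo 0 x ∧
      (∀ q : ℕ, 0 < q → ∀ a : ℝ, 0 < a → ∀ r : ℤ, Mod (Comp U' q a r) (ENNReal.ofReal JU)) ∧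
      volume (symmDiff (U j) U') ≤ ENNReal.ofReal δ := fun j =>
    exists_U (hU j) (hU0 j) (hUf j) hδ0
  choose U' x JU hx hJU hU' hU'x hmod hUU using hUx
  set X : ℝ := ∑ j, x j + 1 with hX
  set JT : ℝ := ∑ j, JU j with hJT
  have hX0 : 0 < X := by
    have : 0 ≤ ∑ j, x j := sum_nonneg fun j _ => (hx j).le
    linarith
  have hJT0 : 0 ≤ JT := sum_nonneg fun j _ => hJU j
  have hxle : ∀ j, x j ≤ X := by
    intro j
    have := single_le_sum (f := x) (fun j _ => (hx j).le) (mem_univ j)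
    linarith
  have hJle : ∀ j, JU j ≤ JT := fun j => single_le_sum (f := JU) (fun j _ => hJU j) (mem_univ j)
  have hadm : ∀ κ : ℕ → ι, Adm X JT (fun q => U' (κ q)) := by
    intro κ
    refine ⟨fun q => hU' _, fun q => (hU'x _).trans (Set.Ioo_subset_Ioo le_rfl (hxle _)), ?_⟩
    intro q hq a ha r
    exact (hmod (κ q) q hq a ha r).mono (ENNReal.ofReal_le_ofReal (hJle _))
  have hWf : volume W ≠ ⊤ := ne_top_of_le_ne_top
    (by rw [Real.volume_Ioc]; exact ENNReal.ofReal_ne_top) (measure_mono hWA)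
  have hWvol : volume.real W ≤ 2 * A := by
    calc volume.real W ≤ volume.real (Set.Ioc (-(A : ℝ)) A) :=
          measureReal_mono hWA (by rw [Real.volume_Ioc]; exact ENNReal.ofReal_ne_top)
      _ = 2 * A := by rw [Real.volume_real_Ioc_of_le (by linarith)]; ring
  filter_upwards [unif hc h hX0 hW hWA hJ0 hJ hJT0 (ε := ε / 6) (by positivity), RS_ev hc h]
    with Q hQ1 hQ2 κ
  obtain ⟨hlog, hRS⟩ := hQ2
  have hN0 : 0 < Real.log Q := by linarith
  have h1 := hQ1 (fun q => U' (κ q)) (hadm κ)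
  set H := Hit α (fun q => U (κ q)) Q with hH
  set H' := Hit α (fun q => U' (κ q)) Q with hH'
  have hHm : MeasurableSet H := measurableSet_Hit (fun q => hU _) Q
  have hHm' : MeasurableSet H' := measurableSet_Hit (fun q => hU' _) Q
  -- the exceptional set
  set B : Set ℝ := ⋃ q ∈ Icc 1 Q, {y | y ∈ Set.Ioc (-(A : ℝ)) A ∧
    Real.log Q ^ 2 * (q * nint (q * α)) * nint (q * y) ∈ symmDiff (U (κ q)) (U' (κ q))} with hB
  have hsdm : ∀ j, MeasurableSet (symmDiff (U j) (U' j)) := fun j => (hU j).symmDiff (hU' j)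
  have hBvol : volume B ≤ ENNReal.ofReal (8 * A * δ) := by
    have h2 : ∀ q ∈ Icc 1 Q, volume {y | y ∈ Set.Ioc (-(A : ℝ)) A ∧
        Real.log Q ^ 2 * (q * nint (q * α)) * nint (q * y) ∈ symmDiff (U (κ q)) (U' (κ q))} ≤
        ENNReal.ofReal (4 * A / Real.log Q ^ 2 * rr α q * δ) := by
      intro q hq
      have hq0 := (mem_Icc.1 hq).1
      have hm1 : Measurable ((symmDiff (U (κ q)) (U' (κ q))).indicator (fun _ => (1 : ENNReal))) :=
        measurable_const.indicator (hsdm _)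
      have h3 := fm_all hN0 hc h (q := q) hq0 A hm1
      have hmv : Measurable (fun y : ℝ => Real.log Q ^ 2 * (q * nint (q * α)) * nint (q * y)) :=
        measurable_const.mul (measurable_nint'.comp (measurable_const.mul measurable_id))
      have e1 : ∫⁻ y in Set.Ioc (-(A : ℝ)) A, (symmDiff (U (κ q)) (U' (κ q))).indicator
          (fun _ => (1 : ENNReal)) (Real.log Q ^ 2 * (q * nint (q * α)) * nint (q * y)) =
          volume {y | y ∈ Set.Ioc (-(A : ℝ)) A ∧
        Real.log Q ^ 2 * (q * nint (q * α)) * nint (q * y) ∈ symmDiff (U (κ q)) (U' (κ q))} := by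
        have e2 : (fun y : ℝ => (symmDiff (U (κ q)) (U' (κ q))).indicator (fun _ => (1 : ENNReal))
            (Real.log Q ^ 2 * (q * nint (q * α)) * nint (q * y))) =
            ((fun y : ℝ => Real.log Q ^ 2 * (q * nint (q * α)) * nint (q * y)) ⁻¹'
              symmDiff (U (κ q)) (U' (κ q))).indicator (fun _ => (1 : ENNReal)) := by
          funext y; rfl
        rw [e2, lintegral_indicator_const (hmv (hsdm _)), one_mul,
          Measure.restrict_apply (hmv (hsdm _))]
        congr 1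
        ext y; simp only [Set.mem_inter_iff, Set.mem_preimage, Set.mem_ofPred_eq]; tauto
      rw [e1] at h3
      refine h3.trans ?_
      have h4 : ∫⁻ z in Set.Ioi 0, (symmDiff (U (κ q)) (U' (κ q))).indicator
          (fun _ => (1 : ENNReal)) z ≤ ENNReal.ofReal δ := by
        calc _ ≤ ∫⁻ z, (symmDiff (U (κ q)) (U' (κ q))).indicator (fun _ => (1 : ENNReal)) z :=
              setLIntegral_le_lintegral _ _
          _ = volume (symmDiff (U (κ q)) (U' (κ q))) := by
              rw [lintegral_indicator_const (hsdm _), one_mul]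
          _ ≤ _ := hUU _
      have hr0 := rr_nonneg α q
      rw [ENNReal.ofReal_mul (p := 4 * A / Real.log Q ^ 2 * rr α q) (by positivity)]
      gcongr
    calc volume B ≤ ∑ q ∈ Icc 1 Q, _ := measure_biUnion_finset_le _ _
      _ ≤ ∑ q ∈ Icc 1 Q, ENNReal.ofReal (4 * A / Real.log Q ^ 2 * rr α q * δ) := sum_le_sum h2
      _ = ENNReal.ofReal (∑ q ∈ Icc 1 Q, 4 * A / Real.log Q ^ 2 * rr α q * δ) := by
          rw [ENNReal.ofReal_sum_of_nonneg]
          intro q _
          have := rr_nonneg α q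
          positivity
      _ ≤ ENNReal.ofReal (8 * A * δ) := by
          apply ENNReal.ofReal_le_ofReal
          have e1 : ∑ q ∈ Icc 1 Q, 4 * A / Real.log Q ^ 2 * rr α q * δ =
              4 * A * δ * (1 / Real.log Q ^ 2 * RS α Q) := by
            unfold RS
            rw [mul_sum, mul_sum]
            refine sum_congr rfl fun q _ => ?_
            ring
          rw [e1]
          calc _ ≤ 4 * A * δ * 2 := by gcongr
            _ = _ := by ring
  have hHB : ∀ y, y ∈ W → (y ∈ symmDiff H H') → y ∈ B := by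
    intro y hyW hy
    have hyA := hWA hyW
    rw [hB, Set.mem_iUnion₂]
    rcases hy with ⟨⟨q, hq, h2, h3⟩, h4⟩ | ⟨⟨q, hq, h2, h3⟩, h4⟩
    · exact ⟨q, hq, hyA, Or.inl ⟨h2, fun h5 => h4 ⟨q, hq, h5, h3⟩⟩⟩
    · exact ⟨q, hq, hyA, Or.inr ⟨h2, fun h5 => h4 ⟨q, hq, h5, h3⟩⟩⟩
  have hstep1 : |volume.real (E \ H) - volume.real (W \ H')| ≤ ε / 6 + 8 * A * δ := by
    apply abs_real_sub_le (hE.diff hHm) (hW.diff hHm')
      (ne_top_of_le_ne_top hEf (measure_mono Set.sdiff_subset))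
      (ne_top_of_le_ne_top hWf (measure_mono Set.sdiff_subset)) (by positivity)
    rw [ENNReal.ofReal_add (by positivity) (by positivity)]
    refine le_trans (measure_mono ?_) ((measure_union_le _ _).trans (add_le_add hEW hBvol))
    intro y hy
    by_cases h2 : y ∈ symmDiff E W
    · left; exact h2
    · right
      have hEWy : y ∈ E ↔ y ∈ W := by
        rw [Set.mem_symmDiff] at h2; tauto
      rw [Set.mem_symmDiff] at hy
      simp only [Set.mem_sdiff] at hy
      have hyW : y ∈ W := by tauto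
      apply hHB y hyW
      rw [Set.mem_symmDiff]; tauto
  have hvEW : |volume.real E - volume.real W| ≤ ε / 6 :=
    abs_real_sub_le hE hW hEf hWf (by positivity) hEW
  have hlam : |lam α (fun q => U (κ q)) Q - lam α (fun q => U' (κ q)) Q| ≤ 4 * δ := by
    unfold lam
    rw [← sum_sub_distrib]
    refine (abs_sum_le_sum_abs _ _).trans ?_
    have h2 : ∀ q ∈ Icc 1 Q, |2 * volume.real (U (κ q)) / Real.log Q ^ 2 * rr α q * ph α q -
        2 * volume.real (U' (κ q)) / Real.log Q ^ 2 * rr α q * ph α q| ≤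
        2 * δ / Real.log Q ^ 2 * rr α q := by
      intro q hq
      have hq0 := (mem_Icc.1 hq).1
      have hr0 := rr_nonneg α q
      have hp0 := ph_nonneg α (q := q) hq0
      have hp1 := ph_le_one α (q := q) hq0
      have hUf' : volume (U' (κ q)) ≠ ⊤ := ne_top_of_le_ne_top
        (by rw [Real.volume_Ioo]; exact ENNReal.ofReal_ne_top) (measure_mono (hU'x (κ q)))
      have h3 := abs_real_sub_le (hU (κ q)) (hU' (κ q)) (hUf (κ q)) hUf' hδ0.le (hUU (κ q))
      have e1 : 2 * volume.real (U (κ q)) / Real.log Q ^ 2 * rr α q * ph α q -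
        2 * volume.real (U' (κ q)) / Real.log Q ^ 2 * rr α q * ph α q =
        (2 / Real.log Q ^ 2 * rr α q * ph α q) *
          (volume.real (U (κ q)) - volume.real (U' (κ q))) := by ring
      rw [e1, abs_mul, abs_of_nonneg (by positivity)]
      calc _ ≤ (2 / Real.log Q ^ 2 * rr α q * 1) * δ := by gcongr
        _ = _ := by ring
    refine (sum_le_sum h2).trans ?_
    have e1 : ∑ q ∈ Icc 1 Q, 2 * δ / Real.log Q ^ 2 * rr α q =
        2 * δ * (1 / Real.log Q ^ 2 * RS α Q) := by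
      unfold RS
      rw [mul_sum, mul_sum]
      refine sum_congr rfl fun q _ => ?_
      ring
    rw [e1]
    calc _ ≤ 2 * δ * 2 := by gcongr
      _ = _ := by ring
  have hexp := (exp_lip (lam_nonneg (α := α) (fun q => U (κ q)) Q)
    (lam_nonneg (α := α) (fun q => U' (κ q)) Q)).trans hlam
  set L := lam α (fun q => U (κ q)) Q with hL
  set L' := lam α (fun q => U' (κ q)) Q with hL'
  have hL0 : 0 ≤ L := lam_nonneg _ _
  have hL0' : 0 ≤ L' := lam_nonneg _ _
  have hstep2 : |volume.real E * Real.exp (-L) - volume.real W * Real.exp (-L')| ≤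
      ε / 6 + 2 * A * (4 * δ) := by
    have e1 : volume.real E * Real.exp (-L) - volume.real W * Real.exp (-L') =
        (volume.real E - volume.real W) * Real.exp (-L) +
        volume.real W * (Real.exp (-L) - Real.exp (-L')) := by ring
    rw [e1]
    refine (abs_add_le _ _).trans (add_le_add ?_ ?_)
    · rw [abs_mul, abs_of_pos (Real.exp_pos _)]
      have : Real.exp (-L) ≤ 1 := by rw [Real.exp_le_one_iff]; linarith
      calc _ ≤ ε / 6 * 1 := mul_le_mul hvEW this (Real.exp_pos _).le (by positivity)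
        _ = _ := mul_one _
    · rw [abs_mul, abs_of_nonneg measureReal_nonneg]
      exact mul_le_mul hWvol hexp (abs_nonneg _) (by positivity)
  have hAδ : (8 * A + 8) * δ = ε / 6 := by
    rw [hδ]; field_simp
  have e1 : volume.real (E \ H) - volume.real E * Real.exp (-L) =
      (volume.real (E \ H) - volume.real (W \ H')) +
      (volume.real (W \ H') - volume.real W * Real.exp (-L')) -
      (volume.real E * Real.exp (-L) - volume.real W * Real.exp (-L')) := by ring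
  rw [e1]
  calc _ ≤ (ε / 6 + 8 * A * δ) + ε / 6 + (ε / 6 + 2 * A * (4 * δ)) :=
        (abs_sub _ _).trans (add_le_add ((abs_add_le _ _).trans (add_le_add hstep1 h1)) hstep2)
    _ ≤ ε := by nlinarith

end Pool.Agent.KS6_2.LL
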