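import Pool.Agent.KS6_2.LL.Prim
import Pool.Agent.KS6_2.Tent

open MeasureTheory Finset

namespace Pool.Agent.KS6_2.LL

/-- the points `y` with `a ‖q y‖ ∈ U` for which the integer next to `q y` is prime to `g` -/
def Arc (U : Set ℝ) (q g : ℕ) (a : ℝ) : Set ℝ :=
  {y | a * nint (q * y) ∈ U ∧ Int.gcd g (round ((q : ℝ) * y)) = 1}

/-- one component -/
def Comp (U : Set ℝ) (q : ℕ) (a : ℝ) (r : ℤ) : Set ℝ := {y | a * |q * y - r| ∈ U}

lemma measurable_round : Measurable (round : ℝ → ℤ) := by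
  have : (round : ℝ → ℤ) = fun x => ⌊x + 1 / 2⌋ := by funext x; exact round_eq x
  rw [this]
  exact Int.measurable_floor.comp (measurable_id.add_const _)

lemma measurable_nint' : Measurable nint := by
  unfold nint
  exact (measurable_id.sub ((measurable_from_top (f := fun n : ℤ => (n : ℝ))).comp measurable_round)).abs

lemma measurableSet_Arc {U : Set ℝ} (hU : MeasurableSet U) (q g : ℕ) (a : ℝ) :
    MeasurableSet (Arc U q g a) := by
  have h1 : MeasurableSet {y : ℝ | a * nint (q * y) ∈ U} :=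
    (measurable_const.mul (measurable_nint'.comp (measurable_const.mul measurable_id))) hU
  have h2 : MeasurableSet {y : ℝ | Int.gcd g (round ((q : ℝ) * y)) = 1} := by
    have : Measurable (fun y : ℝ => round ((q : ℝ) * y)) :=
      measurable_round.comp (measurable_const.mul measurable_id)
    exact this (MeasurableSet.of_discrete (s := {r : ℤ | Int.gcd g r = 1}))
  exact h1.inter h2

lemma measurableSet_Comp {U : Set ℝ} (hU : MeasurableSet U) (q : ℕ) (a : ℝ) (r : ℤ) :
    MeasurableSet (Comp U q a r) := by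
  have : Measurable (fun y : ℝ => a * |q * y - r|) := by fun_prop
  exact this hU

lemma nint_add_int (x : ℝ) (n : ℤ) : nint (x + n) = nint x := by
  unfold nint
  rw [round_add_intCast]
  push_cast
  congr 1
  ring

lemma mem_Arc_add_one {U : Set ℝ} {q g : ℕ} (hg : g ∣ q) (a y : ℝ) :
    y + 1 ∈ Arc U q g a ↔ y ∈ Arc U q g a := by
  unfold Arc
  simp only [Set.mem_ofPred_eq]
  have e : (q : ℝ) * (y + 1) = q * y + ((q : ℤ) : ℝ) := by push_cast; ring
  rw [e, nint_add_int, round_add_intCast]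
  have : Int.gcd g (round ((q : ℝ) * y) + (q : ℤ)) = Int.gcd g (round ((q : ℝ) * y)) := by
    obtain ⟨k, rfl⟩ := hg
    have h1 := Int.gcd_add_mul_left_right (g : ℤ) (round (((g * k : ℕ) : ℝ) * y)) k
    rw [show (((g * k : ℕ) : ℤ)) = (g : ℤ) * k by push_cast; ring]
    exact h1
  rw [this]

lemma volume_abs_preimage {U : Set ℝ} (hU : MeasurableSet U) (hU0 : U ⊆ Set.Ioi 0) :
    volume {z : ℝ | |z| ∈ U} = 2 * volume U := by
  have e : {z : ℝ | |z| ∈ U} = U ∪ (fun z => -z) ⁻¹' U := by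
    ext z
    simp only [Set.mem_ofPred_eq, Set.mem_union, Set.mem_preimage]
    constructor
    · intro h
      rcases abs_choice z with h1 | h1
      · left; rwa [h1] at h
      · right; rwa [h1] at h
    · rintro (h | h)
      · rwa [abs_of_pos (hU0 h)]
      · have : 0 < -z := hU0 h
        rwa [abs_of_neg (by linarith)]
  have hd : Disjoint U ((fun z => -z) ⁻¹' U) := by
    rw [Set.disjoint_left]
    intro z h1 h2
    have h3 : 0 < z := hU0 h1
    have h4 : 0 < -z := hU0 h2
    linarith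
  rw [e, measure_union hd (measurable_neg hU)]
  have : volume ((fun z : ℝ => -z) ⁻¹' U) = volume U := by
    have := Measure.measure_preimage_neg (volume : Measure ℝ) U
    exact this
  rw [this, two_mul]

lemma volume_Comp {U : Set ℝ} (hU : MeasurableSet U) (hU0 : U ⊆ Set.Ioi 0) {q : ℕ} (hq : 0 < q)
    {a : ℝ} (ha : 0 < a) (r : ℤ) :
    volume (Comp U q a r) = ENNReal.ofReal (2 / (q * a)) * volume U := by
  have hq' : (0 : ℝ) < q := by exact_mod_cast hq
  have e : Comp U q a r = (fun y : ℝ => (a * q) * y) ⁻¹' ((fun z : ℝ => z + (-(a * r))) ⁻¹'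
      {z : ℝ | |z| ∈ U}) := by
    ext y
    simp only [Comp, Set.mem_ofPred_eq, Set.mem_preimage]
    have : |a * q * y + -(a * r)| = a * |q * y - r| := by
      rw [show a * q * y + -(a * r) = a * (q * y - r) by ring, abs_mul, abs_of_pos ha]
    rw [this]
  rw [e, Real.volume_preimage_mul_left (by positivity), measure_preimage_add_right,
    volume_abs_preimage hU hU0, ← mul_assoc]
  congr 1
  rw [abs_of_pos (by positivity), show (2 : ENNReal) = ENNReal.ofReal 2 by simp,
    ← ENNReal.ofReal_mul (by positivity)]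
  congr 1
  field_simp

lemma real_volume_Comp {U : Set ℝ} (hU : MeasurableSet U) (hU0 : U ⊆ Set.Ioi 0) {q : ℕ} (hq : 0 < q)
    {a : ℝ} (ha : 0 < a) (r : ℤ) :
    volume.real (Comp U q a r) = 2 * volume.real U / (q * a) := by
  unfold Measure.real
  rw [volume_Comp hU hU0 hq ha, ENNReal.toReal_mul, ENNReal.toReal_ofReal (by positivity)]
  ring

lemma round_eq_of_abs_lt {z : ℝ} {r : ℤ} (h : |z - r| < 1 / 2) : round z = r := by
  rw [round_eq, Int.floor_eq_iff]
  rw [abs_lt] at h
  constructor <;> linarith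

/-- upper bound for the part of the set in a window -/
lemma volume_Arc_le {U : Set ℝ} (hU : MeasurableSet U) {x : ℝ} (hUx : U ⊆ Set.Ioo 0 x) {q g : ℕ}
    (hq : 0 < q) {a : ℝ} (ha : 0 < a) {ρ : ℝ} (hρ : x / (q * a) ≤ ρ) (h y : ℝ) :
    volume.real (Arc U q g a ∩ Set.Ioc y (y + h)) ≤
      2 * volume.real U / (q * a) * cntP q g (h + 2 * ρ) (y - ρ) := by
  have hq' : (0 : ℝ) < q := by exact_mod_cast hq
  have hU0 : U ⊆ Set.Ioi 0 := fun z hz => (hUx hz).1
  have hUfin : volume U ≠ ⊤ := by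
    refine ne_top_of_le_ne_top ?_ (measure_mono hUx)
    rw [Real.volume_Ioo]; exact ENNReal.ofReal_ne_top
  set F := (Ioc ⌊(q : ℝ) * (y - ρ)⌋ ⌊(q : ℝ) * (y - ρ + (h + 2 * ρ))⌋).filter
    (fun r : ℤ => Int.gcd g r = 1) with hF
  have hsub : Arc U q g a ∩ Set.Ioc y (y + h) ⊆ ⋃ r ∈ F, Comp U q a r := by
    rintro z ⟨⟨h1, h2⟩, h3⟩
    rw [Set.mem_iUnion₂]
    refine ⟨round ((q : ℝ) * z), ?_, h1⟩
    have h4 : |(q : ℝ) * z - round ((q : ℝ) * z)| < q * ρ := by
      have h5 := (hUx h1).2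
      have h6 : nint (q * z) < x / a := by rw [lt_div_iff₀ ha]; linarith
      have h7 : x / a ≤ q * ρ := by
        rw [div_le_iff₀ (by positivity)] at hρ
        rw [div_le_iff₀ ha]
        linarith
      exact lt_of_lt_of_le h6 h7
    rw [abs_lt] at h4
    rw [hF, mem_filter, mem_Ioc]
    refine ⟨⟨?_, ?_⟩, h2⟩
    · rw [Int.floor_lt]
      have := h3.1
      nlinarith
    · rw [Int.le_floor]
      have := h3.2
      nlinarith
  have hfin : ∀ r, volume (Comp U q a r) ≠ ⊤ := fun r => by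
    rw [volume_Comp hU hU0 hq ha]
    exact ENNReal.mul_ne_top ENNReal.ofReal_ne_top hUfin
  calc volume.real (Arc U q g a ∩ Set.Ioc y (y + h)) ≤ volume.real (⋃ r ∈ F, Comp U q a r) := by
        refine measureReal_mono hsub ?_
        exact ((measure_biUnion_finset_le F _).trans_lt
          (ENNReal.sum_lt_top.2 fun r _ => (hfin r).lt_top)).ne
    _ ≤ ∑ r ∈ F, volume.real (Comp U q a r) := measureReal_biUnion_finset_le F _
    _ = ∑ r ∈ F, 2 * volume.real U / (q * a) :=
        sum_congr rfl fun r _ => real_volume_Comp hU hU0 hq ha r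
    _ = _ := by
        rw [sum_const, nsmul_eq_mul, mul_comm]
        rfl

/-- lower bound for the part of the set in a window -/
lemma le_volume_Arc {U : Set ℝ} (hU : MeasurableSet U) {x : ℝ} (hUx : U ⊆ Set.Ioo 0 x) {q g : ℕ}
    (hq : 0 < q) {a : ℝ} (ha : 0 < a) (hax : 2 * x ≤ a) {ρ : ℝ} (hρ : x / (q * a) ≤ ρ) (h y : ℝ) :
    2 * volume.real U / (q * a) * cntP q g (h - 2 * ρ) (y + ρ) ≤
      volume.real (Arc U q g a ∩ Set.Ioc y (y + h)) := by
  have hq' : (0 : ℝ) < q := by exact_mod_cast hq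
  have hU0 : U ⊆ Set.Ioi 0 := fun z hz => (hUx hz).1
  have hUfin : volume U ≠ ⊤ := by
    refine ne_top_of_le_ne_top ?_ (measure_mono hUx)
    rw [Real.volume_Ioo]; exact ENNReal.ofReal_ne_top
  set F := (Ioc ⌊(q : ℝ) * (y + ρ)⌋ ⌊(q : ℝ) * (y + ρ + (h - 2 * ρ))⌋).filter
    (fun r : ℤ => Int.gcd g r = 1) with hF
  have hfin : ∀ r, volume (Comp U q a r) ≠ ⊤ := fun r => by
    rw [volume_Comp hU hU0 hq ha]
    exact ENNReal.mul_ne_top ENNReal.ofReal_ne_top hUfin
  have hcl : ∀ r : ℤ, ∀ z ∈ Comp U q a r, |(q : ℝ) * z - r| < q * ρ ∧ |(q : ℝ) * z - r| < 1 / 2 := by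
    intro r z hz
    have h1 : a * |(q : ℝ) * z - r| < x := (hUx hz).2
    have h2 : |(q : ℝ) * z - r| < x / a := by rw [lt_div_iff₀ ha]; linarith
    have h3 : x / a ≤ q * ρ := by
      rw [div_le_iff₀ (by positivity)] at hρ
      rw [div_le_iff₀ ha]
      linarith
    have h4 : x / a ≤ 1 / 2 := by rw [div_le_iff₀ ha]; linarith
    exact ⟨lt_of_lt_of_le h2 h3, lt_of_lt_of_le h2 h4⟩
  have hsub : (⋃ r ∈ F, Comp U q a r) ⊆ Arc U q g a ∩ Set.Ioc y (y + h) := by
    intro z hz
    rw [Set.mem_iUnion₂] at hz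
    obtain ⟨r, hr, hz⟩ := hz
    rw [hF, mem_filter, mem_Ioc] at hr
    obtain ⟨⟨hr1, hr2⟩, hr3⟩ := hr
    obtain ⟨h1, h2⟩ := hcl r z hz
    have hrd := round_eq_of_abs_lt h2
    rw [Int.floor_lt] at hr1
    rw [Int.le_floor] at hr2
    rw [abs_lt] at h1
    refine ⟨⟨?_, ?_⟩, ?_, ?_⟩
    · unfold nint
      rw [hrd]
      exact hz
    · rw [hrd]; exact hr3
    · have : (q : ℝ) * y < q * z := by nlinarith
      exact lt_of_mul_lt_mul_left this hq'.le
    · have : (q : ℝ) * z ≤ q * (y + h) := by nlinarith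
      exact le_of_mul_le_mul_left this hq'
  have hdisj : (F : Set ℤ).PairwiseDisjoint (fun r => Comp U q a r) := by
    intro r _ r' _ hne
    rw [Function.onFun, Set.disjoint_left]
    intro z hz hz'
    exact hne ((round_eq_of_abs_lt (hcl r z hz).2).symm.trans (round_eq_of_abs_lt (hcl r' z hz').2))
  calc 2 * volume.real U / (q * a) * cntP q g (h - 2 * ρ) (y + ρ)
      = ∑ r ∈ F, 2 * volume.real U / (q * a) := by
        rw [sum_const, nsmul_eq_mul, mul_comm]
        rfl
    _ = ∑ r ∈ F, volume.real (Comp U q a r) :=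
        sum_congr rfl fun r _ => (real_volume_Comp hU hU0 hq ha r).symm
    _ = volume.real (⋃ r ∈ F, Comp U q a r) := by
        rw [measureReal_biUnion_finset hdisj (fun r _ => measurableSet_Comp hU q a r)
          (fun r _ => hfin r)]
    _ ≤ _ := by
        refine measureReal_mono hsub ?_
        refine ne_top_of_le_ne_top ?_ (measure_mono Set.inter_subset_right)
        rw [Real.volume_Ioc]; exact ENNReal.ofReal_ne_top

end Pool.Agent.KS6_2.LL
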