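import Pool.Agent.KS6_2.LL.Blk

open Finset Filter Topology

namespace Pool.Agent.KS6_2.LL

/-- the reciprocal weights -/
noncomputable def rr (α : ℝ) (q : ℕ) : ℝ := 1 / ((q : ℝ) * nint (q * α))

/-- the sum of the reciprocals -/
noncomputable def RS (α : ℝ) (Q : ℕ) : ℝ := ∑ q ∈ Icc 1 Q, rr α q

lemma rr_nonneg (α : ℝ) (q : ℕ) : 0 ≤ rr α q := by
  unfold rr
  exact div_nonneg zero_le_one (mul_nonneg (Nat.cast_nonneg _) (nint_nonneg _))

lemma bad_le_half {c α : ℝ} (h : Bad c α) : c ≤ 1 / 2 := by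
  have := h 1 le_rfl
  have h2 := nint_le_half ((1 : ℕ) * α)
  push_cast at this h2
  linarith

lemma div_le_nint {c α : ℝ} (h : Bad c α) {q : ℕ} (hq : 1 ≤ q) :
    c / q ≤ nint (q * α) := by
  have h1 := h q hq
  have : (0 : ℝ) < q := by exact_mod_cast hq
  rw [div_le_iff₀ this]; linarith

lemma nint_pos_bad {c α : ℝ} (hc : 0 < c) (h : Bad c α) {q : ℕ} (hq : 1 ≤ q) :
    0 < nint (q * α) := by
  have hq' : (0 : ℝ) < q := by exact_mod_cast hq
  exact lt_of_lt_of_le (div_pos hc hq') (div_le_nint h hq)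

lemma rr_le {c α : ℝ} (hc : 0 < c) (h : Bad c α) {q : ℕ} (hq : 1 ≤ q) : rr α q ≤ 1 / c :=
  one_div_le_one_div_of_le hc (h q hq)

lemma RS_mono {α : ℝ} {Q Q' : ℕ} (h : Q ≤ Q') : RS α Q ≤ RS α Q' := by
  unfold RS
  apply sum_le_sum_of_subset_of_nonneg (Icc_subset_Icc le_rfl h)
  intro _ _ _; exact rr_nonneg _ _

lemma RS_nonneg (α : ℝ) (Q : ℕ) : 0 ≤ RS α Q := sum_nonneg fun _ _ => rr_nonneg _ _

lemma RS_split {α : ℝ} {X Q : ℕ} (h : X ≤ Q) : RS α Q = RS α X + ∑ q ∈ Ioc X Q, rr α q := by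
  unfold RS
  rw [← sum_union]
  · congr 1
    ext q; simp only [mem_Icc, mem_union, mem_Ioc]; omega
  · rw [disjoint_left]; intro q; simp only [mem_Icc, mem_Ioc]; omega

lemma block_est {c α : ℝ} (hc : 0 < c) (h : Bad c α) {ε : ℝ} (hε : 0 < ε) (hε2 : ε ≤ 1 / 2) :
    ∃ C : ℝ, 0 ≤ C ∧ ∀ Q : ℕ, 1 ≤ ε * Q → ∃ X : ℕ, 1 ≤ X ∧ X < Q ∧
      ∑ q ∈ Ioc X Q, rr α q ≤ (1 / (1 - ε)) * (Real.log Q ^ 2 - Real.log X ^ 2 +
        (C + 1) * (Real.log Q - Real.log X)) ∧
      (1 - ε) * (Real.log Q ^ 2 - Real.log X ^ 2) - C * (Real.log Q - Real.log X) ≤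
        ∑ q ∈ Ioc X Q, rr α q := by
  have hc2 := bad_le_half h
  have hcε : c * ε < 1 := by nlinarith
  set L0 : ℝ := -Real.log (c * ε) with hL0
  have hL00 : 0 ≤ L0 := by
    have := Real.log_nonpos (by positivity) hcε.le
    linarith
  refine ⟨10 / (c ^ 2 * ε) + 5 + 2 * L0, by positivity, fun Q hQε => ?_⟩
  set C : ℝ := 10 / (c ^ 2 * ε) + 5 + 2 * L0 with hC
  have hC0 : 0 ≤ C := by positivity
  set n : ℕ := ⌊ε * Q⌋₊ with hn
  have hn1 : 0 < n := Nat.floor_pos.2 hQε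
  obtain ⟨P, p, hP0, hPn, hPc, hcop, happ⟩ := exists_block h hn1
  have hnle : (n : ℝ) ≤ ε * Q := Nat.floor_le (by linarith)
  have hnlt : ε * Q < n + 1 := Nat.lt_floor_add_one _
  have hPle : (P : ℝ) ≤ ε * Q := by
    have : (P : ℝ) ≤ n := by exact_mod_cast hPn
    linarith
  have hPge : c * ε * Q ≤ P := by
    calc c * ε * Q = c * (ε * Q) := by ring
      _ ≤ c * (n + 1) := by gcongr
      _ ≤ P := hPc
  have hPr : (0 : ℝ) < P := by exact_mod_cast hP0
  have hQr : (0 : ℝ) < Q := by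
    rcases Nat.eq_zero_or_pos Q with h0 | h0
    · rw [h0] at hQε; norm_num at hQε
    · exact_mod_cast h0
  have hQ1 : (2 : ℝ) ≤ Q := by nlinarith
  have hPQ : (P : ℝ) < Q := by nlinarith
  have hPQ' : P < Q := by exact_mod_cast hPQ
  obtain ⟨X, hX⟩ : ∃ X, Q = X + P := ⟨Q - P, by omega⟩
  have hXr : (X : ℝ) = Q - P := by rw [hX]; push_cast; ring
  have hX1 : 1 ≤ X := by omega
  have hX0 : (0 : ℝ) < X := by exact_mod_cast hX1
  have hXge : (1 - ε) * Q ≤ X := by rw [hXr]; linarith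
  refine ⟨X, hX1, by omega, ?_⟩
  set M : ℕ := ⌈(Q : ℝ) / c⌉₊ with hM
  have hMle : (M : ℝ) ≤ 2 * P / (c ^ 2 * ε) := by
    have h1 : (M : ℝ) < Q / c + 1 := Nat.ceil_lt_add_one (by positivity)
    have h2 : (1 : ℝ) ≤ Q / c := by rw [le_div_iff₀ hc]; linarith
    have h3 : (Q : ℝ) ≤ P / (c * ε) := by rw [le_div_iff₀ (by positivity)]; linarith
    calc (M : ℝ) ≤ 2 * (Q / c) := by linarith
      _ ≤ 2 * (P / (c * ε) / c) := by gcongr
      _ = _ := by field_simp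
  have hy : ∀ s : ℕ, ((X + 1 : ℕ) : ℝ) * α + s * α = ((X + 1 + s : ℕ) : ℝ) * α := by
    intro s; push_cast; ring
  have hbs := block_sum hP0 hcop happ (((X + 1 : ℕ) : ℝ) * α) (M := M)
    (by
      intro s _
      rw [hy]; exact nint_pos_bad hc h (by omega))
    (by
      intro s hs
      rw [hy]
      have h1 := div_le_nint h (q := X + 1 + s) (by omega)
      have h2 : (0 : ℝ) < ((X + 1 + s : ℕ) : ℝ) := by positivity
      have h3 : (((X + 1 + s : ℕ)) : ℝ) ≤ Q := by exact_mod_cast (by omega : X + 1 + s ≤ Q)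
      calc 1 / nint (((X + 1 + s : ℕ) : ℝ) * α) ≤ 1 / (c / ((X + 1 + s : ℕ) : ℝ)) :=
            one_div_le_one_div_of_le (by positivity) h1
        _ = ((X + 1 + s : ℕ) : ℝ) / c := by rw [one_div_div]
        _ ≤ Q / c := by gcongr
        _ ≤ M := Nat.le_ceil _)
  have hre : ∑ s ∈ range P, 1 / nint (((X + 1 : ℕ) : ℝ) * α + s * α) =
      ∑ q ∈ Ioc X Q, 1 / nint (q * α) := by
    have e1 : Ioc X Q = Ico (X + 1) (X + 1 + P) := by
      ext q; simp only [mem_Ioc, mem_Ico]; omega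
    rw [e1, sum_Ico_eq_sum_range]
    have e2 : X + 1 + P - (X + 1) = P := by omega
    rw [e2]
    refine sum_congr rfl fun s _ => ?_
    rw [hy]
  rw [hre] at hbs
  set B : ℝ := ∑ q ∈ Ioc X Q, 1 / nint (q * α) with hB
  have hlogP1 : Real.log P ≤ Real.log Q := Real.log_le_log hPr hPQ.le
  have hlogP2 : Real.log Q - L0 ≤ Real.log P := by
    have h1 := Real.log_le_log (by positivity) hPge
    rw [Real.log_mul (by positivity) (by positivity)] at h1
    linarith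
  have hB1 : B ≤ P * (2 * Real.log Q + C) := by
    have h1 := (abs_le.1 hbs).2
    have h2 : 5 * (M : ℝ) ≤ P * (10 / (c ^ 2 * ε)) := by
      calc 5 * (M : ℝ) ≤ 5 * (2 * P / (c ^ 2 * ε)) := by gcongr
        _ = _ := by ring
    have h3 : 2 * (P : ℝ) * Real.log P ≤ 2 * P * Real.log Q := by gcongr
    have h4 : 0 ≤ P * (2 * L0) := by positivity
    rw [hC]
    linarith
  have hB2 : P * (2 * Real.log Q - C) ≤ B := by
    have h1 := (abs_le.1 hbs).1
    have h2 : 5 * (M : ℝ) ≤ P * (10 / (c ^ 2 * ε)) := by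
      calc 5 * (M : ℝ) ≤ 5 * (2 * P / (c ^ 2 * ε)) := by gcongr
        _ = _ := by ring
    have h3 : 2 * (P : ℝ) * (Real.log Q - L0) ≤ 2 * P * Real.log P := by gcongr
    rw [hC]
    linarith
  have hS1 : ∑ q ∈ Ioc X Q, rr α q ≤ 1 / X * B := by
    rw [hB, mul_sum]
    refine sum_le_sum fun q hq => ?_
    have h1 := mem_Ioc.1 hq
    have h2 : (X : ℝ) ≤ q := by exact_mod_cast h1.1.le
    have h3 := nint_pos_bad hc h (q := q) (by omega)
    unfold rr
    rw [one_div_mul_one_div]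
    apply one_div_le_one_div_of_le (by positivity)
    gcongr
  have hS2 : 1 / Q * B ≤ ∑ q ∈ Ioc X Q, rr α q := by
    rw [hB, mul_sum]
    refine sum_le_sum fun q hq => ?_
    have h1 := mem_Ioc.1 hq
    have h2 : (q : ℝ) ≤ Q := by exact_mod_cast h1.2
    have h3 := nint_pos_bad hc h (q := q) (by omega)
    have h4 : (0 : ℝ) < q := by exact_mod_cast (by omega : 0 < q)
    unfold rr
    rw [one_div_mul_one_div]
    apply one_div_le_one_div_of_le (by positivity)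
    gcongr
  set A : ℝ := Real.log Q with hA
  set l : ℝ := Real.log Q - Real.log X with hl
  have hA0 : 0 ≤ A := Real.log_nonneg (by linarith)
  have hlX : Real.log X = A - l := by rw [hl]; ring
  have hl1 : l ≤ P / X := by
    rw [hl, ← Real.log_div hQr.ne' hX0.ne']
    have h1 := Real.log_le_sub_one_of_pos (x := (Q : ℝ) / X) (by positivity)
    have e : (Q : ℝ) / X - 1 = P / X := by
      rw [div_sub_one hX0.ne']
      congr 1; rw [hXr]; ring
    linarith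
  have hl2 : P / Q ≤ l := by
    have h1 := Real.log_le_sub_one_of_pos (x := (X : ℝ) / Q) (by positivity)
    rw [Real.log_div hX0.ne' hQr.ne'] at h1
    have e : 1 - (X : ℝ) / Q = P / Q := by rw [hXr]; field_simp; ring
    linarith
  have hl0 : 0 ≤ l := le_trans (by positivity) hl2
  have hε1 : 0 < 1 - ε := by linarith
  have hQX : (Q : ℝ) / X ≤ 1 / (1 - ε) := by
    rw [div_le_div_iff₀ hX0 hε1]; linarith
  have hl3 : (P : ℝ) / X ≤ 1 / (1 - ε) * l := by
    calc (P : ℝ) / X = (Q / X) * (P / Q) := by field_simp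
      _ ≤ 1 / (1 - ε) * l := by gcongr
  have hl4 : (1 - ε) * l ≤ P / Q := by
    have h1 : (1 - ε) ≤ X / Q := by rw [le_div_iff₀ hQr]; exact hXge
    calc (1 - ε) * l ≤ (X / Q) * (P / X) := by gcongr
      _ = P / Q := by field_simp
  have hl5 : l ≤ 1 := by
    refine hl1.trans ?_
    rw [div_le_one hX0, hXr]
    nlinarith
  rw [hlX]
  clear_value A l B C L0 M
  constructor
  · calc ∑ q ∈ Ioc X Q, rr α q ≤ 1 / X * B := hS1
      _ ≤ 1 / X * (P * (2 * A + C)) := by gcongr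
      _ = (P / X) * (2 * A + C) := by ring
      _ ≤ (1 / (1 - ε) * l) * (2 * A + C) := by gcongr
      _ = 1 / (1 - ε) * (2 * A * l + C * l) := by ring
      _ ≤ 1 / (1 - ε) * (A ^ 2 - (A - l) ^ 2 + (C + 1) * l) := by
          apply mul_le_mul_of_nonneg_left _ (by positivity)
          have : l * l ≤ 1 * l := mul_le_mul_of_nonneg_right hl5 hl0
          linarith
  · calc (1 - ε) * (A ^ 2 - (A - l) ^ 2) - C * l ≤ ((1 - ε) * l) * (2 * A) - l * C := by
          have := mul_nonneg hε1.le (mul_nonneg hl0 hl0)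
          linarith
      _ ≤ (P / Q) * (2 * A) - (P / Q) * C := by gcongr
      _ = 1 / Q * (P * (2 * A - C)) := by ring
      _ ≤ 1 / Q * B := by gcongr
      _ ≤ _ := hS2

theorem RS_bounds {c α : ℝ} (hc : 0 < c) (h : Bad c α) {ε : ℝ} (hε : 0 < ε) (hε2 : ε ≤ 1 / 2) :
    ∃ C : ℝ, 0 ≤ C ∧ ∀ Q : ℕ, 1 ≤ Q →
      RS α Q ≤ (1 / (1 - ε)) * Real.log Q ^ 2 + C * (1 + Real.log Q) ∧
      (1 - ε) * Real.log Q ^ 2 - C * (1 + Real.log Q) ≤ RS α Q := by
  obtain ⟨C1, hC1, hblock⟩ := block_est hc h hε hε2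
  have hε1 : 0 < 1 - ε := by linarith
  set K0 : ℝ := RS α ⌈1 / ε⌉₊ with hK0
  set L1 : ℝ := Real.log (1 / ε) ^ 2 with hL1
  have hK00 : 0 ≤ K0 := RS_nonneg _ _
  have hL10 : 0 ≤ L1 := sq_nonneg _
  have key : ∀ Q : ℕ, 1 ≤ Q →
      RS α Q ≤ K0 + (1 / (1 - ε)) * (Real.log Q ^ 2 + (C1 + 1) * Real.log Q) ∧
      (1 - ε) * Real.log Q ^ 2 - C1 * Real.log Q - L1 ≤ RS α Q := by
    intro Q
    induction Q using Nat.strong_induction_on with
    | _ Q ih =>
      intro hQ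
      have hQr : (1 : ℝ) ≤ Q := by exact_mod_cast hQ
      have hlog : 0 ≤ Real.log Q := Real.log_nonneg hQr
      rcases lt_or_ge (ε * Q) 1 with hlt | hge
      · constructor
        · have h1 : Q ≤ ⌈1 / ε⌉₊ := by
            have : (Q : ℝ) ≤ ⌈1 / ε⌉₊ := by
              refine le_trans ?_ (Nat.le_ceil _)
              rw [le_div_iff₀ hε]; linarith
            exact_mod_cast this
          have h2 := RS_mono (α := α) h1
          have : 0 ≤ (1 / (1 - ε)) * (Real.log Q ^ 2 + (C1 + 1) * Real.log Q) := by positivity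
          linarith
        · have h1 : Real.log Q ≤ Real.log (1 / ε) := by
            apply Real.log_le_log (by linarith)
            rw [le_div_iff₀ hε]; linarith
          have h2 : Real.log Q ^ 2 ≤ L1 := by rw [hL1]; gcongr
          have h3 := RS_nonneg α Q
          have h4 : 0 ≤ C1 * Real.log Q := by positivity
          nlinarith [mul_nonneg hε.le (sq_nonneg (Real.log Q))]
      · obtain ⟨X, hX1, hXQ, hu, hl⟩ := hblock Q hge
        obtain ⟨iu, il⟩ := ih X hXQ hX1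
        rw [RS_split hXQ.le]
        constructor
        · calc _ ≤ (K0 + (1 / (1 - ε)) * (Real.log X ^ 2 + (C1 + 1) * Real.log X)) +
              (1 / (1 - ε)) * (Real.log Q ^ 2 - Real.log X ^ 2 +
                (C1 + 1) * (Real.log Q - Real.log X)) := add_le_add iu hu
            _ = _ := by ring
        · calc _ = ((1 - ε) * Real.log X ^ 2 - C1 * Real.log X - L1) +
              ((1 - ε) * (Real.log Q ^ 2 - Real.log X ^ 2) - C1 * (Real.log Q - Real.log X)) := by ring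
            _ ≤ _ := add_le_add il hl
  refine ⟨K0 + L1 + (1 / (1 - ε)) * (C1 + 1), by positivity, fun Q hQ => ?_⟩
  have hQr : (1 : ℝ) ≤ Q := by exact_mod_cast hQ
  have hlog : 0 ≤ Real.log Q := Real.log_nonneg hQr
  obtain ⟨h1, h2⟩ := key Q hQ
  have h3 : (1 : ℝ) ≤ 1 / (1 - ε) := by rw [le_div_iff₀ hε1]; linarith
  have h4 : 0 ≤ (1 / (1 - ε)) * (C1 + 1) := by positivity
  have h5 : C1 + 1 ≤ (1 / (1 - ε)) * (C1 + 1) := by nlinarith
  have h6 : C1 * Real.log Q ≤ ((1 / (1 - ε)) * (C1 + 1)) * Real.log Q := by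
    apply mul_le_mul_of_nonneg_right _ hlog
    linarith
  have h7 : 0 ≤ K0 * Real.log Q := by positivity
  have h8 : 0 ≤ L1 * Real.log Q := by positivity
  constructor
  · nlinarith
  · nlinarith

theorem tendsto_RS {c α : ℝ} (hc : 0 < c) (h : Bad c α) :
    Tendsto (fun Q : ℕ => RS α Q / Real.log Q ^ 2) atTop (𝓝 1) := by
  have hlog : Tendsto (fun Q : ℕ => Real.log Q) atTop atTop :=
    Real.tendsto_log_atTop.comp tendsto_natCast_atTop_atTop
  rw [Metric.tendsto_atTop]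
  intro δ hδ
  set ε : ℝ := min (1 / 2) (δ / 4) with hε
  have hε0 : 0 < ε := by positivity
  have hε2 : ε ≤ 1 / 2 := min_le_left _ _
  have hε4 : ε ≤ δ / 4 := min_le_right _ _
  obtain ⟨C, hC, hb⟩ := RS_bounds hc h hε0 hε2
  have hev : ∀ᶠ Q : ℕ in atTop, 1 + 4 * C / δ + 1 ≤ Real.log Q := hlog.eventually_ge_atTop _
  obtain ⟨Q0, hQ0⟩ := eventually_atTop.1 (hev.and (eventually_ge_atTop 1))
  refine ⟨Q0, fun Q hQ => ?_⟩
  obtain ⟨h1, h2⟩ := hQ0 Q hQ
  obtain ⟨hu, hl⟩ := hb Q h2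
  set A := Real.log Q with hA
  have hCd : 0 ≤ 4 * C / δ := by positivity
  have hA1 : 1 ≤ A := by linarith
  have hA2 : 4 * C ≤ δ * (A - 1) := by
    have : 4 * C / δ ≤ A - 1 := by linarith
    rw [div_le_iff₀ hδ] at this; linarith
  have hA0 : 0 < A ^ 2 := by positivity
  have hcr : C * (1 + A) ≤ δ / 4 * A ^ 2 := by nlinarith
  have hinv : 1 / (1 - ε) ≤ 1 + 2 * ε := by
    rw [div_le_iff₀ (by linarith)]; nlinarith
  rw [Real.dist_eq, abs_lt]
  constructor
  · rw [lt_sub_iff_add_lt, lt_div_iff₀ hA0]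
    nlinarith
  · rw [sub_lt_iff_lt_add, div_lt_iff₀ hA0]
    have h3 : 1 / (1 - ε) * A ^ 2 ≤ (1 + 2 * ε) * A ^ 2 := by gcongr
    nlinarith

/-- upper bound for all `Q` -/
theorem RS_le {c α : ℝ} (hc : 0 < c) (h : Bad c α) :
    ∃ C : ℝ, 0 < C ∧ ∀ Q : ℕ, 1 ≤ Q → RS α Q ≤ C * (1 + Real.log Q) ^ 2 := by
  obtain ⟨C, hC, hb⟩ := RS_bounds hc h (ε := 1 / 2) (by norm_num) le_rfl
  refine ⟨C + 2, by linarith, fun Q hQ => ?_⟩
  have hQr : (1 : ℝ) ≤ Q := by exact_mod_cast hQ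
  have hlog : 0 ≤ Real.log Q := Real.log_nonneg hQr
  have h1 := (hb Q hQ).1
  norm_num at h1
  nlinarith [mul_nonneg hC hlog, mul_nonneg hC (mul_nonneg hlog hlog)]

end Pool.Agent.KS6_2.LL
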