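import Pool.Agent.KS6_2.Recip

open Finset

namespace Pool.Agent.KS6_2.LL

lemma card_le_of_injOn_Icc {S : Finset ℕ} (f : ℕ → ℤ) (hf : Set.InjOn f S) {u v : ℝ}
    (huv : u ≤ v) (h : ∀ s ∈ S, u ≤ f s ∧ (f s : ℝ) ≤ v) : (S.card : ℝ) ≤ v - u + 1 := by
  have h1 : S.card ≤ (Icc ⌈u⌉ ⌊v⌋).card := by
    apply card_le_card_of_injOn f _ hf
    intro s hs
    rw [coe_Icc, Set.mem_Icc]
    exact ⟨Int.ceil_le.2 (h s hs).1, Int.le_floor.2 (h s hs).2⟩
  rw [Int.card_Icc] at h1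
  have h2 : ((⌊v⌋ + 1 - ⌈u⌉).toNat : ℝ) ≤ v - u + 1 := by
    rcases le_total 0 (⌊v⌋ + 1 - ⌈u⌉) with h0 | h0
    · have e : (((⌊v⌋ + 1 - ⌈u⌉).toNat : ℤ) : ℝ) = ((⌊v⌋ + 1 - ⌈u⌉ : ℤ) : ℝ) := by
        rw [Int.toNat_of_nonneg h0]
      have e' : ((⌊v⌋ + 1 - ⌈u⌉).toNat : ℝ) = ((⌊v⌋ + 1 - ⌈u⌉ : ℤ) : ℝ) := by
        rw [← e, Int.cast_natCast]
      rw [e']
      push_cast
      have a1 := Int.floor_le v
      have a2 := Int.le_ceil u
      linarith
    · rw [Int.toNat_of_nonpos h0]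
      push_cast; linarith
  have h3 : (S.card : ℝ) ≤ ((⌊v⌋ + 1 - ⌈u⌉).toNat : ℝ) := by exact_mod_cast h1
  linarith

lemma card_arc {α : ℝ} {P : ℕ} {p : ℤ} (hp : IsCoprime (P : ℤ) p) (ha : P * |P * α - p| ≤ 1)
    (y : ℝ) {u v : ℝ} (huv : u ≤ v) {S : Finset ℕ} (hS : S ⊆ range P) (m : ℕ → ℤ)
    (hm : ∀ s ∈ S, u ≤ y + s * α - m s ∧ y + s * α - m s ≤ v) :
    (S.card : ℝ) ≤ P * (v - u) + 3 := by
  have hP0 : (0 : ℝ) ≤ P := Nat.cast_nonneg _
  have hse : ∀ s ∈ S, |(s : ℝ) * (P * α - p)| ≤ 1 := by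
    intro s hs
    have h1 := mem_range.1 (hS hs)
    rw [abs_mul, Nat.abs_cast]
    refine le_trans (mul_le_mul_of_nonneg_right ?_ (abs_nonneg _)) ha
    exact_mod_cast h1.le
  have h1 := card_le_of_injOn_Icc (S := S) (fun s => (s : ℤ) * p - P * m s) (u := P * u - P * y - 1)
    (v := P * v - P * y + 1) ?_ ?_ ?_
  · linarith
  · intro s hs s' hs' heq
    simp only at heq
    have h1 := mem_range.1 (hS hs)
    have h2 := mem_range.1 (hS hs')
    have h3 : (P : ℤ) ∣ ((s : ℤ) - s') * p := ⟨m s - m s', by linear_combination heq⟩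
    have h4 := hp.dvd_of_dvd_mul_right h3
    have h5 : ((s : ℤ) - s') = 0 := by
      apply Int.eq_zero_of_abs_lt_dvd h4
      rw [abs_lt]; constructor <;> omega
    omega
  · have := mul_le_mul_of_nonneg_left huv hP0
    linarith
  · intro s hs
    obtain ⟨h2, h3⟩ := hm s hs
    have h4 := hse s hs
    rw [abs_le] at h4
    have h5 := mul_le_mul_of_nonneg_left h2 hP0
    have h6 := mul_le_mul_of_nonneg_left h3 hP0
    have e : (((s : ℤ) * p - P * m s : ℤ) : ℝ) = P * (y + s * α - m s) - P * y -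
        (s : ℝ) * (P * α - p) := by push_cast; ring
    rw [e]
    constructor <;> linarith [h4.1, h4.2]

/-- counting in a block whose length is the denominator of a good approximation -/
lemma block_count_le {α : ℝ} {P : ℕ} {p : ℤ} (hp : IsCoprime (P : ℤ) p)
    (ha : P * |P * α - p| ≤ 1) (y : ℝ) {t : ℝ} (ht : 0 ≤ t) :
    (((range P).filter (fun s : ℕ => nint (y + s * α) ≤ t)).card : ℝ) ≤ 2 * P * t + 3 := by
  have h := card_arc hp ha y (u := -t) (v := t) (by linarith)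
    (S := (range P).filter (fun s : ℕ => nint (y + s * α) ≤ t)) (filter_subset _ _)
    (fun s => round (y + s * α)) (by
      intro s hs
      have h1 := (mem_filter.1 hs).2
      unfold nint at h1
      rw [abs_le] at h1
      exact h1)
  linarith

lemma le_block_count {α : ℝ} {P : ℕ} {p : ℤ} (hp : IsCoprime (P : ℤ) p)
    (ha : P * |P * α - p| ≤ 1) (y : ℝ) {t : ℝ} (ht : t ≤ 1 / 2) :
    2 * P * t - 3 ≤ (((range P).filter (fun s : ℕ => nint (y + s * α) ≤ t)).card : ℝ) := by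
  have h := card_arc hp ha y (u := t) (v := 1 - t) (by linarith)
    (S := (range P).filter (fun s : ℕ => ¬ nint (y + s * α) ≤ t)) (filter_subset _ _)
    (fun s => ⌊y + s * α⌋) (by
      intro s hs
      have h1 := (mem_filter.1 hs).2
      push Not at h1
      rw [nint_eq_min, lt_min_iff] at h1
      have e : y + s * α - (⌊y + s * α⌋ : ℝ) = Int.fract (y + s * α) := rfl
      rw [e]
      constructor <;> linarith [h1.1, h1.2])
  have h2 := card_filter_add_card_filter_not (s := range P) (fun s : ℕ => nint (y + s * α) ≤ t)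
  rw [card_range] at h2
  have h3 : ((((range P).filter (fun s : ℕ => nint (y + s * α) ≤ t)).card : ℕ) : ℝ) +
      ((((range P).filter (fun s : ℕ => ¬ nint (y + s * α) ≤ t)).card : ℕ) : ℝ) = P := by
    exact_mod_cast h2
  linarith

/-- a good approximation whose denominator has a prescribed size -/
lemma exists_block {c α : ℝ} (h : Bad c α) {n : ℕ} (hn : 0 < n) :
    ∃ P : ℕ, ∃ p : ℤ, 0 < P ∧ P ≤ n ∧ c * (n + 1) ≤ P ∧ IsCoprime (P : ℤ) p ∧
      P * |P * α - p| ≤ 1 := by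
  obtain ⟨k, hk0, hkn, hk⟩ := Real.exists_nat_abs_mul_sub_round_le α hn
  set z : ℤ := round ((k : ℝ) * α) with hz
  set g : ℕ := Int.gcd k z with hg
  have hg0 : 0 < g := Int.gcd_pos_of_ne_zero_left _ (by exact_mod_cast hk0.ne')
  have hgk : g ∣ k := by exact_mod_cast Int.gcd_dvd_left (a := (k : ℤ)) (b := z)
  obtain ⟨P, hP⟩ := hgk
  obtain ⟨p, hp⟩ : (g : ℤ) ∣ z := Int.gcd_dvd_right (k : ℤ) z
  have hP0 : 0 < P := by
    rcases Nat.eq_zero_or_pos P with h0 | h0
    · rw [h0, mul_zero] at hP; omega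
    · exact h0
  have hg' : (1 : ℝ) ≤ g := by exact_mod_cast hg0
  have hn' : (0 : ℝ) < n + 1 := by positivity
  have e1 : (k : ℝ) * α - z = g * (P * α - p) := by
    rw [hP, hp]; push_cast; ring
  have h1 : |(P : ℝ) * α - p| ≤ 1 / (n + 1) := by
    rw [e1, abs_mul, Nat.abs_cast] at hk
    refine le_trans ?_ hk
    have := abs_nonneg ((P : ℝ) * α - p)
    nlinarith
  have hPk : P ≤ k := by rw [hP]; exact Nat.le_mul_of_pos_left _ hg0
  refine ⟨P, p, hP0, hPk.trans hkn, ?_, ?_, ?_⟩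
  · have h2 := h P hP0
    have h3 : nint (P * α) ≤ 1 / (n + 1) := (nint_le_abs_sub _ p).trans h1
    have hPr : (0 : ℝ) ≤ P := Nat.cast_nonneg _
    have h4 : c ≤ P * (1 / (n + 1)) := h2.trans (mul_le_mul_of_nonneg_left h3 hPr)
    rw [mul_one_div, le_div_iff₀ hn'] at h4
    exact h4
  · rw [Int.isCoprime_iff_gcd_eq_one]
    have h2 : Int.gcd (g * P : ℤ) (g * p) = g := by
      rw [← hp]
      have : ((g : ℤ) * P) = (k : ℤ) := by rw [hP]; push_cast; ring
      rw [this]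
    rw [Int.gcd_mul_left] at h2
    have h3 : (g : ℤ).natAbs = g := Int.natAbs_natCast g
    rw [h3] at h2
    exact Nat.eq_of_mul_eq_mul_left hg0 (by rw [h2, mul_one])
  · have h2 : (P : ℝ) ≤ n + 1 := by
      have : P ≤ n := hPk.trans hkn
      have : (P : ℝ) ≤ n := by exact_mod_cast this
      linarith
    calc (P : ℝ) * |P * α - p| ≤ (n + 1) * (1 / (n + 1)) :=
          mul_le_mul h2 h1 (abs_nonneg _) hn'.le
      _ = 1 := by field_simp

lemma floor_eq_sum {z : ℝ} (hz : 0 < z) {M : ℕ} (hM : 1 / z ≤ M) :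
    ((⌊1 / z⌋₊ : ℕ) : ℝ) = ∑ k ∈ Icc 1 M, (if z ≤ 1 / (k : ℝ) then (1 : ℝ) else 0) := by
  rw [← sum_filter, sum_const, nsmul_eq_mul, mul_one]
  have : (Icc 1 M).filter (fun k : ℕ => z ≤ 1 / (k : ℝ)) = Icc 1 ⌊1 / z⌋₊ := by
    ext k
    simp only [mem_filter, mem_Icc]
    constructor
    · rintro ⟨⟨h1, h2⟩, h3⟩
      refine ⟨h1, Nat.le_floor ?_⟩
      have hk : (0 : ℝ) < k := by exact_mod_cast h1
      rw [le_div_iff₀ hz]; rw [le_div_iff₀ hk] at h3; linarith
    · rintro ⟨h1, h2⟩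
      have hk : (0 : ℝ) < k := by exact_mod_cast h1
      have h3 : (k : ℝ) ≤ 1 / z := (Nat.le_floor_iff (by positivity)).1 h2
      refine ⟨⟨h1, ?_⟩, ?_⟩
      · have := h3.trans hM; exact_mod_cast this
      · rw [le_div_iff₀ hk]; rw [le_div_iff₀ hz] at h3; linarith
  rw [this, Nat.card_Icc]; simp

lemma sum_le_floor {z : ℝ} (hz : 0 < z) (M : ℕ) :
    ∑ k ∈ Icc 1 M, (if z ≤ 1 / (k : ℝ) then (1 : ℝ) else 0) ≤ ((⌊1 / z⌋₊ : ℕ) : ℝ) := by
  rw [← sum_filter, sum_const, nsmul_eq_mul, mul_one]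
  have : (Icc 1 M).filter (fun k : ℕ => z ≤ 1 / (k : ℝ)) ⊆ Icc 1 ⌊1 / z⌋₊ := by
    intro k
    simp only [mem_filter, mem_Icc]
    rintro ⟨⟨h1, h2⟩, h3⟩
    refine ⟨h1, Nat.le_floor ?_⟩
    have hk : (0 : ℝ) < k := by exact_mod_cast h1
    rw [le_div_iff₀ hz]; rw [le_div_iff₀ hk] at h3; linarith
  have h2 := card_le_card this
  rw [Nat.card_Icc] at h2
  have h3 : ((Icc 1 M).filter (fun k : ℕ => z ≤ 1 / (k : ℝ))).card ≤ ⌊1 / z⌋₊ := by omega
  exact_mod_cast h3

lemma block_sum {α : ℝ} {P : ℕ} (hP : 0 < P) {p : ℤ} (hp : IsCoprime (P : ℤ) p)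
    (ha : P * |P * α - p| ≤ 1) (y : ℝ) (hpos : ∀ s < P, 0 < nint (y + s * α)) {M : ℕ}
    (hM : ∀ s < P, 1 / nint (y + s * α) ≤ M) :
    |∑ s ∈ range P, 1 / nint (y + s * α) - 2 * P * Real.log P| ≤ 5 * M + 5 * P := by
  have hP1 : (1 : ℝ) ≤ P := by exact_mod_cast hP
  set cc : ℕ → ℝ := fun k => (((range P).filter
    (fun s : ℕ => nint (y + s * α) ≤ 1 / (k : ℝ))).card : ℝ) with hcc
  have hswap : ∀ M' : ℕ, ∑ s ∈ range P, ∑ k ∈ Icc 1 M',
      (if nint (y + s * α) ≤ 1 / (k : ℝ) then (1 : ℝ) else 0) = ∑ k ∈ Icc 1 M', cc k := by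
    intro M'
    rw [sum_comm]
    refine sum_congr rfl fun k _ => ?_
    rw [hcc, ← sum_filter, sum_const, nsmul_eq_mul, mul_one]
  have hH : ∑ k ∈ Icc 1 P, (1 : ℝ) / k ≤ 1 + Real.log P := harmonic_le P
  have hH2 : Real.log P ≤ ∑ k ∈ Icc 1 P, (1 : ℝ) / k := by
    have h := log_add_one_le_harmonic P
    have e : ((harmonic P : ℚ) : ℝ) = ∑ j ∈ Icc 1 P, (1 : ℝ) / j := by
      rw [harmonic_eq_sum_Icc]; push_cast; simp
    rw [e] at h
    refine le_trans (Real.log_le_log (by linarith) ?_) h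
    push_cast; linarith
  have hupper : ∑ s ∈ range P, 1 / nint (y + s * α) ≤ 2 * P * (1 + Real.log P) + 5 * M + P := by
    have h1 : ∑ s ∈ range P, 1 / nint (y + s * α) ≤ ∑ s ∈ range P, (∑ k ∈ Icc 1 M,
        (if nint (y + s * α) ≤ 1 / (k : ℝ) then (1 : ℝ) else 0) + 1) := by
      refine sum_le_sum fun s hs => ?_
      rw [mem_range] at hs
      rw [← floor_eq_sum (hpos s hs) (hM s hs)]
      exact (Nat.lt_floor_add_one _).le
    rw [sum_add_distrib, hswap, sum_const, card_range, nsmul_eq_mul, mul_one] at h1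
    have h2 : ∑ k ∈ Icc 1 M, cc k ≤ ∑ k ∈ Icc 1 M, ((if k ≤ P then 2 * (P : ℝ) * (1 / k) else 0) + 5) := by
      refine sum_le_sum fun k hk => ?_
      have hk1 := (mem_Icc.1 hk).1
      have hk0 : (0 : ℝ) < k := by exact_mod_cast hk1
      split_ifs with hkP
      · have := block_count_le hp ha y (t := 1 / (k : ℝ)) (by positivity)
        simp only [hcc]; linarith
      · push Not at hkP
        have h3 := block_count_le hp ha y (t := 1 / (P : ℝ)) (by positivity)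
        have h4 : cc k ≤ (((range P).filter (fun s : ℕ => nint (y + s * α) ≤ 1 / (P : ℝ))).card : ℝ) := by
          simp only [hcc]
          have : (range P).filter (fun s : ℕ => nint (y + s * α) ≤ 1 / (k : ℝ)) ⊆
              (range P).filter (fun s : ℕ => nint (y + s * α) ≤ 1 / (P : ℝ)) := by
            intro s
            simp only [mem_filter]
            rintro ⟨h5, h6⟩
            refine ⟨h5, h6.trans ?_⟩
            apply one_div_le_one_div_of_le (by linarith)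
            exact_mod_cast hkP.le
          exact_mod_cast card_le_card this
        have e : 2 * (P : ℝ) * (1 / P) = 2 := by field_simp
        linarith
    rw [sum_add_distrib, sum_const, Nat.card_Icc, nsmul_eq_mul, ← sum_filter, ← mul_sum] at h2
    have h3 : ∑ k ∈ (Icc 1 M).filter (fun k => k ≤ P), (1 : ℝ) / k ≤ ∑ k ∈ Icc 1 P, (1 : ℝ) / k := by
      apply sum_le_sum_of_subset_of_nonneg
      · intro k; simp only [mem_filter, mem_Icc]; rintro ⟨h4, h5⟩; exact ⟨h4.1, h5⟩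
      · intro k _ _; positivity
    have h4 : (((M + 1 - 1 : ℕ)) : ℝ) = M := by simp
    rw [h4] at h2
    have h5 : 2 * (P : ℝ) * ∑ k ∈ (Icc 1 M).filter (fun k => k ≤ P), (1 : ℝ) / k ≤
        2 * P * (1 + Real.log P) := mul_le_mul_of_nonneg_left (h3.trans hH) (by positivity)
    linarith
  have hlower : 2 * P * Real.log P - 5 * P ≤ ∑ s ∈ range P, 1 / nint (y + s * α) := by
    have h1 : ∑ s ∈ range P, ∑ k ∈ Icc 1 P,
        (if nint (y + s * α) ≤ 1 / (k : ℝ) then (1 : ℝ) else 0) ≤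
        ∑ s ∈ range P, 1 / nint (y + s * α) := by
      refine sum_le_sum fun s hs => ?_
      rw [mem_range] at hs
      exact (sum_le_floor (hpos s hs) P).trans (Nat.floor_le (by
        have := hpos s hs; positivity))
    rw [hswap] at h1
    refine le_trans ?_ h1
    have h2 : ∑ k ∈ Icc 1 P, (2 * (P : ℝ) * (1 / k) - 3 - (if k = 1 then 2 * (P : ℝ) else 0)) ≤
        ∑ k ∈ Icc 1 P, cc k := by
      refine sum_le_sum fun k hk => ?_
      have hk1 := (mem_Icc.1 hk).1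
      split_ifs with h1k
      · have : 0 ≤ cc k := Nat.cast_nonneg _
        rw [h1k]
        rw [h1k] at this
        push_cast
        linarith
      · have hk2 : (2 : ℝ) ≤ k := by exact_mod_cast (by omega : 2 ≤ k)
        have := le_block_count hp ha y (t := 1 / (k : ℝ)) (by
          rw [div_le_div_iff₀ (by linarith) (by norm_num)]; linarith)
        simp only [hcc]; linarith
    refine le_trans ?_ h2
    rw [sum_sub_distrib, sum_sub_distrib, sum_const, Nat.card_Icc, nsmul_eq_mul, ← mul_sum,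
      sum_ite_eq' (Icc 1 P) 1, if_pos (mem_Icc.2 ⟨le_rfl, hP⟩)]
    have h4 : (((P + 1 - 1 : ℕ)) : ℝ) = P := by simp
    rw [h4]
    have h5 := mul_le_mul_of_nonneg_left hH2 (by positivity : (0 : ℝ) ≤ 2 * P)
    linarith
  rw [abs_le]
  have hM0 : (0 : ℝ) ≤ M := Nat.cast_nonneg _
  constructor <;> linarith

end Pool.Agent.KS6_2.LL
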