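import Pool.Agent.KS6_2.LL.Rec

open MeasureTheory Finset

namespace Pool.Agent.KS6_2.LL

lemma exp_sub_le {L : ℝ} (h0 : 0 ≤ L) (h1 : L ≤ 1) : |(1 - L) - Real.exp (-L)| ≤ L ^ 2 := by
  have h := Real.abs_exp_sub_one_sub_id_le (x := -L) (by rw [abs_neg, abs_of_nonneg h0]; exact h1)
  have e : (1 - L) - Real.exp (-L) = -(Real.exp (-L) - 1 - -L) := by ring
  rw [e, abs_neg]
  have : (-L) ^ 2 = L ^ 2 := by ring
  rwa [this] at h

namespace Sys

variable (d : Sys)

/-- the set remaining after removing the blocks -/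
def rem (W : Set ℝ) (S : ℕ → Finset ℕ) : ℕ → Set ℝ
  | 0 => W
  | b + 1 => rem W S b \ d.V (S b)

lemma rem_subset (W : Set ℝ) (S : ℕ → Finset ℕ) (b : ℕ) : d.rem W S b ⊆ W := by
  induction b with
  | zero => exact subset_rfl
  | succ b ih => exact Set.sdiff_subset.trans ih

lemma rem_eq (W : Set ℝ) (S : ℕ → Finset ℕ) (b : ℕ) :
    d.rem W S b = W \ d.V ((range b).biUnion S) := by
  induction b with
  | zero => simp [rem, V]
  | succ b ih =>
    simp only [rem]
    rw [ih]
    ext y
    simp only [Set.mem_sdiff, V, Set.mem_iUnion, mem_biUnion, mem_range, exists_prop, not_exists,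
      not_and]
    constructor
    · rintro ⟨⟨h1, h2⟩, h3⟩
      refine ⟨h1, fun q hq => ?_⟩
      obtain ⟨i, hi, hq'⟩ := hq
      rcases Nat.lt_succ_iff_lt_or_eq.1 hi with h4 | h4
      · exact h2 q ⟨i, h4, hq'⟩
      · rw [h4] at hq'; exact h3 q hq'
    · rintro ⟨h1, h2⟩
      exact ⟨⟨h1, fun q ⟨i, hi, hq⟩ => h2 q ⟨i, by omega, hq⟩⟩, fun q hq => h2 q ⟨b, by omega, hq⟩⟩

lemma measurableSet_rem {W : Set ℝ} (hW : MeasurableSet W) (S : ℕ → Finset ℕ) (b : ℕ) :
    MeasurableSet (d.rem W S b) := by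
  induction b with
  | zero => exact hW
  | succ b ih => exact ih.diff (d.measurableSet_V _)

/-- **the recursion** -/
theorem chain {W : Set ℝ} (hW : MeasurableSet W) {A : ℕ} (hWA : W ⊆ Set.Ioc (-(A : ℝ)) A)
    {J0 : ℝ} (hJ00 : 0 ≤ J0) (hJ0 : Mod W (ENNReal.ofReal J0)) {JU : ℝ} (hJU0 : 0 ≤ JU)
    (S : ℕ → Finset ℕ) (M : ℕ) (hS : ∀ b < M, ∀ q ∈ S b, 0 < q)
    (hax : ∀ b < M, ∀ q ∈ S b, 2 * d.x ≤ d.a q)
    (hJU : ∀ b < M, ∀ q ∈ S b, ∀ r : ℤ, Mod (Comp (d.U q) q (d.a q) r) (ENNReal.ofReal JU))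
    (h δ : ℕ → ℝ) (hh : ∀ b < M, 0 < h b)
    (hδ : ∀ b < M, ∫ y in (0 : ℝ)..1, |win (d.V (S b)) (h b) y - h b * d.Lam (S b)| ≤ δ b)
    (hL : ∀ b < M, 0 ≤ d.Lam (S b) ∧ d.Lam (S b) ≤ 1) (τ : ℕ → ℝ)
    (hτ : ∀ b < M, (J0 + (2 * A + 3) * JU * ∑ i ∈ range b, ∑ q ∈ S i, (q : ℝ)) * h b +
      2 * A * δ b / h b ≤ τ b) :
    |volume.real (W \ d.V ((range M).biUnion S)) -
      volume.real W * Real.exp (-∑ b ∈ range M, d.Lam (S b))| ≤
      ∑ b ∈ range M, (τ b + 2 * A * d.Lam (S b) ^ 2) := by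
  rw [← d.rem_eq]
  have hWf : volume W ≠ ⊤ := ne_top_of_le_ne_top
    (by rw [Real.volume_Ioc]; exact ENNReal.ofReal_ne_top) (measure_mono hWA)
  have hA0 : (0 : ℝ) ≤ A := Nat.cast_nonneg _
  have hWvol : volume.real W ≤ 2 * A := by
    calc volume.real W ≤ volume.real (Set.Ioc (-(A : ℝ)) A) :=
          measureReal_mono hWA (by rw [Real.volume_Ioc]; exact ENNReal.ofReal_ne_top)
      _ = 2 * A := by rw [Real.volume_real_Ioc_of_le (by linarith)]; ring
  have hmod : ∀ b ≤ M, Mod (d.rem W S b) (ENNReal.ofReal (J0 + (2 * A + 3) * JU *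
      ∑ i ∈ range b, ∑ q ∈ S i, (q : ℝ))) := by
    intro b
    induction b with
    | zero => intro _; simpa [rem] using hJ0
    | succ b ih =>
      intro hb
      have h1 := ih (by omega)
      have h2 := d.Mod_sdiff_V (hS b (by omega)) (hax b (by omega)) ((d.rem_subset W S b).trans hWA)
        h1 (hJU b (by omega))
      refine h2.mono (le_of_eq ?_)
      have h3 : ∑ q ∈ S b, ((q * (2 * A + 3) : ℕ) : ENNReal) * ENNReal.ofReal JU =
          ENNReal.ofReal ((2 * A + 3) * JU * ∑ q ∈ S b, (q : ℝ)) := by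
        rw [mul_sum, ENNReal.ofReal_sum_of_nonneg (fun q _ => by positivity)]
        refine sum_congr rfl fun q _ => ?_
        rw [← ENNReal.ofReal_natCast, ← ENNReal.ofReal_mul (by positivity)]
        congr 1
        push_cast; ring
      rw [h3, ← ENNReal.ofReal_add, sum_range_succ]
      · congr 1; ring
      · apply add_nonneg hJ00
        apply mul_nonneg (by positivity)
        exact sum_nonneg fun _ _ => sum_nonneg fun _ _ => Nat.cast_nonneg _
      · apply mul_nonneg (by positivity)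
        exact sum_nonneg fun _ _ => Nat.cast_nonneg _
  have key : ∀ b ≤ M, |volume.real (d.rem W S b) -
      volume.real W * Real.exp (-∑ i ∈ range b, d.Lam (S i))| ≤
      ∑ i ∈ range b, (τ i + 2 * A * d.Lam (S i) ^ 2) := by
    intro b
    induction b with
    | zero => intro _; simp [rem]
    | succ b ih =>
      intro hb
      have hb' : b < M := by omega
      have h1 := ih (by omega)
      have h2 := d.step (hS b hb') (d.measurableSet_rem hW S b) ((d.rem_subset W S b).trans hWA)
        (J := J0 + (2 * A + 3) * JU * ∑ i ∈ range b, ∑ q ∈ S i, (q : ℝ))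
        (by
          apply add_nonneg hJ00
          apply mul_nonneg (by positivity)
          exact sum_nonneg fun _ _ => sum_nonneg fun _ _ => Nat.cast_nonneg _)
        (hmod b (by omega)) (hh b hb') (hδ b hb')
      have h3 := h2.trans (hτ b hb')
      obtain ⟨hL0, hL1⟩ := hL b hb'
      set Λ := d.Lam (S b) with hΛ
      set v := volume.real (d.rem W S b) with hv
      have hv0 : 0 ≤ v := measureReal_nonneg
      have hvW : v ≤ 2 * A :=
        (measureReal_mono (d.rem_subset W S b) hWf).trans hWvol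
      have hsd : volume.real (d.rem W S (b + 1)) = v - volume.real (d.rem W S b ∩ d.V (S b)) := by
        simp only [rem]
        have := measureReal_inter_add_sdiff (μ := volume) (s := d.rem W S b)
          (d.measurableSet_V (S b))
          (h := ne_top_of_le_ne_top hWf (measure_mono (d.rem_subset W S b)))
        linarith
      rw [hsd, sum_range_succ, sum_range_succ]
      set w := volume.real (d.rem W S b ∩ d.V (S b)) with hw
      set E := ∑ i ∈ range b, d.Lam (S i) with hE
      set T := ∑ i ∈ range b, (τ i + 2 * A * d.Lam (S i) ^ 2) with hT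
      have h4 := exp_sub_le hL0 hL1
      have e1 : Real.exp (-(E + Λ)) = Real.exp (-E) * Real.exp (-Λ) := by
        rw [← Real.exp_add]; congr 1; ring
      rw [e1]
      have e2 : v - w - volume.real W * (Real.exp (-E) * Real.exp (-Λ)) =
          -(w - Λ * v) + v * ((1 - Λ) - Real.exp (-Λ)) +
          Real.exp (-Λ) * (v - volume.real W * Real.exp (-E)) := by ring
      rw [e2]
      have h5 : |v * ((1 - Λ) - Real.exp (-Λ))| ≤ 2 * A * Λ ^ 2 := by
        rw [abs_mul, abs_of_nonneg hv0]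
        exact mul_le_mul hvW h4 (abs_nonneg _) (by positivity)
      have h6 : |Real.exp (-Λ) * (v - volume.real W * Real.exp (-E))| ≤ T := by
        rw [abs_mul, abs_of_pos (Real.exp_pos _)]
        have h7 : Real.exp (-Λ) ≤ 1 := by rw [Real.exp_le_one_iff]; linarith
        calc _ ≤ 1 * |v - volume.real W * Real.exp (-E)| :=
              mul_le_mul_of_nonneg_right h7 (abs_nonneg _)
          _ ≤ T := by rw [one_mul]; exact h1
      calc _ ≤ |(-(w - Λ * v))| + |v * ((1 - Λ) - Real.exp (-Λ))| +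
            |Real.exp (-Λ) * (v - volume.real W * Real.exp (-E))| := by
            exact (abs_add_le _ _).trans (add_le_add (abs_add_le _ _) le_rfl)
        _ ≤ τ b + 2 * A * Λ ^ 2 + T := by
            rw [abs_neg]
            exact add_le_add (add_le_add h3 h5) h6
        _ = _ := by ring
  exact key M le_rfl

end Sys

end Pool.Agent.KS6_2.LL
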