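import Mathlib
import Pool.Graph.R_pool_sql_team_seeded_ab47071d.TH574.NW.Rot

open MeasureTheory Finset

namespace Pool.Agent.KS6_2.LL

/-- the number of the integers `r` with `q y < r ≤ q (y + h)` -/
noncomputable def cnt (q : ℕ) (h y : ℝ) : ℝ := (⌊(q : ℝ) * (y + h)⌋ : ℝ) - (⌊(q : ℝ) * y⌋ : ℝ)

lemma measurable_cnt (q : ℕ) (h : ℝ) : Measurable (cnt q h) := by
  unfold cnt
  have h1 : Measurable (fun y : ℝ => (⌊(q : ℝ) * (y + h)⌋ : ℝ)) :=
    (measurable_from_top (f := fun n : ℤ => (n : ℝ))).comp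
      (Int.measurable_floor.comp (measurable_const.mul (measurable_id.add_const h)))
  have h2 : Measurable (fun y : ℝ => (⌊(q : ℝ) * y⌋ : ℝ)) :=
    (measurable_from_top (f := fun n : ℤ => (n : ℝ))).comp
      (Int.measurable_floor.comp (measurable_const.mul measurable_id))
  exact h1.sub h2

lemma cnt_eq (q : ℕ) (h y : ℝ) :
    cnt q h y = q * h - (Int.fract ((q : ℝ) * (y + h)) - Int.fract ((q : ℝ) * y)) := by
  unfold cnt Int.fract
  ring

lemma cnt_nonneg (q : ℕ) {h : ℝ} (hh : 0 ≤ h) (y : ℝ) : 0 ≤ cnt q h y := by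
  unfold cnt
  have : ⌊(q : ℝ) * y⌋ ≤ ⌊(q : ℝ) * (y + h)⌋ := by
    apply Int.floor_le_floor
    gcongr
    linarith
  have h2 : (⌊(q : ℝ) * y⌋ : ℝ) ≤ (⌊(q : ℝ) * (y + h)⌋ : ℝ) := by exact_mod_cast this
  linarith

lemma abs_cnt_sub_le (q : ℕ) (h y : ℝ) : |cnt q h y - q * h| ≤ 1 := by
  rw [cnt_eq, abs_le]
  have h1 := Int.fract_nonneg ((q : ℝ) * (y + h))
  have h2 := Int.fract_lt_one ((q : ℝ) * (y + h))
  have h3 := Int.fract_nonneg ((q : ℝ) * y)
  have h4 := Int.fract_lt_one ((q : ℝ) * y)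
  constructor <;> linarith

lemma cnt_shift {q : ℕ} (hq : 0 < q) (h y : ℝ) (k : ℤ) : cnt q h (y + k / q) = cnt q h y := by
  have hq' : (q : ℝ) ≠ 0 := by positivity
  unfold cnt
  have e1 : (q : ℝ) * (y + k / q + h) = q * (y + h) + k := by field_simp; ring
  have e2 : (q : ℝ) * (y + k / q) = q * y + k := by field_simp
  rw [e1, e2, Int.floor_add_intCast, Int.floor_add_intCast]
  push_cast
  ring

lemma cnt_periodic {q : ℕ} (hq : 0 < q) (h : ℝ) : Function.Periodic (cnt q h) 1 := by
  intro y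
  have := cnt_shift hq h y q
  have hq' : (q : ℝ) ≠ 0 := by positivity
  rwa [show ((q : ℤ) : ℝ) / q = 1 by push_cast; field_simp] at this

/-- integrals of periodic functions over a period are invariant under shifts -/
lemma integral_shift {f : ℝ → ℝ} (hf : Function.Periodic f 1) (c : ℝ) :
    ∫ y in (0 : ℝ)..1, f (y + c) = ∫ y in (0 : ℝ)..1, f y := by
  rw [intervalIntegral.integral_comp_add_right]
  have := hf.intervalIntegral_add_eq c 0
  rw [zero_add] at this
  rw [zero_add, add_comm 1 c]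
  exact this

lemma intervalIntegrable_of_bdd {f : ℝ → ℝ} (hf : Measurable f) {B : ℝ} (hB : ∀ y, |f y| ≤ B)
    (a b : ℝ) : IntervalIntegrable f volume a b := by
  rw [intervalIntegrable_iff]
  refine Measure.integrableOn_of_bounded (M := B) ?_ hf.aestronglyMeasurable ?_
  · rw [Set.uIoc, Real.volume_Ioc]; exact ENNReal.ofReal_ne_top
  · filter_upwards with y
    rw [Real.norm_eq_abs]
    exact hB y

lemma integral_cnt {q : ℕ} (hq : 0 < q) (h : ℝ) : ∫ y in (0 : ℝ)..1, cnt q h y = q * h := by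
  have hm : Measurable (fun y : ℝ => Int.fract ((q : ℝ) * y)) :=
    measurable_fract.comp (measurable_const.mul measurable_id)
  have hb : ∀ y : ℝ, |Int.fract ((q : ℝ) * y)| ≤ 1 := fun y => by
    rw [abs_of_nonneg (Int.fract_nonneg _)]; exact (Int.fract_lt_one _).le
  have hm' : Measurable (fun y : ℝ => Int.fract ((q : ℝ) * (y + h))) :=
    hm.comp (measurable_id.add_const h)
  have hb' : ∀ y : ℝ, |Int.fract ((q : ℝ) * (y + h))| ≤ 1 := fun y => hb _
  have hper : Function.Periodic (fun y : ℝ => Int.fract ((q : ℝ) * y)) 1 := by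
    intro y
    simp only
    rw [mul_add, mul_one, Int.fract_add_natCast]
  have h1 := integral_shift hper h
  have e : (fun y => cnt q h y) = fun y => (q : ℝ) * h -
      (Int.fract ((q : ℝ) * (y + h)) - Int.fract ((q : ℝ) * y)) := by
    funext y; exact cnt_eq q h y
  rw [e, intervalIntegral.integral_sub, intervalIntegral.integral_sub, h1]
  · simp
  · exact intervalIntegrable_of_bdd hm' hb' _ _
  · exact intervalIntegrable_of_bdd hm hb _ _
  · exact intervalIntegrable_const
  · exact (intervalIntegrable_of_bdd hm' hb' _ _).sub (intervalIntegrable_of_bdd hm hb _ _)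

/-- Hermite's identity for the counting functions -/
lemma sum_cnt_shift (q k : ℕ) (hq : 0 < q) (hk : 0 < k) (h y : ℝ) :
    ∑ i ∈ range k, cnt q h (y + i / (q * k)) = cnt (q * k) h y := by
  have hq' : (q : ℝ) ≠ 0 := by positivity
  have hk' : (k : ℝ) ≠ 0 := by positivity
  unfold cnt
  rw [Finset.sum_sub_distrib]
  have e1 : ∀ i : ℕ, (q : ℝ) * (y + i / (q * k) + h) = q * (y + h) + (i : ℝ) / k := by
    intro i; field_simp; ring
  have e2 : ∀ i : ℕ, (q : ℝ) * (y + i / (q * k)) = q * y + (i : ℝ) / k := by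
    intro i; field_simp
  simp only [e1, e2]
  have h1 := Pool.Agent.TH574.NW.sum_floor_hermite k hk ((q : ℝ) * (y + h))
  have h2 := Pool.Agent.TH574.NW.sum_floor_hermite k hk ((q : ℝ) * y)
  have h1' : ∑ i ∈ range k, (⌊(q : ℝ) * (y + h) + (i : ℝ) / k⌋ : ℝ) = (⌊(k : ℝ) * (q * (y + h))⌋ : ℝ) := by
    exact_mod_cast h1
  have h2' : ∑ i ∈ range k, (⌊(q : ℝ) * y + (i : ℝ) / k⌋ : ℝ) = (⌊(k : ℝ) * (q * y)⌋ : ℝ) := by
    exact_mod_cast h2
  rw [h1', h2']
  push_cast
  congr 3 <;> ring

/-- multiplication by `v` permutes the residues modulo `u` -/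
lemma sum_mul_mod {u v : ℕ} (hu : 0 < u) (huv : Nat.Coprime u v) (G : ℕ → ℝ)
    (hG : ∀ n, G (n + u) = G n) : ∑ i ∈ range u, G (v * i) = ∑ i ∈ range u, G i := by
  have hG' : ∀ k n, G (n + u * k) = G n := by
    intro k
    induction k with
    | zero => intro n; simp
    | succ k ih => intro n; rw [mul_add, mul_one, ← add_assoc, hG, ih]
  have hmod : ∀ n, G n = G (n % u) := by
    intro n
    conv_lhs => rw [← Nat.mod_add_div n u]
    exact hG' _ _
  have himg : (range u).image (fun i => (v * i) % u) = range u := by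
    apply Finset.eq_of_subset_of_card_le
    · intro x hx
      rw [mem_image] at hx
      obtain ⟨i, _, rfl⟩ := hx
      exact mem_range.2 (Nat.mod_lt _ hu)
    · rw [Finset.card_image_of_injOn]
      intro i hi j hj hij
      simp only [coe_range, Set.mem_Iio] at hi hj
      have h1 : v * i ≡ v * j [MOD u] := hij
      have h2 : i ≡ j [MOD u] := Nat.ModEq.cancel_left_of_coprime huv h1
      exact Nat.ModEq.eq_of_lt_of_lt h2 hi hj
  have hinj : Set.InjOn (fun i => (v * i) % u) (range u : Set ℕ) := by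
    apply Finset.injOn_of_card_image_eq
    rw [himg]
  calc ∑ i ∈ range u, G (v * i) = ∑ i ∈ range u, G ((v * i) % u) :=
        sum_congr rfl fun i _ => hmod _
    _ = ∑ j ∈ (range u).image (fun i => (v * i) % u), G j := by
        rw [Finset.sum_image hinj]
    _ = _ := by rw [himg]

lemma sum_cnt_shift' {q u v g : ℕ} (hg : 0 < g) (hu : 0 < u) (hv : 0 < v) (huv : Nat.Coprime u v)
    (hq : q = g * u) (h y : ℝ) :
    ∑ i ∈ range u, cnt (g * v) h (y + i / q) = cnt (g * v * u) h y := by
  subst hq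
  have hg' : (g : ℝ) ≠ 0 := by positivity
  have hu' : (u : ℝ) ≠ 0 := by positivity
  have hv' : (v : ℝ) ≠ 0 := by positivity
  set G : ℕ → ℝ := fun n => cnt (g * v) h (y + n / ((g * v : ℕ) * u)) with hGdef
  have hG : ∀ n, G (n + u) = G n := by
    intro n
    simp only [hGdef]
    have e : y + ((n + u : ℕ) : ℝ) / ((g * v : ℕ) * u) =
        (y + n / ((g * v : ℕ) * u)) + ((1 : ℤ) : ℝ) / ((g * v : ℕ) : ℝ) := by
      push_cast; field_simp
      ring
    rw [e, cnt_shift (by positivity)]
  have h1 := sum_mul_mod hu huv G hG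
  have h2 : ∑ i ∈ range u, G i = cnt (g * v * u) h y := by
    simp only [hGdef]
    exact sum_cnt_shift (g * v) u (by positivity) hu h y
  rw [← h2, ← h1]
  refine sum_congr rfl fun i _ => ?_
  simp only [hGdef]
  congr 2
  push_cast
  field_simp

lemma bdd_cnt (q : ℕ) (h y : ℝ) : |cnt q h y| ≤ 1 + |q * h| := by
  have h1 := abs_cnt_sub_le q h y
  calc |cnt q h y| = |(cnt q h y - q * h) + q * h| := by ring_nf
    _ ≤ _ := (abs_add_le _ _).trans (by linarith)

lemma bdd_cnt_mul (q q' : ℕ) (h y : ℝ) :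
    |cnt q h y * cnt q' h y| ≤ (1 + |q * h|) * (1 + |q' * h|) := by
  rw [abs_mul]
  exact mul_le_mul (bdd_cnt _ _ _) (bdd_cnt _ _ _) (abs_nonneg _) (by positivity)

lemma integral_cnt_sq {l : ℕ} (hl : 0 < l) {h : ℝ} (hh : 0 ≤ h) :
    ∫ y in (0 : ℝ)..1, cnt l h y * cnt l h y ≤ (l * h) ^ 2 + l * h := by
  set a : ℤ := ⌊(l : ℝ) * h⌋ with ha
  have ha0 : 0 ≤ a := Int.floor_nonneg.2 (by positivity)
  have ha1 : (a : ℝ) ≤ l * h := Int.floor_le _
  have ha2 : (l : ℝ) * h < a + 1 := Int.lt_floor_add_one _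
  have hpt : ∀ y, cnt l h y * cnt l h y ≤ (2 * a + 1) * cnt l h y - a * (a + 1) := by
    intro y
    have h1 : (a : ℝ) ≤ cnt l h y := by
      have : a ≤ ⌊(l : ℝ) * (y + h)⌋ - ⌊(l : ℝ) * y⌋ := by
        rw [mul_add]
        have := Int.le_floor_add ((l : ℝ) * y) (l * h)
        linarith
      unfold cnt
      exact_mod_cast this
    have h2 : cnt l h y ≤ a + 1 := by
      have : ⌊(l : ℝ) * (y + h)⌋ - ⌊(l : ℝ) * y⌋ ≤ a + 1 := by
        rw [mul_add]
        have := Int.le_floor_add_floor ((l : ℝ) * y) (l * h)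
        linarith
      unfold cnt
      exact_mod_cast this
    nlinarith
  have hint : IntervalIntegrable (cnt l h) volume 0 1 :=
    intervalIntegrable_of_bdd (measurable_cnt l h) (bdd_cnt l h) 0 1
  calc ∫ y in (0 : ℝ)..1, cnt l h y * cnt l h y
      ≤ ∫ y in (0 : ℝ)..1, ((2 * a + 1) * cnt l h y - a * (a + 1)) := by
        apply intervalIntegral.integral_mono_on (by norm_num)
        · exact intervalIntegrable_of_bdd ((measurable_cnt l h).mul (measurable_cnt l h))
            (bdd_cnt_mul l l h) 0 1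
        · exact (hint.const_mul _).sub intervalIntegrable_const
        · intro y _; exact hpt y
    _ = (2 * a + 1) * (l * h) - a * (a + 1) := by
        rw [intervalIntegral.integral_sub (hint.const_mul _) intervalIntegrable_const,
          intervalIntegral.integral_const_mul, integral_cnt hl]
        simp
    _ ≤ _ := by
        have : (0 : ℝ) ≤ a := by exact_mod_cast ha0
        nlinarith

/-- **second moments of the counting functions** -/
theorem integral_cnt_mul {q q' : ℕ} (hq : 0 < q) (hq' : 0 < q') {h : ℝ} (hh : 0 ≤ h) :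
    ∫ y in (0 : ℝ)..1, cnt q h y * cnt q' h y ≤ q * q' * h ^ 2 + Nat.gcd q q' * h := by
  set g := Nat.gcd q q' with hgdef
  have hg : 0 < g := Nat.gcd_pos_of_pos_left _ hq
  obtain ⟨u, v, huv, hu, hv⟩ := Nat.exists_coprime q q'
  rw [← hgdef, mul_comm] at hu hv
  have hu0 : 0 < u := Nat.pos_of_ne_zero fun h0 => by rw [h0] at hu; omega
  have hv0 : 0 < v := Nat.pos_of_ne_zero fun h0 => by rw [h0] at hv; omega
  have hu' : (0 : ℝ) < u := by exact_mod_cast hu0
  have hv' : (0 : ℝ) < v := by exact_mod_cast hv0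
  have hg' : (0 : ℝ) < g := by exact_mod_cast hg
  set l := g * v * u with hl
  have hl0 : 0 < l := by positivity
  have hII : ∀ a b : ℕ, ∀ c d : ℝ, IntervalIntegrable (fun y => cnt a h (y + c) * cnt b h (y + d)) volume 0 1 := by
    intro a b c d
    apply intervalIntegrable_of_bdd (B := (1 + |a * h|) * (1 + |b * h|))
    · exact ((measurable_cnt a h).comp (measurable_id.add_const c)).mul
        ((measurable_cnt b h).comp (measurable_id.add_const d))
    · intro y
      rw [abs_mul]
      exact mul_le_mul (bdd_cnt _ _ _) (bdd_cnt _ _ _) (abs_nonneg _) (by positivity)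
  -- first averaging
  have s1 : (u : ℝ) * ∫ y in (0 : ℝ)..1, cnt q h y * cnt q' h y =
      ∫ y in (0 : ℝ)..1, cnt q h y * cnt l h y := by
    have e1 : ∀ i ∈ range u, ∫ y in (0 : ℝ)..1, cnt q h (y + 0) * cnt q' h (y + i / q) =
        ∫ y in (0 : ℝ)..1, cnt q h y * cnt q' h y := by
      intro i _
      have hp : Function.Periodic (fun y => cnt q h y * cnt q' h y) 1 :=
        (cnt_periodic hq h).mul (cnt_periodic hq' h)
      have := integral_shift hp ((i : ℝ) / q)
      rw [← this]
      refine intervalIntegral.integral_congr fun y _ => ?_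
      have e := cnt_shift hq h y (i : ℤ)
      push_cast at e
      rw [e, add_zero]
    have e2 : ∑ i ∈ range u, ∫ y in (0 : ℝ)..1, cnt q h (y + 0) * cnt q' h (y + i / q) =
        (u : ℝ) * ∫ y in (0 : ℝ)..1, cnt q h y * cnt q' h y := by
      rw [sum_congr rfl e1]
      simp
    rw [← e2, ← intervalIntegral.integral_finsetSum (fun (i : ℕ) _ => hII q q' 0 ((i : ℝ) / q))]
    refine intervalIntegral.integral_congr fun y _ => ?_
    simp only [add_zero]
    rw [← mul_sum, hv, sum_cnt_shift' hg hu0 hv0 huv hu h y]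
  -- second averaging
  have s2 : (v : ℝ) * ∫ y in (0 : ℝ)..1, cnt q h y * cnt l h y =
      ∫ y in (0 : ℝ)..1, cnt l h y * cnt l h y := by
    have e1 : ∀ i ∈ range v, ∫ y in (0 : ℝ)..1, cnt q h (y + i / (q * v)) * cnt l h (y + 0) =
        ∫ y in (0 : ℝ)..1, cnt q h y * cnt l h y := by
      intro i _
      have hp : Function.Periodic (fun y => cnt q h y * cnt l h y) 1 :=
        (cnt_periodic hq h).mul (cnt_periodic hl0 h)
      have := integral_shift hp ((i : ℝ) / (q * v))
      rw [← this]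
      refine intervalIntegral.integral_congr fun y _ => ?_
      have e := cnt_shift hl0 h y (i : ℤ)
      have e' : (l : ℝ) = q * v := by
        rw [hl, hu]; push_cast; ring
      rw [e'] at e
      push_cast at e
      rw [e, add_zero]
    have e2 : ∑ i ∈ range v, ∫ y in (0 : ℝ)..1, cnt q h (y + i / (q * v)) * cnt l h (y + 0) =
        (v : ℝ) * ∫ y in (0 : ℝ)..1, cnt q h y * cnt l h y := by
      rw [sum_congr rfl e1]
      simp
    rw [← e2, ← intervalIntegral.integral_finsetSum (fun (i : ℕ) _ => hII q l ((i : ℝ) / (q * v)) 0)]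
    refine intervalIntegral.integral_congr fun y _ => ?_
    simp only [add_zero]
    rw [← sum_mul, sum_cnt_shift q v hq hv0 h y]
    congr 2
    rw [hl, hu]; ring
  have s3 := integral_cnt_sq hl0 hh
  rw [← s2, ← s1] at s3
  have hlr : (l : ℝ) = g * v * u := by rw [hl]; push_cast; ring
  have hqr : (q : ℝ) = g * u := by rw [hu]; push_cast; ring
  have hqr' : (q' : ℝ) = g * v := by rw [hv]; push_cast; ring
  have h4 : (v * u) * ∫ y in (0 : ℝ)..1, cnt q h y * cnt q' h y ≤
      (v * u) * (q * q' * h ^ 2 + g * h) := by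
    calc (v * u) * ∫ y in (0 : ℝ)..1, cnt q h y * cnt q' h y
        = v * (u * ∫ y in (0 : ℝ)..1, cnt q h y * cnt q' h y) := by ring
      _ ≤ _ := s3
      _ = _ := by rw [hlr, hqr, hqr']; ring
  exact le_of_mul_le_mul_left h4 (by positivity)

end Pool.Agent.KS6_2.LL
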