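import Pool.Agent.KS6_2.LL.Thr

open Finset Filter Topology ArithmeticFunction

namespace Pool.Agent.KS6_2.LL

lemma RT_anti {α τ τ' : ℝ} (h : τ ≤ τ') (Q : ℕ) : RT α τ' Q ≤ RT α τ Q := by
  unfold RT
  apply sum_le_sum_of_subset_of_nonneg
  · intro q hq
    obtain ⟨h1, h2⟩ := mem_filter.1 hq
    exact mem_filter.2 ⟨h1, h.trans h2⟩
  · intro _ _ _; exact rr_nonneg _ _

theorem RT_unif {c α : ℝ} (hc : 0 < c) (h : Bad c α) {ε : ℝ} (hε : 0 < ε) :
    ∃ C : ℝ, 0 ≤ C ∧ ∀ τ : ℝ, 0 < τ → τ ≤ 1 → ∀ X : ℕ, 1 ≤ X →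
      |RT α τ X - (2 * min (Real.log (1 / τ)) (Real.log X) * Real.log X -
        min (Real.log (1 / τ)) (Real.log X) ^ 2)| ≤
        ε * Real.log X ^ 2 + C * (1 + Real.log X) := by
  set ε' : ℝ := min (1 / 2) (ε / 2) with hε'
  have hε0 : 0 < ε' := by positivity
  have hε2 : ε' ≤ 1 / 2 := min_le_left _ _
  have hε4 : ε' ≤ ε / 2 := min_le_right _ _
  obtain ⟨C1, hC1, hb1⟩ := RT_bounds hc h hε0 hε2
  obtain ⟨C2, hC2, hb2⟩ := RS_bounds hc h hε0 hε2
  have hc2 := bad_le_half h
  have hcε : 0 < c * ε' := by positivity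
  have hcε1 : c * ε' ≤ 1 := by nlinarith
  set B : ℝ := Real.log (1 / (c * ε')) with hB
  have hB0 : 0 ≤ B := by
    apply Real.log_nonneg
    rw [le_div_iff₀ hcε]; linarith
  have hinv : 1 / (1 - ε') ≤ 1 + ε := by
    rw [div_le_iff₀ (by linarith)]; nlinarith
  refine ⟨C1 + C2 + 2 * B + (72 / c) * (1 + B), by positivity, fun τ hτ hτ1 X hX => ?_⟩
  have hXr : (1 : ℝ) ≤ X := by exact_mod_cast hX
  set A : ℝ := Real.log X with hA
  have hA0 : 0 ≤ A := Real.log_nonneg hXr
  set L0 : ℝ := Real.log (1 / τ) with hL0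
  have hL00 : 0 ≤ L0 := by
    apply Real.log_nonneg
    rw [le_div_iff₀ hτ]; linarith
  have h72 : 0 ≤ 72 / c := by positivity
  have p1 : 0 ≤ C1 * (1 + A) := by positivity
  have p2 : 0 ≤ C2 * (1 + A) := by positivity
  have p3 : 0 ≤ B * (1 + A) := by positivity
  have p4 : 0 ≤ (72 / c) * (1 + B) * (1 + A) := by positivity
  have p5 : 0 ≤ ε * A ^ 2 := by positivity
  have hRT0 := RT_nonneg α τ X
  rcases lt_or_ge (X : ℝ) (1 / τ) with h1 | h1
  · -- large `1 / τ`
    have hmin : min L0 A = A := min_eq_right (Real.log_le_log (by linarith) h1.le)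
    rw [hmin]
    have e : 2 * A * A - A ^ 2 = A ^ 2 := by ring
    rw [e, abs_le]
    constructor
    · rcases le_or_gt (1 / (X : ℝ)) (c * ε') with h2 | h2
      · have h3 := (hb1 (1 / X) (by positivity) h2 X (by simp)).2
        rw [one_div_one_div] at h3
        have h4 : RT α (1 / X) X ≤ RT α τ X := by
          apply RT_anti
          rw [lt_div_iff₀ hτ] at h1
          rw [le_div_iff₀ (by linarith)]; linarith
        have e2 : 2 * Real.log X * Real.log X - Real.log X ^ 2 = A ^ 2 := by rw [hA]; ring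
        rw [e2, ← hA] at h3
        have h5 : ε' * A ^ 2 ≤ ε * A ^ 2 := by gcongr; linarith
        nlinarith
      · have h3 : A ≤ B := by
          apply Real.log_le_log (by linarith)
          rw [le_div_iff₀ hcε]
          rw [lt_div_iff₀ (by linarith)] at h2; linarith
        have h4 : A ^ 2 ≤ B * (1 + A) := by nlinarith
        nlinarith
    · have h2 := (hb2 X hX).1
      have h3 := RT_le_RS α τ X
      have h4 : 1 / (1 - ε') * A ^ 2 ≤ (1 + ε) * A ^ 2 := by gcongr
      nlinarith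
  · have hmin : min L0 A = L0 := min_eq_left (Real.log_le_log (by positivity) h1)
    have hLA : L0 ≤ A := Real.log_le_log (by positivity) h1
    rw [hmin]
    set W : ℝ := 2 * L0 * A - L0 ^ 2 with hW
    have hW0 : 0 ≤ W := by nlinarith
    have hWA : W ≤ A ^ 2 := by nlinarith [sq_nonneg (A - L0)]
    have hWB : W ≤ 2 * L0 * A := by nlinarith [sq_nonneg L0]
    rw [abs_le]
    rcases le_or_gt τ (c * ε') with h2 | h2
    · obtain ⟨h3, h4⟩ := hb1 τ hτ h2 X h1
      rw [← hL0, ← hA, ← hW] at h3 h4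
      have h5 : ε' * W ≤ ε * A ^ 2 := by
        calc ε' * W ≤ ε' * A ^ 2 := by gcongr
          _ ≤ ε * A ^ 2 := by gcongr; linarith
      have h6 : 1 / (1 - ε') * W ≤ W + ε * A ^ 2 := by
        calc 1 / (1 - ε') * W ≤ (1 + ε) * W := by gcongr
          _ = W + ε * W := by ring
          _ ≤ _ := by gcongr
      constructor
      · nlinarith
      · nlinarith
    · have h3 : L0 ≤ B := by
        apply Real.log_le_log (by positivity)
        exact one_div_le_one_div_of_le hcε h2.le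
      have h4 : W ≤ 2 * B * (1 + A) := by
        calc W ≤ 2 * L0 * A := hWB
          _ ≤ 2 * B * (1 + A) := by gcongr; linarith
      constructor
      · nlinarith
      · have h5 := strip_b hc h hX hL00
        have e : Real.exp (-L0) = τ := by
          rw [hL0, one_div, Real.log_inv, neg_neg, Real.exp_log hτ]
        rw [e] at h5
        have h6 : RT α τ X ≤ (72 / c) * (1 + A) * (1 + L0) := h5
        have h7 : (72 / c) * (1 + A) * (1 + L0) ≤ (72 / c) * (1 + B) * (1 + A) := by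
          calc (72 / c) * (1 + A) * (1 + L0) ≤ (72 / c) * (1 + A) * (1 + B) := by gcongr
            _ = _ := by ring
        nlinarith

/-- the limit of the truncated sums -/
theorem RT_lim {c α : ℝ} (hc : 0 < c) (h : Bad c α) {X : ℕ → ℕ} {τ : ℕ → ℝ} {s v : ℝ}
    (hτ0 : ∀ᶠ Q in atTop, 0 < τ Q) (hτ1 : ∀ᶠ Q in atTop, τ Q ≤ 1) (hX : ∀ᶠ Q in atTop, 1 ≤ X Q)
    (hs : Tendsto (fun Q : ℕ => Real.log (X Q) / Real.log Q) atTop (𝓝 s))
    (hv : Tendsto (fun Q : ℕ => Real.log (1 / τ Q) / Real.log Q) atTop (𝓝 v)) :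
    Tendsto (fun Q : ℕ => RT α (τ Q) (X Q) / Real.log Q ^ 2) atTop
      (𝓝 (2 * min v s * s - min v s ^ 2)) := by
  have hlog : Tendsto (fun Q : ℕ => Real.log Q) atTop atTop :=
    Real.tendsto_log_atTop.comp tendsto_natCast_atTop_atTop
  have hmin := hv.min hs
  have hW : Tendsto (fun Q : ℕ => 2 * min (Real.log (1 / τ Q) / Real.log Q)
      (Real.log (X Q) / Real.log Q) * (Real.log (X Q) / Real.log Q) -
      min (Real.log (1 / τ Q) / Real.log Q) (Real.log (X Q) / Real.log Q) ^ 2) atTop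
      (𝓝 (2 * min v s * s - min v s ^ 2)) :=
    ((hmin.const_mul 2).mul hs).sub (hmin.pow 2)
  have hdiff : Tendsto (fun Q : ℕ => RT α (τ Q) (X Q) / Real.log Q ^ 2 -
      (2 * min (Real.log (1 / τ Q) / Real.log Q)
      (Real.log (X Q) / Real.log Q) * (Real.log (X Q) / Real.log Q) -
      min (Real.log (1 / τ Q) / Real.log Q) (Real.log (X Q) / Real.log Q) ^ 2)) atTop (𝓝 0) := by
    rw [Metric.tendsto_atTop]
    intro δ hδ
    set ε : ℝ := δ / (4 * (1 + s ^ 2)) with hε
    have hs2 : 0 < 1 + s ^ 2 := by positivity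
    have hε0 : 0 < ε := by positivity
    obtain ⟨C, hC, hb⟩ := RT_unif hc h hε0
    have he1 : Tendsto (fun Q : ℕ => ε * (Real.log (X Q) / Real.log Q) ^ 2 +
        C * (1 / Real.log Q * (1 / Real.log Q) + 1 / Real.log Q * (Real.log (X Q) / Real.log Q)))
        atTop (𝓝 (ε * s ^ 2 + C * (0 * 0 + 0 * s))) := by
      have hi : Tendsto (fun Q : ℕ => 1 / Real.log Q) atTop (𝓝 0) := by
        simp only [one_div]
        exact tendsto_inv_atTop_zero.comp hlog
      exact ((hs.pow 2).const_mul ε).add (((hi.mul hi).add (hi.mul hs)).const_mul C)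
    have hlt : ε * s ^ 2 + C * (0 * 0 + 0 * s) < δ := by
      have e1 : ε * s ^ 2 + C * (0 * 0 + 0 * s) = ε * s ^ 2 := by ring
      have e2 : ε * (1 + s ^ 2) = δ / 4 := by rw [hε]; field_simp
      rw [e1]
      have : 0 < ε * 1 := by positivity
      linarith [mul_add ε 1 (s ^ 2)]
    have hev := he1.eventually_lt_const hlt
    have hall := hev.and (hτ0.and (hτ1.and (hX.and (hlog.eventually_gt_atTop 0))))
    obtain ⟨Q0, hQ0⟩ := eventually_atTop.1 hall
    refine ⟨Q0, fun Q hQ => ?_⟩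
    obtain ⟨g1, g2, g3, g4, g5⟩ := hQ0 Q hQ
    have g6 := hb (τ Q) g2 g3 (X Q) g4
    set D := Real.log Q with hD
    rw [Real.dist_eq, sub_zero]
    refine lt_of_le_of_lt ?_ g1
    have e1 : min (Real.log (1 / τ Q) / D) (Real.log (X Q) / D) =
        min (Real.log (1 / τ Q)) (Real.log (X Q)) / D := min_div_div_right g5.le _ _
    rw [e1]
    have e2 : RT α (τ Q) (X Q) / D ^ 2 - (2 * (min (Real.log (1 / τ Q)) (Real.log (X Q)) / D) *
        (Real.log (X Q) / D) - (min (Real.log (1 / τ Q)) (Real.log (X Q)) / D) ^ 2) =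
        (RT α (τ Q) (X Q) - (2 * min (Real.log (1 / τ Q)) (Real.log (X Q)) * Real.log (X Q) -
        min (Real.log (1 / τ Q)) (Real.log (X Q)) ^ 2)) / D ^ 2 := by
      field_simp
    rw [e2, abs_div, abs_of_pos (by positivity : 0 < D ^ 2), div_le_iff₀ (by positivity)]
    refine g6.trans (le_of_eq ?_)
    field_simp
  have := hdiff.add hW
  rw [zero_add] at this
  refine this.congr fun Q => ?_
  ring

end Pool.Agent.KS6_2.LL
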