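import Pool.Agent.KS6_2.LL.Gen3

open MeasureTheory Finset Filter Topology

namespace Pool.Agent.KS6_2.LL

lemma TS_eq_ph (α : ℝ) (Q : ℕ) : TS α Q = ∑ q ∈ Icc 1 Q, rr α q * ph α q := rfl

lemma ex_const (α : ℝ) (I : ℝ) (Q : ℕ) : ex α (fun _ => I) Q = 2 * I * (TS α Q / Real.log Q ^ 2) := by
  unfold ex
  rw [TS_eq_ph, sum_div, mul_sum]
  refine sum_congr rfl fun q _ => ?_
  ring

/-- the generating functional for one colour -/
theorem gf_one {c α : ℝ} (hc : 0 < c) (h : Bad c α) {φ : ℝ → ℝ}
    (hφ : Measurable φ) (h01 : ∀ x, 0 ≤ φ x ∧ φ x ≤ 1)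
    (hφi : IntegrableOn (fun x => 1 - φ x) (Set.Ioi 0))
    {E : Set ℝ} (hE : MeasurableSet E) (hEf : volume E ≠ ⊤) :
    Tendsto (fun Q : ℕ => ∫ y in E, ∏ q ∈ PQ α Q y, φ (val α Q q y)) atTop
      (𝓝 (volume.real E * Real.exp (-(2 * (∫ x in Set.Ioi 0, (1 - φ x)) / z3)))) := by
  set I : ℝ := ∫ x in Set.Ioi 0, (1 - φ x) with hI
  have h1 : Tendsto (fun Q : ℕ => (∫ y in E, ∏ q ∈ PQ α Q y, φ (val α Q q y)) -
      volume.real E * Real.exp (-ex α (fun _ => I) Q)) atTop (𝓝 0) := by
    rw [Metric.tendsto_atTop]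
    intro ε hε
    have h2 := gf_unif hc h (ι := Unit) (φ := fun _ => φ) (fun _ => hφ) (fun _ => h01)
      (fun _ => hφi) hE hEf (ε := ε / 2) (by positivity)
    obtain ⟨Q0, hQ0⟩ := eventually_atTop.1 h2
    refine ⟨Q0, fun Q hQ => ?_⟩
    rw [Real.dist_eq, sub_zero]
    exact lt_of_le_of_lt (hQ0 Q hQ (fun _ => ())) (by linarith)
  have h2 : Tendsto (fun Q : ℕ => volume.real E * Real.exp (-ex α (fun _ => I) Q)) atTop
      (𝓝 (volume.real E * Real.exp (-(2 * I / z3)))) := by
    apply Tendsto.const_mul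
    refine (Real.continuous_exp.tendsto _).comp ?_
    apply Tendsto.neg
    have h3 := (tendsto_TS hc h).const_mul (2 * I)
    rw [mul_one_div] at h3
    refine h3.congr fun Q => ?_
    rw [ex_const]
  have h3 := h1.add h2
  rw [zero_add] at h3
  refine h3.congr fun Q => ?_
  ring

lemma nint_div {g : ℕ} (hg : 2 ≤ g) {z : ℝ} {p : ℤ} (hz : round z = g * p) :
    round (z / g) = p ∧ nint (z / g) = nint z / g := by
  have hg' : (2 : ℝ) ≤ g := by exact_mod_cast hg
  have hg0 : (0 : ℝ) < g := by linarith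
  have h1 : |z - g * p| ≤ 1 / 2 := by
    have := abs_sub_round z
    rw [hz] at this
    push_cast at this
    exact this
  have e1 : z / g - p = (z - g * p) / g := by field_simp
  have h2 : |z / g - p| < 1 / 2 := by
    rw [e1, abs_div, abs_of_pos hg0, div_lt_iff₀ hg0]
    linarith
  have h3 := round_eq_of_abs_lt h2
  refine ⟨h3, ?_⟩
  unfold nint
  rw [h3, hz, e1, abs_div, abs_of_pos hg0]
  push_cast
  rfl

lemma val_nonneg (α : ℝ) (Q q : ℕ) (y : ℝ) : 0 ≤ val α Q q y := by
  unfold val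
  have := nint_nonneg (q * α)
  have := nint_nonneg (q * y)
  positivity

/-- the minimum is attained at a primitive vector -/
lemma prim_reduction {α y : ℝ} {Q q : ℕ} (hq : q ∈ Icc 1 Q) {x : ℝ} (hx : val α Q q y ≤ x) :
    ∃ q' ∈ PQ α Q y, val α Q q' y ≤ x := by
  have hq1 := mem_Icc.1 hq
  set p := round ((q : ℝ) * α) with hp
  set r := round ((q : ℝ) * y) with hr
  set g : ℕ := Int.gcd (gg α q) r with hg
  have hgg0 : 0 < gg α q := gg_pos α hq1.1
  have hg0 : 0 < g := Int.gcd_pos_of_ne_zero_left _ (by exact_mod_cast hgg0.ne')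
  rcases Nat.lt_or_ge g 2 with h1 | h1
  · refine ⟨q, ?_, hx⟩
    unfold PQ
    rw [mem_filter]
    refine ⟨hq, ?_⟩
    show g = 1
    omega
  have hdq : g ∣ q := by
    have : (g : ℤ) ∣ (gg α q : ℤ) := Int.gcd_dvd_left _ _
    exact (Int.natCast_dvd_natCast.1 this).trans (gg_dvd α q)
  have hdp : (g : ℤ) ∣ p := by
    have h2 : (g : ℤ) ∣ (gg α q : ℤ) := Int.gcd_dvd_left _ _
    have h3 : (gg α q : ℤ) ∣ p := Int.gcd_dvd_right _ _
    exact h2.trans h3
  have hdr : (g : ℤ) ∣ r := Int.gcd_dvd_right _ _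
  obtain ⟨k, hk⟩ := hdq
  obtain ⟨p', hp'⟩ := hdp
  obtain ⟨r', hr'⟩ := hdr
  have hg2 : (2 : ℝ) ≤ g := by exact_mod_cast h1
  have hgr : (0 : ℝ) < g := by linarith
  have hk0 : 0 < k := by
    rcases Nat.eq_zero_or_pos k with h0 | h0
    · rw [h0, mul_zero] at hk; omega
    · exact h0
  have ekα : (k : ℝ) * α = (q * α) / g := by rw [hk]; push_cast; field_simp
  have eky : (k : ℝ) * y = (q * y) / g := by rw [hk]; push_cast; field_simp
  obtain ⟨a1, a2⟩ := nint_div h1 (z := q * α) (p := p') hp'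
  obtain ⟨b1, b2⟩ := nint_div h1 (z := q * y) (p := r') hr'
  refine ⟨k, ?_, ?_⟩
  · unfold PQ
    rw [mem_filter, mem_Icc]
    refine ⟨⟨hk0, ?_⟩, ?_⟩
    · calc k ≤ g * k := Nat.le_mul_of_pos_left _ hg0
        _ ≤ Q := by rw [← hk]; exact hq1.2
    · unfold gg
      rw [ekα, eky, a1, b1]
      have h2 : Int.gcd (Int.gcd ((g : ℤ) * k) (g * p') : ℤ) (g * r') = g := by
        rw [← hp', ← hr']
        have : ((g : ℤ) * k) = (q : ℤ) := by rw [hk]; push_cast; ring
        rw [this]
        exact hg.symm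
      rw [Int.gcd_mul_left, Int.natAbs_natCast] at h2
      push_cast at h2
      rw [Int.gcd_mul_left, Int.natAbs_natCast] at h2
      exact Nat.eq_of_mul_eq_mul_left hg0 (by rw [h2, mul_one])
  · refine le_trans ?_ hx
    unfold val
    rw [ekα, eky, a2, b2]
    have hkg : (k : ℝ) = q / g := by rw [hk]; push_cast; field_simp
    rw [hkg]
    have e : Real.log Q ^ 2 * ((q : ℝ) / g * (nint (q * α) / g)) * (nint (q * y) / g) =
        (Real.log Q ^ 2 * (q * nint (q * α)) * nint (q * y)) / g ^ 3 := by field_simp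
    rw [e]
    have h3 := val_nonneg α Q q y
    unfold val at h3
    apply div_le_self h3
    have : (1 : ℝ) ≤ g := by linarith
    exact one_le_pow₀ this

/-- **the law of the minimum** -/
theorem min_law {c α : ℝ} (hc : 0 < c) (h : Bad c α) {E : Set ℝ} (hE : MeasurableSet E)
    (hEf : volume E ≠ ⊤) {x : ℝ} (hx : 0 ≤ x) :
    Tendsto (fun Q : ℕ => volume.real {β | β ∈ E ∧ ∀ q ∈ Icc 1 Q, x < val α Q q β}) atTop
      (𝓝 (volume.real E * Real.exp (-(2 * x / z3)))) := by
  classical
  set φ : ℝ → ℝ := (Set.Iic x)ᶜ.indicator (fun _ => 1) with hφ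
  have hφm : Measurable φ := measurable_const.indicator measurableSet_Iic.compl
  have hφ1 : ∀ t, x < t → φ t = 1 := fun t ht => by
    rw [hφ]; exact Set.indicator_of_mem (by rw [Set.mem_compl_iff, Set.mem_Iic]; linarith) _
  have hφ0 : ∀ t, t ≤ x → φ t = 0 := fun t ht => by
    rw [hφ]; exact Set.indicator_of_notMem (by rw [Set.notMem_compl_iff]; exact ht) _
  have h01 : ∀ t, 0 ≤ φ t ∧ φ t ≤ 1 := by
    intro t
    rcases le_or_gt t x with h1 | h1
    · rw [hφ0 t h1]; norm_num
    · rw [hφ1 t h1]; norm_num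
  have e1 : (fun t => 1 - φ t) = (Set.Iic x).indicator (fun _ => (1 : ℝ)) := by
    funext t
    rcases le_or_gt t x with h1 | h1
    · rw [hφ0 t h1, Set.indicator_of_mem (by exact h1)]; ring
    · rw [hφ1 t h1, Set.indicator_of_notMem (by rw [Set.mem_Iic]; linarith)]; ring
  have e2 : Set.Ioi (0 : ℝ) ∩ Set.Iic x = Set.Ioc 0 x := by ext t; simp
  have hint : IntegrableOn (fun t => 1 - φ t) (Set.Ioi 0) := by
    rw [e1]
    rw [IntegrableOn, integrable_indicator_iff measurableSet_Iic, IntegrableOn,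
      Measure.restrict_restrict measurableSet_Iic, Set.inter_comm, e2]
    exact integrableOn_const (by rw [Real.volume_Ioc]; exact ENNReal.ofReal_ne_top)
  have hval : ∫ t in Set.Ioi 0, (1 - φ t) = x := by
    have : ∀ t, 1 - φ t = (Set.Iic x).indicator (fun _ => (1 : ℝ)) t := fun t => congrFun e1 t
    simp only [this]
    rw [setIntegral_indicator measurableSet_Iic, e2, setIntegral_const,
      Real.volume_real_Ioc_of_le hx, smul_eq_mul]
    ring
  have h1 := gf_one hc h hφm h01 hint hE hEf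
  rw [hval] at h1
  refine h1.congr fun Q => ?_
  set B : Set ℝ := {β | ∀ q ∈ Icc 1 Q, x < val α Q q β} with hB
  have hBm : MeasurableSet B := by
    have : B = ⋂ q ∈ Icc 1 Q, {β | x < val α Q q β} := by
      ext β; simp [hB]
    rw [this]
    exact Finset.measurableSet_biInter _ fun q _ =>
      measurableSet_lt measurable_const (measurable_val α Q q)
  have e3 : ∀ y, ∏ q ∈ PQ α Q y, φ (val α Q q y) = B.indicator (fun _ => (1 : ℝ)) y := by
    intro y
    by_cases hy : y ∈ B
    · rw [Set.indicator_of_mem hy]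
      apply prod_eq_one
      intro q hq
      exact hφ1 _ (hy q (mem_filter.1 hq).1)
    · rw [Set.indicator_of_notMem hy]
      have h2 : ∃ q ∈ Icc 1 Q, val α Q q y ≤ x := by
        by_contra h3
        push Not at h3
        exact hy h3
      obtain ⟨q, hq, hqx⟩ := h2
      obtain ⟨q', hq', hqx'⟩ := prim_reduction hq hqx
      exact prod_eq_zero hq' (hφ0 _ hqx')
  simp only [e3]
  rw [setIntegral_indicator hBm, setIntegral_const, smul_eq_mul, mul_one]
  rfl

/-- **the number of hits** -/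
theorem count_law {c α : ℝ} (hc : 0 < c) (h : Bad c α) {E : Set ℝ} (hE : MeasurableSet E)
    (hEf : volume E ≠ ⊤) {U : Set ℝ} (hU : MeasurableSet U) (hU0 : U ⊆ Set.Ioi 0)
    (hUf : volume U ≠ ⊤) (k : ℕ) :
    Tendsto (fun Q : ℕ => volume.real {β | β ∈ E ∧
      Set.ncard {q | q ∈ PQ α Q β ∧ val α Q q β ∈ U} = k}) atTop
      (𝓝 (volume.real E * (Real.exp (-(2 * volume.real U / z3)) *
        (2 * volume.real U / z3) ^ k / k.factorial))) := by
  classical
  set u : ℝ := volume.real U with hu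
  set lm : ℝ := 2 * u / z3 with hlm
  have hz3 := z3_pos
  have hlm0 : 0 ≤ lm := by
    have : 0 ≤ u := measureReal_nonneg
    positivity
  set N : ℕ → ℝ → ℕ := fun Q β => ((PQ α Q β).filter (fun q => val α Q q β ∈ U)).card with hN
  have hNc : ∀ Q β, Set.ncard {q | q ∈ PQ α Q β ∧ val α Q q β ∈ U} = N Q β := by
    intro Q β
    have : {q | q ∈ PQ α Q β ∧ val α Q q β ∈ U} =
        (((PQ α Q β).filter (fun q => val α Q q β ∈ U) : Finset ℕ) : Set ℕ) := by
      ext q; simp
    rw [this, Set.ncard_coe_finset]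
  -- generating functions
  have hgf : ∀ z : ℝ, 0 ≤ z → z ≤ 1 → (∀ Q, Measurable (fun β => z ^ N Q β)) ∧
      Tendsto (fun Q : ℕ => ∫ β in E, z ^ N Q β) atTop
        (𝓝 (volume.real E * Real.exp (-((1 - z) * lm)))) := by
    intro z hz0 hz1
    set φ : ℝ → ℝ := fun t => if t ∈ U then z else 1 with hφ
    have hφm : Measurable φ := Measurable.ite hU measurable_const measurable_const
    have h01 : ∀ t, 0 ≤ φ t ∧ φ t ≤ 1 := by
      intro t; simp only [hφ]; split_ifs
      · exact ⟨hz0, hz1⟩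
      · norm_num
    have e1 : (fun t => 1 - φ t) = U.indicator (fun _ => 1 - z) := by
      funext t
      simp only [hφ]
      split_ifs with h1
      · rw [Set.indicator_of_mem h1]
      · rw [Set.indicator_of_notMem h1]; ring
    have e2 : Set.Ioi (0 : ℝ) ∩ U = U := Set.inter_eq_right.2 hU0
    have hint : IntegrableOn (fun t => 1 - φ t) (Set.Ioi 0) := by
      rw [e1, IntegrableOn, integrable_indicator_iff hU, IntegrableOn,
        Measure.restrict_restrict hU, Set.inter_comm, e2]
      exact integrableOn_const hUf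
    have hval : ∫ t in Set.Ioi 0, (1 - φ t) = (1 - z) * u := by
      have : ∀ t, 1 - φ t = U.indicator (fun _ => 1 - z) t := fun t => congrFun e1 t
      simp only [this]
      rw [setIntegral_indicator hU, e2, setIntegral_const, smul_eq_mul, mul_comm]
    have e3 : ∀ Q y, ∏ q ∈ PQ α Q y, φ (val α Q q y) = z ^ N Q y := by
      intro Q y
      simp only [hφ, hN]
      rw [← prod_filter, prod_const]
    have h1 := gf_one hc h hφm h01 hint hE hEf
    rw [hval] at h1
    simp only [e3] at h1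
    refine ⟨fun Q => ?_, ?_⟩
    · have := measurable_prod_PQ α Q (f := fun _ => φ) (fun _ => hφm)
      simp only [e3] at this
      exact this
    · convert h1 using 4
      rw [hlm]; ring
  have hfinE : IsFiniteMeasure (volume.restrict E) := ⟨by
    rw [Measure.restrict_apply_univ]; exact hEf.lt_top⟩
  have hmhalf := (hgf (1 / 2) (by norm_num) (by norm_num)).1
  have hNm : ∀ Q, MeasurableSet {β | N Q β = k} := by
    intro Q
    have : {β | N Q β = k} = (fun β => (1 / 2 : ℝ) ^ N Q β) ⁻¹' {(1 / 2 : ℝ) ^ k} := by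
      ext β
      simp only [Set.mem_ofPred_eq, Set.mem_preimage, Set.mem_singleton_iff]
      constructor
      · intro h1; rw [h1]
      · intro h1
        exact (pow_right_injective₀ (by norm_num) (by norm_num)) h1
    rw [this]
    exact hmhalf Q (measurableSet_singleton _)
  rw [Metric.tendsto_atTop]
  intro ε hε
  set v : ℝ := volume.real E with hv
  have hv0 : 0 ≤ v := measureReal_nonneg
  set δ : ℝ := ε / (4 * (v + 1)) with hδ
  have hδ0 : 0 < δ := by positivity
  -- the tent function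
  set f : ℝ → ℝ := fun t => max 0 (1 - |t - (1 / 2) ^ k| * 2 ^ (k + 2)) with hf
  have hfc : Continuous f := by
    simp only [hf]; fun_prop
  obtain ⟨p, hp⟩ := exists_polynomial_near_of_continuousOn 0 1 f hfc.continuousOn δ hδ0
  have hfk : ∀ n : ℕ, f ((1 / 2) ^ n) = if n = k then 1 else 0 := by
    intro n
    simp only [hf]
    split_ifs with hnk
    · rw [hnk]; simp
    · apply max_eq_left
      have h2k : (0 : ℝ) < 2 ^ (k + 2) := by positivity
      have key : 1 / 2 ^ (k + 2) ≤ |((1 : ℝ) / 2) ^ n - (1 / 2) ^ k| := by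
        have e4 : (1 : ℝ) / 2 ^ (k + 2) = (1 / 2) ^ k * (1 / 4) := by
          rw [pow_add]; rw [one_div_pow]; field_simp; norm_num
        have hk0 : (0 : ℝ) < (1 / 2) ^ k := by positivity
        rw [e4]
        rcases lt_or_gt_of_ne hnk with h1 | h1
        · have h2 : ((1 : ℝ) / 2) ^ (k - 1) ≤ (1 / 2) ^ n :=
            pow_le_pow_of_le_one (by norm_num) (by norm_num) (by omega)
          have h3 : ((1 : ℝ) / 2) ^ k = (1 / 2) ^ (k - 1) * (1 / 2) := by
            rw [← pow_succ]; congr 1; omega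
          refine le_trans ?_ (le_abs_self _)
          linarith
        · have h2 : ((1 : ℝ) / 2) ^ n ≤ (1 / 2) ^ (k + 1) :=
            pow_le_pow_of_le_one (by norm_num) (by norm_num) (by omega)
          have h3 : ((1 : ℝ) / 2) ^ (k + 1) = (1 / 2) ^ k * (1 / 2) := pow_succ _ _
          rw [abs_sub_comm]
          refine le_trans ?_ (le_abs_self _)
          linarith
      rw [div_le_iff₀ h2k] at key
      linarith
  have hpk : ∀ n : ℕ, |p.eval ((1 / 2 : ℝ) ^ n) - (if n = k then 1 else 0)| ≤ δ := by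
    intro n
    rw [← hfk n]
    exact (hp _ ⟨by positivity, pow_le_one₀ (by norm_num) (by norm_num)⟩).le
  set d := p.natDegree with hd
  have heval : ∀ n : ℕ, p.eval ((1 / 2 : ℝ) ^ n) =
      ∑ j ∈ range (d + 1), p.coeff j * (((1 / 2 : ℝ) ^ j) ^ n) := by
    intro n
    rw [Polynomial.eval_eq_sum_range]
    refine sum_congr rfl fun j _ => ?_
    rw [← pow_mul, ← pow_mul, mul_comm n j]
  -- the limit of the polynomial
  have hlim : Tendsto (fun Q : ℕ => ∫ β in E, p.eval ((1 / 2 : ℝ) ^ N Q β)) atTop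
      (𝓝 (∑ j ∈ range (d + 1), p.coeff j * (v * Real.exp (-((1 - (1 / 2) ^ j) * lm))))) := by
    have e1 : ∀ Q, ∫ β in E, p.eval ((1 / 2 : ℝ) ^ N Q β) =
        ∑ j ∈ range (d + 1), p.coeff j * ∫ β in E, ((1 / 2 : ℝ) ^ j) ^ N Q β := by
      intro Q
      simp only [heval]
      rw [integral_finsetSum]
      · refine sum_congr rfl fun j _ => ?_
        rw [integral_const_mul]
      · intro j _
        apply Integrable.const_mul
        have hz0 : (0 : ℝ) ≤ (1 / 2) ^ j := by positivity
        have hz1 : ((1 : ℝ) / 2) ^ j ≤ 1 := pow_le_one₀ (by norm_num) (by norm_num)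
        refine Integrable.of_bound (C := 1) ((hgf _ hz0 hz1).1 Q).aestronglyMeasurable ?_
        filter_upwards with β
        rw [Real.norm_eq_abs, abs_of_nonneg (pow_nonneg hz0 _)]
        exact pow_le_one₀ hz0 hz1
    simp only [e1]
    apply tendsto_finsetSum
    intro j _
    have hz0 : (0 : ℝ) ≤ (1 / 2) ^ j := by positivity
    have hz1 : ((1 : ℝ) / 2) ^ j ≤ 1 := pow_le_one₀ (by norm_num) (by norm_num)
    exact ((hgf _ hz0 hz1).2).const_mul _
  -- evaluation of the limit
  have hsumexp : ∀ s : ℝ, HasSum (fun n : ℕ => Real.exp (-lm) * ((s * lm) ^ n / n.factorial))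
      (Real.exp (-((1 - s) * lm))) := by
    intro s
    have h1 := (NormedSpace.expSeries_div_hasSum_exp (s * lm)).mul_left (Real.exp (-lm))
    have e11 : Real.exp (-((1 - s) * lm)) = Real.exp (-lm) * NormedSpace.exp (s * lm) := by
      rw [← Real.exp_eq_exp_ℝ, ← Real.exp_add]
      congr 1; ring
    rw [e11]
    exact h1
  have hT : HasSum (fun n : ℕ => Real.exp (-lm) * (lm ^ n / n.factorial) *
      p.eval ((1 / 2 : ℝ) ^ n))
      (∑ j ∈ range (d + 1), p.coeff j * Real.exp (-((1 - (1 / 2) ^ j) * lm))) := by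
    have h1 : ∀ j ∈ range (d + 1), HasSum (fun n : ℕ => p.coeff j *
        (Real.exp (-lm) * ((((1 / 2 : ℝ) ^ j) * lm) ^ n / n.factorial)))
        (p.coeff j * Real.exp (-((1 - (1 / 2) ^ j) * lm))) := fun j _ => (hsumexp _).mul_left _
    have e5 : (fun n : ℕ => Real.exp (-lm) * (lm ^ n / n.factorial) * p.eval ((1 / 2 : ℝ) ^ n)) =
        fun n => ∑ j ∈ range (d + 1), p.coeff j *
          (Real.exp (-lm) * ((((1 / 2 : ℝ) ^ j) * lm) ^ n / n.factorial)) := by
      funext n
      rw [heval, mul_sum]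
      refine sum_congr rfl fun j _ => ?_
      rw [mul_pow]; ring
    rw [e5]
    exact hasSum_sum h1
  set T : ℝ := ∑ j ∈ range (d + 1), p.coeff j * Real.exp (-((1 - (1 / 2) ^ j) * lm)) with hTdef
  set w : ℕ → ℝ := fun n => Real.exp (-lm) * (lm ^ n / n.factorial) with hw
  have hw0 : ∀ n, 0 ≤ w n := fun n => by simp only [hw]; positivity
  have hw1 : HasSum w 1 := by
    have h1 := hsumexp 1
    simp only [one_mul, sub_self, zero_mul, neg_zero, Real.exp_zero] at h1
    exact h1
  have hwk : HasSum (fun n => w n * (if n = k then 1 else 0)) (w k) := by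
    have e12 : (fun n => w n * (if n = k then (1 : ℝ) else 0)) =
        fun n => if n = k then w k else 0 := by
      funext n
      split_ifs with h1
      · rw [h1, mul_one]
      · rw [mul_zero]
    rw [e12]
    exact hasSum_ite_eq k (w k)
  have hTw : |T - w k| ≤ δ := by
    have h1 := hT.sub hwk
    have hδw := hw1.mul_left δ
    rw [mul_one] at hδw
    rw [abs_le]
    constructor
    · refine hasSum_le (fun n => ?_) hδw.neg h1
      have h2 := (abs_le.1 (hpk n)).1
      have h3 := mul_le_mul_of_nonneg_left h2 (hw0 n)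
      simp only [hw] at h3 ⊢
      linarith
    · refine hasSum_le (fun n => ?_) h1 hδw
      have h2 := (abs_le.1 (hpk n)).2
      have h3 := mul_le_mul_of_nonneg_left h2 (hw0 n)
      simp only [hw] at h3 ⊢
      linarith
  have hlim' : Tendsto (fun Q : ℕ => ∫ β in E, p.eval ((1 / 2 : ℝ) ^ N Q β)) atTop (𝓝 (v * T)) := by
    have e6 : ∑ j ∈ range (d + 1), p.coeff j * (v * Real.exp (-((1 - (1 / 2) ^ j) * lm))) = v * T := by
      rw [hTdef, mul_sum]
      refine sum_congr rfl fun j _ => ?_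
      ring
    rw [← e6]; exact hlim
  rw [Metric.tendsto_atTop] at hlim'
  obtain ⟨Q0, hQ0⟩ := hlim' (ε / 4) (by positivity)
  refine ⟨Q0, fun Q hQ => ?_⟩
  have h1 := hQ0 Q hQ
  rw [Real.dist_eq] at h1 ⊢
  have e7 : volume.real {β | β ∈ E ∧ Set.ncard {q | q ∈ PQ α Q β ∧ val α Q q β ∈ U} = k} =
      ∫ β in E, (if N Q β = k then (1 : ℝ) else 0) := by
    have e8 : (fun β => if N Q β = k then (1 : ℝ) else 0) =
        {β | N Q β = k}.indicator (fun _ => (1 : ℝ)) := by
      funext β
      by_cases h2 : N Q β = k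
      · rw [if_pos h2, Set.indicator_of_mem (by exact h2)]
      · rw [if_neg h2, Set.indicator_of_notMem (by exact h2)]
    rw [e8, setIntegral_indicator (hNm Q), setIntegral_const, smul_eq_mul, mul_one]
    congr 1
    ext β
    simp only [Set.mem_ofPred_eq, Set.mem_inter_iff, hNc]
  have hIp : Integrable (fun β => p.eval ((1 / 2 : ℝ) ^ N Q β)) (volume.restrict E) := by
    refine Integrable.of_bound (C := 1 + δ)
      ((Polynomial.continuous p).measurable.comp (hmhalf Q)).aestronglyMeasurable ?_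
    filter_upwards with β
    rw [Real.norm_eq_abs]
    have h2 := hpk (N Q β)
    have h3 : |(if N Q β = k then (1 : ℝ) else 0)| ≤ 1 := by split_ifs <;> norm_num
    have h4 := abs_add_le (p.eval ((1 / 2 : ℝ) ^ N Q β) - (if N Q β = k then (1 : ℝ) else 0))
      (if N Q β = k then (1 : ℝ) else 0)
    rw [sub_add_cancel] at h4
    linarith
  have hI1 : Integrable (fun β => if N Q β = k then (1 : ℝ) else 0) (volume.restrict E) := by
    refine Integrable.of_bound (C := 1)
      (Measurable.ite (hNm Q) measurable_const measurable_const).aestronglyMeasurable ?_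
    filter_upwards with β
    rw [Real.norm_eq_abs]
    split_ifs <;> norm_num
  have h2 : |(∫ β in E, (if N Q β = k then (1 : ℝ) else 0)) -
      ∫ β in E, p.eval ((1 / 2 : ℝ) ^ N Q β)| ≤ v * δ := by
    rw [← integral_sub hI1 hIp]
    calc _ ≤ ∫ β in E, |(if N Q β = k then (1 : ℝ) else 0) - p.eval ((1 / 2 : ℝ) ^ N Q β)| := by
          rw [← Real.norm_eq_abs]; exact norm_integral_le_integral_norm _
      _ ≤ ∫ _β in E, δ := by
          refine integral_mono (hI1.sub hIp).abs (integrable_const _) fun β => ?_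
          simp only
          rw [abs_sub_comm]; exact hpk _
      _ = v * δ := by rw [setIntegral_const, smul_eq_mul]
  have hvδ : v * δ ≤ ε / 4 := by
    rw [hδ, ← mul_div_assoc, div_le_iff₀ (by positivity)]
    nlinarith
  have h3 : |v * T - v * w k| ≤ v * δ := by
    rw [← mul_sub, abs_mul, abs_of_nonneg hv0]
    gcongr
  have e9 : v * (Real.exp (-(2 * u / z3)) * (2 * u / z3) ^ k / k.factorial) = v * w k := by
    simp only [hw, hlm]; ring
  rw [e7, e9]
  have e10 : (∫ β in E, (if N Q β = k then (1 : ℝ) else 0)) - v * w k =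
      ((∫ β in E, (if N Q β = k then (1 : ℝ) else 0)) -
        ∫ β in E, p.eval ((1 / 2 : ℝ) ^ N Q β)) +
      ((∫ β in E, p.eval ((1 / 2 : ℝ) ^ N Q β)) - v * T) + (v * T - v * w k) := by ring
  rw [e10]
  calc _ ≤ |(∫ β in E, (if N Q β = k then (1 : ℝ) else 0)) -
        ∫ β in E, p.eval ((1 / 2 : ℝ) ^ N Q β)| +
      |(∫ β in E, p.eval ((1 / 2 : ℝ) ^ N Q β)) - v * T| + |v * T - v * w k| :=
        (abs_add_le _ _).trans (add_le_add (abs_add_le _ _) le_rfl)
    _ < ε := by linarith

end Pool.Agent.KS6_2.LL
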