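import Pool.Agent.KS6_2.LL.Cone
import Pool.Agent.KS6_2.LL.Law

open Finset Filter Topology ArithmeticFunction

namespace Pool.Agent.KS6_2.LL

/-- the sum over the multiples, with a threshold -/
noncomputable def FT (α τ : ℝ) (X m : ℕ) : ℝ :=
  ∑ q ∈ (Icc 1 X).filter (fun q : ℕ => τ ≤ nint (q * α) ∧ m ∣ gg α q), rr α q

lemma FT_nonneg (α τ : ℝ) (X m : ℕ) : 0 ≤ FT α τ X m := sum_nonneg fun _ _ => rr_nonneg _ _

lemma FT_le_FS (α τ : ℝ) (X m : ℕ) : FT α τ X m ≤ FS α X m := by
  unfold FT FS
  apply sum_le_sum_of_subset_of_nonneg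
  · intro q hq
    obtain ⟨h1, h2⟩ := mem_filter.1 hq
    exact mem_filter.2 ⟨h1, h2.2⟩
  · intro _ _ _; exact rr_nonneg _ _

lemma dvd_gg {α : ℝ} {m q : ℕ} (hm : 0 < m) (hq : 0 < q) (h : m ∣ gg α q) :
    ∃ k : ℕ, 0 < k ∧ q = m * k ∧ nint (k * α) = nint (q * α) / m := by
  obtain ⟨k, hk⟩ := h.trans (gg_dvd α q)
  have hk0 : 0 < k := by
    rcases Nat.eq_zero_or_pos k with h0 | h0
    · rw [h0, mul_zero] at hk; omega
    · exact h0
  refine ⟨k, hk0, hk, ?_⟩
  rcases Nat.lt_or_ge m 2 with h1 | h1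
  · have h2 : m = 1 := by omega
    rw [hk, h2]; simp
  · obtain ⟨p, hp⟩ : (m : ℤ) ∣ round ((q : ℝ) * α) := by
      have h3 : (gg α q : ℤ) ∣ round ((q : ℝ) * α) := Int.gcd_dvd_right _ _
      exact (Int.natCast_dvd_natCast.2 h).trans h3
    obtain ⟨_, a2⟩ := nint_div h1 (z := q * α) (p := p) hp
    have hm' : (0 : ℝ) < m := by exact_mod_cast hm
    have e : (k : ℝ) * α = (q * α) / m := by rw [hk]; push_cast; field_simp
    rw [e, a2]

lemma FT_le {α : ℝ} (τ : ℝ) (X : ℕ) {m : ℕ} (hm : 0 < m) :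
    FT α τ X m ≤ RT α (τ / m) (X / m) / m ^ 2 := by
  have hm' : (0 : ℝ) < m := by exact_mod_cast hm
  set S := (Icc 1 X).filter (fun q : ℕ => τ ≤ nint (q * α) ∧ m ∣ gg α q) with hS
  have hk : ∀ q ∈ S, 0 < q / m ∧ q = m * (q / m) ∧ nint ((q / m : ℕ) * α) = nint (q * α) / m := by
    intro q hq
    obtain ⟨h1, h2⟩ := mem_filter.1 hq
    rw [mem_Icc] at h1
    obtain ⟨k, hk0, hk, hk2⟩ := dvd_gg hm (by omega) h2.2
    have e1 : q / m = k := by rw [hk]; exact Nat.mul_div_cancel_left k hm
    rw [e1]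
    exact ⟨hk0, hk, hk2⟩
  have h1 : ∀ q ∈ S, rr α q = rr α (q / m) / m ^ 2 := by
    intro q hq
    obtain ⟨a1, a2, a3⟩ := hk q hq
    unfold rr
    rw [a3]
    have e : (q : ℝ) = m * ((q / m : ℕ) : ℝ) := by exact_mod_cast a2
    rw [div_div]
    congr 1
    rw [show (q : ℝ) * nint (q * α) = (m * ((q / m : ℕ) : ℝ)) * nint (q * α) by rw [← e]]
    field_simp
  calc FT α τ X m = ∑ q ∈ S, rr α (q / m) / m ^ 2 := sum_congr rfl h1
    _ = ∑ k ∈ S.image (fun q => q / m), rr α k / m ^ 2 := by
        rw [sum_image]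
        intro q hq q' hq' heq
        have a2 := (hk q hq).2.1
        have a2' := (hk q' hq').2.1
        simp only at heq
        rw [a2, a2', heq]
    _ ≤ ∑ k ∈ (Icc 1 (X / m)).filter (fun k : ℕ => τ / m ≤ nint (k * α)), rr α k / m ^ 2 := by
        apply sum_le_sum_of_subset_of_nonneg
        · intro k hk'
          obtain ⟨q, hq, rfl⟩ := mem_image.1 hk'
          obtain ⟨a1, a2, a3⟩ := hk q hq
          obtain ⟨b1, b2⟩ := mem_filter.1 hq
          rw [mem_Icc] at b1
          refine mem_filter.2 ⟨mem_Icc.2 ⟨a1, Nat.div_le_div_right b1.2⟩, ?_⟩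
          rw [a3]
          exact div_le_div_of_nonneg_right b2.1 hm'.le
        · intro k _ _
          exact div_nonneg (rr_nonneg _ _) (by positivity)
    _ = RT α (τ / m) (X / m) / m ^ 2 := by rw [← sum_div]; rfl

lemma le_FT {α : ℝ} (τ : ℝ) (X : ℕ) {m : ℕ} (hm : 0 < m) :
    (RT α (τ / m) (X / m) - 2 * m * (1 + Real.log X)) / m ^ 2 ≤ FT α τ X m := by
  have hm' : (0 : ℝ) < m := by exact_mod_cast hm
  set H := (Icc 1 (X / m)).filter (fun k : ℕ => τ / m ≤ nint (k * α)) with hH
  set G := H.filter (fun k : ℕ => nint (k * α) < 1 / (2 * m)) with hG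
  have h1 : RT α (τ / m) (X / m) - 2 * m * (1 + Real.log X) ≤ ∑ k ∈ G, rr α k := by
    unfold RT
    rw [← sum_filter_add_sum_filter_not H (fun k : ℕ => nint (k * α) < 1 / (2 * m))]
    have h2 : ∑ k ∈ H.filter (fun k : ℕ => ¬ nint (k * α) < 1 / (2 * m)), rr α k ≤
        ∑ k ∈ Icc 1 (X / m), 2 * (m : ℝ) * (1 / k) := by
      refine le_trans (sum_le_sum (g := fun k : ℕ => 2 * (m : ℝ) * (1 / k)) ?_)
        (sum_le_sum_of_subset_of_nonneg ((filter_subset _ _).trans (filter_subset _ _))
          fun k _ _ => by positivity)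
      intro k hk
      obtain ⟨h3, h4⟩ := mem_filter.1 hk
      have h3' := mem_Icc.1 (mem_filter.1 h3).1
      push Not at h4
      have hk' : (0 : ℝ) < k := by exact_mod_cast h3'.1
      unfold rr
      have e : 2 * (m : ℝ) * (1 / k) = 1 / (k * (1 / (2 * m))) := by field_simp
      rw [e]
      apply one_div_le_one_div_of_le (by positivity)
      gcongr
    have h3 : ∑ k ∈ Icc 1 (X / m), 2 * (m : ℝ) * (1 / k) ≤ 2 * m * (1 + Real.log X) := by
      rw [← mul_sum]
      apply mul_le_mul_of_nonneg_left _ (by positivity)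
      refine (harmonic_le _).trans ?_
      rcases Nat.eq_zero_or_pos (X / m) with h0 | h0
      · rw [h0, Nat.cast_zero, Real.log_zero]
        have : 0 ≤ Real.log X := Real.log_natCast_nonneg X
        linarith
      · have : Real.log ((X / m : ℕ) : ℝ) ≤ Real.log X := by
          apply Real.log_le_log (by exact_mod_cast h0)
          exact_mod_cast Nat.div_le_self X m
        linarith
    linarith
  have h2 : (∑ k ∈ G, rr α k) / m ^ 2 ≤ FT α τ X m := by
    unfold FT
    rw [sum_div]
    have h3 : ∀ k ∈ G, rr α k / m ^ 2 = rr α (m * k) ∧ m ∣ gg α (m * k) ∧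
        nint ((m * k : ℕ) * α) = m * nint (k * α) := by
      intro k hk
      obtain ⟨h4, h5⟩ := mem_filter.1 hk
      have h4' := mem_Icc.1 (mem_filter.1 h4).1
      have hk' : (0 : ℝ) < k := by exact_mod_cast h4'.1
      have e1 : round (((m * k : ℕ) : ℝ) * α) = m * round ((k : ℝ) * α) := by
        apply round_eq_of_abs_lt
        have : ((m * k : ℕ) : ℝ) * α - ((m * round ((k : ℝ) * α) : ℤ) : ℝ) =
            m * (k * α - round ((k : ℝ) * α)) := by push_cast; ring
        rw [this, abs_mul, Nat.abs_cast]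
        calc (m : ℝ) * |k * α - round ((k : ℝ) * α)| < m * (1 / (2 * m)) := by
              apply mul_lt_mul_of_pos_left h5 hm'
          _ = 1 / 2 := by field_simp
      have e2 : nint ((m * k : ℕ) * α) = m * nint (k * α) := by
        unfold nint
        rw [e1]
        have : ((m * k : ℕ) : ℝ) * α - ((m * round ((k : ℝ) * α) : ℤ) : ℝ) =
            m * (k * α - round ((k : ℝ) * α)) := by push_cast; ring
        rw [this, abs_mul, Nat.abs_cast]
      refine ⟨?_, ?_, e2⟩
      · unfold rr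
        rw [e2]
        push_cast
        rw [div_div]
        congr 1
        ring
      · unfold gg
        rw [e1]
        push_cast
        rw [Int.gcd_mul_left, Int.natAbs_natCast]
        exact Dvd.intro _ rfl
    calc ∑ k ∈ G, rr α k / m ^ 2 = ∑ k ∈ G, rr α (m * k) := sum_congr rfl fun k hk => (h3 k hk).1
      _ = ∑ q ∈ G.image (fun k => m * k), rr α q := by
          rw [sum_image]
          intro k _ k' _ heq
          exact Nat.eq_of_mul_eq_mul_left hm heq
      _ ≤ _ := by
          apply sum_le_sum_of_subset_of_nonneg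
          · intro q hq
            obtain ⟨k, hk, rfl⟩ := mem_image.1 hq
            have h4 := (mem_filter.1 (mem_filter.1 hk).1)
            have h4' := mem_Icc.1 h4.1
            refine mem_filter.2 ⟨mem_Icc.2 ⟨Nat.mul_pos hm h4'.1, ?_⟩, ?_, (h3 k hk).2.1⟩
            · calc m * k ≤ m * (X / m) := Nat.mul_le_mul_left _ h4'.2
                _ ≤ X := Nat.mul_div_le X m
            · have h5 := h4.2
              rw [div_le_iff₀ hm'] at h5
              have h6 := (h3 k hk).2.2
              rw [h6]; linarith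
          · intro _ _ _; exact rr_nonneg _ _
  refine le_trans ?_ h2
  gcongr

/-- the truncated total weight -/
noncomputable def TT (α τ : ℝ) (X : ℕ) : ℝ :=
  ∑ q ∈ (Icc 1 X).filter (fun q : ℕ => τ ≤ nint (q * α)), rr α q * ph α q

lemma TT_eq (α τ : ℝ) (X : ℕ) : TT α τ X = ∑' m : ℕ, (moebius m : ℝ) / m * FT α τ X m := by
  have hz : ∀ m ∉ range (X + 1), (moebius m : ℝ) / m * FT α τ X m = 0 := by
    intro m hm
    rw [mem_range, not_lt] at hm
    have : FT α τ X m = 0 := by
      unfold FT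
      rw [sum_eq_zero]
      intro q hq
      obtain ⟨h1, h2⟩ := mem_filter.1 hq
      rw [mem_Icc] at h1
      have := Nat.le_of_dvd (by omega) (h2.2.trans (gg_dvd α q))
      omega
    rw [this, mul_zero]
  rw [tsum_eq_sum hz]
  unfold TT FT
  have e1 : ∀ q ∈ (Icc 1 X).filter (fun q : ℕ => τ ≤ nint (q * α)), rr α q * ph α q =
      ∑ m ∈ range (X + 1), (moebius m : ℝ) / m * (if m ∣ gg α q then rr α q else 0) := by
    intro q hq
    have hq := (mem_filter.1 hq).1
    rw [mem_Icc] at hq
    have e2 : (gg α q).divisors = (range (X + 1)).filter (fun m => m ∣ gg α q) := by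
      ext m
      rw [Nat.mem_divisors, mem_filter, mem_range]
      constructor
      · rintro ⟨h1, _⟩
        have := Nat.le_of_dvd (by omega) (h1.trans (gg_dvd α q))
        exact ⟨by omega, h1⟩
      · rintro ⟨_, h1⟩
        exact ⟨h1, (gg_pos α (by omega)).ne'⟩
    unfold ph
    rw [e2, sum_filter, mul_sum]
    refine sum_congr rfl fun m _ => ?_
    split_ifs <;> ring
  rw [sum_congr rfl e1, sum_comm]
  refine sum_congr rfl fun m _ => ?_
  rw [← filter_filter, sum_filter _ (fun q => rr α q), mul_sum]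

/-- the limit of the truncated weights -/
theorem TT_lim {c α : ℝ} (hc : 0 < c) (h : Bad c α) {X : ℕ → ℕ} {τ : ℕ → ℝ} {s v : ℝ}
    (hτ0 : ∀ᶠ Q in atTop, 0 < τ Q) (hτ1 : ∀ᶠ Q in atTop, τ Q ≤ 1) (hX : ∀ᶠ Q in atTop, 1 ≤ X Q)
    (hXQ : ∀ᶠ Q in atTop, X Q ≤ Q) (hs0 : 0 ≤ s) (hv0 : 0 ≤ v)
    (hs : Tendsto (fun Q : ℕ => Real.log (X Q) / Real.log Q) atTop (𝓝 s))
    (hv : Tendsto (fun Q : ℕ => Real.log (1 / τ Q) / Real.log Q) atTop (𝓝 v)) :
    Tendsto (fun Q : ℕ => TT α (τ Q) (X Q) / Real.log Q ^ 2) atTop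
      (𝓝 ((2 * min v s * s - min v s ^ 2) / z3)) := by
  have hlog : Tendsto (fun Q : ℕ => Real.log Q) atTop atTop :=
    Real.tendsto_log_atTop.comp tendsto_natCast_atTop_atTop
  have hi : Tendsto (fun Q : ℕ => 1 / Real.log Q) atTop (𝓝 0) := by
    simp only [one_div]
    exact tendsto_inv_atTop_zero.comp hlog
  set w : ℝ := 2 * min v s * s - min v s ^ 2 with hw
  rcases hs0.eq_or_lt with h0 | h0
  · -- the degenerate case
    have hw0 : w = 0 := by
      rw [hw, ← h0, min_eq_right hv0]; ring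
    have h1 := RT_lim hc h hτ0 hτ1 hX hs hv
    rw [← hw, hw0] at h1
    rw [hw0, zero_div]
    refine squeeze_zero (fun Q => ?_) (fun Q => ?_) h1
    · apply div_nonneg _ (sq_nonneg _)
      apply sum_nonneg
      intro q hq
      have := (mem_Icc.1 (mem_filter.1 hq).1).1
      exact mul_nonneg (rr_nonneg _ _) (ph_nonneg α (by omega))
    · apply div_le_div_of_nonneg_right _ (sq_nonneg _)
      apply sum_le_sum
      intro q hq
      have := (mem_Icc.1 (mem_filter.1 hq).1).1
      exact mul_le_of_le_one_right (rr_nonneg _ _) (ph_le_one α (by omega))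
  have hXinf : Tendsto X atTop atTop := by
    have h1 : Tendsto (fun Q : ℕ => Real.log (X Q)) atTop atTop := by
      have h2 : Tendsto (fun Q : ℕ => (Real.log (X Q) / Real.log Q) * Real.log Q) atTop atTop :=
        Tendsto.pos_mul_atTop h0 hs hlog
      refine h2.congr' ?_
      filter_upwards [hlog.eventually_gt_atTop 0] with Q hQ
      field_simp
    have h2 : Tendsto (fun Q : ℕ => ((X Q : ℕ) : ℝ)) atTop atTop := by
      refine tendsto_atTop_mono (fun Q => ?_) h1
      exact Real.log_le_self (Nat.cast_nonneg _)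
    exact tendsto_natCast_atTop_iff.1 h2
  have hF : ∀ m : ℕ, 0 < m → Tendsto (fun Q : ℕ => FT α (τ Q) (X Q) m / Real.log Q ^ 2) atTop
      (𝓝 (w / (m : ℝ) ^ 2)) := by
    intro m hm
    have hm' : (0 : ℝ) < m := by exact_mod_cast hm
    have hbig : ∀ᶠ Q in atTop, 2 * m ≤ X Q := hXinf.eventually_ge_atTop _
    have hs' : Tendsto (fun Q : ℕ => Real.log ((X Q / m : ℕ) : ℝ) / Real.log Q) atTop (𝓝 s) := by
      have hlo : Tendsto (fun Q : ℕ => Real.log (X Q) / Real.log Q - Real.log (2 * m) *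
          (1 / Real.log Q)) atTop (𝓝 (s - Real.log (2 * m) * 0)) :=
        hs.sub (hi.const_mul _)
      rw [mul_zero, sub_zero] at hlo
      refine tendsto_of_tendsto_of_tendsto_of_le_of_le' hlo hs ?_ ?_
      · filter_upwards [hbig, hlog.eventually_gt_atTop 0] with Q h1 h2
        have h3 : (2 : ℝ) * m ≤ X Q := by exact_mod_cast h1
        have h4 : (X Q : ℝ) / (2 * m) ≤ ((X Q / m : ℕ) : ℝ) := by
          have h5 : (X Q : ℝ) / m < ((X Q / m : ℕ) : ℝ) + 1 := by
            rw [div_lt_iff₀ hm']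
            have := Nat.lt_div_mul_add (a := X Q) hm
            have h6 : ((X Q : ℕ) : ℝ) < ((X Q / m * m + m : ℕ) : ℝ) := by exact_mod_cast this
            push_cast at h6
            linarith
          have h6 : (X Q : ℝ) / (2 * m) = (X Q : ℝ) / m / 2 := by field_simp
          have h7 : 2 ≤ (X Q : ℝ) / m := by rw [le_div_iff₀ hm']; exact h3
          rw [h6]; linarith
        have h5 : 0 < (X Q : ℝ) / (2 * m) := by
          have : (0 : ℝ) < X Q := by linarith
          positivity
        have h6 := Real.log_le_log h5 h4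
        rw [Real.log_div (by linarith) (by positivity)] at h6
        have e : Real.log (X Q) / Real.log Q - Real.log (2 * m) * (1 / Real.log Q) =
            (Real.log (X Q) - Real.log (2 * m)) / Real.log Q := by ring
        rw [e]
        gcongr
      · filter_upwards [hbig, hlog.eventually_gt_atTop 0] with Q h1 h2
        have h3 : 0 < X Q / m := Nat.div_pos (by omega) hm
        have h4 : ((X Q / m : ℕ) : ℝ) ≤ X Q := by exact_mod_cast Nat.div_le_self _ _
        have h5 := Real.log_le_log (by exact_mod_cast h3) h4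
        gcongr
    have hv' : Tendsto (fun Q : ℕ => Real.log (1 / (τ Q / m)) / Real.log Q) atTop (𝓝 v) := by
      have h1 : Tendsto (fun Q : ℕ => Real.log (1 / τ Q) / Real.log Q + Real.log m *
          (1 / Real.log Q)) atTop (𝓝 (v + Real.log m * 0)) := hv.add (hi.const_mul _)
      rw [mul_zero, add_zero] at h1
      refine h1.congr' ?_
      filter_upwards [hτ0] with Q hQ
      have e : 1 / (τ Q / m) = (1 / τ Q) * m := by field_simp
      rw [e, Real.log_mul (by positivity) hm'.ne']
      ring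
    have hR := RT_lim hc h (X := fun Q => X Q / m) (τ := fun Q => τ Q / m)
      (by filter_upwards [hτ0] with Q hQ; positivity)
      (by
        filter_upwards [hτ0, hτ1] with Q hQ hQ1
        rw [div_le_iff₀ hm']
        have : (1 : ℝ) ≤ m := by exact_mod_cast hm
        linarith)
      (by
        filter_upwards [hbig] with Q h1
        exact Nat.div_pos (by omega) hm) hs' hv'
    rw [← hw] at hR
    have hup := hR.div_const ((m : ℝ) ^ 2)
    have herr : Tendsto (fun Q : ℕ => (1 / Real.log Q) * (1 / Real.log Q) +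
        (1 / Real.log Q) * (Real.log (X Q) / Real.log Q)) atTop (𝓝 (0 * 0 + 0 * s)) :=
      (hi.mul hi).add (hi.mul hs)
    have hlo := (hR.sub (herr.const_mul (2 * (m : ℝ)))).div_const ((m : ℝ) ^ 2)
    have e0 : w - 2 * (m : ℝ) * (0 * 0 + 0 * s) = w := by ring
    rw [e0] at hlo
    refine tendsto_of_tendsto_of_tendsto_of_le_of_le' hlo hup ?_ ?_
    · filter_upwards [hlog.eventually_gt_atTop 0] with Q hQ
      have h1 := le_FT (α := α) (τ Q) (X Q) hm
      have h2 : ((RT α (τ Q / m) (X Q / m) - 2 * m * (1 + Real.log (X Q))) / m ^ 2) /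
          Real.log Q ^ 2 ≤ FT α (τ Q) (X Q) m / Real.log Q ^ 2 := by gcongr
      refine le_trans (le_of_eq ?_) h2
      field_simp
    · filter_upwards with Q
      have h1 := FT_le (α := α) (τ Q) (X Q) hm
      have h2 : FT α (τ Q) (X Q) m / Real.log Q ^ 2 ≤
          (RT α (τ Q / m) (X Q / m) / m ^ 2) / Real.log Q ^ 2 := by gcongr
      refine h2.trans (le_of_eq ?_)
      rw [div_right_comm]
  have hev : ∀ᶠ Q : ℕ in atTop, RS α Q / Real.log Q ^ 2 ≤ 2 := by
    have := (tendsto_RS hc h).eventually_lt_const (u := 2) (by norm_num)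
    filter_upwards [this] with Q hQ using hQ.le
  have hT := tendsto_tsum_of_dominated_convergence (β := ℕ) (𝓕 := atTop)
    (f := fun (Q : ℕ) (m : ℕ) => (moebius m : ℝ) / m * FT α (τ Q) (X Q) m / Real.log Q ^ 2)
    (g := fun m : ℕ => w * ((moebius m : ℝ) / (m : ℝ) ^ 3))
    (bound := fun m : ℕ => 2 * (1 / (m : ℝ) ^ 3))
    ?_ ?_ ?_
  · rw [tsum_mul_left, tsum_moebius_cube, mul_one_div] at hT
    refine hT.congr fun Q => ?_
    rw [TT_eq, tsum_div_const]
  · exact (Real.summable_one_div_nat_pow.2 (by norm_num)).mul_left 2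
  · intro m
    rcases Nat.eq_zero_or_pos m with h0 | h0
    · rw [h0]; simp
    · have hm' : (0 : ℝ) < m := by exact_mod_cast h0
      have h1 := (hF m h0).const_mul ((moebius m : ℝ) / m)
      have e : (moebius m : ℝ) / m * (w / (m : ℝ) ^ 2) = w * ((moebius m : ℝ) / (m : ℝ) ^ 3) := by
        field_simp
      rw [e] at h1
      refine h1.congr fun Q => ?_
      ring
  · filter_upwards [hev, eventually_ge_atTop 2, hXQ] with Q hQ hQ2 hXQ m
    have hQ' : (1 : ℝ) < Q := by exact_mod_cast (by omega : 1 < Q)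
    have hl : 0 < Real.log Q := Real.log_pos hQ'
    rcases Nat.eq_zero_or_pos m with h0 | h0
    · rw [h0]; simp
    · have hm' : (0 : ℝ) < m := by exact_mod_cast h0
      have hmu : |(moebius m : ℝ)| ≤ 1 := by
        have := abs_moebius_le_one (n := m)
        exact_mod_cast this
      have h1 : FT α (τ Q) (X Q) m ≤ RS α Q / m ^ 2 :=
        (FT_le_FS _ _ _ _).trans ((FS_le hc h (X Q) h0).trans (by
          gcongr
          exact RS_mono ((Nat.div_le_self (X Q) m).trans hXQ)))
      have h2 := FT_nonneg α (τ Q) (X Q) m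
      rw [Real.norm_eq_abs, abs_div, abs_mul, abs_div, Nat.abs_cast, abs_of_nonneg h2,
        abs_of_pos (by positivity : 0 < Real.log Q ^ 2)]
      calc |(moebius m : ℝ)| / m * FT α (τ Q) (X Q) m / Real.log Q ^ 2
          ≤ 1 / m * (RS α Q / m ^ 2) / Real.log Q ^ 2 := by gcongr
        _ = (RS α Q / Real.log Q ^ 2) * (1 / m ^ 3) := by field_simp
        _ ≤ 2 * (1 / m ^ 3) := by gcongr

end Pool.Agent.KS6_2.LL
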