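import Pool.Agent.KS6_2.LL.Win

open MeasureTheory Finset ArithmeticFunction

namespace Pool.Agent.KS6_2.LL

/-- Bonferroni's inequality -/
lemma bonferroni {ι : Type*} [DecidableEq ι] (S : Finset ι) (A : ι → Set ℝ)
    (hA : ∀ i ∈ S, MeasurableSet (A i)) (hf : ∀ i ∈ S, volume (A i) ≠ ⊤) :
    ∑ i ∈ S, volume.real (A i) - ∑ i ∈ S, ∑ j ∈ S.erase i, volume.real (A i ∩ A j) ≤
      volume.real (⋃ i ∈ S, A i) := by
  induction S using Finset.induction_on with
  | empty => simp
  | insert a s ha ih =>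
    have ih' := ih (fun i hi => hA i (mem_insert_of_mem hi)) (fun i hi => hf i (mem_insert_of_mem hi))
    have hUm : MeasurableSet (⋃ i ∈ s, A i) :=
      Finset.measurableSet_biUnion _ fun i hi => hA i (mem_insert_of_mem hi)
    have hUf : volume (⋃ i ∈ s, A i) ≠ ⊤ :=
      ((measure_biUnion_finset_le s _).trans_lt (ENNReal.sum_lt_top.2 fun i hi =>
        (hf i (mem_insert_of_mem hi)).lt_top)).ne
    have haf := hf a (mem_insert_self _ _)
    have h1 : volume.real (A a ∪ ⋃ i ∈ s, A i) + volume.real (A a ∩ ⋃ i ∈ s, A i) =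
        volume.real (A a) + volume.real (⋃ i ∈ s, A i) :=
      measureReal_union_add_inter hUm haf hUf
    have h2 : volume.real (A a ∩ ⋃ i ∈ s, A i) ≤ ∑ j ∈ s, volume.real (A a ∩ A j) := by
      rw [Set.inter_iUnion₂]
      exact measureReal_biUnion_finset_le s _
    rw [Finset.set_biUnion_insert, sum_insert ha, sum_insert ha, erase_insert ha]
    have h3 : ∑ i ∈ s, ∑ j ∈ s.erase i, volume.real (A i ∩ A j) ≤
        ∑ i ∈ s, ∑ j ∈ (insert a s).erase i, volume.real (A i ∩ A j) := by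
      refine sum_le_sum fun i _ => ?_
      apply sum_le_sum_of_subset_of_nonneg
      · exact erase_subset_erase _ (subset_insert _ _)
      · intro _ _ _; exact measureReal_nonneg
    linarith

/-- the points whose numerator has a small common factor with `q` -/
def Lo (q : ℕ) (T : ℝ) : Set ℝ := {y | ((Int.gcd q (round ((q : ℝ) * y)) : ℕ) : ℝ) < T}

lemma measurableSet_Lo (q : ℕ) (T : ℝ) : MeasurableSet (Lo q T) := by
  have : Measurable (fun y : ℝ => round ((q : ℝ) * y)) :=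
    measurable_round.comp (measurable_const.mul measurable_id)
  exact this (MeasurableSet.of_discrete (s := {r : ℤ | ((Int.gcd q r : ℕ) : ℝ) < T}))

lemma mem_Lo_add_one {q : ℕ} (T y : ℝ) : y + 1 ∈ Lo q T ↔ y ∈ Lo q T := by
  unfold Lo
  simp only [Set.mem_ofPred_eq]
  have e : (q : ℝ) * (y + 1) = q * y + ((q : ℤ) : ℝ) := by push_cast; ring
  rw [e, round_add_intCast]
  have h1 := Int.gcd_add_mul_left_right (q : ℤ) (round ((q : ℝ) * y)) 1
  rw [mul_one] at h1
  rw [h1]

/-- the data -/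
structure Sys where
  U : ℕ → Set ℝ
  x : ℝ
  a : ℕ → ℝ
  g : ℕ → ℕ
  hU : ∀ q, MeasurableSet (U q)
  hUx : ∀ q, U q ⊆ Set.Ioo 0 x
  hx : 0 < x
  hg : ∀ q, 0 < q → 0 < g q ∧ g q ∣ q
  ha : ∀ q, 0 < q → 0 < a q

namespace Sys

variable (d : Sys)

/-- the measure of `U q` -/
noncomputable def u (q : ℕ) : ℝ := volume.real (d.U q)

lemma u_nonneg (q : ℕ) : 0 ≤ d.u q := measureReal_nonneg

lemma u_le (q : ℕ) : d.u q ≤ d.x := by
  unfold u
  calc volume.real (d.U q) ≤ volume.real (Set.Ioo 0 d.x) :=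
        measureReal_mono (d.hUx q) (by rw [Real.volume_Ioo]; exact ENNReal.ofReal_ne_top)
    _ = d.x := by rw [Real.volume_real_Ioo_of_le d.hx.le]; ring

/-- the measure of one component -/
noncomputable def w (q : ℕ) : ℝ := 2 * d.u q / (q * d.a q)

lemma w_nonneg {q : ℕ} (hq : 0 < q) : 0 ≤ d.w q := by
  have h1 := d.u_nonneg q
  have h2 := d.ha q hq
  unfold w
  positivity

/-- the set belonging to `q` -/
def A (q : ℕ) : Set ℝ := Arc (d.U q) q (d.g q) (d.a q)

lemma measurableSet_A (q : ℕ) : MeasurableSet (d.A q) := measurableSet_Arc (d.hU q) q _ _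

lemma A_add_one {q : ℕ} (hq : 0 < q) (y : ℝ) : y + 1 ∈ d.A q ↔ y ∈ d.A q :=
  mem_Arc_add_one (d.hg q hq).2 _ _

/-- the union -/
def V (S : Finset ℕ) : Set ℝ := ⋃ q ∈ S, d.A q

lemma measurableSet_V (S : Finset ℕ) : MeasurableSet (d.V S) :=
  Finset.measurableSet_biUnion _ fun q _ => d.measurableSet_A q

/-- the expected measure -/
noncomputable def Lam (S : Finset ℕ) : ℝ :=
  ∑ q ∈ S, d.w q * q * ∑ m ∈ (d.g q).divisors, (moebius m : ℝ) / m

/-- bound for the overlaps -/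
noncomputable def OV (S : Finset ℕ) (T : ℝ) : ℝ :=
  ∑ q ∈ S, ∑ q' ∈ S.erase q,
    volume.real ((d.A q ∩ Lo q T) ∩ (d.A q' ∩ Lo q' T) ∩ Set.Ioc 0 1) +
  ∑ q ∈ S, volume.real ((d.A q ∩ (Lo q T)ᶜ) ∩ Set.Ioc 0 1)

lemma w_le {q : ℕ} (hq : 0 < q) {ρ : ℝ} (hρ : d.x / (q * d.a q) ≤ ρ) : d.w q ≤ 2 * ρ := by
  have h2 := d.ha q hq
  have hq' : (0 : ℝ) < q := by exact_mod_cast hq
  unfold w
  calc 2 * d.u q / (q * d.a q) ≤ 2 * d.x / (q * d.a q) := by
        have := d.u_le q
        gcongr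
    _ = 2 * (d.x / (q * d.a q)) := by ring
    _ ≤ _ := by linarith

lemma winfin (X : Set ℝ) (y h : ℝ) : volume (X ∩ Set.Ioc y (y + h)) ≠ ⊤ := by
  refine ne_top_of_le_ne_top ?_ (measure_mono Set.inter_subset_right)
  rw [Real.volume_Ioc]; exact ENNReal.ofReal_ne_top

/-- **window deviation** -/
theorem dev {Q : ℕ} (hQ : 1 ≤ Q) {S : Finset ℕ} (hS : ∀ q ∈ S, 0 < q ∧ q ≤ Q)
    (hax : ∀ q ∈ S, 2 * d.x ≤ d.a q) {ρ : ℝ} (hρ : ∀ q ∈ S, d.x / (q * d.a q) ≤ ρ) (hρ0 : 0 ≤ ρ)
    {D : ℝ} (hD : ∀ q ∈ S, (q.divisors.card : ℝ) ≤ D) (hD0 : 0 ≤ D) {C : ℝ} (hC0 : 0 ≤ C)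
    (hC : ∀ m : ℕ, 1 ≤ m → ∑ q ∈ S.filter (fun q => m ∣ d.g q), d.w q * q ≤ C / m ^ 2)
    {h : ℝ} (hh : 2 * ρ ≤ h) (T : ℝ) (hL : 0 ≤ d.Lam S) :
    ∫ y in (0 : ℝ)..1, |win (d.V S) h y - h * d.Lam S| ≤
      6 * √(8 * h * ρ * D * C) + 4 * ρ * d.Lam S + h * d.OV S T := by
  have hh0 : 0 ≤ h := by linarith
  set Zp : ℝ → ℝ := fun y => ∑ q ∈ S, d.w q * cntP q (d.g q) (h + 2 * ρ) y with hZp
  set Zm : ℝ → ℝ := fun y => ∑ q ∈ S, d.w q * cntP q (d.g q) (h - 2 * ρ) y with hZm
  set O : ℝ → ℝ := fun y => ∑ q ∈ S, ∑ q' ∈ S.erase q,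
    win ((d.A q ∩ Lo q T) ∩ (d.A q' ∩ Lo q' T)) h y + ∑ q ∈ S, win (d.A q ∩ (Lo q T)ᶜ) h y with hO
  have hmlo : ∀ q, MeasurableSet (d.A q ∩ Lo q T) := fun q =>
    (d.measurableSet_A q).inter (measurableSet_Lo q T)
  have hmhi : ∀ q, MeasurableSet (d.A q ∩ (Lo q T)ᶜ) := fun q =>
    (d.measurableSet_A q).inter (measurableSet_Lo q T).compl
  have hmll : ∀ q q', MeasurableSet ((d.A q ∩ Lo q T) ∩ (d.A q' ∩ Lo q' T)) := fun q q' =>
    (hmlo q).inter (hmlo q')
  have hup : ∀ y, win (d.V S) h y ≤ Zp (y - ρ) := by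
    intro y
    rw [win_eq (d.measurableSet_V S) hh0]
    unfold V
    rw [Set.iUnion₂_inter]
    refine (measureReal_biUnion_finset_le S _).trans (sum_le_sum fun q hq => ?_)
    exact volume_Arc_le (d.hU q) (d.hUx q) (hS q hq).1 (d.ha q (hS q hq).1) (hρ q hq) h y
  have hlow : ∀ y, Zm (y + ρ) ≤ win (d.V S) h y + O y := by
    intro y
    have h1 : Zm (y + ρ) ≤ ∑ q ∈ S, volume.real (d.A q ∩ Set.Ioc y (y + h)) :=
      sum_le_sum fun q hq => le_volume_Arc (d.hU q) (d.hUx q) (hS q hq).1 (d.ha q (hS q hq).1)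
        (hax q hq) (hρ q hq) h y
    have h2 : ∀ q ∈ S, volume.real (d.A q ∩ Set.Ioc y (y + h)) =
        volume.real ((d.A q ∩ Lo q T) ∩ Set.Ioc y (y + h)) + win (d.A q ∩ (Lo q T)ᶜ) h y := by
      intro q _
      rw [win_eq (hmhi q) hh0]
      have h3 := measureReal_inter_add_sdiff (μ := volume) (s := d.A q ∩ Set.Ioc y (y + h))
        (measurableSet_Lo q T) (h := winfin _ _ _)
      rw [← h3]
      congr 2
      · ext z; simp only [Set.mem_inter_iff]; tauto
      · ext z; simp only [Set.mem_inter_iff, Set.mem_sdiff, Set.mem_compl_iff]; tauto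
    rw [sum_congr rfl h2, sum_add_distrib] at h1
    have h4 := bonferroni S (fun q => (d.A q ∩ Lo q T) ∩ Set.Ioc y (y + h))
      (fun q _ => (hmlo q).inter measurableSet_Ioc) (fun q _ => winfin _ _ _)
    have h5 : volume.real (⋃ q ∈ S, (d.A q ∩ Lo q T) ∩ Set.Ioc y (y + h)) ≤ win (d.V S) h y := by
      rw [win_eq (d.measurableSet_V S) hh0]
      refine measureReal_mono ?_ (winfin _ _ _)
      intro z hz
      rw [Set.mem_iUnion₂] at hz
      obtain ⟨q, hq, hz⟩ := hz
      exact ⟨Set.mem_iUnion₂.2 ⟨q, hq, hz.1.1⟩, hz.2⟩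
    have h6 : ∑ q ∈ S, ∑ q' ∈ S.erase q, volume.real ((d.A q ∩ Lo q T) ∩ Set.Ioc y (y + h) ∩
        ((d.A q' ∩ Lo q' T) ∩ Set.Ioc y (y + h))) =
        ∑ q ∈ S, ∑ q' ∈ S.erase q, win ((d.A q ∩ Lo q T) ∩ (d.A q' ∩ Lo q' T)) h y := by
      refine sum_congr rfl fun q _ => sum_congr rfl fun q' _ => ?_
      rw [win_eq (hmll q q') hh0]
      congr 1
      ext z; simp only [Set.mem_inter_iff]; tauto
    rw [h6] at h4
    simp only [hO]
    linarith
  have hOnn : ∀ y, 0 ≤ O y := by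
    intro y
    simp only [hO]
    apply add_nonneg
    · exact sum_nonneg fun q _ => sum_nonneg fun q' _ => by
        rw [win_eq (hmll q q') hh0]; exact measureReal_nonneg
    · exact sum_nonneg fun q _ => by rw [win_eq (hmhi q) hh0]; exact measureReal_nonneg
  have hpt : ∀ y, |win (d.V S) h y - h * d.Lam S| ≤
      |Zp (y - ρ) - h * d.Lam S| + |Zm (y + ρ) - h * d.Lam S| + O y := by
    intro y
    have h1 := hup y
    have h2 := hlow y
    have h3 := hOnn y
    have h4 := le_abs_self (Zp (y - ρ) - h * d.Lam S)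
    have h5 := neg_abs_le (Zm (y + ρ) - h * d.Lam S)
    have h6 := abs_nonneg (Zp (y - ρ) - h * d.Lam S)
    have h7 := abs_nonneg (Zm (y + ρ) - h * d.Lam S)
    rw [abs_le]
    constructor <;> linarith
  -- measurability and bounds
  have hZmeas : ∀ h' : ℝ, 0 ≤ h' → Measurable (fun y => ∑ q ∈ S, d.w q * cntP q (d.g q) h' y) := by
    intro h' hh'
    refine Finset.measurable_sum _ fun q hq => ?_
    exact (measurable_cntP q (d.g q) (d.hg q (hS q hq).1).1 (d.hg q (hS q hq).1).2 hh').const_mul _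
  have hZper : ∀ h' : ℝ, 0 ≤ h' →
      Function.Periodic (fun y => |∑ q ∈ S, d.w q * cntP q (d.g q) h' y - h * d.Lam S|) 1 := by
    intro h' hh' y
    simp only
    congr 2
    refine sum_congr rfl fun q hq => ?_
    rw [cntP_periodic q (d.g q) (hS q hq).1 (d.hg q (hS q hq).1).1 (d.hg q (hS q hq).1).2 hh' y]
  have hcb : ∀ h' : ℝ, 0 ≤ h' → ∀ q ∈ S, ∀ y, |cntP q (d.g q) h' y| ≤
      ∑ m ∈ (d.g q).divisors, (1 + |((q / m : ℕ) : ℝ) * h'|) := by
    intro h' hh' q hq y
    rw [cntP_eq (d.hg q (hS q hq).1).1 (d.hg q (hS q hq).1).2 hh']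
    refine (abs_sum_le_sum_abs _ _).trans (sum_le_sum fun m _ => ?_)
    rw [abs_mul]
    have : |(moebius m : ℝ)| ≤ 1 := by
      have := abs_moebius_le_one (n := m)
      exact_mod_cast this
    calc _ ≤ 1 * (1 + |((q / m : ℕ) : ℝ) * h'|) := by
          apply mul_le_mul this (bdd_cnt _ _ _) (abs_nonneg _) zero_le_one
      _ = _ := one_mul _
  have hZbd : ∀ h' : ℝ, 0 ≤ h' → ∃ B : ℝ, ∀ y,
      |(∑ q ∈ S, d.w q * cntP q (d.g q) h' y) - h * d.Lam S| ≤ B := by
    intro h' hh'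
    refine ⟨∑ q ∈ S, d.w q * (∑ m ∈ (d.g q).divisors, (1 + |((q / m : ℕ) : ℝ) * h'|)) +
      |h * d.Lam S|, fun y => ?_⟩
    refine (abs_sub _ _).trans (add_le_add ?_ le_rfl)
    refine (abs_sum_le_sum_abs _ _).trans (sum_le_sum fun q hq => ?_)
    rw [abs_mul, abs_of_nonneg (d.w_nonneg (hS q hq).1)]
    exact mul_le_mul_of_nonneg_left (hcb h' hh' q hq y) (d.w_nonneg (hS q hq).1)
  have hp0 : 0 ≤ h + 2 * ρ := by linarith
  have hm0 : 0 ≤ h - 2 * ρ := by linarith
  -- integral of each piece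
  have hZint : ∀ h' : ℝ, 0 ≤ h' → h' ≤ 2 * h →
      ∫ y in (0 : ℝ)..1, |(∑ q ∈ S, d.w q * cntP q (d.g q) h' y) - h * d.Lam S| ≤
        3 * √(8 * h * ρ * D * C) + |h' - h| * d.Lam S := by
    intro h' hh' hh2
    have hb1 := integral_abs_cntP_le hQ hS (g := d.g) (fun q hq => d.hg q (hS q hq).1)
      (w := d.w) (fun q hq => d.w_nonneg (hS q hq).1) (wm := 2 * ρ) (D := D)
      (fun q hq => d.w_le (hS q hq).1 (hρ q hq)) (by linarith) hD hD0 hC0 hC hh'
    have hb2 : 3 * √(2 * h' * (2 * ρ) * D * C) ≤ 3 * √(8 * h * ρ * D * C) := by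
      refine mul_le_mul_of_nonneg_left (Real.sqrt_le_sqrt ?_) (by norm_num)
      have : 0 ≤ ρ * D * C := by positivity
      nlinarith
    obtain ⟨B, hB⟩ := hZbd h' hh'
    have hI1 : IntervalIntegrable (fun y => |(∑ q ∈ S, d.w q * cntP q (d.g q) h' y) - h * d.Lam S|)
        volume 0 1 := by
      apply intervalIntegrable_of_bdd ((hZmeas h' hh').sub_const _).abs (B := B)
      intro y; rw [abs_abs]; exact hB y
    have hI2 : IntervalIntegrable (fun y => |(∑ q ∈ S, d.w q * cntP q (d.g q) h' y) - h' * d.Lam S|)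
        volume 0 1 := by
      apply intervalIntegrable_of_bdd ((hZmeas h' hh').sub_const _).abs
        (B := B + |h * d.Lam S - h' * d.Lam S|)
      intro y; rw [abs_abs]
      calc |(∑ q ∈ S, d.w q * cntP q (d.g q) h' y) - h' * d.Lam S|
          = |((∑ q ∈ S, d.w q * cntP q (d.g q) h' y) - h * d.Lam S) +
            (h * d.Lam S - h' * d.Lam S)| := by congr 1; ring
        _ ≤ _ := (abs_add_le _ _).trans (add_le_add (hB y) le_rfl)
    calc ∫ y in (0 : ℝ)..1, |(∑ q ∈ S, d.w q * cntP q (d.g q) h' y) - h * d.Lam S|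
        ≤ ∫ y in (0 : ℝ)..1, (|(∑ q ∈ S, d.w q * cntP q (d.g q) h' y) - h' * d.Lam S| +
          |h' - h| * d.Lam S) := by
          apply intervalIntegral.integral_mono_on (by norm_num) hI1
            (hI2.add intervalIntegrable_const)
          intro y _
          calc |(∑ q ∈ S, d.w q * cntP q (d.g q) h' y) - h * d.Lam S|
              = |((∑ q ∈ S, d.w q * cntP q (d.g q) h' y) - h' * d.Lam S) +
                (h' - h) * d.Lam S| := by congr 1; ring
            _ ≤ _ := by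
                refine (abs_add_le _ _).trans (add_le_add le_rfl ?_)
                rw [abs_mul, abs_of_nonneg hL]
      _ = (∫ y in (0 : ℝ)..1, |(∑ q ∈ S, d.w q * cntP q (d.g q) h' y) - h' * d.Lam S|) +
          |h' - h| * d.Lam S := by
          rw [intervalIntegral.integral_add hI2 intervalIntegrable_const,
            intervalIntegral.integral_const]
          simp
      _ ≤ _ := by
          rw [← Lam] at hb1
          linarith
  obtain ⟨Bp, hBp⟩ := hZbd _ hp0
  obtain ⟨Bm, hBm⟩ := hZbd _ hm0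
  have hIp : IntervalIntegrable (fun y => |Zp (y - ρ) - h * d.Lam S|) volume 0 1 := by
    apply intervalIntegrable_of_bdd (B := Bp)
    · exact (((hZmeas _ hp0).comp (measurable_id.sub_const ρ)).sub_const _).abs
    · intro y; rw [abs_abs]; exact hBp _
  have hIm : IntervalIntegrable (fun y => |Zm (y + ρ) - h * d.Lam S|) volume 0 1 := by
    apply intervalIntegrable_of_bdd (B := Bm)
    · exact (((hZmeas _ hm0).comp (measurable_id.add_const ρ)).sub_const _).abs
    · intro y; rw [abs_abs]; exact hBm _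
  have hO1 : Continuous O := by
    simp only [hO]
    refine Continuous.add ?_ ?_
    · exact continuous_finsetSum _ fun q _ => continuous_finsetSum _ fun q' _ =>
        continuous_win (hmll q q') h
    · exact continuous_finsetSum _ fun q _ => continuous_win (hmhi q) h
  have hIO : IntervalIntegrable O volume 0 1 := hO1.intervalIntegrable _ _
  have hOint : ∫ y in (0 : ℝ)..1, O y = h * d.OV S T := by
    have hper1 : ∀ q ∈ S, ∀ q' ∈ S.erase q, ∀ y,
        y + 1 ∈ (d.A q ∩ Lo q T) ∩ (d.A q' ∩ Lo q' T) ↔ y ∈ (d.A q ∩ Lo q T) ∩ (d.A q' ∩ Lo q' T) := by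
      intro q hq q' hq' y
      simp only [Set.mem_inter_iff, d.A_add_one (hS q hq).1,
        d.A_add_one (hS q' (mem_of_mem_erase hq')).1, mem_Lo_add_one]
    have hper2 : ∀ q ∈ S, ∀ y, y + 1 ∈ d.A q ∩ (Lo q T)ᶜ ↔ y ∈ d.A q ∩ (Lo q T)ᶜ := by
      intro q hq y
      simp only [Set.mem_inter_iff, d.A_add_one (hS q hq).1, Set.mem_compl_iff, mem_Lo_add_one]
    simp only [hO]
    rw [intervalIntegral.integral_add, intervalIntegral.integral_finsetSum,
      intervalIntegral.integral_finsetSum]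
    · unfold OV
      rw [mul_add, mul_sum, mul_sum]
      congr 1
      · refine sum_congr rfl fun q hq => ?_
        rw [intervalIntegral.integral_finsetSum, mul_sum]
        · refine sum_congr rfl fun q' hq' => ?_
          rw [integral_win_periodic (hmll q q') (hper1 q hq q' hq') hh0]
        · intro q' _
          exact (continuous_win (hmll q q') h).intervalIntegrable _ _
      · refine sum_congr rfl fun q hq => ?_
        rw [integral_win_periodic (hmhi q) (hper2 q hq) hh0]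
    · intro q _
      exact (continuous_win (hmhi q) h).intervalIntegrable _ _
    · intro q _
      exact (continuous_finsetSum _ fun q' _ => continuous_win (hmll q q') h).intervalIntegrable _ _
    · exact (continuous_finsetSum _ fun q _ => continuous_finsetSum _ fun q' _ =>
        continuous_win (hmll q q') h).intervalIntegrable _ _
    · exact (continuous_finsetSum _ fun q _ => continuous_win (hmhi q) h).intervalIntegrable _ _
  have hsp : ∫ y in (0 : ℝ)..1, |Zp (y - ρ) - h * d.Lam S| =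
      ∫ y in (0 : ℝ)..1, |Zp y - h * d.Lam S| := by
    have := integral_shift (hZper _ hp0) (-ρ)
    simpa [hZp, sub_eq_add_neg] using this
  have hsm : ∫ y in (0 : ℝ)..1, |Zm (y + ρ) - h * d.Lam S| =
      ∫ y in (0 : ℝ)..1, |Zm y - h * d.Lam S| := integral_shift (hZper _ hm0) ρ
  have hcontW : Continuous (fun y => |win (d.V S) h y - h * d.Lam S|) :=
    ((continuous_win (d.measurableSet_V S) h).sub continuous_const).abs
  calc ∫ y in (0 : ℝ)..1, |win (d.V S) h y - h * d.Lam S|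
      ≤ ∫ y in (0 : ℝ)..1, (|Zp (y - ρ) - h * d.Lam S| + |Zm (y + ρ) - h * d.Lam S| + O y) := by
        apply intervalIntegral.integral_mono_on (by norm_num)
        · exact hcontW.intervalIntegrable _ _
        · exact (hIp.add hIm).add hIO
        · intro y _; exact hpt y
    _ = (∫ y in (0 : ℝ)..1, |Zp y - h * d.Lam S|) + (∫ y in (0 : ℝ)..1, |Zm y - h * d.Lam S|) +
        h * d.OV S T := by
        rw [intervalIntegral.integral_add (hIp.add hIm) hIO, intervalIntegral.integral_add hIp hIm,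
          hOint, hsp, hsm]
    _ ≤ (3 * √(8 * h * ρ * D * C) + |h + 2 * ρ - h| * d.Lam S) +
        (3 * √(8 * h * ρ * D * C) + |h - 2 * ρ - h| * d.Lam S) + h * d.OV S T := by
        gcongr
        · exact hZint _ hp0 (by linarith)
        · exact hZint _ hm0 (by linarith)
    _ = _ := by
        rw [show h + 2 * ρ - h = 2 * ρ by ring, show h - 2 * ρ - h = -(2 * ρ) by ring, abs_neg,
          abs_of_nonneg (by linarith : 0 ≤ 2 * ρ)]
        ring

end Sys

end Pool.Agent.KS6_2.LL
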