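import Pool.Agent.KS6_2.LL.Lim

open MeasureTheory Finset Filter Topology

namespace Pool.Agent.KS6_2.LL

lemma card_coprime_range (g k : ℕ) :
    ((range (k * g)).filter (fun r => Nat.Coprime g r)).card = k * Nat.totient g := by
  induction k with
  | zero => simp
  | succ k ih =>
    have e1 : range ((k + 1) * g) = range (k * g) ∪ Ico (k * g) (k * g + g) := by
      ext r
      simp only [mem_union, mem_range, mem_Ico]
      rw [add_mul, one_mul]
      omega
    rw [e1, filter_union, card_union_of_disjoint, ih, Nat.filter_coprime_Ico_eq_totient]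
    · ring
    · apply disjoint_filter_filter
      rw [disjoint_left]
      intro r
      simp only [mem_range, mem_Ico]
      omega

lemma card_prim {α : ℝ} {q : ℕ} (hq : 0 < q) :
    (((range q).filter (fun r => Nat.Coprime (gg α q) r)).card : ℝ) = q * ph α q := by
  obtain ⟨k, hk⟩ := gg_dvd α q
  have hg := gg_pos α hq
  have h1 := card_coprime_range (gg α q) k
  have e1 : k * gg α q = q := by rw [mul_comm]; exact hk.symm
  rw [e1] at h1
  rw [h1]
  unfold ph
  rw [sum_moebius_div hg]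
  have hg' : (gg α q : ℝ) ≠ 0 := by exact_mod_cast hg.ne'
  have e2 : (q : ℝ) = k * gg α q := by exact_mod_cast e1.symm
  rw [e2]
  push_cast
  field_simp

/-- first moment with the condition of primitivity -/
lemma fm_set {U : Set ℝ} (hU : MeasurableSet U) (hU0 : U ⊆ Set.Ioi 0) (hUf : volume U ≠ ⊤)
    {q g : ℕ} (hq : 0 < q) (hg : g ∣ q) {a : ℝ} (ha : 0 < a) :
    volume.real (Arc U q g a ∩ Set.Ioc 0 1) ≤
      ((range q).filter (fun r => Nat.Coprime g r)).card * (2 * volume.real U / (q * a)) := by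
  have hq' : (0 : ℝ) < q := by exact_mod_cast hq
  have hper : ∀ y, y + 1 ∈ Arc U q g a ↔ y ∈ Arc U q g a := fun y => mem_Arc_add_one hg a y
  rw [← volume_periodic' (measurableSet_Arc hU q g a) hper (-(1 / (2 * q)))]
  set R := (range q).filter (fun r => Nat.Coprime g r) with hR
  have hcf : ∀ r : ℕ, volume (Comp U q a (r : ℤ)) ≠ ⊤ := by
    intro r
    rw [volume_Comp hU hU0 hq ha]
    exact ENNReal.mul_ne_top ENNReal.ofReal_ne_top hUf
  have hUf2 : volume (⋃ r ∈ R, Comp U q a ((r : ℕ) : ℤ)) ≠ ⊤ :=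
    ((measure_biUnion_finset_le _ _).trans_lt (ENNReal.sum_lt_top.2 fun r _ =>
      (hcf r).lt_top)).ne
  have hsub : Arc U q g a ∩ Set.Ioc (-(1 / (2 * q))) (-(1 / (2 * q)) + 1) ⊆
      {-(1 / (2 * (q : ℝ))) + 1} ∪ ⋃ r ∈ R, Comp U q a ((r : ℕ) : ℤ) := by
    rintro y ⟨⟨h1, h2⟩, h3, h4⟩
    rcases h4.eq_or_lt with h5 | h5
    · left; exact h5
    right
    have h6 : -(1 / 2 : ℝ) < q * y := by
      have := mul_lt_mul_of_pos_left h3 hq'
      have e : (q : ℝ) * -(1 / (2 * q)) = -(1 / 2) := by field_simp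
      rwa [e] at this
    have h7 : (q : ℝ) * y < q - 1 / 2 := by
      have := mul_lt_mul_of_pos_left h5 hq'
      have e : (q : ℝ) * (-(1 / (2 * q)) + 1) = q - 1 / 2 := by field_simp; ring
      rwa [e] at this
    have h8 : 0 ≤ round ((q : ℝ) * y) := by
      rw [round_eq]; apply Int.floor_nonneg.2; linarith
    have h9 : round ((q : ℝ) * y) < q := by
      rw [round_eq, Int.floor_lt]; push_cast; linarith
    obtain ⟨r, hr⟩ := Int.eq_ofNat_of_zero_le h8
    rw [Set.mem_iUnion₂]
    refine ⟨r, ?_, ?_⟩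
    · rw [hR, mem_filter, mem_range]
      rw [hr] at h9 h2
      refine ⟨by exact_mod_cast h9, ?_⟩
      have : Int.gcd (g : ℤ) (r : ℤ) = 1 := h2
      rwa [Int.gcd_natCast_natCast] at this
    · show a * |(q : ℝ) * y - ((r : ℤ) : ℝ)| ∈ U
      have h10 : a * nint (q * y) ∈ U := h1
      unfold nint at h10
      rw [hr] at h10
      exact h10
  calc _ ≤ volume.real ({-(1 / (2 * (q : ℝ))) + 1} ∪ ⋃ r ∈ R, Comp U q a ((r : ℕ) : ℤ)) := by
        refine measureReal_mono hsub ?_
        refine ((measure_union_le _ _).trans_lt (ENNReal.add_lt_top.2 ⟨?_, hUf2.lt_top⟩)).ne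
        rw [Real.volume_singleton]; exact ENNReal.zero_lt_top
    _ ≤ volume.real {-(1 / (2 * (q : ℝ))) + 1} + volume.real (⋃ r ∈ R, Comp U q a ((r : ℕ) : ℤ)) :=
        measureReal_union_le _ _
    _ = volume.real (⋃ r ∈ R, Comp U q a ((r : ℕ) : ℤ)) := by
        have : volume.real {-(1 / (2 * (q : ℝ))) + 1} = 0 := by
          unfold Measure.real; rw [Real.volume_singleton]; rfl
        rw [this, zero_add]
    _ ≤ ∑ r ∈ R, volume.real (Comp U q a ((r : ℕ) : ℤ)) := measureReal_biUnion_finset_le _ _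
    _ = R.card * (2 * volume.real U / (q * a)) := by
        rw [sum_congr rfl fun (r : ℕ) _ => real_volume_Comp hU hU0 hq ha (r : ℤ), sum_const,
          nsmul_eq_mul]

/-- periodic sets over several periods -/
lemma volume_periods {X : Set ℝ} (hX : MeasurableSet X) (hper : ∀ y, y + 1 ∈ X ↔ y ∈ X) (A : ℕ) :
    volume.real (X ∩ Set.Ioc (-(A : ℝ)) A) = 2 * A * volume.real (X ∩ Set.Ioc 0 1) := by
  have h1 := periodic_chi hper
  have h2 := h1.intervalIntegral_add_zsmul_eq (2 * A : ℤ) (-(A : ℝ))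
    (fun t₁ t₂ => chi_integrable hX _ _)
  have e : -(A : ℝ) + (2 * A : ℤ) • (1 : ℝ) = A := by
    rw [zsmul_eq_mul]; push_cast; ring
  have hA0 : (0 : ℝ) ≤ A := Nat.cast_nonneg _
  rw [e, zsmul_eq_mul, h1.intervalIntegral_add_eq (-(A : ℝ)) 0, zero_add,
    intervalIntegral.integral_of_le (by linarith), intervalIntegral.integral_of_le zero_le_one] at h2
  have h3 := setIntegral_chi hX (Set.Ioc (-(A : ℝ)) A) 0
  have h4 := setIntegral_chi hX (Set.Ioc 0 1) 0
  simp only [add_zero] at h3 h4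
  rw [h3, h4] at h2
  rw [Set.inter_comm, Set.inter_comm X]
  push_cast at h2
  exact h2

/-- first moment of the hits of one denominator -/
lemma fm_prim {α N : ℝ} (hN : 0 < N) {c : ℝ} (hc : 0 < c) (h : Bad c α) {U : Set ℝ}
    (hU : MeasurableSet U) (hU0 : U ⊆ Set.Ioi 0) (hUf : volume U ≠ ⊤) {q : ℕ} (hq : 0 < q) (A : ℕ) :
    volume.real (Arc U q (gg α q) (N ^ 2 * (q * nint (q * α))) ∩ Set.Ioc (-(A : ℝ)) A) ≤
      2 * A * (2 * volume.real U / N ^ 2 * rr α q * ph α q) := by
  have hn := nint_pos_bad hc h (q := q) hq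
  have hq' : (0 : ℝ) < q := by exact_mod_cast hq
  rw [volume_periods (measurableSet_Arc hU _ _ _) (fun y => mem_Arc_add_one (gg_dvd α q) _ y)]
  apply mul_le_mul_of_nonneg_left _ (by positivity)
  refine (fm_set hU hU0 hUf hq (gg_dvd α q) (by positivity)).trans (le_of_eq ?_)
  rw [card_prim hq]
  unfold rr
  field_simp

/-- first moment without primitivity: measure version -/
lemma fm_all {N : ℝ} (hN : 0 < N) {α c : ℝ} (hc : 0 < c) (h : Bad c α) {q : ℕ} (hq : 0 < q) (A : ℕ)
    {f : ℝ → ENNReal} (hf : Measurable f) :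
    ∫⁻ y in Set.Ioc (-(A : ℝ)) A, f (N ^ 2 * (q * nint (q * α)) * nint (q * y)) ≤
      ENNReal.ofReal (4 * A / N ^ 2 * rr α q) * ∫⁻ x in Set.Ioi 0, f x := by
  have hn := nint_pos_bad hc h (q := q) hq
  have hq' : (0 : ℝ) < q := by exact_mod_cast hq
  set a : ℝ := N ^ 2 * (q * nint (q * α)) with ha
  have ha0 : 0 < a := by positivity
  have hmeas : Measurable (fun y : ℝ => a * nint (q * y)) :=
    measurable_const.mul (measurable_nint'.comp (measurable_const.mul measurable_id))
  have hrr : 4 * A / N ^ 2 * rr α q = 2 * A * (2 / a) := by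
    unfold rr; rw [ha]; field_simp; ring
  have hle : (volume.restrict (Set.Ioc (-(A : ℝ)) A)).map (fun y : ℝ => a * nint (q * y)) ≤
      ENNReal.ofReal (4 * A / N ^ 2 * rr α q) • volume.restrict (Set.Ioi 0) := by
    rw [Measure.le_iff]
    intro D hD
    rw [Measure.map_apply hmeas hD, Measure.restrict_apply (hmeas hD), Measure.smul_apply,
      Measure.restrict_apply hD, smul_eq_mul]
    rcases eq_or_ne (volume (D ∩ Set.Ioi 0)) ⊤ with htop | htop
    · rcases eq_or_ne (ENNReal.ofReal (4 * A / N ^ 2 * rr α q)) 0 with h0 | h0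
      · have hA : A = 0 := by
          rw [ENNReal.ofReal_eq_zero, hrr] at h0
          by_contra hA
          have : (0 : ℝ) < A := by exact_mod_cast Nat.pos_of_ne_zero hA
          have : 0 < 2 * (A : ℝ) * (2 / a) := by positivity
          linarith
        rw [hA]; simp
      · rw [htop, ENNReal.mul_top h0]; exact le_top
    · have h1 : (fun y : ℝ => a * nint (q * y)) ⁻¹' D ∩ Set.Ioc (-(A : ℝ)) A ⊆
          (Arc (D ∩ Set.Ioi 0) q 1 a ∩ Set.Ioc (-(A : ℝ)) A) ∪
          ⋃ n : ℤ, {(n : ℝ) / q} := by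
        rintro y ⟨h2, h3⟩
        rcases (nint_nonneg ((q : ℝ) * y)).eq_or_lt with h4 | h4
        · right
          rw [Set.mem_iUnion]
          refine ⟨round ((q : ℝ) * y), ?_⟩
          rw [Set.mem_singleton_iff, eq_div_iff hq'.ne']
          unfold nint at h4
          have := abs_eq_zero.1 h4.symm
          linarith
        · left
          refine ⟨⟨⟨h2, mul_pos ha0 h4⟩, ?_⟩, h3⟩
          simp
      have h2 : volume (⋃ n : ℤ, {(n : ℝ) / q}) = 0 := by
        rw [measure_iUnion_null_iff]; intro n; exact Real.volume_singleton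
      have h3 : volume (Arc (D ∩ Set.Ioi 0) q 1 a ∩ Set.Ioc (-(A : ℝ)) A) ≤
          ENNReal.ofReal (4 * A / N ^ 2 * rr α q) * volume (D ∩ Set.Ioi 0) := by
        have hD' : MeasurableSet (D ∩ Set.Ioi (0 : ℝ)) := hD.inter measurableSet_Ioi
        have h4 := fm_set hD' Set.inter_subset_right htop hq (one_dvd q) ha0
        have h5 := volume_periods (measurableSet_Arc hD' q 1 a)
          (fun y => mem_Arc_add_one (one_dvd q) a y) A
        have h6 : (((range q).filter (fun r => Nat.Coprime 1 r)).card : ℝ) = q := by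
          have : (range q).filter (fun r => Nat.Coprime 1 r) = range q := by
            apply filter_true_of_mem; intro r _; exact Nat.coprime_one_left r
          rw [this, card_range]
        rw [h6] at h4
        have hfin : volume (Arc (D ∩ Set.Ioi 0) q 1 a ∩ Set.Ioc (-(A : ℝ)) A) ≠ ⊤ :=
          ne_top_of_le_ne_top (by rw [Real.volume_Ioc]; exact ENNReal.ofReal_ne_top)
            (measure_mono Set.inter_subset_right)
        rw [← ENNReal.ofReal_toReal hfin, ← ENNReal.ofReal_toReal htop,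
          ← ENNReal.ofReal_mul (by rw [hrr]; positivity)]
        apply ENNReal.ofReal_le_ofReal
        have h7 : volume.real (Arc (D ∩ Set.Ioi 0) q 1 a ∩ Set.Ioc (-(A : ℝ)) A) ≤
            4 * A / N ^ 2 * rr α q * volume.real (D ∩ Set.Ioi 0) := by
          rw [h5, hrr]
          calc _ ≤ 2 * A * (q * (2 * volume.real (D ∩ Set.Ioi 0) / (q * a))) := by gcongr
            _ = _ := by field_simp
        exact h7
      calc _ ≤ volume ((Arc (D ∩ Set.Ioi 0) q 1 a ∩ Set.Ioc (-(A : ℝ)) A) ∪
          ⋃ n : ℤ, {(n : ℝ) / q}) := measure_mono h1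
        _ ≤ _ := measure_union_le _ _
        _ ≤ _ := by rw [h2, add_zero]; exact h3
  calc ∫⁻ y in Set.Ioc (-(A : ℝ)) A, f (a * nint (q * y))
      = ∫⁻ x, f x ∂((volume.restrict (Set.Ioc (-(A : ℝ)) A)).map (fun y : ℝ => a * nint (q * y))) :=
        (lintegral_map hf hmeas).symm
    _ ≤ ∫⁻ x, f x ∂(ENNReal.ofReal (4 * A / N ^ 2 * rr α q) • volume.restrict (Set.Ioi 0)) :=
        lintegral_mono' hle le_rfl
    _ = _ := by rw [lintegral_smul_measure, smul_eq_mul]

end Pool.Agent.KS6_2.LL
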