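import Pool.Agent.KS6_2.LL.Apx

open MeasureTheory Finset Filter Topology

set_option linter.unusedSectionVars false

namespace Pool.Agent.KS6_2.LL

/-- the normalised value -/
noncomputable def val (α : ℝ) (Q q : ℕ) (β : ℝ) : ℝ :=
  Real.log Q ^ 2 * (q * nint (q * α)) * nint (q * β)

/-- the denominators of the primitive triples -/
noncomputable def PQ (α : ℝ) (Q : ℕ) (β : ℝ) : Finset ℕ :=
  (Icc 1 Q).filter (fun q => Int.gcd (gg α q) (round ((q : ℝ) * β)) = 1)

lemma mem_Hit {α : ℝ} {U : ℕ → Set ℝ} {Q : ℕ} {y : ℝ} :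
    y ∈ Hit α U Q ↔ ∃ q ∈ PQ α Q y, val α Q q y ∈ U q := by
  unfold Hit PQ val
  simp only [Set.mem_ofPred_eq, mem_filter]
  constructor
  · rintro ⟨q, h1, h2, h3⟩; exact ⟨q, ⟨h1, h3⟩, h2⟩
  · rintro ⟨q, ⟨h1, h3⟩, h2⟩; exact ⟨q, h1, h2, h3⟩

lemma measurable_val (α : ℝ) (Q q : ℕ) : Measurable (val α Q q) :=
  measurable_const.mul (measurable_nint'.comp (measurable_const.mul measurable_id))

lemma measurableSet_prim (α : ℝ) (q : ℕ) :
    MeasurableSet {β : ℝ | Int.gcd (gg α q) (round ((q : ℝ) * β)) = 1} := by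
  have : Measurable (fun y : ℝ => round ((q : ℝ) * y)) :=
    measurable_round.comp (measurable_const.mul measurable_id)
  exact this (MeasurableSet.of_discrete (s := {r : ℤ | Int.gcd (gg α q) r = 1}))

lemma measurable_prod_PQ (α : ℝ) (Q : ℕ) {f : ℕ → ℝ → ℝ} (hf : ∀ q, Measurable (f q)) :
    Measurable (fun β => ∏ q ∈ PQ α Q β, f q (val α Q q β)) := by
  unfold PQ
  simp only [prod_filter]
  refine Finset.measurable_prod _ fun q _ => ?_
  exact Measurable.ite (measurableSet_prim α q) ((hf q).comp (measurable_val α Q q))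
    measurable_const

section pieces

variable {ι J : Type*} [Fintype ι] [Fintype J] [DecidableEq ι] [DecidableEq J]

/-- the pieces -/
def Vp (lab : ι → ℝ → J) (X : ℝ) (i : ι × J) : Set ℝ := {x | x ∈ Set.Ioc 0 X ∧ lab i.1 x = i.2}

/-- the family belonging to a piece -/
def Up (lab : ι → ℝ → J) (X : ℝ) (κ : ℕ → ι) (i : ι × J) (q : ℕ) : Set ℝ :=
  if κ q = i.1 then Vp lab X i else ∅

/-- the union of the pieces in `I` -/
def UI (lab : ι → ℝ → J) (X : ℝ) (I : Finset (ι × J)) (j : ι) : Set ℝ :=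
  {x | x ∈ Set.Ioc 0 X ∧ (j, lab j x) ∈ I}

variable [MeasurableSpace J] [MeasurableSingletonClass J]

lemma measurableSet_Vp {lab : ι → ℝ → J} (hlab : ∀ j, Measurable (lab j)) (X : ℝ) (i : ι × J) :
    MeasurableSet (Vp lab X i) :=
  measurableSet_Ioc.inter (hlab i.1 (measurableSet_singleton i.2))

lemma measurableSet_UI {lab : ι → ℝ → J} (hlab : ∀ j, Measurable (lab j)) (X : ℝ)
    (I : Finset (ι × J)) (j : ι) : MeasurableSet (UI lab X I j) :=
  measurableSet_Ioc.inter (hlab j (Set.toFinite {p : J | (j, p) ∈ I}).measurableSet)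

lemma Vp_ne_top (lab : ι → ℝ → J) (X : ℝ) (i : ι × J) : volume (Vp lab X i) ≠ ⊤ :=
  ne_top_of_le_ne_top (by rw [Real.volume_Ioc]; exact ENNReal.ofReal_ne_top)
    (measure_mono (fun _ h => h.1))

lemma vol_UI {lab : ι → ℝ → J} (hlab : ∀ j, Measurable (lab j)) (X : ℝ)
    (I : Finset (ι × J)) (j : ι) :
    volume.real (UI lab X I j) = ∑ i ∈ I, (if j = i.1 then volume.real (Vp lab X i) else 0) := by
  have e1 : UI lab X I j = ⋃ i ∈ I.filter (fun i => j = i.1), Vp lab X i := by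
    ext x
    simp only [UI, Vp, Set.mem_ofPred_eq, Set.mem_iUnion₂, mem_filter]
    constructor
    · rintro ⟨h1, h2⟩; exact ⟨(j, lab j x), ⟨h2, rfl⟩, h1, rfl⟩
    · rintro ⟨i, ⟨h1, h2⟩, h3, h4⟩
      refine ⟨h3, ?_⟩
      rw [h2, h4]; exact h1
  rw [e1, measureReal_biUnion_finset (h := fun i _ => Vp_ne_top lab X i)]
  · rw [sum_filter]
  · intro i hi i' hi' hne
    rw [Function.onFun, Set.disjoint_left]
    intro x h1 h2
    apply hne
    have h3 := (mem_filter.1 (mem_coe.1 hi)).2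
    have h4 := (mem_filter.1 (mem_coe.1 hi')).2
    have h5 : i.1 = i'.1 := h3.symm.trans h4
    have h6 := h1.2
    have h7 := h2.2
    rw [h5] at h6
    exact Prod.ext h5 (h6.symm.trans h7)
  · intro i _; exact measurableSet_Vp hlab X i

lemma vol_Up (lab : ι → ℝ → J) (X : ℝ) (κ : ℕ → ι) (i : ι × J) (q : ℕ) :
    volume.real (Up lab X κ i q) = if κ q = i.1 then volume.real (Vp lab X i) else 0 := by
  unfold Up
  split_ifs
  · rfl
  · simp

lemma lam_UI {lab : ι → ℝ → J} (hlab : ∀ j, Measurable (lab j)) (α X : ℝ) (κ : ℕ → ι)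
    (I : Finset (ι × J)) (Q : ℕ) :
    lam α (fun q => UI lab X I (κ q)) Q = ∑ i ∈ I, lam α (Up lab X κ i) Q := by
  unfold lam
  rw [sum_comm]
  refine sum_congr rfl fun q _ => ?_
  rw [vol_UI hlab]
  simp only [vol_Up]
  rw [mul_sum, sum_div, sum_mul, sum_mul]

lemma not_mem_Hit_UI (lab : ι → ℝ → J) (α X : ℝ) (κ : ℕ → ι) (I : Finset (ι × J)) (Q : ℕ) (y : ℝ) :
    y ∉ Hit α (fun q => UI lab X I (κ q)) Q ↔ ∀ i ∈ I, y ∉ Hit α (Up lab X κ i) Q := by
  constructor
  · intro h i hi hy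
    apply h
    rw [mem_Hit] at hy ⊢
    obtain ⟨q, hq, h1⟩ := hy
    refine ⟨q, hq, ?_⟩
    unfold Up at h1
    split_ifs at h1 with h2
    · refine ⟨h1.1, ?_⟩
      rw [h2, h1.2]; exact hi
    · exact absurd h1 (Set.notMem_empty _)
  · intro h hy
    rw [mem_Hit] at hy
    obtain ⟨q, hq, h1, h2⟩ := hy
    apply h _ h2
    rw [mem_Hit]
    refine ⟨q, hq, ?_⟩
    unfold Up
    rw [if_pos rfl]
    exact ⟨h1, rfl⟩

lemma measurableSet_Hit_Up {lab : ι → ℝ → J} (hlab : ∀ j, Measurable (lab j)) (α X : ℝ)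
    (κ : ℕ → ι) (i : ι × J) (Q : ℕ) : MeasurableSet (Hit α (Up lab X κ i) Q) := by
  apply measurableSet_Hit
  intro q
  unfold Up
  split_ifs
  · exact measurableSet_Vp hlab X i
  · exact MeasurableSet.empty

/-- the product over the pieces -/
noncomputable def Pp (lab : ι → ℝ → J) (α X : ℝ) (κ : ℕ → ι) (z : ι × J → ℝ) (Q : ℕ) (y : ℝ) : ℝ :=
  ∏ i, ((1 - z i) * (1 - chi (Hit α (Up lab X κ i) Q) y) + z i)

lemma Pp_expand (lab : ι → ℝ → J) (α X : ℝ) (κ : ℕ → ι) (z : ι × J → ℝ) (Q : ℕ) (y : ℝ) :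
    Pp lab α X κ z Q y = ∑ I ∈ (univ : Finset (ι × J)).powerset,
      ((∏ i ∈ I, (1 - z i)) * ∏ i ∈ univ \ I, z i) *
        (1 - chi (Hit α (fun q => UI lab X I (κ q)) Q) y) := by
  unfold Pp
  rw [prod_add]
  refine sum_congr rfl fun I _ => ?_
  rw [prod_mul_distrib]
  have e1 : ∏ i ∈ I, (1 - chi (Hit α (Up lab X κ i) Q) y) =
      1 - chi (Hit α (fun q => UI lab X I (κ q)) Q) y := by
    by_cases h : y ∈ Hit α (fun q => UI lab X I (κ q)) Q
    · have h2 : ¬ ∀ i ∈ I, y ∉ Hit α (Up lab X κ i) Q := fun h3 =>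
        (not_mem_Hit_UI lab α X κ I Q y).2 h3 h
      push Not at h2
      obtain ⟨i, hi, h3⟩ := h2
      rw [prod_eq_zero hi]
      · unfold chi; rw [Set.indicator_of_mem h]; ring
      · unfold chi; rw [Set.indicator_of_mem h3]; ring
    · have h2 := (not_mem_Hit_UI lab α X κ I Q y).1 h
      rw [prod_eq_one]
      · unfold chi; rw [Set.indicator_of_notMem h]; ring
      · intro i hi
        unfold chi; rw [Set.indicator_of_notMem (h2 i hi)]; ring
  rw [e1]; ring

lemma integral_one_sub_chi {X E : Set ℝ} (hX : MeasurableSet X) (hE : MeasurableSet E)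
    (hEf : volume E ≠ ⊤) : ∫ y in E, (1 - chi X y) = volume.real (E \ X) := by
  have e1 : (fun y => 1 - chi X y) = Xᶜ.indicator (fun _ => (1 : ℝ)) := by
    funext y
    unfold chi
    by_cases h : y ∈ X
    · rw [Set.indicator_of_mem h, Set.indicator_of_notMem (Set.notMem_compl_iff.2 h)]; ring
    · rw [Set.indicator_of_notMem h, Set.indicator_of_mem h]; ring
  rw [e1, integral_indicator hX.compl, Measure.restrict_restrict hX.compl, setIntegral_const,
    smul_eq_mul, mul_one]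
  congr 1
  ext y; simp only [Set.mem_inter_iff, Set.mem_compl_iff, Set.mem_sdiff]; tauto

/-- **step 3** -/
theorem pieces_unif {c α : ℝ} (hc : 0 < c) (h : Bad c α) {lab : ι → ℝ → J}
    (hlab : ∀ j, Measurable (lab j)) (X : ℝ) {z : ι × J → ℝ} (hz : ∀ i, 0 ≤ z i ∧ z i ≤ 1)
    {E : Set ℝ} (hE : MeasurableSet E) (hEf : volume E ≠ ⊤) {ε : ℝ} (hε : 0 < ε) :
    ∀ᶠ Q : ℕ in atTop, ∀ κ : ℕ → ι,
      |(∫ y in E, Pp lab α X κ z Q y) - volume.real E *
        ∏ i, ((1 - z i) * Real.exp (-lam α (Up lab X κ i) Q) + z i)| ≤ ε := by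
  have h1 : ∀ᶠ Q : ℕ in atTop, ∀ I ∈ (univ : Finset (ι × J)).powerset, ∀ κ : ℕ → ι,
      |volume.real (E \ Hit α (fun q => UI lab X I (κ q)) Q) -
        volume.real E * Real.exp (-lam α (fun q => UI lab X I (κ q)) Q)| ≤ ε := by
    rw [Filter.eventually_all_finset]
    intro I _
    exact void_unif hc h (U := UI lab X I) (fun j => measurableSet_UI hlab X I j)
      (fun j x hx => hx.1.1)
      (fun j => ne_top_of_le_ne_top (by rw [Real.volume_Ioc]; exact ENNReal.ofReal_ne_top)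
        (measure_mono (fun _ h => h.1))) hE hEf hε
  filter_upwards [h1] with Q hQ κ
  set cI : Finset (ι × J) → ℝ := fun I => (∏ i ∈ I, (1 - z i)) * ∏ i ∈ univ \ I, z i with hcI
  have hcI0 : ∀ I, 0 ≤ cI I := by
    intro I
    exact mul_nonneg (prod_nonneg fun i _ => by linarith [(hz i).2])
      (prod_nonneg fun i _ => (hz i).1)
  have hsum : ∑ I ∈ (univ : Finset (ι × J)).powerset, cI I = 1 := by
    have := prod_add (fun i : ι × J => 1 - z i) z univ
    rw [← this]
    simp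
  have e1 : ∫ y in E, Pp lab α X κ z Q y = ∑ I ∈ (univ : Finset (ι × J)).powerset,
      cI I * volume.real (E \ Hit α (fun q => UI lab X I (κ q)) Q) := by
    simp only [Pp_expand]
    rw [integral_finsetSum]
    · refine sum_congr rfl fun I _ => ?_
      rw [integral_const_mul, integral_one_sub_chi (measurableSet_Hit
        (fun q => measurableSet_UI hlab X I _) Q) hE hEf]
    · intro I _
      apply Integrable.const_mul
      have : IsFiniteMeasure (volume.restrict E) := ⟨by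
        rw [Measure.restrict_apply_univ]; exact hEf.lt_top⟩
      refine Integrable.of_bound (C := 1)
        ((measurable_const.sub (measurable_chi (measurableSet_Hit
          (fun q => measurableSet_UI hlab X I _) Q))).aestronglyMeasurable) ?_
      filter_upwards with y
      rw [Real.norm_eq_abs, abs_of_nonneg (by linarith [chi_le_one (Hit α (fun q => UI lab X I (κ q)) Q) y])]
      linarith [chi_nonneg (Hit α (fun q => UI lab X I (κ q)) Q) y]
  have e2 : ∏ i, ((1 - z i) * Real.exp (-lam α (Up lab X κ i) Q) + z i) =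
      ∑ I ∈ (univ : Finset (ι × J)).powerset,
        cI I * Real.exp (-lam α (fun q => UI lab X I (κ q)) Q) := by
    rw [prod_add]
    refine sum_congr rfl fun I _ => ?_
    rw [prod_mul_distrib, lam_UI hlab, ← Real.exp_sum, sum_neg_distrib]
    simp only [hcI]
    ring
  rw [e1, e2, mul_sum, ← sum_sub_distrib]
  calc _ ≤ ∑ I ∈ (univ : Finset (ι × J)).powerset,
      |cI I * volume.real (E \ Hit α (fun q => UI lab X I (κ q)) Q) -
        volume.real E * (cI I * Real.exp (-lam α (fun q => UI lab X I (κ q)) Q))| :=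
        abs_sum_le_sum_abs _ _
    _ ≤ ∑ I ∈ (univ : Finset (ι × J)).powerset, cI I * ε := by
        refine sum_le_sum fun I hI => ?_
        have e3 : cI I * volume.real (E \ Hit α (fun q => UI lab X I (κ q)) Q) -
          volume.real E * (cI I * Real.exp (-lam α (fun q => UI lab X I (κ q)) Q)) =
          cI I * (volume.real (E \ Hit α (fun q => UI lab X I (κ q)) Q) -
          volume.real E * Real.exp (-lam α (fun q => UI lab X I (κ q)) Q)) := by ring
        rw [e3, abs_mul, abs_of_nonneg (hcI0 I)]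
        exact mul_le_mul_of_nonneg_left (hQ I hI κ) (hcI0 I)
    _ = ε := by rw [← sum_mul, hsum, one_mul]

/-- the number of hits in a piece -/
noncomputable def Np (lab : ι → ℝ → J) (α X : ℝ) (κ : ℕ → ι) (Q : ℕ) (i : ι × J) (y : ℝ) : ℕ :=
  ((PQ α Q y).filter (fun q => κ q = i.1 ∧ 0 < val α Q q y ∧ val α Q q y ≤ X ∧
    lab i.1 (val α Q q y) = i.2)).card

end pieces

end Pool.Agent.KS6_2.LL
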