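import Pool.Agent.KS6_2.LL.Gen

open MeasureTheory Finset Filter Topology

set_option linter.unusedSectionVars false

namespace Pool.Agent.KS6_2.LL

lemma prod_diff {ι : Type*} (s : Finset ι) (a b : ι → ℝ)
    (ha : ∀ i ∈ s, 0 ≤ a i ∧ a i ≤ 1) (hb : ∀ i ∈ s, 0 ≤ b i ∧ b i ≤ 1) :
    |∏ i ∈ s, a i - ∏ i ∈ s, b i| ≤ ∑ i ∈ s, |a i - b i| := by
  classical
  induction s using Finset.induction_on with
  | empty => simp
  | insert j s hj ih =>
    rw [prod_insert hj, prod_insert hj, sum_insert hj]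
    have h1 := ih (fun i hi => ha i (mem_insert_of_mem hi)) (fun i hi => hb i (mem_insert_of_mem hi))
    have h2 := ha j (mem_insert_self _ _)
    have h3 := hb j (mem_insert_self _ _)
    have hA1 : ∏ i ∈ s, a i ≤ 1 :=
      prod_le_one (fun i hi => (ha i (mem_insert_of_mem hi)).1)
        (fun i hi => (ha i (mem_insert_of_mem hi)).2)
    have hA0 : 0 ≤ ∏ i ∈ s, a i := prod_nonneg fun i hi => (ha i (mem_insert_of_mem hi)).1
    have e : a j * ∏ i ∈ s, a i - b j * ∏ i ∈ s, b i =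
        (a j - b j) * ∏ i ∈ s, a i + b j * (∏ i ∈ s, a i - ∏ i ∈ s, b i) := by ring
    rw [e]
    refine (abs_add_le _ _).trans (add_le_add ?_ ?_)
    · rw [abs_mul, abs_of_nonneg hA0]
      calc _ ≤ |a j - b j| * 1 := mul_le_mul_of_nonneg_left hA1 (abs_nonneg _)
        _ = _ := mul_one _
    · rw [abs_mul, abs_of_nonneg h3.1]
      calc _ ≤ 1 * |∏ i ∈ s, a i - ∏ i ∈ s, b i| := mul_le_mul_of_nonneg_right h3.2 (abs_nonneg _)
        _ ≤ _ := by rw [one_mul]; exact h1

lemma factor_diff {z l : ℝ} (hz0 : 0 ≤ z) (hz1 : z ≤ 1) (hl0 : 0 ≤ l) (hl1 : l ≤ 1) :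
    |((1 - z) * Real.exp (-l) + z) - Real.exp (-((1 - z) * l))| ≤ 2 * l ^ 2 := by
  have h1 := exp_sub_le hl0 hl1
  have hzl0 : 0 ≤ (1 - z) * l := mul_nonneg (by linarith) hl0
  have hzl1 : (1 - z) * l ≤ l := by nlinarith
  have h2 := exp_sub_le hzl0 (hzl1.trans hl1)
  have e : ((1 - z) * Real.exp (-l) + z) - Real.exp (-((1 - z) * l)) =
      (1 - (1 - z) * l - Real.exp (-((1 - z) * l))) - (1 - z) * (1 - l - Real.exp (-l)) := by ring
  rw [e]
  refine (abs_sub _ _).trans ?_
  have h3 : |(1 - z) * (1 - l - Real.exp (-l))| ≤ l ^ 2 := by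
    rw [abs_mul, abs_of_nonneg (by linarith : 0 ≤ 1 - z)]
    calc _ ≤ 1 * |1 - l - Real.exp (-l)| := mul_le_mul_of_nonneg_right (by linarith) (abs_nonneg _)
      _ ≤ _ := by rw [one_mul]; exact h1
  have h4 : ((1 - z) * l) ^ 2 ≤ l ^ 2 := by gcongr
  linarith

section pieces

variable {ι J : Type*} [Fintype ι] [Fintype J] [DecidableEq ι] [DecidableEq J]

/-- the step function -/
noncomputable def psi (lab : ι → ℝ → J) (X : ℝ) (z : ι × J → ℝ) (j : ι) (x : ℝ) : ℝ :=
  if 0 < x ∧ x ≤ X then z (j, lab j x) else 1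

/-- the product over the denominators -/
noncomputable def Gp (lab : ι → ℝ → J) (α X : ℝ) (κ : ℕ → ι) (z : ι × J → ℝ) (Q : ℕ) (y : ℝ) : ℝ :=
  ∏ q ∈ PQ α Q y, psi lab X z (κ q) (val α Q q y)

lemma Gp_eq (lab : ι → ℝ → J) (α X : ℝ) (κ : ℕ → ι) (z : ι × J → ℝ) (Q : ℕ) (y : ℝ) :
    Gp lab α X κ z Q y = ∏ i, z i ^ Np lab α X κ Q i y := by
  unfold Gp Np
  have e1 : ∀ i : ι × J, z i ^ ((PQ α Q y).filter (fun q => κ q = i.1 ∧ 0 < val α Q q y ∧
      val α Q q y ≤ X ∧ lab i.1 (val α Q q y) = i.2)).card =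
      ∏ q ∈ PQ α Q y, (if κ q = i.1 ∧ 0 < val α Q q y ∧
      val α Q q y ≤ X ∧ lab i.1 (val α Q q y) = i.2 then z i else 1) := by
    intro i
    rw [← prod_filter, prod_const]
  rw [prod_congr rfl fun i _ => e1 i, Finset.prod_comm]
  refine prod_congr rfl fun q _ => ?_
  unfold psi
  by_cases h : 0 < val α Q q y ∧ val α Q q y ≤ X
  · rw [if_pos h]
    have e2 : ∀ i : ι × J, (if κ q = i.1 ∧ 0 < val α Q q y ∧
        val α Q q y ≤ X ∧ lab i.1 (val α Q q y) = i.2 then z i else 1) =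
        if (κ q, lab (κ q) (val α Q q y)) = i then z i else 1 := by
      intro i
      congr 1
      apply propext
      constructor
      · rintro ⟨h1, _, _, h2⟩
        exact Prod.ext h1 (by simp only; rw [h1]; exact h2)
      · rintro rfl
        exact ⟨rfl, h.1, h.2, rfl⟩
    rw [prod_congr rfl fun i _ => e2 i, prod_ite_eq univ, if_pos (mem_univ _)]
  · rw [if_neg h, prod_eq_one]
    intro i _
    rw [if_neg]
    rintro ⟨_, h1, h2, _⟩
    exact h ⟨h1, h2⟩

lemma chi_Hit (lab : ι → ℝ → J) (α X : ℝ) (κ : ℕ → ι) (Q : ℕ) (i : ι × J) (y : ℝ) :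
    chi (Hit α (Up lab X κ i) Q) y = if Np lab α X κ Q i y = 0 then 0 else 1 := by
  have h1 : y ∈ Hit α (Up lab X κ i) Q ↔ Np lab α X κ Q i y ≠ 0 := by
    rw [mem_Hit]
    unfold Np
    rw [Ne, card_eq_zero, ← Ne, ← nonempty_iff_ne_empty]
    constructor
    · rintro ⟨q, hq, h2⟩
      unfold Up at h2
      split_ifs at h2 with h3
      · exact ⟨q, mem_filter.2 ⟨hq, h3, h2.1.1, h2.1.2, h2.2⟩⟩
      · exact absurd h2 (Set.notMem_empty _)
    · rintro ⟨q, hq⟩
      obtain ⟨h2, h3, h4, h5, h6⟩ := mem_filter.1 hq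
      refine ⟨q, h2, ?_⟩
      unfold Up
      rw [if_pos h3]
      exact ⟨⟨h4, h5⟩, h6⟩
  unfold chi
  split_ifs with h
  · exact Set.indicator_of_notMem (fun h2 => (h1.1 h2) h) _
  · exact Set.indicator_of_mem (h1.2 h) _

lemma Gp_sub_Pp (lab : ι → ℝ → J) (α X : ℝ) (κ : ℕ → ι) {z : ι × J → ℝ}
    (hz : ∀ i, 0 ≤ z i ∧ z i ≤ 1) (Q : ℕ) (y : ℝ) :
    |Gp lab α X κ z Q y - Pp lab α X κ z Q y| ≤
      ∑ i, ((Np lab α X κ Q i y : ℝ) - chi (Hit α (Up lab X κ i) Q) y) := by
  have hnn : ∀ i ∈ (univ : Finset (ι × J)),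
      0 ≤ (Np lab α X κ Q i y : ℝ) - chi (Hit α (Up lab X κ i) Q) y := by
    intro i _
    rw [chi_Hit]
    split_ifs with h
    · rw [h]; simp
    · have : (1 : ℝ) ≤ Np lab α X κ Q i y := by exact_mod_cast Nat.one_le_iff_ne_zero.2 h
      linarith
  rw [Gp_eq]
  unfold Pp
  by_cases hall : ∀ i, Np lab α X κ Q i y ≤ 1
  · have e1 : ∏ i, z i ^ Np lab α X κ Q i y =
        ∏ i, ((1 - z i) * (1 - chi (Hit α (Up lab X κ i) Q) y) + z i) := by
      refine prod_congr rfl fun i _ => ?_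
      rw [chi_Hit]
      split_ifs with h
      · rw [h]; simp
      · have : Np lab α X κ Q i y = 1 := by have := hall i; omega
        rw [this]; simp
    rw [e1, sub_self, abs_zero]
    exact sum_nonneg hnn
  · push Not at hall
    obtain ⟨i0, hi0⟩ := hall
    have h1 : (1 : ℝ) ≤ ∑ i, ((Np lab α X κ Q i y : ℝ) - chi (Hit α (Up lab X κ i) Q) y) := by
      refine le_trans ?_ (single_le_sum hnn (mem_univ i0))
      rw [chi_Hit, if_neg (by omega)]
      have : (2 : ℝ) ≤ Np lab α X κ Q i0 y := by exact_mod_cast hi0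
      linarith
    refine le_trans ?_ h1
    have hG0 : 0 ≤ ∏ i, z i ^ Np lab α X κ Q i y := prod_nonneg fun i _ => pow_nonneg (hz i).1 _
    have hG1 : ∏ i, z i ^ Np lab α X κ Q i y ≤ 1 :=
      prod_le_one (fun i _ => pow_nonneg (hz i).1 _) (fun i _ => pow_le_one₀ (hz i).1 (hz i).2)
    have hP : ∀ i ∈ (univ : Finset (ι × J)),
        0 ≤ (1 - z i) * (1 - chi (Hit α (Up lab X κ i) Q) y) + z i ∧
        (1 - z i) * (1 - chi (Hit α (Up lab X κ i) Q) y) + z i ≤ 1 := by
      intro i _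
      have h2 := chi_nonneg (Hit α (Up lab X κ i) Q) y
      have h3 := chi_le_one (Hit α (Up lab X κ i) Q) y
      have h4 := hz i
      constructor
      · exact add_nonneg (mul_nonneg (by linarith) (by linarith)) h4.1
      · nlinarith [mul_nonneg (by linarith : 0 ≤ 1 - z i) h2]
    have hP0 := prod_nonneg fun i hi => (hP i hi).1
    have hP1 := prod_le_one (fun i hi => (hP i hi).1) (fun i hi => (hP i hi).2)
    rw [abs_le]
    constructor <;> linarith

variable [MeasurableSpace J] [MeasurableSingletonClass J]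

lemma measurableSet_Up {lab : ι → ℝ → J} (hlab : ∀ j, Measurable (lab j)) (X : ℝ)
    (κ : ℕ → ι) (i : ι × J) (q : ℕ) : MeasurableSet (Up lab X κ i q) := by
  unfold Up
  split_ifs
  · exact measurableSet_Vp hlab X i
  · exact MeasurableSet.empty

lemma Np_eq (lab : ι → ℝ → J) (α X : ℝ) (κ : ℕ → ι) (Q : ℕ) (i : ι × J) (y : ℝ) :
    (Np lab α X κ Q i y : ℝ) = ∑ q ∈ Icc 1 Q, chi (Arc (Up lab X κ i q) q (gg α q)
      (Real.log Q ^ 2 * (q * nint (q * α)))) y := by
  unfold Np PQ
  rw [filter_filter, card_eq_sum_ones, Nat.cast_sum, sum_filter]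
  refine sum_congr rfl fun q _ => ?_
  unfold chi
  by_cases h : y ∈ Arc (Up lab X κ i q) q (gg α q) (Real.log Q ^ 2 * (q * nint (q * α)))
  · rw [Set.indicator_of_mem h]
    obtain ⟨h1, h2⟩ := h
    unfold Up at h1
    split_ifs at h1 with h3
    · rw [if_pos]
      · simp
      · exact ⟨h2, h3, h1.1.1, h1.1.2, h1.2⟩
    · exact absurd h1 (Set.notMem_empty _)
  · rw [Set.indicator_of_notMem h, if_neg]
    rintro ⟨h2, h3, h4, h5, h6⟩
    apply h
    refine ⟨?_, h2⟩
    unfold Up
    rw [if_pos h3]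
    exact ⟨⟨h4, h5⟩, h6⟩

lemma integral_chi_Ioc {Y : Set ℝ} (hY : MeasurableSet Y) (A : ℕ) :
    ∫ y in Set.Ioc (-(A : ℝ)) A, chi Y y = volume.real (Y ∩ Set.Ioc (-(A : ℝ)) A) := by
  have := setIntegral_chi hY (Set.Ioc (-(A : ℝ)) A) 0
  simp only [add_zero] at this
  rw [this, Set.inter_comm]
  rfl

lemma integrableOn_chi {Y : Set ℝ} (hY : MeasurableSet Y) {E : Set ℝ} (hEf : volume E ≠ ⊤) :
    IntegrableOn (chi Y) E := by
  have : IsFiniteMeasure (volume.restrict E) := ⟨by
    rw [Measure.restrict_apply_univ]; exact hEf.lt_top⟩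
  refine Integrable.of_bound (C := 1) (measurable_chi hY).aestronglyMeasurable ?_
  filter_upwards with y
  rw [Real.norm_eq_abs]; exact abs_chi_le Y y

/-- first moment of the number of hits -/
lemma integral_Np {c α : ℝ} (hc : 0 < c) (h : Bad c α) {lab : ι → ℝ → J}
    (hlab : ∀ j, Measurable (lab j)) (X : ℝ) (κ : ℕ → ι) {Q : ℕ} (hQ : 0 < Real.log Q)
    (i : ι × J) (A : ℕ) :
    ∫ y in Set.Ioc (-(A : ℝ)) A, (Np lab α X κ Q i y : ℝ) ≤ 2 * A * lam α (Up lab X κ i) Q := by
  simp only [Np_eq]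
  have hf : volume (Set.Ioc (-(A : ℝ)) A) ≠ ⊤ := by
    rw [Real.volume_Ioc]; exact ENNReal.ofReal_ne_top
  rw [integral_finsetSum _ (fun q _ => integrableOn_chi
    (measurableSet_Arc (measurableSet_Up hlab X κ i q) _ _ _) hf)]
  unfold lam
  rw [mul_sum]
  refine sum_le_sum fun q hq => ?_
  rw [integral_chi_Ioc (measurableSet_Arc (measurableSet_Up hlab X κ i q) _ _ _)]
  apply fm_prim hQ hc h (measurableSet_Up hlab X κ i q) _ _ (mem_Icc.1 hq).1
  · intro x hx
    unfold Up at hx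
    split_ifs at hx
    · exact hx.1.1
    · exact absurd hx (Set.notMem_empty _)
  · unfold Up
    split_ifs
    · exact Vp_ne_top lab X i
    · simp

lemma lam_Up_le {α : ℝ} (lab : ι → ℝ → J) (X : ℝ) (κ : ℕ → ι) {Q : ℕ}
    (hQ : 1 / Real.log Q ^ 2 * RS α Q ≤ 2) (i : ι × J) :
    lam α (Up lab X κ i) Q ≤ 4 * volume.real (Vp lab X i) := by
  have hV : 0 ≤ volume.real (Vp lab X i) := measureReal_nonneg
  unfold lam
  calc ∑ q ∈ Icc 1 Q, 2 * volume.real (Up lab X κ i q) / Real.log Q ^ 2 * rr α q * ph α q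
      ≤ ∑ q ∈ Icc 1 Q, 2 * volume.real (Vp lab X i) / Real.log Q ^ 2 * rr α q * 1 := by
        refine sum_le_sum fun q hq => ?_
        have h1 := rr_nonneg α q
        have h2 := ph_nonneg α (q := q) (mem_Icc.1 hq).1
        have h3 := ph_le_one α (q := q) (mem_Icc.1 hq).1
        have h4 : volume.real (Up lab X κ i q) ≤ volume.real (Vp lab X i) := by
          rw [vol_Up]; split_ifs
          · exact le_rfl
          · exact hV
        have h5 : 0 ≤ volume.real (Up lab X κ i q) := measureReal_nonneg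
        gcongr
    _ = 2 * volume.real (Vp lab X i) * (1 / Real.log Q ^ 2 * RS α Q) := by
        unfold RS
        rw [mul_sum, mul_sum]
        refine sum_congr rfl fun q _ => ?_
        ring
    _ ≤ 2 * volume.real (Vp lab X i) * 2 := by gcongr
    _ = _ := by ring

/-- **step 4** -/
theorem step_unif {c α : ℝ} (hc : 0 < c) (h : Bad c α) {lab : ι → ℝ → J}
    (hlab : ∀ j, Measurable (lab j)) (X : ℝ) {z : ι × J → ℝ} (hz : ∀ i, 0 ≤ z i ∧ z i ≤ 1)
    {η : ℝ} (hη : ∀ i, volume.real (Vp lab X i) ≤ η) (hη1 : η ≤ 1 / 4)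
    {E : Set ℝ} (hE : MeasurableSet E) {A : ℕ} (hEA : E ⊆ Set.Ioc (-(A : ℝ)) A) {ε : ℝ}
    (hε : 0 < ε) :
    ∀ᶠ Q : ℕ in atTop, ∀ κ : ℕ → ι,
      |(∫ y in E, Gp lab α X κ z Q y) - volume.real E *
        Real.exp (-∑ i, (1 - z i) * lam α (Up lab X κ i) Q)| ≤
        ε + 96 * A * η * ∑ i, volume.real (Vp lab X i) := by
  have hA0 : (0 : ℝ) ≤ A := Nat.cast_nonneg _
  have hIf : volume (Set.Ioc (-(A : ℝ)) A) ≠ ⊤ := by
    rw [Real.volume_Ioc]; exact ENNReal.ofReal_ne_top
  have hEf : volume E ≠ ⊤ := ne_top_of_le_ne_top hIf (measure_mono hEA)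
  have hEvol : volume.real E ≤ 2 * A := by
    calc volume.real E ≤ volume.real (Set.Ioc (-(A : ℝ)) A) := measureReal_mono hEA hIf
      _ = 2 * A := by rw [Real.volume_real_Ioc_of_le (by linarith)]; ring
  set n : ℝ := ((univ : Finset (ι × J)).card : ℝ) with hn
  have hn0 : 0 ≤ n := Nat.cast_nonneg _
  set ε' : ℝ := ε / (2 * (n + 1)) with hε'
  have hε'0 : 0 < ε' := by positivity
  have hvoid : ∀ᶠ Q : ℕ in atTop, ∀ i ∈ (univ : Finset (ι × J)), ∀ κ : ℕ → ι,
      |volume.real (Set.Ioc (-(A : ℝ)) A \ Hit α (Up lab X κ i) Q) -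
        volume.real (Set.Ioc (-(A : ℝ)) A) * Real.exp (-lam α (Up lab X κ i) Q)| ≤ ε' := by
    rw [Filter.eventually_all_finset]
    intro i _
    have h1 := void_unif hc h (U := UI lab X {i}) (fun j => measurableSet_UI hlab X _ j)
      (fun j x hx => hx.1.1)
      (fun j => ne_top_of_le_ne_top (by rw [Real.volume_Ioc]; exact ENNReal.ofReal_ne_top)
        (measure_mono (fun _ h => h.1))) measurableSet_Ioc hIf hε'0
    filter_upwards [h1] with Q hQ κ
    have e1 : (fun q => UI lab X {i} (κ q)) = Up lab X κ i := by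
      funext q
      unfold Up UI Vp
      ext x
      simp only [mem_singleton, Set.mem_ofPred_eq]
      split_ifs with h2
      · simp only [Set.mem_ofPred_eq]
        constructor
        · rintro ⟨h3, h4⟩
          refine ⟨h3, ?_⟩
          rw [← h4]
        · rintro ⟨h3, h4⟩
          refine ⟨h3, ?_⟩
          exact Prod.ext h2 (by simp only; rw [h2]; exact h4)
      · constructor
        · rintro ⟨_, h4⟩
          exact absurd (by rw [← h4]) h2
        · intro h3
          exact absurd h3 (Set.notMem_empty _)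
    have := hQ κ
    rwa [e1] at this
  filter_upwards [pieces_unif hc h hlab X hz hE hEf (ε := ε / 2) (by positivity), hvoid,
    RS_ev hc h] with Q hQ1 hQ2 hQ3 κ
  obtain ⟨hlog, hRS⟩ := hQ3
  have hlog0 : 0 < Real.log Q := by linarith
  set M : ℝ := ∑ i, volume.real (Vp lab X i) with hM
  set l : ι × J → ℝ := fun i => lam α (Up lab X κ i) Q with hl
  have hl0 : ∀ i, 0 ≤ l i := fun i => lam_nonneg _ _
  have hl4 : ∀ i, l i ≤ 4 * volume.real (Vp lab X i) := fun i => lam_Up_le lab X κ hRS i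
  have hl1 : ∀ i, l i ≤ 1 := fun i => by have := hl4 i; have := hη i; linarith
  have hlsq : ∑ i, l i ^ 2 ≤ 16 * η * M := by
    rw [hM, mul_sum]
    refine sum_le_sum fun i _ => ?_
    have h1 := hl4 i
    have h2 := hη i
    have h3 : 0 ≤ volume.real (Vp lab X i) := measureReal_nonneg
    calc l i ^ 2 ≤ (4 * volume.real (Vp lab X i)) ^ 2 := by
          have := hl0 i
          gcongr
      _ = 16 * (volume.real (Vp lab X i) * volume.real (Vp lab X i)) := by ring
      _ ≤ 16 * (η * volume.real (Vp lab X i)) := by gcongr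
      _ = _ := by ring
  -- comparison of the exponentials
  have hexp : |∏ i, ((1 - z i) * Real.exp (-l i) + z i) - Real.exp (-∑ i, (1 - z i) * l i)| ≤
      2 * (16 * η * M) := by
    have e1 : Real.exp (-∑ i, (1 - z i) * l i) = ∏ i, Real.exp (-((1 - z i) * l i)) := by
      rw [← sum_neg_distrib, Real.exp_sum]
    rw [e1]
    refine (prod_diff univ _ _ ?_ ?_).trans ?_
    · intro i _
      have h1 := hz i
      have h2 : Real.exp (-l i) ≤ 1 := by rw [Real.exp_le_one_iff]; linarith [hl0 i]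
      constructor
      · have := Real.exp_pos (-l i)
        exact add_nonneg (mul_nonneg (by linarith) this.le) h1.1
      · nlinarith
    · intro i _
      refine ⟨(Real.exp_pos _).le, ?_⟩
      rw [Real.exp_le_one_iff]
      have := mul_nonneg (by linarith [(hz i).2] : 0 ≤ 1 - z i) (hl0 i)
      linarith
    · refine (sum_le_sum fun i _ => factor_diff (hz i).1 (hz i).2 (hl0 i) (hl1 i)).trans ?_
      rw [← mul_sum]
      linarith
  -- comparison of the products
  have hfin : IsFiniteMeasure (volume.restrict (Set.Ioc (-(A : ℝ)) A)) := ⟨by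
    rw [Measure.restrict_apply_univ]; exact hIf.lt_top⟩
  have hmNp : ∀ i, Measurable (fun y => (Np lab α X κ Q i y : ℝ)) := by
    intro i
    have : (fun y => (Np lab α X κ Q i y : ℝ)) = fun y => ∑ q ∈ Icc 1 Q,
        chi (Arc (Up lab X κ i q) q (gg α q) (Real.log Q ^ 2 * (q * nint (q * α)))) y := by
      funext y; exact Np_eq lab α X κ Q i y
    rw [this]
    exact Finset.measurable_sum _ fun q _ =>
      measurable_chi (measurableSet_Arc (measurableSet_Up hlab X κ i q) _ _ _)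
  have hmchi : ∀ i, Measurable (chi (Hit α (Up lab X κ i) Q)) := fun i =>
    measurable_chi (measurableSet_Hit_Up hlab α X κ i Q)
  have hmP : Measurable (Pp lab α X κ z Q) := by
    unfold Pp
    refine Finset.measurable_prod _ fun i _ => ?_
    exact ((measurable_const.sub (hmchi i)).const_mul _).add_const _
  have hmG : Measurable (Gp lab α X κ z Q) := by
    have : Gp lab α X κ z Q = fun y => ∏ i, z i ^ Np lab α X κ Q i y := by
      funext y; exact Gp_eq lab α X κ z Q y
    rw [this]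
    refine Finset.measurable_prod _ fun i _ => ?_
    have hm : Measurable (Np lab α X κ Q i) := by
      have h1 := hmNp i
      have h2 : Np lab α X κ Q i = fun y => ⌊(Np lab α X κ Q i y : ℝ)⌋₊ := by
        funext y; simp
      rw [h2]
      exact Nat.measurable_floor.comp h1
    exact (measurable_from_top (f := fun k : ℕ => z i ^ k)).comp hm
  have hG01 : ∀ y, 0 ≤ Gp lab α X κ z Q y ∧ Gp lab α X κ z Q y ≤ 1 := by
    intro y
    rw [Gp_eq]
    exact ⟨prod_nonneg fun i _ => pow_nonneg (hz i).1 _,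
      prod_le_one (fun i _ => pow_nonneg (hz i).1 _) (fun i _ => pow_le_one₀ (hz i).1 (hz i).2)⟩
  have hP01 : ∀ y, 0 ≤ Pp lab α X κ z Q y ∧ Pp lab α X κ z Q y ≤ 1 := by
    intro y
    unfold Pp
    have hP : ∀ i ∈ (univ : Finset (ι × J)),
        0 ≤ (1 - z i) * (1 - chi (Hit α (Up lab X κ i) Q) y) + z i ∧
        (1 - z i) * (1 - chi (Hit α (Up lab X κ i) Q) y) + z i ≤ 1 := by
      intro i _
      have h2 := chi_nonneg (Hit α (Up lab X κ i) Q) y
      have h3 := chi_le_one (Hit α (Up lab X κ i) Q) y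
      have h4 := hz i
      constructor
      · exact add_nonneg (mul_nonneg (by linarith) (by linarith)) h4.1
      · nlinarith [mul_nonneg (by linarith : 0 ≤ 1 - z i) h2]
    exact ⟨prod_nonneg fun i hi => (hP i hi).1, prod_le_one (fun i hi => (hP i hi).1)
      (fun i hi => (hP i hi).2)⟩
  have hIG : IntegrableOn (Gp lab α X κ z Q) (Set.Ioc (-(A : ℝ)) A) := by
    refine Integrable.of_bound (C := 1) hmG.aestronglyMeasurable ?_
    filter_upwards with y
    rw [Real.norm_eq_abs, abs_of_nonneg (hG01 y).1]; exact (hG01 y).2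
  have hIP : IntegrableOn (Pp lab α X κ z Q) (Set.Ioc (-(A : ℝ)) A) := by
    refine Integrable.of_bound (C := 1) hmP.aestronglyMeasurable ?_
    filter_upwards with y
    rw [Real.norm_eq_abs, abs_of_nonneg (hP01 y).1]; exact (hP01 y).2
  have hINp : ∀ i, IntegrableOn (fun y => (Np lab α X κ Q i y : ℝ)) (Set.Ioc (-(A : ℝ)) A) := by
    intro i
    refine Integrable.of_bound (C := Q) (hmNp i).aestronglyMeasurable ?_
    filter_upwards with y
    rw [Real.norm_eq_abs, Nat.abs_cast]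
    have : Np lab α X κ Q i y ≤ Q := by
      unfold Np PQ
      refine (card_filter_le _ _).trans ((card_filter_le _ _).trans ?_)
      rw [Nat.card_Icc]; omega
    exact_mod_cast this
  have hIchi : ∀ i, IntegrableOn (chi (Hit α (Up lab X κ i) Q)) (Set.Ioc (-(A : ℝ)) A) := fun i =>
    integrableOn_chi (measurableSet_Hit_Up hlab α X κ i Q) hIf
  have hGP : |(∫ y in E, Gp lab α X κ z Q y) - ∫ y in E, Pp lab α X κ z Q y| ≤
      2 * A * (16 * η * M) + n * ε' := by
    rw [← integral_sub (hIG.mono_set hEA) (hIP.mono_set hEA)]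
    have hIS : IntegrableOn (fun y => ∑ i, ((Np lab α X κ Q i y : ℝ) -
        chi (Hit α (Up lab X κ i) Q) y)) (Set.Ioc (-(A : ℝ)) A) :=
      integrable_finsetSum _ fun i _ => (hINp i).sub (hIchi i)
    calc |∫ y in E, (Gp lab α X κ z Q y - Pp lab α X κ z Q y)|
        ≤ ∫ y in E, |Gp lab α X κ z Q y - Pp lab α X κ z Q y| := by
          rw [← Real.norm_eq_abs]; exact norm_integral_le_integral_norm _
      _ ≤ ∫ y in Set.Ioc (-(A : ℝ)) A, |Gp lab α X κ z Q y - Pp lab α X κ z Q y| :=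
          setIntegral_mono_set (hIG.sub hIP).abs (by
            filter_upwards with y
            exact abs_nonneg _) (LE.le.eventuallyLE hEA)
      _ ≤ ∫ y in Set.Ioc (-(A : ℝ)) A, ∑ i, ((Np lab α X κ Q i y : ℝ) -
            chi (Hit α (Up lab X κ i) Q) y) :=
          setIntegral_mono (hIG.sub hIP).abs hIS (fun y => Gp_sub_Pp lab α X κ hz Q y)
      _ = ∑ i, ((∫ y in Set.Ioc (-(A : ℝ)) A, (Np lab α X κ Q i y : ℝ)) -
            ∫ y in Set.Ioc (-(A : ℝ)) A, chi (Hit α (Up lab X κ i) Q) y) := by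
          have e3 := integral_finsetSum (μ := volume.restrict (Set.Ioc (-(A : ℝ)) A))
            (univ : Finset (ι × J)) (f := fun i y => (Np lab α X κ Q i y : ℝ) -
              chi (Hit α (Up lab X κ i) Q) y) (fun i _ => (hINp i).sub (hIchi i))
          rw [e3]
          refine sum_congr rfl fun i _ => ?_
          exact integral_sub (hINp i) (hIchi i)
      _ ≤ ∑ i, (2 * A * l i ^ 2 + ε') := by
          refine sum_le_sum fun i _ => ?_
          have h1 := integral_Np hc h hlab X κ hlog0 i A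
          have h2 := hQ2 i (mem_univ i) κ
          have hvI : volume.real (Set.Ioc (-(A : ℝ)) A) = 2 * A := by
            rw [Real.volume_real_Ioc_of_le (by linarith)]; ring
          rw [hvI] at h2
          have h3 := (abs_le.1 h2).2
          have h4 := measureReal_inter_add_sdiff (μ := volume) (s := Set.Ioc (-(A : ℝ)) A)
            (measurableSet_Hit_Up hlab α X κ i Q) (h := hIf)
          rw [hvI] at h4
          rw [integral_chi_Ioc (measurableSet_Hit_Up hlab α X κ i Q), Set.inter_comm]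
          have h5 := exp_sub_le (hl0 i) (hl1 i)
          have h6 := (abs_le.1 h5).1
          have h7 : Real.exp (-l i) - (1 - l i) ≤ l i ^ 2 := by linarith
          have h8 : 2 * A * (Real.exp (-l i) - (1 - l i)) ≤ 2 * A * l i ^ 2 := by gcongr
          simp only [hl] at h8 ⊢
          linarith
      _ = 2 * A * ∑ i, l i ^ 2 + n * ε' := by
          rw [sum_add_distrib, ← mul_sum, sum_const, nsmul_eq_mul]
      _ ≤ _ := by gcongr
  have hQ1' := hQ1 κ
  have e2 : (∫ y in E, Gp lab α X κ z Q y) - volume.real E *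
        Real.exp (-∑ i, (1 - z i) * l i) =
      ((∫ y in E, Gp lab α X κ z Q y) - ∫ y in E, Pp lab α X κ z Q y) +
      ((∫ y in E, Pp lab α X κ z Q y) - volume.real E *
        ∏ i, ((1 - z i) * Real.exp (-l i) + z i)) +
      volume.real E * (∏ i, ((1 - z i) * Real.exp (-l i) + z i) -
        Real.exp (-∑ i, (1 - z i) * l i)) := by ring
  have hη0 : 0 ≤ η * M := by
    have : 0 ≤ ∑ i, l i ^ 2 := sum_nonneg fun i _ => sq_nonneg _
    nlinarith
  have h9 : |volume.real E * (∏ i, ((1 - z i) * Real.exp (-l i) + z i) -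
        Real.exp (-∑ i, (1 - z i) * l i))| ≤ 2 * A * (2 * (16 * η * M)) := by
    rw [abs_mul, abs_of_nonneg measureReal_nonneg]
    exact mul_le_mul hEvol hexp (abs_nonneg _) (by positivity)
  have hnε : n * ε' ≤ ε / 2 := by
    rw [hε']
    have : n * (ε / (2 * (n + 1))) = (ε / 2) * (n / (n + 1)) := by field_simp
    rw [this]
    have h10 : n / (n + 1) ≤ 1 := by rw [div_le_one (by linarith)]; linarith
    calc _ ≤ ε / 2 * 1 := by gcongr
      _ = _ := mul_one _
  show |(∫ y in E, Gp lab α X κ z Q y) - volume.real E *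
        Real.exp (-∑ i, (1 - z i) * l i)| ≤ _
  rw [e2]
  calc _ ≤ (2 * A * (16 * η * M) + n * ε') + ε / 2 + 2 * A * (2 * (16 * η * M)) :=
        (abs_add_le _ _).trans (add_le_add ((abs_add_le _ _).trans (add_le_add hGP hQ1')) h9)
    _ ≤ ε + 96 * A * η * M := by nlinarith

end pieces

end Pool.Agent.KS6_2.LL
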