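import Pool.Agent.KS6_2.LL.Gen2

open MeasureTheory Finset Filter Topology

set_option linter.unusedSectionVars false

namespace Pool.Agent.KS6_2.LL

/-- the expected exponent -/
noncomputable def ex (α : ℝ) (I : ℕ → ℝ) (Q : ℕ) : ℝ :=
  ∑ q ∈ Icc 1 Q, 2 / Real.log Q ^ 2 * rr α q * ph α q * I q

lemma integral_set_diff {f : ℝ → ℝ} (hf : Measurable f) (h01 : ∀ y, 0 ≤ f y ∧ f y ≤ 1) {E W : Set ℝ}
    (hE : MeasurableSet E) (hW : MeasurableSet W) (hEf : volume E ≠ ⊤) (hWf : volume W ≠ ⊤) {ε : ℝ}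
    (hε : 0 ≤ ε) (h : volume (symmDiff E W) ≤ ENNReal.ofReal ε) :
    |(∫ y in E, f y) - ∫ y in W, f y| ≤ ε := by
  have hI : ∀ S : Set ℝ, volume S ≠ ⊤ → IntegrableOn f S := by
    intro S hS
    have : IsFiniteMeasure (volume.restrict S) := ⟨by
      rw [Measure.restrict_apply_univ]; exact hS.lt_top⟩
    refine Integrable.of_bound (C := 1) hf.aestronglyMeasurable ?_
    filter_upwards with y
    rw [Real.norm_eq_abs, abs_of_nonneg (h01 y).1]; exact (h01 y).2
  have h1 := integral_inter_add_sdiff (μ := volume) (f := f) hW (hI E hEf)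
  have h2 := integral_inter_add_sdiff (μ := volume) (f := f) hE (hI W hWf)
  rw [Set.inter_comm W E] at h2
  have h3 : ∀ S : Set ℝ, MeasurableSet S → volume S ≠ ⊤ → S ⊆ symmDiff E W →
      0 ≤ ∫ y in S, f y ∧ ∫ y in S, f y ≤ ε := by
    intro S hS hSf hsub
    constructor
    · exact setIntegral_nonneg hS fun y _ => (h01 y).1
    · calc ∫ y in S, f y ≤ ∫ _y in S, (1 : ℝ) :=
          setIntegral_mono_on (hI S hSf) (integrableOn_const hSf) hS (fun y _ => (h01 y).2)
        _ = volume.real S := by rw [setIntegral_const, smul_eq_mul, mul_one]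
        _ ≤ ε := ENNReal.toReal_le_of_le_ofReal hε ((measure_mono hsub).trans h)
  have h4 := h3 (E \ W) (hE.diff hW) (ne_top_of_le_ne_top hEf (measure_mono Set.sdiff_subset))
    (fun y hy => Or.inl hy)
  have h5 := h3 (W \ E) (hW.diff hE) (ne_top_of_le_ne_top hWf (measure_mono Set.sdiff_subset))
    (fun y hy => Or.inr hy)
  rw [abs_le]
  constructor <;> linarith [h4.1, h4.2, h5.1, h5.2]

/-- the labels -/
noncomputable def labf {ι : Type*} (n X m : ℕ) (φ : ι → ℝ → ℝ) (j : ι) (x : ℝ) :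
    Fin (n * X + 1) × Fin (m + 1) :=
  (Fin.ofNat (n * X + 1) ⌊(n : ℝ) * x⌋₊, Fin.ofNat (m + 1) ⌊(m : ℝ) * φ j x⌋₊)

lemma measurable_labf {ι : Type*} (n X m : ℕ) {φ : ι → ℝ → ℝ} (hφ : ∀ j, Measurable (φ j)) (j : ι) :
    Measurable (labf n X m φ j) := by
  unfold labf
  apply Measurable.prodMk
  · exact (measurable_from_top (f := fun k : ℕ => Fin.ofNat (n * X + 1) k)).comp
      (Nat.measurable_floor.comp (measurable_const.mul measurable_id))
  · exact (measurable_from_top (f := fun k : ℕ => Fin.ofNat (m + 1) k)).comp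
      (Nat.measurable_floor.comp ((hφ j).const_mul _))

lemma vol_Vp_labf {ι : Type*} {n : ℕ} (hn : 0 < n) (X m : ℕ) (φ : ι → ℝ → ℝ)
    (i : ι × (Fin (n * X + 1) × Fin (m + 1))) :
    volume.real (Vp (labf n X m φ) X i) ≤ 1 / n := by
  have hn' : (0 : ℝ) < n := by exact_mod_cast hn
  have hsub : Vp (labf n X m φ) X i ⊆ Set.Icc ((i.2.1 : ℕ) / n : ℝ) (((i.2.1 : ℕ) + 1) / n) := by
    rintro x ⟨⟨h1, h2⟩, h3⟩
    have h4 : (Fin.ofNat (n * X + 1) ⌊(n : ℝ) * x⌋₊) = i.2.1 := by
      rw [← h3]; rfl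
    have h5 : ⌊(n : ℝ) * x⌋₊ < n * X + 1 := by
      have : (n : ℝ) * x ≤ ((n * X : ℕ) : ℝ) := by push_cast; gcongr
      have := Nat.floor_le_floor this
      rw [Nat.floor_natCast] at this
      omega
    have h6 : (i.2.1 : ℕ) = ⌊(n : ℝ) * x⌋₊ := by
      rw [← h4, Fin.val_ofNat, Nat.mod_eq_of_lt h5]
    have h7 : 0 ≤ (n : ℝ) * x := by positivity
    rw [h6]
    constructor
    · rw [div_le_iff₀ hn']
      calc _ ≤ (n : ℝ) * x := Nat.floor_le h7
        _ = _ := mul_comm _ _
    · rw [le_div_iff₀ hn']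
      calc x * n = n * x := mul_comm _ _
        _ ≤ _ := (Nat.lt_floor_add_one _).le
  calc _ ≤ volume.real (Set.Icc ((i.2.1 : ℕ) / n : ℝ) (((i.2.1 : ℕ) + 1) / n)) :=
        measureReal_mono hsub (by rw [Real.volume_Icc]; exact ENNReal.ofReal_ne_top)
    _ = 1 / n := by
        rw [Real.volume_real_Icc_of_le (by gcongr; linarith)]
        field_simp; ring

/-- the values -/
noncomputable def zf {ι : Type*} (n X m : ℕ) (i : ι × (Fin (n * X + 1) × Fin (m + 1))) : ℝ :=
  (i.2.2 : ℕ) / (m : ℝ)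

lemma psi_labf {ι : Type*} (n X : ℕ) {m : ℕ} {φ : ι → ℝ → ℝ}
    (h01 : ∀ j x, 0 ≤ φ j x ∧ φ j x ≤ 1) (j : ι) {x : ℝ} (hx : 0 < x ∧ x ≤ (X : ℝ)) :
    psi (labf n X m φ) X (zf n X m) j x = ⌊(m : ℝ) * φ j x⌋₊ / (m : ℝ) := by
  unfold psi
  rw [if_pos hx]
  unfold zf labf
  simp only
  congr 1
  rw [Fin.val_ofNat, Nat.mod_eq_of_lt]
  have : (m : ℝ) * φ j x ≤ (m : ℝ) := by
    have := (h01 j x).2
    nlinarith [(Nat.cast_nonneg m : (0 : ℝ) ≤ m)]
  have := Nat.floor_le_floor this
  rw [Nat.floor_natCast] at this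
  omega

lemma abs_sub_psi {ι : Type*} (n X : ℕ) {m : ℕ} (hm : 0 < m) {φ : ι → ℝ → ℝ}
    (h01 : ∀ j x, 0 ≤ φ j x ∧ φ j x ≤ 1) (j : ι) {x : ℝ} (hx : 0 < x) :
    |φ j x - psi (labf n X m φ) X (zf n X m) j x| ≤
      (Set.Ioc (0 : ℝ) X).indicator (fun _ => 1 / (m : ℝ)) x +
      (Set.Ioi (X : ℝ)).indicator (fun x => 1 - φ j x) x := by
  have hm' : (0 : ℝ) < m := by exact_mod_cast hm
  rcases le_or_gt x X with h | h
  · rw [psi_labf n X h01 j ⟨hx, h⟩,
      Set.indicator_of_mem (show x ∈ Set.Ioc (0 : ℝ) X from ⟨hx, h⟩),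
      Set.indicator_of_notMem (by rw [Set.mem_Ioi]; linarith), add_zero]
    have h1 : 0 ≤ (m : ℝ) * φ j x := mul_nonneg hm'.le (h01 j x).1
    have h2 := Nat.floor_le h1
    have h3 := Nat.lt_floor_add_one ((m : ℝ) * φ j x)
    have e : φ j x - (⌊(m : ℝ) * φ j x⌋₊ : ℝ) / m = ((m : ℝ) * φ j x - ⌊(m : ℝ) * φ j x⌋₊) / m := by
      field_simp
    rw [e, abs_div, abs_of_pos hm', abs_of_nonneg (by linarith)]
    gcongr
    linarith
  · rw [Set.indicator_of_notMem (by rw [Set.mem_Ioc]; intro h2; linarith [h2.2]),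
      Set.indicator_of_mem (by exact h), zero_add]
    unfold psi
    rw [if_neg (by intro h2; linarith [h2.2])]
    have := (h01 j x).2
    rw [abs_sub_comm, abs_of_nonneg (by linarith)]

section main

variable {ι : Type*} [Fintype ι] [DecidableEq ι]

/-- **the generating functional, uniformly in the colouring** -/
theorem gf_unif {c α : ℝ} (hc : 0 < c) (h : Bad c α) {φ : ι → ℝ → ℝ}
    (hφ : ∀ j, Measurable (φ j)) (h01 : ∀ j x, 0 ≤ φ j x ∧ φ j x ≤ 1)
    (hφi : ∀ j, IntegrableOn (fun x => 1 - φ j x) (Set.Ioi 0))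
    {E : Set ℝ} (hE : MeasurableSet E) (hEf : volume E ≠ ⊤) {ε : ℝ} (hε : 0 < ε) :
    ∀ᶠ Q : ℕ in atTop, ∀ κ : ℕ → ι,
      |(∫ y in E, ∏ q ∈ PQ α Q y, φ (κ q) (val α Q q y)) - volume.real E *
        Real.exp (-ex α (fun q => ∫ x in Set.Ioi 0, (1 - φ (κ q) x)) Q)| ≤ ε := by
  obtain ⟨W, A, _, hW, hWA, _, _, hEW⟩ := exists_W hE hEf (ε := ε / 10) (by positivity)
  have hA0 : (0 : ℝ) ≤ A := Nat.cast_nonneg _
  have hIf : volume (Set.Ioc (-(A : ℝ)) A) ≠ ⊤ := by
    rw [Real.volume_Ioc]; exact ENNReal.ofReal_ne_top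
  have hWf : volume W ≠ ⊤ := ne_top_of_le_ne_top hIf (measure_mono hWA)
  have hWvol : volume.real W ≤ 2 * A := by
    calc volume.real W ≤ volume.real (Set.Ioc (-(A : ℝ)) A) := measureReal_mono hWA hIf
      _ = 2 * A := by rw [Real.volume_real_Ioc_of_le (by linarith)]; ring
  set δ : ℝ := ε / (100 * (A + 1)) with hδ
  have hδ0 : 0 < δ := by positivity
  -- truncation
  have htail : ∀ᶠ X : ℕ in atTop, ∀ j ∈ (univ : Finset ι),
      ∫ x in Set.Ioi (X : ℝ), (1 - φ j x) ≤ δ := by
    rw [Filter.eventually_all_finset]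
    intro j _
    have h1 := (intervalIntegral_tendsto_integral_Ioi (μ := volume) 0 (hφi j)
      (tendsto_natCast_atTop_atTop (R := ℝ)))
    have h2 : Tendsto (fun X : ℕ => ∫ x in Set.Ioi (X : ℝ), (1 - φ j x)) atTop (𝓝 0) := by
      have h3 := h1.const_sub (∫ x in Set.Ioi (0 : ℝ), (1 - φ j x))
      rw [sub_self] at h3
      refine h3.congr fun X => ?_
      have h4 := intervalIntegral.integral_interval_add_Ioi (hφi j)
        ((hφi j).mono_set (Set.Ioi_subset_Ioi (Nat.cast_nonneg X)))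
      linarith
    filter_upwards [h2.eventually_lt_const hδ0] with X hX using hX.le
  obtain ⟨X, hXt, hX1⟩ := (htail.and (eventually_ge_atTop 1)).exists
  have hX1' : (1 : ℝ) ≤ X := by exact_mod_cast hX1
  obtain ⟨m, hm⟩ := exists_nat_gt ((X : ℝ) / δ)
  have hm0 : (0 : ℝ) < m := lt_of_le_of_lt (by positivity) hm
  have hm0' : 0 < m := by exact_mod_cast hm0
  have hXm : (X : ℝ) / m ≤ δ := by
    rw [div_lt_iff₀ hδ0] at hm
    rw [div_le_iff₀ hm0]; linarith
  set M : ℝ := (Fintype.card ι : ℝ) * X with hM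
  have hM0 : 0 ≤ M := by positivity
  obtain ⟨n, hn⟩ := exists_nat_gt (4 + 960 * A * M / ε)
  have hn4 : (4 : ℝ) < n := lt_of_le_of_lt (by
    have : 0 ≤ 960 * A * M / ε := by positivity
    linarith) hn
  have hn0 : (0 : ℝ) < n := by linarith
  have hn0' : 0 < n := by exact_mod_cast hn0
  have hn1 : 96 * A * (1 / (n : ℝ)) * M ≤ ε / 10 := by
    have h1 : 960 * A * M / ε < n := by linarith
    rw [div_lt_iff₀ hε] at h1
    have e : 96 * A * (1 / (n : ℝ)) * M = 96 * A * M / n := by ring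
    rw [e, div_le_iff₀ hn0]
    linarith
  set lab := labf n X m φ with hlab
  have hlabm : ∀ j, Measurable (lab j) := fun j => measurable_labf n X m hφ j
  set z : ι × (Fin (n * X + 1) × Fin (m + 1)) → ℝ := zf n X m with hz
  have hz01 : ∀ i, 0 ≤ z i ∧ z i ≤ 1 := by
    intro i
    rw [hz]; unfold zf
    have h1 : ((i.2.2 : ℕ) : ℝ) ≤ m := by
      have := i.2.2.isLt
      exact_mod_cast (by omega : (i.2.2 : ℕ) ≤ m)
    constructor
    · positivity
    · rw [div_le_one hm0]; exact h1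
  set ψ : ι → ℝ → ℝ := psi lab X z with hψ
  have hψ01 : ∀ j x, 0 ≤ ψ j x ∧ ψ j x ≤ 1 := by
    intro j x
    rw [hψ]; unfold psi
    split_ifs
    · exact hz01 _
    · exact ⟨zero_le_one, le_rfl⟩
  have hψm : ∀ j, Measurable (ψ j) := by
    intro j
    rw [hψ]; unfold psi
    refine Measurable.ite (measurableSet_Ioi.inter measurableSet_Iic) ?_ measurable_const
    have : Measurable (fun p : Fin (n * X + 1) × Fin (m + 1) => z (j, p)) := measurable_of_finite _
    exact this.comp (hlabm j)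
  -- the L¹ distance
  set D : ι → ℝ → ℝ := fun j x => |φ j x - ψ j x| with hD
  have hDm : ∀ j, Measurable (D j) := fun j => ((hφ j).sub (hψm j)).abs
  have hDbound : ∀ j, IntegrableOn (D j) (Set.Ioi 0) ∧ ∫ x in Set.Ioi 0, D j x ≤ 2 * δ := by
    intro j
    have hi1 : IntegrableOn ((Set.Ioc (0 : ℝ) X).indicator (fun _ => 1 / (m : ℝ))) (Set.Ioi 0) := by
      apply IntegrableOn.mono_set (t := Set.univ) _ (Set.subset_univ _)
      rw [integrableOn_univ, integrable_indicator_iff measurableSet_Ioc]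
      exact integrableOn_const (by rw [Real.volume_Ioc]; exact ENNReal.ofReal_ne_top)
    have hi2 : IntegrableOn ((Set.Ioi (X : ℝ)).indicator (fun x => 1 - φ j x)) (Set.Ioi 0) :=
      (hφi j).indicator measurableSet_Ioi
    have hle : ∀ x ∈ Set.Ioi (0 : ℝ), D j x ≤
        (Set.Ioc (0 : ℝ) X).indicator (fun _ => 1 / (m : ℝ)) x +
        (Set.Ioi (X : ℝ)).indicator (fun x => 1 - φ j x) x := fun x hx =>
      abs_sub_psi n X hm0' h01 j hx
    have hint : IntegrableOn (D j) (Set.Ioi 0) := by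
      refine Integrable.mono' (hi1.add hi2) (hDm j).aestronglyMeasurable ?_
      refine (ae_restrict_iff' measurableSet_Ioi).2 ?_
      filter_upwards with x hx
      rw [Real.norm_eq_abs, abs_of_nonneg (abs_nonneg _)]
      exact hle x hx
    refine ⟨hint, ?_⟩
    calc ∫ x in Set.Ioi 0, D j x ≤ ∫ x in Set.Ioi 0,
        ((Set.Ioc (0 : ℝ) X).indicator (fun _ => 1 / (m : ℝ)) x +
        (Set.Ioi (X : ℝ)).indicator (fun x => 1 - φ j x) x) :=
          setIntegral_mono_on hint (hi1.add hi2) measurableSet_Ioi hle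
      _ = (∫ x in Set.Ioi 0, (Set.Ioc (0 : ℝ) X).indicator (fun _ => 1 / (m : ℝ)) x) +
          ∫ x in Set.Ioi 0, (Set.Ioi (X : ℝ)).indicator (fun x => 1 - φ j x) x :=
          integral_add hi1 hi2
      _ = (X : ℝ) / m + ∫ x in Set.Ioi (X : ℝ), (1 - φ j x) := by
          congr 1
          · rw [setIntegral_indicator measurableSet_Ioc]
            have e1 : Set.Ioi (0 : ℝ) ∩ Set.Ioc 0 (X : ℝ) = Set.Ioc 0 (X : ℝ) :=
              Set.inter_eq_right.2 fun x hx => hx.1
            rw [e1, setIntegral_const, Real.volume_real_Ioc_of_le (by linarith), smul_eq_mul]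
            ring
          · rw [setIntegral_indicator measurableSet_Ioi]
            have e1 : Set.Ioi (0 : ℝ) ∩ Set.Ioi (X : ℝ) = Set.Ioi (X : ℝ) :=
              Set.inter_eq_right.2 fun x hx => lt_trans (lt_of_lt_of_le zero_lt_one hX1') hx
            rw [e1]
      _ ≤ δ + δ := add_le_add hXm (hXt j (mem_univ j))
      _ = 2 * δ := by ring
  have hψi : ∀ j, IntegrableOn (fun x => 1 - ψ j x) (Set.Ioi 0) := by
    intro j
    refine Integrable.mono' ((hφi j).add (hDbound j).1) (measurable_const.sub (hψm j)).aestronglyMeasurable ?_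
    filter_upwards with x
    rw [Real.norm_eq_abs, abs_of_nonneg (by linarith [(hψ01 j x).2])]
    have h1 : φ j x - ψ j x ≤ D j x := le_abs_self _
    show 1 - ψ j x ≤ (1 - φ j x) + D j x
    linarith
  have hIdiff : ∀ j, |(∫ x in Set.Ioi 0, (1 - φ j x)) - ∫ x in Set.Ioi 0, (1 - ψ j x)| ≤ 2 * δ := by
    intro j
    rw [← integral_sub (hφi j) (hψi j)]
    calc _ ≤ ∫ x in Set.Ioi 0, |(1 - φ j x) - (1 - ψ j x)| := by
          rw [← Real.norm_eq_abs]; exact norm_integral_le_integral_norm _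
      _ = ∫ x in Set.Ioi 0, D j x := by
          refine setIntegral_congr_fun measurableSet_Ioi fun x _ => ?_
          simp only [hD]
          rw [abs_sub_comm]
          congr 1; ring
      _ ≤ _ := (hDbound j).2
  -- the integral of `1 - ψ`
  have hpsiint : ∀ j, ∫ x in Set.Ioi 0, (1 - ψ j x) =
      ∑ i : ι × (Fin (n * X + 1) × Fin (m + 1)),
        (if j = i.1 then (1 - z i) * volume.real (Vp lab X i) else 0) := by
    intro j
    have e1 : ∀ x ∈ Set.Ioi (0 : ℝ), 1 - ψ j x =
        ∑ i : ι × (Fin (n * X + 1) × Fin (m + 1)),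
          (if j = i.1 then (1 - z i) * chi (Vp lab X i) x else 0) := by
      intro x hx
      rw [hψ]; unfold psi
      by_cases hxX : 0 < x ∧ x ≤ (X : ℝ)
      · rw [if_pos hxX, sum_eq_single (j, lab j x)]
        · rw [if_pos rfl]
          have : chi (Vp lab X (j, lab j x)) x = 1 := by
            unfold chi
            exact Set.indicator_of_mem (show x ∈ Vp lab X (j, lab j x) from ⟨hxX, rfl⟩) _
          rw [this, mul_one]
        · intro i _ hne
          split_ifs with h1
          · have : chi (Vp lab X i) x = 0 := by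
              unfold chi
              apply Set.indicator_of_notMem
              rintro ⟨_, h2⟩
              apply hne
              rw [← h1] at h2
              exact Prod.ext h1.symm h2.symm
            rw [this, mul_zero]
          · rfl
        · intro h1; exact absurd (mem_univ _) h1
      · rw [if_neg hxX, sub_self, sum_eq_zero]
        intro i _
        split_ifs
        · have : chi (Vp lab X i) x = 0 := by
            unfold chi
            apply Set.indicator_of_notMem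
            rintro ⟨h2, _⟩
            exact hxX h2
          rw [this, mul_zero]
        · rfl
    rw [setIntegral_congr_fun measurableSet_Ioi e1]
    have hchi : ∀ i : ι × (Fin (n * X + 1) × Fin (m + 1)),
        Integrable (chi (Vp lab X i)) (volume.restrict (Set.Ioi 0)) := by
      intro i
      apply IntegrableOn.mono_set (t := Set.univ) _ (Set.subset_univ _)
      rw [integrableOn_univ]
      unfold chi
      show Integrable ((Vp lab X i).indicator (fun _ => (1 : ℝ))) volume
      rw [integrable_indicator_iff (measurableSet_Vp hlabm X i)]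
      exact integrableOn_const (Vp_ne_top lab X i)
    rw [integral_finsetSum]
    · refine sum_congr rfl fun i _ => ?_
      split_ifs
      · rw [integral_const_mul]
        congr 1
        have h1 := setIntegral_chi (measurableSet_Vp hlabm X i) (Set.Ioi 0) 0
        simp only [add_zero] at h1
        rw [h1]
        congr 1
        exact Set.inter_eq_right.2 fun x hx => hx.1.1
      · simp
    · intro i _
      split_ifs
      · exact (hchi i).const_mul _
      · exact integrable_zero _ _ _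
  have hsumV : ∑ i, volume.real (Vp lab X i) = M := by
    have h1 : ∀ j : ι, ∑ p : Fin (n * X + 1) × Fin (m + 1), volume.real (Vp lab X (j, p)) = X := by
      intro j
      have h2 := vol_UI hlabm X (univ : Finset (ι × (Fin (n * X + 1) × Fin (m + 1)))) j
      have h3 : UI lab X univ j = Set.Ioc 0 (X : ℝ) := by
        ext x; simp [UI]
      rw [h3, Real.volume_real_Ioc_of_le (by linarith), sub_zero, Fintype.sum_prod_type] at h2
      rw [sum_eq_single j] at h2
      · simp only [if_true] at h2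
        exact h2.symm
      · intro j' _ hne
        apply sum_eq_zero
        intro p _
        rw [if_neg]
        exact fun h4 => hne h4.symm
      · intro h4; exact absurd (mem_univ _) h4
    rw [Fintype.sum_prod_type, sum_congr rfl fun j _ => h1 j, sum_const, card_univ, nsmul_eq_mul]
  -- now the limit
  have hstep := step_unif hc h hlabm X (z := z) hz01 (η := 1 / n)
    (fun i => vol_Vp_labf hn0' X m φ i) (by
      rw [div_le_div_iff₀ hn0 (by norm_num)]; linarith) hW hWA (ε := ε / 10) (by positivity)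
  filter_upwards [hstep, RS_ev hc h] with Q hQ1 hQ3 κ
  obtain ⟨hlog, hRS⟩ := hQ3
  have hlog0 : 0 < Real.log Q := by linarith
  have h1 := hQ1 κ
  rw [hsumV] at h1
  -- product of `φ`
  have hF01 : ∀ (f : ι → ℝ → ℝ), (∀ j x, 0 ≤ f j x ∧ f j x ≤ 1) → ∀ y,
      0 ≤ ∏ q ∈ PQ α Q y, f (κ q) (val α Q q y) ∧ ∏ q ∈ PQ α Q y, f (κ q) (val α Q q y) ≤ 1 := by
    intro f hf y
    exact ⟨prod_nonneg fun q _ => (hf _ _).1, prod_le_one (fun q _ => (hf _ _).1)
      (fun q _ => (hf _ _).2)⟩
  have hmφ : Measurable (fun y => ∏ q ∈ PQ α Q y, φ (κ q) (val α Q q y)) :=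
    measurable_prod_PQ α Q (f := fun q => φ (κ q)) fun q => hφ _
  have hmψ : Measurable (fun y => ∏ q ∈ PQ α Q y, ψ (κ q) (val α Q q y)) :=
    measurable_prod_PQ α Q (f := fun q => ψ (κ q)) fun q => hψm _
  have hd1 := integral_set_diff hmφ (hF01 φ h01) hE hW hEf hWf (ε := ε / 10) (by positivity) hEW
  have hfin : IsFiniteMeasure (volume.restrict (Set.Ioc (-(A : ℝ)) A)) := ⟨by
    rw [Measure.restrict_apply_univ]; exact hIf.lt_top⟩
  have hIφ : IntegrableOn (fun y => ∏ q ∈ PQ α Q y, φ (κ q) (val α Q q y))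
      (Set.Ioc (-(A : ℝ)) A) := by
    refine Integrable.of_bound (C := 1) hmφ.aestronglyMeasurable ?_
    filter_upwards with y
    rw [Real.norm_eq_abs, abs_of_nonneg (hF01 φ h01 y).1]; exact (hF01 φ h01 y).2
  have hIψ : IntegrableOn (fun y => ∏ q ∈ PQ α Q y, ψ (κ q) (val α Q q y))
      (Set.Ioc (-(A : ℝ)) A) := by
    refine Integrable.of_bound (C := 1) hmψ.aestronglyMeasurable ?_
    filter_upwards with y
    rw [Real.norm_eq_abs, abs_of_nonneg (hF01 ψ hψ01 y).1]; exact (hF01 ψ hψ01 y).2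
  have hD01 : ∀ j x, D j x ≤ 1 := by
    intro j x
    have a1 := h01 j x
    have a2 := hψ01 j x
    simp only [hD]
    rw [abs_le]; constructor <;> linarith
  have hmDq : ∀ q, Measurable (fun y => D (κ q) (val α Q q y)) := fun q =>
    (hDm _).comp (measurable_val α Q q)
  have hIDq : ∀ q, IntegrableOn (fun y => D (κ q) (val α Q q y)) (Set.Ioc (-(A : ℝ)) A) := by
    intro q
    refine Integrable.of_bound (C := 1) (hmDq q).aestronglyMeasurable ?_
    filter_upwards with y
    rw [Real.norm_eq_abs, abs_of_nonneg (abs_nonneg _)]; exact hD01 _ _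
  have hDint : ∀ q ∈ Icc 1 Q, ∫ y in Set.Ioc (-(A : ℝ)) A, D (κ q) (val α Q q y) ≤
      4 * A / Real.log Q ^ 2 * rr α q * (2 * δ) := by
    intro q hq
    have hr0 := rr_nonneg α q
    rw [integral_eq_lintegral_of_nonneg_ae (by
      filter_upwards with y
      exact abs_nonneg _) (hmDq q).aestronglyMeasurable]
    apply ENNReal.toReal_le_of_le_ofReal (by positivity)
    have h2 := fm_all hlog0 hc h (q := q) (mem_Icc.1 hq).1 A
      (f := fun x => ENNReal.ofReal (D (κ q) x)) (hDm (κ q)).ennreal_ofReal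
    refine h2.trans ?_
    rw [ENNReal.ofReal_mul (p := 4 * A / Real.log Q ^ 2 * rr α q) (by positivity)]
    gcongr
    rw [← ofReal_integral_eq_lintegral_ofReal (hDbound (κ q)).1 (by
      filter_upwards with y
      exact abs_nonneg _)]
    exact ENNReal.ofReal_le_ofReal (hDbound (κ q)).2
  have hd2 : |(∫ y in W, ∏ q ∈ PQ α Q y, φ (κ q) (val α Q q y)) -
      ∫ y in W, ∏ q ∈ PQ α Q y, ψ (κ q) (val α Q q y)| ≤ 16 * A * δ := by
    rw [← integral_sub (hIφ.mono_set hWA) (hIψ.mono_set hWA)]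
    have hISD : IntegrableOn (fun y => ∑ q ∈ Icc 1 Q, D (κ q) (val α Q q y))
        (Set.Ioc (-(A : ℝ)) A) := integrable_finsetSum _ fun q _ => hIDq q
    calc |∫ y in W, (∏ q ∈ PQ α Q y, φ (κ q) (val α Q q y) -
          ∏ q ∈ PQ α Q y, ψ (κ q) (val α Q q y))|
        ≤ ∫ y in W, |∏ q ∈ PQ α Q y, φ (κ q) (val α Q q y) -
          ∏ q ∈ PQ α Q y, ψ (κ q) (val α Q q y)| := by
          rw [← Real.norm_eq_abs]; exact norm_integral_le_integral_norm _
      _ ≤ ∫ y in Set.Ioc (-(A : ℝ)) A, |∏ q ∈ PQ α Q y, φ (κ q) (val α Q q y) -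
          ∏ q ∈ PQ α Q y, ψ (κ q) (val α Q q y)| :=
          setIntegral_mono_set (hIφ.sub hIψ).abs (by
            filter_upwards with y
            exact abs_nonneg _) (LE.le.eventuallyLE hWA)
      _ ≤ ∫ y in Set.Ioc (-(A : ℝ)) A, ∑ q ∈ Icc 1 Q, D (κ q) (val α Q q y) := by
          refine setIntegral_mono (hIφ.sub hIψ).abs hISD fun y => ?_
          refine (prod_diff _ _ _ (fun q _ => h01 _ _) (fun q _ => hψ01 _ _)).trans ?_
          apply sum_le_sum_of_subset_of_nonneg (filter_subset _ _)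
          intro q _ _
          exact abs_nonneg _
      _ = ∑ q ∈ Icc 1 Q, ∫ y in Set.Ioc (-(A : ℝ)) A, D (κ q) (val α Q q y) :=
          integral_finsetSum _ fun q _ => hIDq q
      _ ≤ ∑ q ∈ Icc 1 Q, 4 * A / Real.log Q ^ 2 * rr α q * (2 * δ) := sum_le_sum hDint
      _ = 8 * A * δ * (1 / Real.log Q ^ 2 * RS α Q) := by
          unfold RS
          rw [mul_sum, mul_sum]
          refine sum_congr rfl fun q _ => ?_
          ring
      _ ≤ 8 * A * δ * 2 := by gcongr
      _ = _ := by ring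
  -- the exponents
  have hexL : ∑ i, (1 - z i) * lam α (Up lab X κ i) Q =
      ex α (fun q => ∫ x in Set.Ioi 0, (1 - ψ (κ q) x)) Q := by
    unfold lam ex
    simp only [vol_Up, hpsiint]
    have e1 : ∀ i : ι × (Fin (n * X + 1) × Fin (m + 1)), (1 - z i) * ∑ q ∈ Icc 1 Q,
        2 * (if κ q = i.1 then volume.real (Vp lab X i) else 0) / Real.log Q ^ 2 * rr α q * ph α q =
        ∑ q ∈ Icc 1 Q, 2 / Real.log Q ^ 2 * rr α q * ph α q *
          (if κ q = i.1 then (1 - z i) * volume.real (Vp lab X i) else 0) := by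
      intro i
      rw [mul_sum]
      refine sum_congr rfl fun q _ => ?_
      split_ifs <;> ring
    rw [sum_congr rfl fun i _ => e1 i, sum_comm]
    refine sum_congr rfl fun q _ => ?_
    rw [mul_sum]
  set L : ℝ := ex α (fun q => ∫ x in Set.Ioi 0, (1 - φ (κ q) x)) Q with hL
  set L' : ℝ := ex α (fun q => ∫ x in Set.Ioi 0, (1 - ψ (κ q) x)) Q with hL'
  have hex0 : ∀ I : ℕ → ℝ, (∀ q, 0 ≤ I q) → 0 ≤ ex α I Q := by
    intro I hI
    unfold ex
    refine sum_nonneg fun q hq => ?_
    have a1 := rr_nonneg α q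
    have a2 := ph_nonneg α (q := q) (mem_Icc.1 hq).1
    have a3 := hI q
    positivity
  have hL0 : 0 ≤ L := hex0 _ fun q => setIntegral_nonneg measurableSet_Ioi fun x _ => by
    linarith [(h01 (κ q) x).2]
  have hL0' : 0 ≤ L' := hex0 _ fun q => setIntegral_nonneg measurableSet_Ioi fun x _ => by
    linarith [(hψ01 (κ q) x).2]
  have hLL : |L - L'| ≤ 8 * δ := by
    rw [hL, hL']
    unfold ex
    rw [← sum_sub_distrib]
    refine (abs_sum_le_sum_abs _ _).trans ?_
    have h2 : ∀ q ∈ Icc 1 Q, |2 / Real.log Q ^ 2 * rr α q * ph α q *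
        (∫ x in Set.Ioi 0, (1 - φ (κ q) x)) - 2 / Real.log Q ^ 2 * rr α q * ph α q *
        (∫ x in Set.Ioi 0, (1 - ψ (κ q) x))| ≤ 4 * δ / Real.log Q ^ 2 * rr α q := by
      intro q hq
      have a1 := rr_nonneg α q
      have a2 := ph_nonneg α (q := q) (mem_Icc.1 hq).1
      have a3 := ph_le_one α (q := q) (mem_Icc.1 hq).1
      rw [← mul_sub, abs_mul, abs_of_nonneg (by positivity)]
      calc _ ≤ 2 / Real.log Q ^ 2 * rr α q * 1 * (2 * δ) := by
            gcongr
            exact hIdiff (κ q)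
        _ = _ := by ring
    refine (sum_le_sum h2).trans ?_
    have e1 : ∑ q ∈ Icc 1 Q, 4 * δ / Real.log Q ^ 2 * rr α q =
        4 * δ * (1 / Real.log Q ^ 2 * RS α Q) := by
      unfold RS
      rw [mul_sum, mul_sum]
      refine sum_congr rfl fun q _ => ?_
      ring
    rw [e1]
    calc _ ≤ 4 * δ * 2 := by gcongr
      _ = _ := by ring
  rw [hexL] at h1
  have hvEW : |volume.real E - volume.real W| ≤ ε / 10 :=
    abs_real_sub_le hE hW hEf hWf (by positivity) hEW
  have hd3 : |volume.real E * Real.exp (-L) - volume.real W * Real.exp (-L')| ≤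
      ε / 10 + 2 * A * (8 * δ) := by
    have e1 : volume.real E * Real.exp (-L) - volume.real W * Real.exp (-L') =
        (volume.real E - volume.real W) * Real.exp (-L) +
        volume.real W * (Real.exp (-L) - Real.exp (-L')) := by ring
    rw [e1]
    refine (abs_add_le _ _).trans (add_le_add ?_ ?_)
    · rw [abs_mul, abs_of_pos (Real.exp_pos _)]
      have : Real.exp (-L) ≤ 1 := by rw [Real.exp_le_one_iff]; linarith
      calc _ ≤ ε / 10 * 1 := mul_le_mul hvEW this (Real.exp_pos _).le (by positivity)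
        _ = _ := mul_one _
    · rw [abs_mul, abs_of_nonneg measureReal_nonneg]
      exact mul_le_mul hWvol ((exp_lip hL0 hL0').trans hLL) (abs_nonneg _) (by positivity)
  have h1' : |(∫ y in W, ∏ q ∈ PQ α Q y, ψ (κ q) (val α Q q y)) -
      volume.real W * Real.exp (-L')| ≤ ε / 10 + ε / 10 := by
    refine h1.trans ?_
    linarith
  have hAδ : (A + 1) * δ = ε / 100 := by rw [hδ]; field_simp
  have e1 : (∫ y in E, ∏ q ∈ PQ α Q y, φ (κ q) (val α Q q y)) - volume.real E * Real.exp (-L) =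
      ((∫ y in E, ∏ q ∈ PQ α Q y, φ (κ q) (val α Q q y)) -
        ∫ y in W, ∏ q ∈ PQ α Q y, φ (κ q) (val α Q q y)) +
      ((∫ y in W, ∏ q ∈ PQ α Q y, φ (κ q) (val α Q q y)) -
        ∫ y in W, ∏ q ∈ PQ α Q y, ψ (κ q) (val α Q q y)) +
      ((∫ y in W, ∏ q ∈ PQ α Q y, ψ (κ q) (val α Q q y)) - volume.real W * Real.exp (-L')) -
      (volume.real E * Real.exp (-L) - volume.real W * Real.exp (-L')) := by ring
  rw [e1]
  calc _ ≤ ((ε / 10 + 16 * A * δ) + (ε / 10 + ε / 10)) + (ε / 10 + 2 * A * (8 * δ)) :=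
        (abs_sub _ _).trans (add_le_add ((abs_add_le _ _).trans (add_le_add
          ((abs_add_le _ _).trans (add_le_add hd1 hd2)) h1')) hd3)
    _ ≤ ε := by nlinarith

end main

end Pool.Agent.KS6_2.LL
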