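import Pool.Agent.KS6_2.LL.Sa

open MeasureTheory Finset

namespace Pool.Agent.KS6_2.LL

namespace Dat

variable (e : Dat)

/-- the blocks -/
noncomputable def Bl (K : ℕ) (t : ℝ) (Q b : ℕ) : Finset ℕ :=
  (Icc 1 Q).filter (fun q : ℕ => nint (q * e.α) < Real.exp (-(4 * K * t)) ∧
    e.x / e.N ^ 2 * Real.exp (8 * K * (b + 1) * t) ≤ (q : ℝ) ^ 2 * nint (q * e.α) ∧
    (q : ℝ) ^ 2 * nint (q * e.α) < e.x / e.N ^ 2 * Real.exp (8 * K * (b + 2) * t - 8 * t))

lemma Bl_subset (K : ℕ) (t : ℝ) (Q b : ℕ) : e.Bl K t Q b ⊆ Icc 1 Q := filter_subset _ _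

lemma pos_of_mem_Bl {K : ℕ} {t : ℝ} {Q b q : ℕ} (hq : q ∈ e.Bl K t Q b) : 0 < q :=
  (mem_Icc.1 (e.Bl_subset K t Q b hq)).1

lemma xN_pos : 0 < e.x / e.N ^ 2 := div_pos e.hx (pow_pos e.hN 2)

lemma rho_le {K : ℕ} {t : ℝ} {Q b q : ℕ} (hq : q ∈ e.Bl K t Q b) :
    e.sys.x / (q * e.sys.a q) ≤ Real.exp (-(8 * K * (b + 1) * t)) := by
  have hq0 := e.pos_of_mem_Bl hq
  have hq' : (0 : ℝ) < q := by exact_mod_cast hq0
  obtain ⟨_, _, h1, _⟩ := mem_filter.1 hq
  have hn := nint_pos_bad e.hc e.hα (q := q) hq0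
  have hN := e.hN
  show e.x / (q * (e.N ^ 2 * (q * nint (q * e.α)))) ≤ _
  rw [Real.exp_neg, div_le_iff₀ (by positivity), inv_mul_eq_div, le_div_iff₀ (Real.exp_pos _)]
  have h2 := mul_le_mul_of_nonneg_left h1 (by positivity : 0 ≤ e.N ^ 2)
  have e1 : e.N ^ 2 * (e.x / e.N ^ 2 * Real.exp (8 * K * (b + 1) * t)) =
      e.x * Real.exp (8 * K * (b + 1) * t) := by field_simp
  rw [e1] at h2
  calc _ ≤ e.N ^ 2 * ((q : ℝ) ^ 2 * nint (q * e.α)) := h2
    _ = _ := by ring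

lemma q_le {K : ℕ} {t : ℝ} {Q b q : ℕ} (hq : q ∈ e.Bl K t Q b) :
    (q : ℝ) ≤ (e.x / e.N ^ 2 * rr e.α q) * Real.exp (8 * K * (b + 2) * t - 8 * t) := by
  have hq0 := e.pos_of_mem_Bl hq
  have hq' : (0 : ℝ) < q := by exact_mod_cast hq0
  obtain ⟨_, _, _, h1⟩ := mem_filter.1 hq
  have hn := nint_pos_bad e.hc e.hα (q := q) hq0
  have h2 : (q : ℝ) = rr e.α q * ((q : ℝ) ^ 2 * nint (q * e.α)) := by
    unfold rr; field_simp
  have h3 := rr_nonneg e.α q
  calc (q : ℝ) = rr e.α q * ((q : ℝ) ^ 2 * nint (q * e.α)) := h2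
    _ ≤ rr e.α q * (e.x / e.N ^ 2 * Real.exp (8 * K * (b + 2) * t - 8 * t)) := by gcongr
    _ = _ := by ring

lemma Bl_disjoint {K : ℕ} {t : ℝ} (hK : 1 ≤ K) (ht : 0 ≤ t) (Q : ℕ) {b b' : ℕ} (hb : b < b') :
    Disjoint (e.Bl K t Q b) (e.Bl K t Q b') := by
  rw [disjoint_left]
  intro q hq hq'
  obtain ⟨_, _, _, h1⟩ := mem_filter.1 hq
  obtain ⟨_, _, h2, _⟩ := mem_filter.1 hq'
  have h3 : Real.exp (8 * K * (b + 2) * t - 8 * t) ≤ Real.exp (8 * K * (b' + 1) * t) := by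
    apply Real.exp_le_exp.2
    have h4 : (b : ℝ) + 1 ≤ b' := by exact_mod_cast hb
    have h5 : (0 : ℝ) ≤ 8 * K * t := by positivity
    have h6 := mul_le_mul_of_nonneg_left h4 h5
    nlinarith
  have h7 := mul_le_mul_of_nonneg_left h3 e.xN_pos.le
  linarith

lemma Lam_biUnion {K : ℕ} {t : ℝ} (hK : 1 ≤ K) (ht : 0 ≤ t) (Q M : ℕ) :
    e.sys.Lam ((range M).biUnion (e.Bl K t Q)) = ∑ b ∈ range M, e.sys.Lam (e.Bl K t Q b) := by
  unfold Sys.Lam
  rw [sum_biUnion]
  intro b _ b' _ hne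
  rcases lt_or_gt_of_ne hne with h | h
  · exact e.Bl_disjoint hK ht Q h
  · exact (e.Bl_disjoint hK ht Q h).symm

theorem good_part {K Q : ℕ} (hK : 1 ≤ K) (hQ : 1 ≤ Q) {t : ℝ} (ht : 0 ≤ t)
    (hNx : 2 * e.x ≤ e.N ^ 2 * e.c) {W : Set ℝ} (hW : MeasurableSet W) {A : ℕ}
    (hWA : W ⊆ Set.Ioc (-(A : ℝ)) A) {J0 : ℝ} (hJ00 : 0 ≤ J0) (hJ0 : Mod W (ENNReal.ofReal J0))
    {JU : ℝ} (hJU0 : 0 ≤ JU)
    (hJU : ∀ q, 0 < q → ∀ r : ℤ, Mod (Comp (e.U q) q (e.sys.a q) r) (ENNReal.ofReal JU))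
    {β Γ CD : ℝ} (hβ0 : 0 ≤ β)
    (hβ : ∀ b < K, ∑ q ∈ e.Bl K t Q b, e.x / e.N ^ 2 * rr e.α q ≤ β) (hβ1 : 2 * β ≤ 1)
    (hΓ : e.x / e.N ^ 2 * RS e.α Q ≤ Γ) (hCD0 : 0 ≤ CD)
    (hCD : ∀ q ∈ Icc 1 Q, (q.divisors.card : ℝ) ≤ CD * Real.exp t) :
    |volume.real (W \ e.sys.V ((range K).biUnion (e.Bl K t Q))) -
      volume.real W * Real.exp (-e.sys.Lam ((range K).biUnion (e.Bl K t Q)))| ≤
      K * ((J0 + (2 * A + 3) * JU * (K * Γ) + 2 * A * (6 * √(16 * Γ * CD) + 4 + 8 * CD * β)) *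
        Real.exp (-t)) + 40 * A * K * β ^ 2 := by
  have hΓ0 : 0 ≤ Γ := le_trans (mul_nonneg e.xN_pos.le (RS_nonneg _ _)) hΓ
  have hA0 : (0 : ℝ) ≤ A := Nat.cast_nonneg _
  have hKr : (1 : ℝ) ≤ K := by exact_mod_cast hK
  have haxc : ∀ q : ℕ, 0 < q → 2 * e.sys.x ≤ e.sys.a q := by
    intro q hq
    show 2 * e.x ≤ e.N ^ 2 * (q * nint (q * e.α))
    refine hNx.trans ?_
    exact mul_le_mul_of_nonneg_left (e.hα q hq) (by positivity)
  have hS : ∀ b < K, ∀ q ∈ e.Bl K t Q b, 0 < q := fun b _ q hq => e.pos_of_mem_Bl hq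
  have hxa : ∀ b < K, ∑ q ∈ e.Bl K t Q b, e.sys.x / e.sys.a q ≤ β := by
    intro b hb
    rw [sum_congr rfl fun q _ => e.x_div q]
    exact hβ b hb
  have hxa0 : ∀ b < K, 0 ≤ ∑ q ∈ e.Bl K t Q b, e.sys.x / e.sys.a q := by
    intro b hb
    refine sum_nonneg fun q hq => ?_
    rw [e.x_div]
    exact mul_nonneg e.xN_pos.le (rr_nonneg _ _)
  have hLam : ∀ b < K, 0 ≤ e.sys.Lam (e.Bl K t Q b) ∧ e.sys.Lam (e.Bl K t Q b) ≤ 2 * β := by
    intro b hb
    refine ⟨e.Lam_nonneg (hS b hb), (e.Lam_le (hS b hb)).trans ?_⟩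
    have := hβ b hb
    rw [← mul_sum] at this
    calc 2 * e.x / e.N ^ 2 * ∑ q ∈ e.Bl K t Q b, rr e.α q =
        2 * (e.x / e.N ^ 2 * ∑ q ∈ e.Bl K t Q b, rr e.α q) := by ring
      _ ≤ _ := by linarith
  have hη : ∀ b < K, ∀ q ∈ e.Bl K t Q b, nint (q * e.α) ≤ Real.exp (-(4 * K * t)) :=
    fun b _ q hq => (mem_filter.1 hq).2.1.le
  set T : ℝ := Real.exp (4 * K * t) / 2 with hT
  have hT0 : 0 < T := by positivity
  have hTη : 2 * T * Real.exp (-(4 * K * t)) ≤ 1 := by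
    rw [hT, Real.exp_neg]
    have := (Real.exp_pos (4 * K * t)).ne'
    apply le_of_eq; field_simp
  set h : ℕ → ℝ := fun b => Real.exp (-(8 * K * (b + 1) * t) + 4 * t) with hh
  set ρ : ℕ → ℝ := fun b => Real.exp (-(8 * K * (b + 1) * t)) with hρ
  -- overlaps
  have hOV : ∀ b < K, e.sys.OV (e.Bl K t Q b) T ≤ 16 * β ^ 2 + 8 * CD * β * Real.exp (-t) := by
    intro b hb
    have h1 := e.sys.OV_le (S := e.Bl K t Q b) (hS b hb) hT0
      (fun q hq q' hq' hne y hy hy' => e.det_ne (hS b hb) (hη b hb) (Real.exp_pos _) hTη hq hq' hne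
        hy hy') (D := CD * Real.exp t) (fun q hq => hCD q (e.Bl_subset K t Q b hq))
    refine h1.trans (add_le_add ?_ ?_)
    · have := hxa b hb
      have := hxa0 b hb
      gcongr
    · have h2 : 4 * (CD * Real.exp t) / T = 8 * CD * Real.exp (t - 4 * K * t) := by
        rw [hT, Real.exp_sub]
        have := (Real.exp_pos (4 * K * t)).ne'
        field_simp; ring
      rw [h2]
      have h3 : Real.exp (t - 4 * K * t) ≤ Real.exp (-t) := by
        apply Real.exp_le_exp.2; nlinarith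
      calc 8 * CD * Real.exp (t - 4 * K * t) * ∑ q ∈ e.Bl K t Q b, e.sys.x / e.sys.a q
          ≤ 8 * CD * Real.exp (-t) * β := by
            have := hxa0 b hb
            gcongr
            exact hxa b hb
        _ = _ := by ring
  set δ : ℕ → ℝ := fun b => 6 * √(8 * h b * ρ b * (CD * Real.exp t) * (2 * Γ)) +
    4 * ρ b * 1 + h b * (16 * β ^ 2 + 8 * CD * β * Real.exp (-t)) with hδ
  have hh0 : ∀ b, 0 < h b := fun b => Real.exp_pos _
  have hρ0 : ∀ b, 0 < ρ b := fun b => Real.exp_pos _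
  have hρh : ∀ b, ρ b = h b * Real.exp (-(4 * t)) := by
    intro b; simp only [hρ, hh]; rw [← Real.exp_add]; congr 1; ring
  have hδ1 : ∀ b < K, ∫ y in (0 : ℝ)..1, |win (e.sys.V (e.Bl K t Q b)) (h b) y -
      h b * e.sys.Lam (e.Bl K t Q b)| ≤ δ b ∨ Real.exp (4 * t) < 2 := by
    intro b hb
    rcases lt_or_ge (Real.exp (4 * t)) 2 with h4 | h4
    · right; exact h4
    left
    have h1 := e.sys.dev hQ (S := e.Bl K t Q b)
      (fun q hq => mem_Icc.1 (e.Bl_subset K t Q b hq))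
      (fun q hq => haxc q (hS b hb q hq)) (ρ := ρ b) (fun q hq => e.rho_le hq) (hρ0 b).le
      (D := CD * Real.exp t) (fun q hq => hCD q (e.Bl_subset K t Q b hq)) (by positivity)
      (C := 2 * Γ) (by positivity) (fun m hm => (e.sum_dvd (e.Bl_subset K t Q b) hm).trans (by
        have : 2 * e.x / e.N ^ 2 * RS e.α Q ≤ 2 * Γ := by
          calc _ = 2 * (e.x / e.N ^ 2 * RS e.α Q) := by ring
            _ ≤ _ := by linarith
        gcongr)) (h := h b) (by
          rw [hρh b, Real.exp_neg]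
          have h5 := hh0 b
          have h6 : 2 * (Real.exp (4 * t))⁻¹ ≤ 1 := by
            rw [← div_eq_mul_inv, div_le_one (Real.exp_pos _)]; exact h4
          nlinarith) T (hLam b hb).1
    refine h1.trans ?_
    simp only [hδ]
    have h7 := hOV b hb
    have h8 := hLam b hb
    have h9 : e.sys.Lam (e.Bl K t Q b) ≤ 1 := by linarith
    have := hρ0 b
    have := hh0 b
    gcongr
  -- the final estimate of the error of one block
  have hexp4 : Real.exp (-(4 * t)) ≤ Real.exp (-t) := Real.exp_le_exp.2 (by linarith)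
  have hτ : ∀ b < K, (J0 + (2 * A + 3) * JU * ∑ i ∈ range b, ∑ q ∈ e.Bl K t Q i, (q : ℝ)) * h b +
      2 * A * δ b / h b ≤ (J0 + (2 * A + 3) * JU * (K * Γ) +
        2 * A * (6 * √(16 * Γ * CD) + 4 + 8 * CD * β)) * Real.exp (-t) + 32 * A * β ^ 2 := by
    intro b hb
    have hbr : (b : ℝ) + 1 ≤ K := by exact_mod_cast hb
    have hb0 : (0 : ℝ) ≤ b := Nat.cast_nonneg _
    have hhle : h b ≤ Real.exp (-t) := by
      simp only [hh]
      apply Real.exp_le_exp.2
      have h1 : 1 * t ≤ K * (b + 1) * t := by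
        apply mul_le_mul_of_nonneg_right _ ht
        nlinarith
      nlinarith
    have hsum : ∑ i ∈ range b, ∑ q ∈ e.Bl K t Q i, (q : ℝ) ≤
        K * Γ * Real.exp (8 * K * (b + 1) * t - 8 * t) := by
      have h1 : ∀ i ∈ range b, ∑ q ∈ e.Bl K t Q i, (q : ℝ) ≤
          Γ * Real.exp (8 * K * (b + 1) * t - 8 * t) := by
        intro i hi
        rw [mem_range] at hi
        have hi' : (i : ℝ) + 1 ≤ b := by exact_mod_cast hi
        have h2 : Real.exp (8 * K * (i + 2) * t - 8 * t) ≤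
            Real.exp (8 * K * (b + 1) * t - 8 * t) := by
          apply Real.exp_le_exp.2
          have h5 : (0 : ℝ) ≤ 8 * K * t := by positivity
          have h6 := mul_le_mul_of_nonneg_left hi' h5
          nlinarith
        calc ∑ q ∈ e.Bl K t Q i, (q : ℝ) ≤ ∑ q ∈ e.Bl K t Q i,
            (e.x / e.N ^ 2 * rr e.α q) * Real.exp (8 * K * (i + 2) * t - 8 * t) :=
              sum_le_sum fun q hq => e.q_le hq
          _ = (∑ q ∈ e.Bl K t Q i, e.x / e.N ^ 2 * rr e.α q) *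
              Real.exp (8 * K * (i + 2) * t - 8 * t) := by rw [sum_mul]
          _ ≤ Γ * Real.exp (8 * K * (b + 1) * t - 8 * t) := by
              apply mul_le_mul _ h2 (Real.exp_pos _).le hΓ0
              refine le_trans ?_ hΓ
              unfold RS
              rw [mul_sum]
              apply sum_le_sum_of_subset_of_nonneg (e.Bl_subset K t Q i)
              intro q _ _
              exact mul_nonneg e.xN_pos.le (rr_nonneg _ _)
      calc _ ≤ ∑ _i ∈ range b, Γ * Real.exp (8 * K * (b + 1) * t - 8 * t) := sum_le_sum h1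
        _ = b * (Γ * Real.exp (8 * K * (b + 1) * t - 8 * t)) := by
            rw [sum_const, card_range, nsmul_eq_mul]
        _ ≤ K * (Γ * Real.exp (8 * K * (b + 1) * t - 8 * t)) := by
            have : (b : ℝ) ≤ K := by linarith
            gcongr
        _ = _ := by ring
    have hmain1 : (J0 + (2 * A + 3) * JU * ∑ i ∈ range b, ∑ q ∈ e.Bl K t Q i, (q : ℝ)) * h b ≤
        (J0 + (2 * A + 3) * JU * (K * Γ)) * Real.exp (-t) := by
      have h1 : (2 * A + 3) * JU * (∑ i ∈ range b, ∑ q ∈ e.Bl K t Q i, (q : ℝ)) * h b ≤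
          (2 * A + 3) * JU * (K * Γ) * Real.exp (-t) := by
        have h2 : (∑ i ∈ range b, ∑ q ∈ e.Bl K t Q i, (q : ℝ)) * h b ≤
            K * Γ * Real.exp (-t) := by
          calc _ ≤ (K * Γ * Real.exp (8 * K * (b + 1) * t - 8 * t)) * h b :=
                mul_le_mul_of_nonneg_right hsum (hh0 b).le
            _ = K * Γ * Real.exp (-(4 * t)) := by
                simp only [hh]
                rw [mul_assoc, ← Real.exp_add]
                congr 2; ring
            _ ≤ _ := by gcongr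
        calc _ = (2 * A + 3) * JU * ((∑ i ∈ range b, ∑ q ∈ e.Bl K t Q i, (q : ℝ)) * h b) := by ring
          _ ≤ (2 * A + 3) * JU * (K * Γ * Real.exp (-t)) := by gcongr
          _ = _ := by ring
      have h3 : J0 * h b ≤ J0 * Real.exp (-t) := by gcongr
      calc _ = J0 * h b + (2 * A + 3) * JU * (∑ i ∈ range b, ∑ q ∈ e.Bl K t Q i, (q : ℝ)) * h b := by
            ring
        _ ≤ J0 * Real.exp (-t) + (2 * A + 3) * JU * (K * Γ) * Real.exp (-t) := add_le_add h3 h1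
        _ = _ := by ring
    have hmain2 : δ b / h b ≤ (6 * √(16 * Γ * CD) + 4 + 8 * CD * β) * Real.exp (-t) +
        16 * β ^ 2 := by
      rw [div_le_iff₀ (hh0 b)]
      have hb1 := hh0 b
      have hsq : √(8 * h b * ρ b * (CD * Real.exp t) * (2 * Γ)) ≤
          h b * (√(16 * Γ * CD) * Real.exp (-t)) := by
        have e1 : 8 * h b * ρ b * (CD * Real.exp t) * (2 * Γ) =
            (16 * Γ * CD) * (h b ^ 2 * Real.exp (-(3 * t))) := by
          rw [hρh b]
          have : Real.exp (-(3 * t)) = Real.exp (-(4 * t)) * Real.exp t := by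
            rw [← Real.exp_add]; congr 1; ring
          rw [this]; ring
        have e2 : h b ^ 2 * Real.exp (-(3 * t)) ≤ (h b * Real.exp (-t)) ^ 2 := by
          rw [mul_pow]
          have : Real.exp (-(3 * t)) ≤ Real.exp (-t) ^ 2 := by
            rw [← Real.exp_nat_mul]
            apply Real.exp_le_exp.2; push_cast; linarith
          gcongr
        rw [e1, Real.sqrt_mul (by positivity)]
        calc √(16 * Γ * CD) * √(h b ^ 2 * Real.exp (-(3 * t)))
            ≤ √(16 * Γ * CD) * √((h b * Real.exp (-t)) ^ 2) := by gcongr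
          _ = √(16 * Γ * CD) * (h b * Real.exp (-t)) := by
              rw [Real.sqrt_sq (by positivity)]
          _ = _ := by ring
      have h2 : 4 * ρ b * 1 ≤ h b * (4 * Real.exp (-t)) := by
        rw [hρh b]
        nlinarith [mul_le_mul_of_nonneg_left hexp4 hb1.le]
      simp only [hδ]
      calc _ ≤ 6 * (h b * (√(16 * Γ * CD) * Real.exp (-t))) + h b * (4 * Real.exp (-t)) +
            h b * (16 * β ^ 2 + 8 * CD * β * Real.exp (-t)) := by gcongr
        _ = _ := by ring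
    have h3 : 2 * A * δ b / h b = 2 * A * (δ b / h b) := by ring
    rw [h3]
    have h4 : 2 * A * (δ b / h b) ≤ 2 * A * ((6 * √(16 * Γ * CD) + 4 + 8 * CD * β) * Real.exp (-t) +
        16 * β ^ 2) := by gcongr
    calc _ ≤ (J0 + (2 * A + 3) * JU * (K * Γ)) * Real.exp (-t) +
          2 * A * ((6 * √(16 * Γ * CD) + 4 + 8 * CD * β) * Real.exp (-t) + 16 * β ^ 2) :=
          add_le_add hmain1 h4
      _ = _ := by ring
  rcases lt_or_ge (Real.exp (4 * t)) 2 with h4 | h4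
  · -- trivial case
    have hvol : volume.real W ≤ 2 * A := by
      calc volume.real W ≤ volume.real (Set.Ioc (-(A : ℝ)) A) :=
            measureReal_mono hWA (by rw [Real.volume_Ioc]; exact ENNReal.ofReal_ne_top)
        _ = 2 * A := by rw [Real.volume_real_Ioc_of_le (by linarith)]; ring
    have hWf : volume W ≠ ⊤ := ne_top_of_le_ne_top
      (by rw [Real.volume_Ioc]; exact ENNReal.ofReal_ne_top) (measure_mono hWA)
    have h5 : volume.real (W \ e.sys.V ((range K).biUnion (e.Bl K t Q))) ≤ volume.real W :=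
      measureReal_mono Set.sdiff_subset hWf
    have h6 : 0 ≤ volume.real (W \ e.sys.V ((range K).biUnion (e.Bl K t Q))) := measureReal_nonneg
    have hL0 : 0 ≤ e.sys.Lam ((range K).biUnion (e.Bl K t Q)) := by
      apply e.Lam_nonneg
      intro q hq
      obtain ⟨b, _, hb⟩ := mem_biUnion.1 hq
      exact e.pos_of_mem_Bl hb
    have h7 : Real.exp (-e.sys.Lam ((range K).biUnion (e.Bl K t Q))) ≤ 1 := by
      rw [Real.exp_le_one_iff]; linarith
    have h8 : 0 ≤ volume.real W := measureReal_nonneg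
    have h9 : volume.real W * Real.exp (-e.sys.Lam ((range K).biUnion (e.Bl K t Q))) ≤
        volume.real W := mul_le_of_le_one_right h8 h7
    have h10 : 0 ≤ volume.real W * Real.exp (-e.sys.Lam ((range K).biUnion (e.Bl K t Q))) := by
      positivity
    have h11 : (1 / 2 : ℝ) ≤ Real.exp (-t) := by
      have h12 : Real.exp t ≤ Real.exp (4 * t) := Real.exp_le_exp.2 (by linarith)
      rw [Real.exp_neg, one_div]
      exact inv_anti₀ (Real.exp_pos _) (by linarith)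
    have h13 : 2 * (A : ℝ) ≤ K * ((J0 + (2 * A + 3) * JU * (K * Γ) +
        2 * A * (6 * √(16 * Γ * CD) + 4 + 8 * CD * β)) * Real.exp (-t)) + 40 * A * K * β ^ 2 := by
      have h14 : 2 * (A : ℝ) * 4 ≤ J0 + (2 * A + 3) * JU * (K * Γ) +
          2 * A * (6 * √(16 * Γ * CD) + 4 + 8 * CD * β) := by
        have a1 : 0 ≤ (2 * (A : ℝ) + 3) * JU * (K * Γ) := by positivity
        have a2 : 0 ≤ 2 * (A : ℝ) * (6 * √(16 * Γ * CD) + 8 * CD * β) := by positivity
        nlinarith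
      have h15 : 2 * (A : ℝ) * 4 * (1 / 2) ≤ (J0 + (2 * A + 3) * JU * (K * Γ) +
          2 * A * (6 * √(16 * Γ * CD) + 4 + 8 * CD * β)) * Real.exp (-t) := by
        apply mul_le_mul h14 h11 (by norm_num)
        exact le_trans (by positivity) h14
      have h16 : 0 ≤ 40 * (A : ℝ) * K * β ^ 2 := by positivity
      have h17 : 1 * (2 * (A : ℝ) * 4 * (1 / 2)) ≤ K * ((J0 + (2 * A + 3) * JU * (K * Γ) +
          2 * A * (6 * √(16 * Γ * CD) + 4 + 8 * CD * β)) * Real.exp (-t)) := by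
        apply mul_le_mul hKr h15 (by positivity) (by positivity)
      linarith
    refine le_trans ?_ h13
    rw [abs_le]
    constructor <;> linarith
  · have hδ2 : ∀ b < K, ∫ y in (0 : ℝ)..1, |win (e.sys.V (e.Bl K t Q b)) (h b) y -
        h b * e.sys.Lam (e.Bl K t Q b)| ≤ δ b := by
      intro b hb
      rcases hδ1 b hb with h5 | h5
      · exact h5
      · exact absurd h5 (not_lt.2 h4)
    have hch := e.sys.chain hW hWA hJ00 hJ0 hJU0 (e.Bl K t Q) K hS
      (fun b hb q hq => haxc q (hS b hb q hq)) (fun b hb q hq r => hJU q (hS b hb q hq) r)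
      h δ (fun b _ => hh0 b) hδ2 (fun b hb => ⟨(hLam b hb).1, (hLam b hb).2.trans hβ1⟩)
      (fun _ => (J0 + (2 * A + 3) * JU * (K * Γ) +
        2 * A * (6 * √(16 * Γ * CD) + 4 + 8 * CD * β)) * Real.exp (-t) + 32 * A * β ^ 2) hτ
    rw [← e.Lam_biUnion hK ht] at hch
    refine hch.trans ?_
    have h5 : ∀ b ∈ range K, ((J0 + (2 * A + 3) * JU * (K * Γ) +
        2 * A * (6 * √(16 * Γ * CD) + 4 + 8 * CD * β)) * Real.exp (-t) + 32 * A * β ^ 2) +
        2 * A * e.sys.Lam (e.Bl K t Q b) ^ 2 ≤ ((J0 + (2 * A + 3) * JU * (K * Γ) +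
        2 * A * (6 * √(16 * Γ * CD) + 4 + 8 * CD * β)) * Real.exp (-t) + 40 * A * β ^ 2) := by
      intro b hb
      have h6 := hLam b (mem_range.1 hb)
      have h7 : e.sys.Lam (e.Bl K t Q b) ^ 2 ≤ (2 * β) ^ 2 := by
        have := h6.1
        gcongr
        exact h6.2
      nlinarith
    refine (sum_le_sum h5).trans (le_of_eq ?_)
    rw [sum_const, card_range, nsmul_eq_mul]
    ring

end Dat

end Pool.Agent.KS6_2.LL
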