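import Pool.Agent.KS6_2.LL.Rest
import Pool.Graph.R_pool_sql_team_3845a38e.H12.DivisorBound

open MeasureTheory Finset Filter Topology

namespace Pool.Agent.KS6_2.LL

/-- the bad set -/
def Hit (α : ℝ) (U : ℕ → Set ℝ) (Q : ℕ) : Set ℝ :=
  {y | ∃ q ∈ Icc 1 Q, Real.log Q ^ 2 * (q * nint (q * α)) * nint (q * y) ∈ U q ∧
    Int.gcd (gg α q) (round ((q : ℝ) * y)) = 1}

/-- families of sets with bounded complexity -/
structure Adm (x JU : ℝ) (U : ℕ → Set ℝ) : Prop where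
  meas : ∀ q, MeasurableSet (U q)
  sub : ∀ q, U q ⊆ Set.Ioo 0 x
  mod : ∀ q : ℕ, 0 < q → ∀ a : ℝ, 0 < a → ∀ r : ℤ, Mod (Comp (U q) q a r) (ENNReal.ofReal JU)

/-- the expected number of hits -/
noncomputable def lam (α : ℝ) (U : ℕ → Set ℝ) (Q : ℕ) : ℝ :=
  ∑ q ∈ Icc 1 Q, 2 * volume.real (U q) / Real.log Q ^ 2 * rr α q * ph α q

/-- the data for a given range -/
noncomputable def mkD {c α : ℝ} (hc : 0 < c) (h : Bad c α) {U : ℕ → Set ℝ} {x JU : ℝ}
    (hU : Adm x JU U) (hx : 0 < x) (Q : ℕ) : Dat where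
  α := α
  c := c
  N := max (Real.log Q) 1
  U := U
  x := x
  hc := hc
  hα := h
  hN := lt_of_lt_of_le one_pos (le_max_right _ _)
  hU := hU.meas
  hUx := hU.sub
  hx := hx

lemma log_tendsto : Tendsto (fun Q : ℕ => Real.log Q) atTop atTop :=
  Real.tendsto_log_atTop.comp tendsto_natCast_atTop_atTop

lemma V_eq {c α : ℝ} (hc : 0 < c) (h : Bad c α) {U : ℕ → Set ℝ} {x JU : ℝ}
    (hU : Adm x JU U) (hx : 0 < x) {Q : ℕ} (hQ : 1 ≤ Real.log Q) :
    (mkD hc h hU hx Q).sys.V (Icc 1 Q) = Hit α U Q := by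
  have e1 : (mkD hc h hU hx Q).N = Real.log Q := max_eq_left hQ
  ext y
  unfold Sys.V Hit
  rw [Set.mem_iUnion₂, Set.mem_ofPred_eq]
  constructor
  · rintro ⟨q, hq, h1, h2⟩
    refine ⟨q, hq, ?_, h2⟩
    have h3 : (mkD hc h hU hx Q).N ^ 2 * (q * nint (q * α)) * nint (q * y) ∈ U q := h1
    rwa [e1] at h3
  · rintro ⟨q, hq, h1, h2⟩
    refine ⟨q, hq, ?_, h2⟩
    show (mkD hc h hU hx Q).N ^ 2 * (q * nint (q * α)) * nint (q * y) ∈ U q
    rwa [e1]

lemma Lam_lam {c α : ℝ} (hc : 0 < c) (h : Bad c α) {U : ℕ → Set ℝ} {x JU : ℝ}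
    (hU : Adm x JU U) (hx : 0 < x) {Q : ℕ} (hQ : 1 ≤ Real.log Q) :
    (mkD hc h hU hx Q).sys.Lam (Icc 1 Q) = lam α U Q := by
  have e1 : (mkD hc h hU hx Q).N = Real.log Q := max_eq_left hQ
  rw [Dat.Lam_eq _ (fun q hq => (mem_Icc.1 hq).1), e1]
  rfl

theorem main_K {c α : ℝ} (hc : 0 < c) (h : Bad c α) {x : ℝ} (hx : 0 < x)
    {W : Set ℝ} (hW : MeasurableSet W) {A : ℕ} (hWA : W ⊆ Set.Ioc (-(A : ℝ)) A) {J0 : ℝ} (hJ00 : 0 ≤ J0)
    (hJ0 : Mod W (ENNReal.ofReal J0)) {JU : ℝ} (hJU0 : 0 ≤ JU) :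
    ∃ C K0 : ℝ, ∀ K : ℕ, K0 ≤ K → 1 ≤ K → ∀ᶠ Q : ℕ in atTop, ∀ U : ℕ → Set ℝ, Adm x JU U →
      |volume.real (W \ Hit α U Q) - volume.real W * Real.exp (-lam α U Q)| ≤ C / K := by
  obtain ⟨CR, hCR0, hCR⟩ := RS_le hc h
  set B0 : ℝ := 432 * x / c with hB0
  have hB00 : 0 ≤ B0 := by positivity
  set B1 : ℝ := x * (720 / c + 9 * CR) with hB1
  refine ⟨1 + 40 * A * B0 ^ 2 + (4 * A + 3) * (2 * B1), 2 * B0, fun K hK0 hK => ?_⟩
  have hKr : (1 : ℝ) ≤ K := by exact_mod_cast hK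
  have hK' : (0 : ℝ) < K := by linarith
  have hA0 : (0 : ℝ) ≤ A := Nat.cast_nonneg _
  obtain ⟨CD, hCD1, hCD⟩ := Pool.Agent.H12.DivisorBound.card_divisors_le_rpow
    (1 / (4 * (K : ℝ) ^ 2)) (by positivity)
  set Γ : ℝ := 4 * x * CR with hΓ
  set β : ℝ := B0 / K with hβ
  set F : ℝ := J0 + (2 * A + 3) * JU * (K * Γ) + 2 * A * (6 * √(16 * Γ * CD) + 4 + 8 * CD * β)
    with hF
  -- the conditions on Q
  have ev1 : ∀ᶠ Q : ℕ in atTop, (K : ℝ) ^ 2 + 2 * x / c ≤ Real.log Q :=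
    log_tendsto.eventually_ge_atTop _
  have ev2 : ∀ᶠ Q : ℕ in atTop,
      Real.log Q ^ 2 * Real.exp (-(2 / K * Real.log Q)) ≤ x := by
    have h1 : Tendsto (fun s : ℝ => s ^ 2 * Real.exp (-s)) atTop (𝓝 0) :=
      Real.tendsto_pow_mul_exp_neg_atTop_nhds_zero 2
    have h2 : Tendsto (fun Q : ℕ => 2 / K * Real.log Q) atTop atTop :=
      log_tendsto.const_mul_atTop (by positivity)
    have h3 := (h1.comp h2).const_mul ((K / 2 : ℝ) ^ 2)
    rw [mul_zero] at h3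
    have h4 := h3.eventually_lt_const hx
    filter_upwards [h4] with Q hQ
    simp only [Function.comp_apply] at hQ
    have e1 : (K / 2 : ℝ) ^ 2 * ((2 / K * Real.log Q) ^ 2 * Real.exp (-(2 / K * Real.log Q))) =
        Real.log Q ^ 2 * Real.exp (-(2 / K * Real.log Q)) := by
      field_simp
    rw [e1] at hQ
    exact hQ.le
  have ev3 : ∀ᶠ Q : ℕ in atTop,
      K * (F * Real.exp (-(Real.log Q / (4 * K ^ 2)))) ≤ 1 / K := by
    have h1 : Tendsto (fun Q : ℕ => Real.log Q / (4 * (K : ℝ) ^ 2)) atTop atTop :=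
      log_tendsto.atTop_div_const (by positivity)
    have h2 : Tendsto (fun Q : ℕ => K * (F * Real.exp (-(Real.log Q / (4 * K ^ 2))))) atTop (𝓝 0) := by
      have := ((Real.tendsto_exp_neg_atTop_nhds_zero.comp h1).const_mul F).const_mul (K : ℝ)
      rw [mul_zero, mul_zero] at this
      exact this
    filter_upwards [h2.eventually_lt_const (by positivity : (0 : ℝ) < 1 / K)] with Q hQ using hQ.le
  filter_upwards [ev1, ev2, ev3, eventually_ge_atTop 1] with Q hQ1 hQ2 hQ3 hQ4 U hU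
  set e := mkD hc h hU hx Q with he
  have hxc : 0 ≤ 2 * x / c := by positivity
  have hK2 : (K : ℝ) ≤ K ^ 2 := by nlinarith
  have hlog1 : 1 ≤ Real.log Q := by nlinarith
  have hN : e.N = Real.log Q := max_eq_left hlog1
  set N := Real.log Q with hNdef
  have hNK2 : (K : ℝ) ^ 2 ≤ N := by linarith
  have hNK : (K : ℝ) ≤ N := by linarith
  have hN0 : 0 < N := by linarith
  set t : ℝ := N / (4 * K ^ 2) with ht
  have ht0 : 0 ≤ t := by positivity
  have h4Kt : 4 * K * t = N / K := by rw [ht]; field_simp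
  have h8Kt : 8 * K * t = 2 * (N / K) := by rw [ht]; field_simp; ring
  have h8t : 8 * t = 2 * N / K ^ 2 := by rw [ht]; field_simp; ring
  have hNx : 2 * e.x ≤ e.N ^ 2 * e.c := by
    rw [hN]
    show 2 * x ≤ N ^ 2 * c
    have h1 : 2 * x / c ≤ N := by nlinarith
    have h2 : N ≤ N ^ 2 := by nlinarith
    have h3 : 2 * x / c ≤ N ^ 2 := by linarith
    rwa [div_le_iff₀ hc] at h3
  have hxN : e.x / e.N ^ 2 = x / N ^ 2 := by rw [hN]; rfl
  have hexpN : Real.exp N = Q := by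
    rw [hNdef, Real.exp_log]; exact_mod_cast hQ4
  have hY : ∀ q ∈ Icc 1 Q, (q : ℝ) ^ 2 * nint (q * e.α) <
      e.x / e.N ^ 2 * Real.exp (8 * K * (K + 1) * t) := by
    intro q hq
    have hq1 := mem_Icc.1 hq
    have hq2 : (q : ℝ) ≤ Q := by exact_mod_cast hq1.2
    have hq3 : (0 : ℝ) < q := by exact_mod_cast hq1.1
    have h1 : (q : ℝ) ^ 2 * nint (q * e.α) ≤ (Q : ℝ) ^ 2 * (1 / 2) := by
      have := nint_nonneg (q * e.α)
      have := nint_le_half (q * e.α)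
      gcongr
    have h2 : Real.exp (8 * K * (K + 1) * t) = (Q : ℝ) ^ 2 * Real.exp (2 / K * N) := by
      rw [← hexpN, ← Real.exp_nat_mul, ← Real.exp_add]
      congr 1
      rw [ht]; push_cast; field_simp; ring
    have h3 : 1 ≤ x / N ^ 2 * Real.exp (2 / K * N) := by
      rw [Real.exp_neg] at hQ2
      have h4 := Real.exp_pos (2 / K * N)
      rw [← div_eq_mul_inv, div_le_iff₀ h4] at hQ2
      rw [div_mul_eq_mul_div, le_div_iff₀ (by positivity)]
      linarith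
    rw [hxN, h2]
    have hQpos : (0 : ℝ) < (Q : ℝ) ^ 2 := by
      have : (0 : ℝ) < Q := by linarith
      positivity
    calc (q : ℝ) ^ 2 * nint (q * e.α) ≤ (Q : ℝ) ^ 2 * (1 / 2) := h1
      _ < (Q : ℝ) ^ 2 * 1 := by linarith
      _ ≤ (Q : ℝ) ^ 2 * (x / N ^ 2 * Real.exp (2 / K * N)) := by gcongr
      _ = _ := by ring
  have h1N : 1 + N ≤ 2 * N := by linarith
  have hNKge : 1 ≤ N / K := by rw [le_div_iff₀ hK']; linarith
  have hblocks : ∀ b < K, ∑ q ∈ e.Bl K t Q b, e.x / e.N ^ 2 * rr e.α q ≤ β := by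
    intro b _
    have h1 := strip_a hc h hQ4 (R := e.x / e.N ^ 2 * Real.exp (8 * K * (b + 1) * t))
      (L := 8 * K * t) (mul_pos e.xN_pos (Real.exp_pos _)) (by positivity)
    have h2 : ∑ q ∈ e.Bl K t Q b, rr e.α q ≤ (72 / c) * (1 + Real.log Q) * (1 + 8 * K * t) := by
      refine le_trans ?_ h1
      apply sum_le_sum_of_subset_of_nonneg
      · intro q hq
        obtain ⟨a1, _, a2, a3⟩ := mem_filter.1 hq
        rw [mem_filter]
        refine ⟨a1, a2, lt_of_lt_of_le a3 ?_⟩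
        have e1 : Real.exp (8 * K * t) * (e.x / e.N ^ 2 * Real.exp (8 * K * (b + 1) * t)) =
            e.x / e.N ^ 2 * Real.exp (8 * K * (b + 2) * t) := by
          have : Real.exp (8 * K * (b + 2) * t) = Real.exp (8 * K * t) *
              Real.exp (8 * K * (b + 1) * t) := by
            rw [← Real.exp_add]; congr 1; ring
          rw [this]; ring
        rw [e1]
        apply mul_le_mul_of_nonneg_left _ e.xN_pos.le
        apply Real.exp_le_exp.2
        linarith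
      · intro _ _ _; exact rr_nonneg _ _
    rw [← mul_sum, hxN]
    have h3 : (72 / c) * (1 + Real.log Q) * (1 + 8 * K * t) ≤ (72 / c) * (2 * N) * (3 * (N / K)) := by
      rw [h8Kt]
      gcongr
      linarith
    calc x / N ^ 2 * ∑ q ∈ e.Bl K t Q b, rr e.α q ≤
        x / N ^ 2 * ((72 / c) * (2 * N) * (3 * (N / K))) := by
          gcongr
          exact h2.trans h3
      _ = β := by rw [hβ, hB0]; field_simp; ring
  have hRSle : RS e.α Q ≤ CR * (4 * N ^ 2) := by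
    refine (hCR Q hQ4).trans ?_
    have : (1 + Real.log Q) ^ 2 ≤ (2 * N) ^ 2 := by
      have : 0 ≤ 1 + Real.log Q := by linarith
      gcongr
    calc CR * (1 + Real.log Q) ^ 2 ≤ CR * (2 * N) ^ 2 := by gcongr
      _ = _ := by ring
  have hΓb : e.x / e.N ^ 2 * RS e.α Q ≤ Γ := by
    rw [hxN]
    calc x / N ^ 2 * RS e.α Q ≤ x / N ^ 2 * (CR * (4 * N ^ 2)) := by gcongr
      _ = Γ := by rw [hΓ]; field_simp
  have hdiv : ∀ q ∈ Icc 1 Q, (q.divisors.card : ℝ) ≤ CD * Real.exp t := by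
    intro q hq
    have hq1 := mem_Icc.1 hq
    have hq2 : (q : ℝ) ≤ Q := by exact_mod_cast hq1.2
    have hq3 : (0 : ℝ) < q := by exact_mod_cast hq1.1
    have h1 := hCD q (by omega)
    have h2 : (q : ℝ) ^ (1 / (4 * (K : ℝ) ^ 2)) ≤ Real.exp t := by
      calc (q : ℝ) ^ (1 / (4 * (K : ℝ) ^ 2)) ≤ (Q : ℝ) ^ (1 / (4 * (K : ℝ) ^ 2)) := by gcongr
        _ = Real.exp t := by
          rw [← hexpN, ← Real.exp_mul]
          congr 1
          rw [ht]; ring
    calc _ ≤ CD * (q : ℝ) ^ (1 / (4 * (K : ℝ) ^ 2)) := h1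
      _ ≤ _ := by gcongr
  have hgood := e.good_part hK hQ4 ht0 hNx hW hWA hJ00 hJ0 hJU0
    (fun q hq r => hU.mod q hq _ (e.sys.ha q hq) r) (β := β) (Γ := Γ) (CD := CD) (by positivity)
    hblocks (by
      rw [hβ]
      rw [← mul_div_assoc, div_le_one hK']
      exact hK0) hΓb (by linarith) hdiv
  have hrs := e.rest_sum hK hQ4 ht0 hY hNx hCR0 hCR
  have hrest : 2 * e.x / e.N ^ 2 * ∑ q ∈ Icc 1 Q \ (range K).biUnion (e.Bl K t Q), rr e.α q ≤
      2 * (B1 / K) := by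
    have h2x : 2 * e.x / e.N ^ 2 = 2 * (x / N ^ 2) := by rw [← hxN]; ring
    rw [h2x, mul_assoc]
    apply mul_le_mul_of_nonneg_left _ (by norm_num)
    have hec : e.c = c := rfl
    rw [hec] at hrs
    have a1 : (72 / c) * (1 + Real.log Q) * (1 + 4 * K * t) ≤ (72 / c) * (2 * N) * (2 * (N / K)) := by
      rw [h4Kt]
      gcongr
      linarith
    have a2 : CR * (1 + 8 * K * t) ^ 2 ≤ CR * (9 * (N ^ 2 / K)) := by
      rw [h8Kt]
      have b1 : (1 + 2 * (N / K)) ^ 2 ≤ (3 * (N / K)) ^ 2 := by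
        have : 0 ≤ 1 + 2 * (N / K) := by linarith
        gcongr
        linarith
      have b2 : (N / K) ^ 2 ≤ N ^ 2 / K := by
        rw [div_pow]
        apply div_le_div_of_nonneg_left (by positivity) hK' hK2
      calc _ ≤ CR * (3 * (N / K)) ^ 2 := by gcongr
        _ = CR * (9 * (N / K) ^ 2) := by ring
        _ ≤ _ := by gcongr
    have a3 : K * ((72 / c) * (1 + Real.log Q) * (1 + 8 * t)) ≤
        K * ((72 / c) * (2 * N) * (3 * (N / K ^ 2))) := by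
      rw [h8t]
      have b1 : 1 + 2 * N / K ^ 2 ≤ 3 * (N / K ^ 2) := by
        have : 1 ≤ N / K ^ 2 := by rw [le_div_iff₀ (by positivity)]; linarith
        have e1 : 2 * N / (K : ℝ) ^ 2 = 2 * (N / K ^ 2) := by ring
        rw [e1]; linarith
      gcongr
    calc x / N ^ 2 * ∑ q ∈ Icc 1 Q \ (range K).biUnion (e.Bl K t Q), rr e.α q
        ≤ x / N ^ 2 * ((72 / c) * (2 * N) * (2 * (N / K)) + CR * (9 * (N ^ 2 / K)) +
          K * ((72 / c) * (2 * N) * (3 * (N / K ^ 2)))) := by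
          gcongr
          linarith
      _ = B1 / K := by rw [hB1]; field_simp; ring
  have htot := e.total (K := K) (t := t) hNx hWA hgood hrest
  rw [V_eq hc h hU hx hlog1, Lam_lam hc h hU hx hlog1] at htot
  refine htot.trans ?_
  have e1 : 40 * (A : ℝ) * K * β ^ 2 = 40 * A * B0 ^ 2 / K := by
    rw [hβ]; field_simp
  rw [e1]
  calc _ ≤ (1 / K + 40 * A * B0 ^ 2 / K) + (4 * A + 3) * (2 * (B1 / K)) := by
        gcongr
    _ = _ := by ring

/-- **uniform version** -/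
theorem unif {c α : ℝ} (hc : 0 < c) (h : Bad c α) {x : ℝ} (hx : 0 < x)
    {W : Set ℝ} (hW : MeasurableSet W) {A : ℕ} (hWA : W ⊆ Set.Ioc (-(A : ℝ)) A) {J0 : ℝ}
    (hJ00 : 0 ≤ J0) (hJ0 : Mod W (ENNReal.ofReal J0)) {JU : ℝ} (hJU0 : 0 ≤ JU) {ε : ℝ}
    (hε : 0 < ε) : ∀ᶠ Q : ℕ in atTop, ∀ U : ℕ → Set ℝ, Adm x JU U →
      |volume.real (W \ Hit α U Q) - volume.real W * Real.exp (-lam α U Q)| ≤ ε := by
  obtain ⟨C, K0, hmain⟩ := main_K hc h hx hW hWA hJ00 hJ0 hJU0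
  obtain ⟨K, hK⟩ := exists_nat_gt (max (max K0 1) (|C| / ε))
  have hK1 : K0 ≤ K := ((le_max_left _ _).trans (le_max_left _ _)).trans hK.le
  have hK2 : (1 : ℝ) < K := lt_of_le_of_lt ((le_max_right K0 1).trans (le_max_left _ _)) hK
  have hK3 : |C| / ε < K := lt_of_le_of_lt (le_max_right _ _) hK
  have hK4 : 1 ≤ K := by exact_mod_cast hK2.le
  filter_upwards [hmain K hK1 hK4] with Q hQ U hU
  refine (hQ U hU).trans ?_
  rw [div_le_iff₀ (by linarith)]
  rw [div_lt_iff₀ hε] at hK3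
  have := le_abs_self C
  linarith

end Pool.Agent.KS6_2.LL
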