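import Pool.Agent.KS6_2.LL.Law

open MeasureTheory Finset Filter Topology

namespace Pool.Agent.KS6_2.LL

/-- for almost all `β` every number in `[0, ∞)` is a limit point of the normalised minima -/
theorem limit_points {c α : ℝ} (hc : 0 < c) (h : Bad c α) :
    ∀ᵐ β : ℝ, ∀ a b : ℝ, 0 ≤ a → a < b → ∃ᶠ Q : ℕ in atTop,
      (∀ q ∈ Icc 1 Q, a < val α Q q β) ∧ ∃ q ∈ Icc 1 Q, val α Q q β ≤ b := by
  have hz3 := z3_pos
  have key : ∀ a b : ℚ, 0 ≤ a → a < b → ∀ᵐ β : ℝ, ∃ᶠ Q : ℕ in atTop,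
      (∀ q ∈ Icc 1 Q, (a : ℝ) < val α Q q β) ∧ ∃ q ∈ Icc 1 Q, val α Q q β ≤ (b : ℝ) := by
    intro a b ha hab
    have ha' : (0 : ℝ) ≤ a := by exact_mod_cast ha
    have hab' : (a : ℝ) < b := by exact_mod_cast hab
    set B : ℕ → ℕ → Set ℝ := fun N R => {β | β ∈ Set.Icc (-(R : ℝ)) R ∧ ∀ Q : ℕ, N ≤ Q →
      (∀ q ∈ Icc 1 Q, (a : ℝ) < val α Q q β) → ∀ q ∈ Icc 1 Q, (b : ℝ) < val α Q q β} with hB
    have hM : ∀ (x : ℝ) (Q : ℕ), MeasurableSet {β : ℝ | ∀ q ∈ Icc 1 Q, x < val α Q q β} := by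
      intro x Q
      have : {β : ℝ | ∀ q ∈ Icc 1 Q, x < val α Q q β} = ⋂ q ∈ Icc 1 Q, {β | x < val α Q q β} := by
        ext β; simp
      rw [this]
      exact Finset.measurableSet_biInter _ fun q _ =>
        measurableSet_lt measurable_const (measurable_val α Q q)
    have hBm : ∀ N R, MeasurableSet (B N R) := by
      intro N R
      have : B N R = Set.Icc (-(R : ℝ)) R ∩ ⋂ Q : ℕ, ⋂ _ : N ≤ Q,
          ({β | ∀ q ∈ Icc 1 Q, (a : ℝ) < val α Q q β}ᶜ ∪
            {β | ∀ q ∈ Icc 1 Q, (b : ℝ) < val α Q q β}) := by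
        ext β
        simp only [hB, Set.mem_ofPred_eq, Set.mem_inter_iff, Set.mem_iInter, Set.mem_union,
          Set.mem_compl_iff]
        apply and_congr_right
        intro _
        refine forall_congr' fun Q => forall_congr' fun _ => ?_
        tauto
      rw [this]
      exact measurableSet_Icc.inter (MeasurableSet.iInter fun Q => MeasurableSet.iInter fun _ =>
        (hM _ _).compl.union (hM _ _))
    have hB0 : ∀ N R, volume (B N R) = 0 := by
      intro N R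
      have hf : volume (B N R) ≠ ⊤ := by
        have h0 : volume (Set.Icc (-(R : ℝ)) R) ≠ ⊤ := by
          rw [Real.volume_Icc]; exact ENNReal.ofReal_ne_top
        exact ne_top_of_le_ne_top h0 (measure_mono (fun β hβ => hβ.1))
      have h1 := min_law hc h (hBm N R) hf ha'
      have h2 := min_law hc h (hBm N R) hf (x := (b : ℝ)) (by linarith)
      have h3 : Tendsto (fun Q : ℕ => volume.real {β | β ∈ B N R ∧ ∀ q ∈ Icc 1 Q, (a : ℝ) < val α Q q β})
          atTop (𝓝 (volume.real (B N R) * Real.exp (-(2 * (b : ℝ) / z3)))) := by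
        refine h2.congr' ?_
        filter_upwards [eventually_ge_atTop N] with Q hQ
        congr 1
        ext β
        simp only [Set.mem_ofPred_eq]
        constructor
        · rintro ⟨h4, h5⟩
          exact ⟨h4, fun q hq => lt_trans hab' (h5 q hq)⟩
        · rintro ⟨h4, h5⟩
          exact ⟨h4, h4.2 Q hQ h5⟩
      have h4 := tendsto_nhds_unique h1 h3
      have h5 : Real.exp (-(2 * (b : ℝ) / z3)) < Real.exp (-(2 * (a : ℝ) / z3)) := by
        apply Real.exp_lt_exp.2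
        have : 2 * (a : ℝ) / z3 < 2 * (b : ℝ) / z3 := by gcongr
        linarith
      have h6 : volume.real (B N R) = 0 := by
        by_contra h7
        exact h5.ne' (mul_left_cancel₀ h7 h4)
      rwa [measureReal_def, ENNReal.toReal_eq_zero_iff, or_iff_left hf] at h6
    have h1 : {β : ℝ | ¬ ∃ᶠ Q : ℕ in atTop,
        (∀ q ∈ Icc 1 Q, (a : ℝ) < val α Q q β) ∧ ∃ q ∈ Icc 1 Q, val α Q q β ≤ (b : ℝ)} ⊆
        ⋃ N : ℕ, ⋃ R : ℕ, B N R := by
      intro β hβ
      simp only [Set.mem_ofPred_eq, not_frequently, eventually_atTop] at hβ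
      obtain ⟨N, hN⟩ := hβ
      obtain ⟨R, hR⟩ := exists_nat_ge |β|
      refine Set.mem_iUnion.2 ⟨N, Set.mem_iUnion.2 ⟨R, ?_, fun Q hQ h1 q hq => ?_⟩⟩
      · exact ⟨(abs_le.1 hR).1, (abs_le.1 hR).2⟩
      · by_contra h2
        exact hN Q hQ ⟨h1, q, hq, not_lt.1 h2⟩
    exact measure_mono_null h1 (measure_iUnion_null fun N => measure_iUnion_null fun R => hB0 N R)
  have key2 : ∀ᵐ β : ℝ, ∀ a b : ℚ, 0 ≤ a → a < b → ∃ᶠ Q : ℕ in atTop,
      (∀ q ∈ Icc 1 Q, (a : ℝ) < val α Q q β) ∧ ∃ q ∈ Icc 1 Q, val α Q q β ≤ (b : ℝ) := by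
    rw [ae_all_iff]; intro a
    rw [ae_all_iff]; intro b
    by_cases h1 : 0 ≤ a ∧ a < b
    · filter_upwards [key a b h1.1 h1.2] with β hβ _ _ using hβ
    · filter_upwards with β h2 h3
      exact absurd ⟨h2, h3⟩ h1
  filter_upwards [key2] with β hβ a b ha hab
  obtain ⟨a', h1, h2⟩ := exists_rat_btwn hab
  obtain ⟨b', h3, h4⟩ := exists_rat_btwn h2
  have ha' : (0 : ℝ) ≤ a' := by linarith
  refine (hβ a' b' (by exact_mod_cast ha') (by exact_mod_cast h3)).mono ?_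
  rintro Q ⟨h5, q, hq, h6⟩
  exact ⟨fun q hq => lt_trans h1 (h5 q hq), q, hq, by linarith⟩

end Pool.Agent.KS6_2.LL
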