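import Pool.Agent.KS6_2.LL.Dev

open MeasureTheory Finset

namespace Pool.Agent.KS6_2.LL

/-- the number of pairs of fractions which are close but different -/
lemma card_pairs {q q' : ℕ} (hq : 0 < q) (hq' : 0 < q') {X : ℝ} (hX : 0 ≤ X) :
    ((((range (q + 1)) ×ˢ (range (q' + 1))).filter (fun z : ℕ × ℕ =>
      (z.1 : ℤ) * q' - z.2 * q ≠ 0 ∧ |(((z.1 : ℤ) * q' - z.2 * q : ℤ) : ℝ)| ≤ X)).card : ℝ) ≤ 4 * X := by
  set g := Nat.gcd q q' with hgdef
  have hg : 0 < g := Nat.gcd_pos_of_pos_left _ hq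
  obtain ⟨u, v, huv, hu, hv⟩ := Nat.exists_coprime q q'
  rw [← hgdef, mul_comm] at hu hv
  have hu0 : 0 < u := Nat.pos_of_ne_zero fun h0 => by rw [h0] at hu; omega
  have hv0 : 0 < v := Nat.pos_of_ne_zero fun h0 => by rw [h0] at hv; omega
  have hg' : (0 : ℝ) < g := by exact_mod_cast hg
  set M : ℤ := ⌊X / g⌋ with hM
  have hM0 : 0 ≤ M := Int.floor_nonneg.2 (by positivity)
  set P := ((range (q + 1)) ×ˢ (range (q' + 1))).filter (fun z : ℕ × ℕ =>
      (z.1 : ℤ) * q' - z.2 * q ≠ 0 ∧ |(((z.1 : ℤ) * q' - z.2 * q : ℤ) : ℝ)| ≤ X) with hP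
  have hDk : ∀ z : ℕ × ℕ, (z.1 : ℤ) * q' - z.2 * q = g * ((z.1 : ℤ) * v - z.2 * u) := by
    intro z
    rw [hu, hv]; push_cast; ring
  have hle : P.card ≤ (((Icc (-M) M).erase 0) ×ˢ (range (g + 1))).card := by
    apply Finset.card_le_card_of_injOn (fun z : ℕ × ℕ => ((z.1 : ℤ) * v - z.2 * u, z.1 / u))
    · intro z hz
      rw [mem_coe, hP, mem_filter, mem_product, mem_range, mem_range] at hz
      obtain ⟨⟨h1, _⟩, h3, h4⟩ := hz
      rw [hDk] at h3 h4
      rw [mem_coe, mem_product, mem_erase, mem_Icc, mem_range]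
      refine ⟨⟨?_, ?_⟩, ?_⟩
      · intro h0
        simp only at h0
        rw [h0, mul_zero] at h3
        exact h3 rfl
      · have h5 : |(((z.1 : ℤ) * v - z.2 * u : ℤ) : ℝ)| ≤ X / g := by
          rw [le_div_iff₀ hg']
          rw [Int.cast_mul, abs_mul, Int.cast_natCast, abs_of_pos hg'] at h4
          linarith
        have h6 : |(z.1 : ℤ) * v - z.2 * u| ≤ M := by
          rw [hM, Int.le_floor]
          push_cast at h5 ⊢
          exact h5
        exact abs_le.1 h6
      · have : z.1 / u ≤ g := by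
          apply Nat.div_le_of_le_mul
          rw [mul_comm, ← hu]
          omega
        simp only
        omega
    · intro z _ z' _ he
      simp only [Prod.mk.injEq] at he
      obtain ⟨h1, h2⟩ := he
      have h3 : ((z.1 : ℤ) - z'.1) * v = ((z.2 : ℤ) - z'.2) * u := by linarith
      have h4 : (u : ℤ) ∣ ((z.1 : ℤ) - z'.1) := by
        have h5 : (u : ℤ) ∣ ((z.1 : ℤ) - z'.1) * v := ⟨(z.2 : ℤ) - z'.2, by rw [h3]; ring⟩
        exact (Nat.isCoprime_iff_coprime.2 huv).dvd_of_dvd_mul_right h5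
      have h6 : z.1 = z'.1 := by
        have h7 : z.1 ≡ z'.1 [MOD u] := by
          rw [Nat.modEq_iff_dvd]
          rw [← Int.dvd_neg]
          convert h4 using 1
          ring
        have h8 := Nat.div_add_mod z.1 u
        have h9 := Nat.div_add_mod z'.1 u
        rw [h2, h7] at h8
        omega
      have h7 : z.2 = z'.2 := by
        rw [h6, sub_self, zero_mul] at h3
        have h8 : ((z.2 : ℤ) - z'.2) = 0 := by
          rcases mul_eq_zero.1 h3.symm with h | h
          · exact h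
          · exfalso; omega
        omega
      exact Prod.ext h6 h7
  have hcard : (((Icc (-M) M).erase 0) ×ˢ (range (g + 1))).card = (2 * M).toNat * (g + 1) := by
    rw [card_product, card_range, card_erase_of_mem (by rw [mem_Icc]; constructor <;> linarith),
      Int.card_Icc]
    congr 1
    omega
  rw [hcard] at hle
  have hg1 : (1 : ℝ) ≤ g := by exact_mod_cast hg
  have h5 : ((2 * M).toNat : ℝ) = 2 * (M : ℝ) := by
    have h6 : (((2 * M).toNat : ℤ) : ℝ) = ((2 * M : ℤ) : ℝ) := by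
      rw [Int.toNat_of_nonneg (by linarith)]
    push_cast at h6
    exact h6
  calc (P.card : ℝ) ≤ (((2 * M).toNat * (g + 1) : ℕ) : ℝ) := by exact_mod_cast hle
    _ = 2 * M * (g + 1) := by rw [Nat.cast_mul, h5]; push_cast; ring
    _ ≤ 2 * (X / g) * (g + g) := by
        have : (M : ℝ) ≤ X / g := Int.floor_le _
        have h7 : (0 : ℝ) ≤ M := by exact_mod_cast hM0
        gcongr
    _ = 4 * X := by field_simp; ring

/-- an interval around a fraction -/
lemma volume_near {q : ℕ} (hq : 0 < q) (b : ℝ) (r : ℤ) :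
    {y : ℝ | |(q : ℝ) * y - r| < b} = Set.Ioo ((r - b) / q) ((r + b) / q) := by
  have hq' : (0 : ℝ) < q := by exact_mod_cast hq
  ext y
  simp only [Set.mem_ofPred_eq, Set.mem_Ioo, abs_lt]
  rw [div_lt_iff₀ hq', lt_div_iff₀ hq']
  constructor
  · rintro ⟨h1, h2⟩; constructor <;> linarith
  · rintro ⟨h1, h2⟩; constructor <;> linarith

lemma real_volume_near {q : ℕ} (hq : 0 < q) {b : ℝ} (hb : 0 ≤ b) (r : ℤ) :
    volume.real {y : ℝ | |(q : ℝ) * y - r| < b} = 2 * b / q := by
  have hq' : (0 : ℝ) < q := by exact_mod_cast hq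
  rw [volume_near hq, Real.volume_real_Ioo_of_le (by gcongr; linarith)]
  field_simp
  ring

lemma volume_near_ne_top {q : ℕ} (hq : 0 < q) (b : ℝ) (r : ℤ) :
    volume {y : ℝ | |(q : ℝ) * y - r| < b} ≠ ⊤ := by
  rw [volume_near hq, Real.volume_Ioo]; exact ENNReal.ofReal_ne_top

lemma round_mem {q : ℕ} {y : ℝ} (hy : y ∈ Set.Ioc (0 : ℝ) 1) :
    0 ≤ round ((q : ℝ) * y) ∧ round ((q : ℝ) * y) ≤ q := by
  have h0 : (0 : ℝ) ≤ q * y := mul_nonneg (Nat.cast_nonneg _) hy.1.le
  have h1 : (q : ℝ) * y ≤ q := by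
    calc (q : ℝ) * y ≤ q * 1 := mul_le_mul_of_nonneg_left hy.2 (Nat.cast_nonneg _)
      _ = q := mul_one _
  rw [round_eq]
  constructor
  · apply Int.floor_nonneg.2; linarith
  · have : ⌊(q : ℝ) * y + 1 / 2⌋ < (q : ℤ) + 1 := by
      rw [Int.floor_lt]; push_cast; linarith
    omega

namespace Sys

variable (d : Sys)

/-- **overlap of two different denominators** -/
lemma overlap {q q' : ℕ} (hq : 0 < q) (hq' : 0 < q') {T : ℝ}
    (hD : ∀ y, y ∈ d.A q ∩ Lo q T → y ∈ d.A q' ∩ Lo q' T →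
      round ((q : ℝ) * y) * q' - round ((q' : ℝ) * y) * q ≠ 0) :
    volume.real ((d.A q ∩ Lo q T) ∩ (d.A q' ∩ Lo q' T) ∩ Set.Ioc 0 1) ≤
      16 * (d.x / d.a q) * (d.x / d.a q') := by
  have ha := d.ha q hq
  have ha' := d.ha q' hq'
  have hx := d.hx
  have hqr : (0 : ℝ) < q := by exact_mod_cast hq
  have hqr' : (0 : ℝ) < q' := by exact_mod_cast hq'
  set b := d.x / d.a q with hb
  set b' := d.x / d.a q' with hb'
  have hb0 : 0 < b := by positivity
  have hb0' : 0 < b' := by positivity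
  set X : ℝ := q' * b + q * b' with hX
  set P := ((range (q + 1)) ×ˢ (range (q' + 1))).filter (fun z : ℕ × ℕ =>
      (z.1 : ℤ) * q' - z.2 * q ≠ 0 ∧ |(((z.1 : ℤ) * q' - z.2 * q : ℤ) : ℝ)| ≤ X) with hP
  have hcard : (P.card : ℝ) ≤ 4 * X := card_pairs hq hq' (by positivity)
  have hsub : (d.A q ∩ Lo q T) ∩ (d.A q' ∩ Lo q' T) ∩ Set.Ioc 0 1 ⊆
      ⋃ z ∈ P, ({y : ℝ | |(q : ℝ) * y - (z.1 : ℤ)| < b} ∩ {y : ℝ | |(q' : ℝ) * y - (z.2 : ℤ)| < b'}) := by
    rintro y ⟨⟨h1, h2⟩, h3⟩
    have hn : |(q : ℝ) * y - round ((q : ℝ) * y)| < b := by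
      have h4 := (d.hUx q h1.1.1).2
      rw [hb, lt_div_iff₀ ha]
      unfold nint at h4
      linarith
    have hn' : |(q' : ℝ) * y - round ((q' : ℝ) * y)| < b' := by
      have h4 := (d.hUx q' h2.1.1).2
      rw [hb', lt_div_iff₀ ha']
      unfold nint at h4
      linarith
    obtain ⟨r0, r1⟩ := round_mem (q := q) h3
    obtain ⟨s0, s1⟩ := round_mem (q := q') h3
    have hne := hD y h1 h2
    obtain ⟨r, hr⟩ := Int.eq_ofNat_of_zero_le r0
    obtain ⟨s, hs⟩ := Int.eq_ofNat_of_zero_le s0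
    rw [hr] at hn hne r1
    rw [hs] at hn' hne s1
    rw [Set.mem_iUnion₂]
    refine ⟨(r, s), ?_, hn, hn'⟩
    rw [hP, mem_filter, mem_product, mem_range, mem_range]
    refine ⟨⟨by simp only; omega, by simp only; omega⟩, hne, ?_⟩
    push_cast
    have e : (r : ℝ) * q' - s * q = q * (q' * y - s) - q' * (q * y - r) := by ring
    push_cast at hn hn'
    rw [e]
    calc |(q : ℝ) * (q' * y - s) - q' * (q * y - r)| ≤ |(q : ℝ) * (q' * y - s)| + |(q' : ℝ) * (q * y - r)| :=
          abs_sub _ _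
      _ = q * |q' * y - s| + q' * |q * y - r| := by
          rw [abs_mul, abs_mul, abs_of_pos hqr, abs_of_pos hqr']
      _ ≤ q * b' + q' * b := by gcongr
      _ = X := by rw [hX]; ring
  have hpiece : ∀ z ∈ P, volume.real ({y : ℝ | |(q : ℝ) * y - (z.1 : ℤ)| < b} ∩
      {y : ℝ | |(q' : ℝ) * y - (z.2 : ℤ)| < b'}) ≤ min (2 * b / q) (2 * b' / q') := by
    intro z _
    apply le_min
    · rw [← real_volume_near hq hb0.le (z.1 : ℤ)]
      exact measureReal_mono Set.inter_subset_left (volume_near_ne_top hq _ _)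
    · rw [← real_volume_near hq' hb0'.le (z.2 : ℤ)]
      exact measureReal_mono Set.inter_subset_right (volume_near_ne_top hq' _ _)
  calc _ ≤ volume.real (⋃ z ∈ P, ({y : ℝ | |(q : ℝ) * y - (z.1 : ℤ)| < b} ∩
        {y : ℝ | |(q' : ℝ) * y - (z.2 : ℤ)| < b'})) := by
        refine measureReal_mono hsub ?_
        refine ((measure_biUnion_finset_le P _).trans_lt (ENNReal.sum_lt_top.2 fun z _ => ?_)).ne
        exact (measure_mono Set.inter_subset_left).trans_lt (volume_near_ne_top hq _ _).lt_top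
    _ ≤ ∑ z ∈ P, volume.real ({y : ℝ | |(q : ℝ) * y - (z.1 : ℤ)| < b} ∩
        {y : ℝ | |(q' : ℝ) * y - (z.2 : ℤ)| < b'}) := measureReal_biUnion_finset_le P _
    _ ≤ ∑ z ∈ P, min (2 * b / q) (2 * b' / q') := sum_le_sum hpiece
    _ = P.card * min (2 * b / q) (2 * b' / q') := by rw [sum_const, nsmul_eq_mul]
    _ ≤ 4 * X * min (2 * b / q) (2 * b' / q') := by
        refine mul_le_mul_of_nonneg_right hcard ?_
        exact le_min (by positivity) (by positivity)
    _ = 4 * (q' * b) * min (2 * b / q) (2 * b' / q') + 4 * (q * b') * min (2 * b / q) (2 * b' / q') := by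
        rw [hX]; ring
    _ ≤ 4 * (q' * b) * (2 * b' / q') + 4 * (q * b') * (2 * b / q) := by
        gcongr
        · exact min_le_right _ _
        · exact min_le_left _ _
    _ = _ := by field_simp; ring

/-- the part with a large common factor -/
lemma high {q : ℕ} (hq : 0 < q) {T : ℝ} (hT : 0 < T) {D : ℝ} (hD : (q.divisors.card : ℝ) ≤ D) :
    volume.real ((d.A q ∩ (Lo q T)ᶜ) ∩ Set.Ioc 0 1) ≤ 4 * D / T * (d.x / d.a q) := by
  have ha := d.ha q hq
  have hx := d.hx
  have hqr : (0 : ℝ) < q := by exact_mod_cast hq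
  have hU0 : d.U q ⊆ Set.Ioi 0 := fun z hz => (d.hUx q hz).1
  have hUfin : volume (d.U q) ≠ ⊤ := by
    refine ne_top_of_le_ne_top ?_ (measure_mono (d.hUx q))
    rw [Real.volume_Ioo]; exact ENNReal.ofReal_ne_top
  set R := (range (q + 1)).filter (fun r => T ≤ (Nat.gcd q r : ℝ)) with hR
  have hRcard : (R.card : ℝ) ≤ D * (2 * q / T) := by
    have h1 : R ⊆ (q.divisors.filter (fun m : ℕ => T ≤ (m : ℝ))).biUnion
        (fun m => (range (q + 1)).filter (fun r => m ∣ r)) := by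
      intro r hr
      rw [hR, mem_filter] at hr
      rw [mem_biUnion]
      refine ⟨Nat.gcd q r, ?_, ?_⟩
      · rw [mem_filter, Nat.mem_divisors]
        exact ⟨⟨Nat.gcd_dvd_left _ _, hq.ne'⟩, hr.2⟩
      · rw [mem_filter]
        exact ⟨hr.1, Nat.gcd_dvd_right _ _⟩
    have h2 : ∀ m ∈ q.divisors.filter (fun m : ℕ => T ≤ (m : ℝ)),
        ((((range (q + 1)).filter (fun r => m ∣ r)).card : ℕ) : ℝ) ≤ 2 * q / T := by
      intro m hm
      rw [mem_filter, Nat.mem_divisors] at hm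
      obtain ⟨⟨hmq, _⟩, hTm⟩ := hm
      have hm0 : 0 < m := Nat.pos_of_dvd_of_pos hmq hq
      have hm' : (0 : ℝ) < m := by exact_mod_cast hm0
      have h3 : ((range (q + 1)).filter (fun r => m ∣ r)).card ≤ q / m + 1 := by
        have h4 : (range (q + 1)).filter (fun r => m ∣ r) ⊆
            insert 0 ((Ioc 0 q).filter (fun r => m ∣ r)) := by
          intro r hr
          rw [mem_filter, mem_range] at hr
          rw [mem_insert, mem_filter, mem_Ioc]
          rcases Nat.eq_zero_or_pos r with h0 | h0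
          · left; exact h0
          · right; exact ⟨⟨h0, by omega⟩, hr.2⟩
        refine (card_le_card h4).trans ((card_insert_le _ _).trans ?_)
        rw [Nat.Ioc_filter_dvd_card_eq_div]
      have h5 : ((q / m : ℕ) : ℝ) ≤ q / m := Nat.cast_div_le
      have h6 : (1 : ℝ) ≤ q / m := by
        rw [le_div_iff₀ hm', one_mul]
        exact_mod_cast Nat.le_of_dvd hq hmq
      calc ((((range (q + 1)).filter (fun r => m ∣ r)).card : ℕ) : ℝ) ≤ ((q / m + 1 : ℕ) : ℝ) := by
            exact_mod_cast h3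
        _ ≤ 2 * (q / m) := by push_cast; linarith
        _ ≤ 2 * (q / T) := by gcongr
        _ = _ := by ring
    calc (R.card : ℝ) ≤ (((q.divisors.filter (fun m : ℕ => T ≤ (m : ℝ))).biUnion
        (fun m => (range (q + 1)).filter (fun r => m ∣ r))).card : ℝ) := by exact_mod_cast card_le_card h1
      _ ≤ ∑ m ∈ q.divisors.filter (fun m : ℕ => T ≤ (m : ℝ)),
          ((((range (q + 1)).filter (fun r => m ∣ r)).card : ℕ) : ℝ) := by
          exact_mod_cast card_biUnion_le
      _ ≤ ∑ m ∈ q.divisors.filter (fun m : ℕ => T ≤ (m : ℝ)), 2 * q / T := sum_le_sum h2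
      _ = ((q.divisors.filter (fun m : ℕ => T ≤ (m : ℝ))).card : ℝ) * (2 * q / T) := by
          rw [sum_const, nsmul_eq_mul]
      _ ≤ D * (2 * q / T) := by
          refine mul_le_mul_of_nonneg_right ?_ (by positivity)
          refine le_trans ?_ hD
          exact_mod_cast card_le_card (filter_subset _ _)
  have hsub : (d.A q ∩ (Lo q T)ᶜ) ∩ Set.Ioc 0 1 ⊆ ⋃ r ∈ R, Comp (d.U q) q (d.a q) (r : ℤ) := by
    rintro y ⟨⟨h1, h2⟩, h3⟩
    obtain ⟨r0, r1⟩ := round_mem (q := q) h3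
    obtain ⟨r, hr⟩ := Int.eq_ofNat_of_zero_le r0
    rw [Set.mem_iUnion₂]
    refine ⟨r, ?_, ?_⟩
    · rw [hR, mem_filter, mem_range]
      refine ⟨by omega, ?_⟩
      have h4 : ¬ (((Int.gcd q (round ((q : ℝ) * y)) : ℕ) : ℝ) < T) := h2
      rw [hr] at h4
      push Not at h4
      exact h4
    · have h5 := h1.1
      unfold nint at h5
      rw [hr] at h5
      exact h5
  have hfin : ∀ r : ℕ, volume (Comp (d.U q) q (d.a q) (r : ℤ)) ≠ ⊤ := fun r => by
    rw [volume_Comp (d.hU q) hU0 hq ha]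
    exact ENNReal.mul_ne_top ENNReal.ofReal_ne_top hUfin
  calc _ ≤ volume.real (⋃ r ∈ R, Comp (d.U q) q (d.a q) (r : ℤ)) := by
        refine measureReal_mono hsub ?_
        exact ((measure_biUnion_finset_le R _).trans_lt (ENNReal.sum_lt_top.2 fun r _ =>
          (hfin r).lt_top)).ne
    _ ≤ ∑ r ∈ R, volume.real (Comp (d.U q) q (d.a q) (r : ℤ)) := measureReal_biUnion_finset_le R _
    _ = ∑ r ∈ R, 2 * d.u q / (q * d.a q) :=
        sum_congr rfl fun r _ => real_volume_Comp (d.hU q) hU0 hq ha r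
    _ = R.card * (2 * d.u q / (q * d.a q)) := by rw [sum_const, nsmul_eq_mul]
    _ ≤ D * (2 * q / T) * (2 * d.x / (q * d.a q)) := by
        have h1 := d.u_le q
        have h2 := d.u_nonneg q
        have hD0 : 0 ≤ D := (Nat.cast_nonneg _).trans hD
        gcongr
    _ = _ := by field_simp; ring

/-- **bound for the overlaps** -/
theorem OV_le {S : Finset ℕ} (hS : ∀ q ∈ S, 0 < q) {T : ℝ} (hT : 0 < T)
    (hDD : ∀ q ∈ S, ∀ q' ∈ S, q ≠ q' → ∀ y, y ∈ d.A q ∩ Lo q T → y ∈ d.A q' ∩ Lo q' T →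
      round ((q : ℝ) * y) * q' - round ((q' : ℝ) * y) * q ≠ 0)
    {D : ℝ} (hD : ∀ q ∈ S, (q.divisors.card : ℝ) ≤ D) :
    d.OV S T ≤ 16 * (∑ q ∈ S, d.x / d.a q) ^ 2 + 4 * D / T * ∑ q ∈ S, d.x / d.a q := by
  have hnn : ∀ q ∈ S, 0 ≤ d.x / d.a q := fun q hq => div_nonneg d.hx.le (d.ha q (hS q hq)).le
  unfold OV
  apply add_le_add
  · calc _ ≤ ∑ q ∈ S, ∑ q' ∈ S.erase q, 16 * (d.x / d.a q) * (d.x / d.a q') := by
          refine sum_le_sum fun q hq => sum_le_sum fun q' hq' => ?_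
          obtain ⟨h1, h2⟩ := mem_erase.1 hq'
          exact d.overlap (hS q hq) (hS q' h2) (hDD q hq q' h2 h1.symm)
      _ ≤ ∑ q ∈ S, ∑ q' ∈ S, 16 * (d.x / d.a q) * (d.x / d.a q') := by
          refine sum_le_sum fun q hq => ?_
          apply sum_le_sum_of_subset_of_nonneg (erase_subset _ _)
          intro q' hq' _
          have := hnn q hq
          have := hnn q' hq'
          positivity
      _ = _ := by
          rw [sq, sum_mul_sum, mul_sum]
          refine sum_congr rfl fun q _ => ?_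
          rw [mul_sum]
          refine sum_congr rfl fun q' _ => ?_
          ring
  · rw [mul_sum]
    exact sum_le_sum fun q hq => d.high (hS q hq) hT (hD q hq)

end Sys

end Pool.Agent.KS6_2.LL
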