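import Pool.Agent.KS6_2.LL.Var

open MeasureTheory Finset ArithmeticFunction

namespace Pool.Agent.KS6_2.LL

/-- the number of the integers `r` prime to `g` with `q y < r ≤ q (y + h)` -/
noncomputable def cntP (q g : ℕ) (h y : ℝ) : ℝ :=
  (((Ioc ⌊(q : ℝ) * y⌋ ⌊(q : ℝ) * (y + h)⌋).filter (fun r : ℤ => Int.gcd g r = 1)).card : ℝ)

lemma cntP_eq {q g : ℕ} (hg : 0 < g) (hgq : g ∣ q) {h : ℝ} (hh : 0 ≤ h) (y : ℝ) :
    cntP q g h y = ∑ m ∈ g.divisors, (moebius m : ℝ) * cnt (q / m) h y := by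
  have h1 : ∀ r : ℤ, (if Int.gcd g r = 1 then (1 : ℝ) else 0) =
      ∑ m ∈ g.divisors, if (m : ℤ) ∣ r then (moebius m : ℝ) else 0 := by
    intro r
    have hpos : 0 < Int.gcd g r := Int.gcd_pos_of_ne_zero_left _ (by exact_mod_cast hg.ne')
    have h2 : ∑ m ∈ (Int.gcd g r).divisors, (moebius m : ℤ) = if Int.gcd g r = 1 then 1 else 0 := by
      have := coe_zeta_mul_apply (f := moebius) (x := Int.gcd g r)
      rw [← this, coe_zeta_mul_moebius, one_apply]
    have h3 : (Int.gcd g r).divisors = g.divisors.filter (fun m : ℕ => (m : ℤ) ∣ r) := by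
      ext m
      rw [mem_filter, Nat.mem_divisors, Nat.mem_divisors]
      constructor
      · rintro ⟨h4, _⟩
        have h5 : (m : ℤ) ∣ (Int.gcd g r : ℤ) := by exact_mod_cast h4
        refine ⟨⟨?_, hg.ne'⟩, h5.trans (Int.gcd_dvd_right _ _)⟩
        exact_mod_cast h5.trans (Int.gcd_dvd_left _ _)
      · rintro ⟨⟨h4, _⟩, h5⟩
        refine ⟨?_, hpos.ne'⟩
        exact_mod_cast Int.dvd_coe_gcd (by exact_mod_cast h4 : (m : ℤ) ∣ (g : ℤ)) h5
    rw [← sum_filter, ← h3]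
    have h6 : ((∑ m ∈ (Int.gcd g r).divisors, (moebius m : ℤ) : ℤ) : ℝ) =
        ((if Int.gcd g r = 1 then 1 else 0 : ℤ) : ℝ) := by rw [h2]
    push_cast at h6
    rw [h6]
  unfold cntP
  rw [card_filter]
  push_cast
  rw [sum_congr rfl (fun r _ => h1 r), sum_comm]
  refine sum_congr rfl fun m hm => ?_
  have hm0 : 0 < m := Nat.pos_of_mem_divisors hm
  have hmq : m ∣ q := (Nat.dvd_of_mem_divisors hm).trans hgq
  have hm' : (m : ℝ) ≠ 0 := by positivity
  rw [← sum_filter, sum_const, nsmul_eq_mul, mul_comm]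
  congr 1
  have h4 := Int.Ioc_filter_dvd_card ⌊(q : ℝ) * y⌋ ⌊(q : ℝ) * (y + h)⌋
    (r := (m : ℤ)) (by exact_mod_cast hm0)
  have hfl : ∀ z : ℝ, ⌊((⌊z⌋ : ℤ) : ℚ) / ((m : ℤ) : ℚ)⌋ = ⌊z / m⌋ := by
    intro z
    rw [Int.floor_div_natCast z m]
    have := Rat.floor_intCast_div_natCast ⌊z⌋ m
    push_cast
    exact this
  rw [hfl, hfl] at h4
  have h5 : ⌊(q : ℝ) * y / m⌋ ≤ ⌊(q : ℝ) * (y + h) / m⌋ := by
    apply Int.floor_le_floor
    gcongr
    linarith
  rw [max_eq_left (by linarith)] at h4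
  have h6 : ((((Ioc ⌊(q : ℝ) * y⌋ ⌊(q : ℝ) * (y + h)⌋).filter (fun x => (m : ℤ) ∣ x)).card : ℤ) : ℝ) =
      ((⌊(q : ℝ) * (y + h) / m⌋ - ⌊(q : ℝ) * y / m⌋ : ℤ) : ℝ) := by rw [h4]
  push_cast at h6
  rw [h6]
  unfold cnt
  rw [Nat.cast_div hmq hm']
  congr 3 <;> field_simp

lemma sum_sqrt_cube (n : ℕ) (hn : 1 ≤ n) :
    ∑ m ∈ Icc 1 n, √(1 / (m : ℝ) ^ 3) ≤ 3 - 2 / √n := by
  induction n, hn using Nat.le_induction with
  | base => simp; norm_num
  | succ n hn ih =>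
    rw [sum_Icc_succ_top (by omega)]
    have hn' : (0 : ℝ) < n := by exact_mod_cast hn
    set a := √(n : ℝ) with ha
    set b := √((n + 1 : ℕ) : ℝ) with hb
    have ha0 : 0 < a := Real.sqrt_pos.2 hn'
    have hb0 : 0 < b := Real.sqrt_pos.2 (by positivity)
    have ha2 : a ^ 2 = n := Real.sq_sqrt hn'.le
    have hb2 : b ^ 2 = n + 1 := by rw [hb, Real.sq_sqrt (by positivity)]; push_cast; ring
    have hab : a ≤ b := Real.sqrt_le_sqrt (by push_cast; linarith)
    have h1 : √(1 / ((n + 1 : ℕ) : ℝ) ^ 3) = 1 / b ^ 3 := by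
      rw [Real.sqrt_div zero_le_one, Real.sqrt_one, hb]
      congr 1
      rw [← Real.sqrt_sq (by positivity : 0 ≤ √((n + 1 : ℕ) : ℝ) ^ 3)]
      congr 1
      rw [← pow_mul, mul_comm 3 2, pow_mul, Real.sq_sqrt (by positivity)]
    rw [h1]
    have h2 : 1 / b ^ 3 ≤ 2 / a - 2 / b := by
      have e : 2 / a - 2 / b = 2 * (b - a) * (b + a) / (a * b * (a + b)) := by
        field_simp
        ring
      have e2 : 2 * (b - a) * (b + a) = 2 := by nlinarith
      rw [e, e2, div_le_div_iff₀ (by positivity) (by positivity), one_mul]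
      calc a * b * (a + b) ≤ b * b * (b + b) := by gcongr
        _ = 2 * b ^ 3 := by ring
    linarith

lemma measurable_cntP (q g : ℕ) (hg : 0 < g) (hgq : g ∣ q) {h : ℝ} (hh : 0 ≤ h) :
    Measurable (cntP q g h) := by
  have : cntP q g h = fun y => ∑ m ∈ g.divisors, (moebius m : ℝ) * cnt (q / m) h y := by
    funext y; exact cntP_eq hg hgq hh y
  rw [this]
  exact Finset.measurable_sum _ fun m _ => (measurable_cnt _ h).const_mul _

lemma cntP_periodic (q g : ℕ) (hq : 0 < q) (hg : 0 < g) (hgq : g ∣ q) {h : ℝ} (hh : 0 ≤ h) :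
    Function.Periodic (cntP q g h) 1 := by
  intro y
  rw [cntP_eq hg hgq hh, cntP_eq hg hgq hh]
  refine sum_congr rfl fun m hm => ?_
  have hmq : m ∣ q := (Nat.dvd_of_mem_divisors hm).trans hgq
  rw [cnt_periodic (Nat.div_pos (Nat.le_of_dvd hq hmq) (Nat.pos_of_mem_divisors hm)) h y]

lemma cntP_nonneg (q g : ℕ) (h y : ℝ) : 0 ≤ cntP q g h y := Nat.cast_nonneg _

/-- **L¹ deviation of weighted counts of primitive points** -/
theorem integral_abs_cntP_le {Q : ℕ} (hQ : 1 ≤ Q) {S : Finset ℕ} (hS : ∀ q ∈ S, 0 < q ∧ q ≤ Q)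
    {g : ℕ → ℕ} (hg : ∀ q ∈ S, 0 < g q ∧ g q ∣ q)
    {w : ℕ → ℝ} (hw : ∀ q ∈ S, 0 ≤ w q) {wm D : ℝ} (hwm : ∀ q ∈ S, w q ≤ wm) (hwm0 : 0 ≤ wm)
    (hD : ∀ q ∈ S, (q.divisors.card : ℝ) ≤ D) (hD0 : 0 ≤ D) {C : ℝ} (hC0 : 0 ≤ C)
    (hC : ∀ m : ℕ, 1 ≤ m → ∑ q ∈ S.filter (fun q => m ∣ g q), w q * q ≤ C / m ^ 2)
    {h : ℝ} (hh : 0 ≤ h) :
    ∫ y in (0 : ℝ)..1, |∑ q ∈ S, w q * cntP q (g q) h y -
      h * ∑ q ∈ S, w q * q * ∑ m ∈ (g q).divisors, (moebius m : ℝ) / m| ≤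
      3 * √(2 * h * wm * D * C) := by
  set T : ℕ → Finset ℕ := fun m => S.filter (fun q => m ∣ g q) with hT
  -- rewrite as a sum over m
  have hrew : ∀ y, ∑ q ∈ S, w q * cntP q (g q) h y -
      h * ∑ q ∈ S, w q * q * ∑ m ∈ (g q).divisors, (moebius m : ℝ) / m =
      ∑ m ∈ Icc 1 Q, (moebius m : ℝ) * ∑ q ∈ T m, w q * (cnt (q / m) h y - ((q / m : ℕ) : ℝ) * h) := by
    intro y
    have e1 : ∀ q ∈ S, w q * cntP q (g q) h y -
        h * (w q * q * ∑ m ∈ (g q).divisors, (moebius m : ℝ) / m) =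
        ∑ m ∈ Icc 1 Q, if m ∣ g q then
          (moebius m : ℝ) * (w q * (cnt (q / m) h y - ((q / m : ℕ) : ℝ) * h)) else 0 := by
      intro q hq
      obtain ⟨hg0, hgq⟩ := hg q hq
      obtain ⟨hq0, hqQ⟩ := hS q hq
      rw [cntP_eq hg0 hgq hh, ← sum_filter]
      have e2 : (Icc 1 Q).filter (fun m => m ∣ g q) = (g q).divisors := by
        ext m
        rw [mem_filter, mem_Icc, Nat.mem_divisors]
        constructor
        · rintro ⟨_, h2⟩; exact ⟨h2, hg0.ne'⟩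
        · rintro ⟨h2, _⟩
          refine ⟨⟨Nat.pos_of_dvd_of_pos h2 hg0, ?_⟩, h2⟩
          exact (Nat.le_of_dvd hq0 (h2.trans hgq)).trans hqQ
      rw [e2, mul_sum, mul_sum, mul_sum, ← sum_sub_distrib]
      refine sum_congr rfl fun m hm => ?_
      have hm0 : 0 < m := Nat.pos_of_mem_divisors hm
      have hmq : m ∣ q := (Nat.dvd_of_mem_divisors hm).trans hgq
      have hm' : (m : ℝ) ≠ 0 := by positivity
      rw [Nat.cast_div hmq hm']
      ring
    rw [mul_sum, ← sum_sub_distrib, sum_congr rfl e1, sum_comm]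
    refine sum_congr rfl fun m _ => ?_
    rw [← sum_filter, mul_sum]
  have hbd : ∀ m ∈ Icc 1 Q, ∫ y in (0 : ℝ)..1,
      |∑ q ∈ T m, w q * (cnt (q / m) h y - ((q / m : ℕ) : ℝ) * h)| ≤
      √(2 * h * wm * D * C) * √(1 / (m : ℝ) ^ 3) := by
    intro m hm
    have hm0 : 0 < m := (mem_Icc.1 hm).1
    have hm' : (0 : ℝ) < m := by exact_mod_cast hm0
    have hTm : ∀ q ∈ T m, q ∈ S ∧ m ∣ q ∧ 0 < q / m := by
      intro q hq
      rw [hT, mem_filter] at hq
      have h1 := hq.2.trans (hg q hq.1).2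
      exact ⟨hq.1, h1, Nat.div_pos (Nat.le_of_dvd (hS q hq.1).1 h1) hm0⟩
    have hinj : Set.InjOn (fun q => q / m) (T m : Set ℕ) := by
      intro q hq q' hq' he
      have h1 := (hTm q hq).2.1
      have h2 := (hTm q' hq').2.1
      calc q = m * (q / m) := (Nat.mul_div_cancel' h1).symm
        _ = m * (q' / m) := by rw [show q / m = q' / m from he]
        _ = q' := Nat.mul_div_cancel' h2
    have e1 : ∀ y, ∑ q ∈ T m, w q * (cnt (q / m) h y - ((q / m : ℕ) : ℝ) * h) =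
        ∑ k ∈ (T m).image (fun q => q / m), w (m * k) * (cnt k h y - k * h) := by
      intro y
      rw [sum_image hinj]
      refine sum_congr rfl fun q hq => ?_
      rw [Nat.mul_div_cancel' (hTm q hq).2.1]
    have e2 : ∑ k ∈ (T m).image (fun q => q / m), w (m * k) * k ≤ C / m ^ 3 := by
      rw [sum_image hinj]
      calc ∑ q ∈ T m, w (m * (q / m)) * ((q / m : ℕ) : ℝ) = (∑ q ∈ T m, w q * q) / m := by
            rw [sum_div]
            refine sum_congr rfl fun q hq => ?_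
            rw [Nat.mul_div_cancel' (hTm q hq).2.1, Nat.cast_div (hTm q hq).2.1 hm'.ne']
            ring
        _ ≤ (C / m ^ 2) / m := by gcongr; exact hC m hm0
        _ = _ := by field_simp
    simp only [e1]
    refine (integral_abs_cnt_le (wm := wm) (D := D) ?_ ?_ ?_ ?_ hh).trans ?_
    · intro k hk
      obtain ⟨q, hq, rfl⟩ := mem_image.1 hk
      exact (hTm q hq).2.2
    · intro k hk
      obtain ⟨q, hq, rfl⟩ := mem_image.1 hk
      rw [Nat.mul_div_cancel' (hTm q hq).2.1]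
      exact hw q (hTm q hq).1
    · intro k hk
      obtain ⟨q, hq, rfl⟩ := mem_image.1 hk
      rw [Nat.mul_div_cancel' (hTm q hq).2.1]
      exact hwm q (hTm q hq).1
    · intro k hk
      obtain ⟨q, hq, rfl⟩ := mem_image.1 hk
      refine le_trans ?_ (hD q (hTm q hq).1)
      have : (q / m).divisors ⊆ q.divisors :=
        Nat.divisors_subset_of_dvd (hS q (hTm q hq).1).1.ne' (Nat.div_dvd_of_dvd (hTm q hq).2.1)
      exact_mod_cast card_le_card this
    · rw [← Real.sqrt_mul (by positivity)]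
      apply Real.sqrt_le_sqrt
      calc h * (2 * wm * D * ∑ k ∈ (T m).image (fun q => q / m), w (m * k) * k)
          ≤ h * (2 * wm * D * (C / m ^ 3)) := by gcongr
        _ = _ := by ring
  have hI : ∀ m, IntervalIntegrable
      (fun y => |∑ q ∈ T m, w q * (cnt (q / m) h y - ((q / m : ℕ) : ℝ) * h)|) volume 0 1 := by
    intro m
    apply intervalIntegrable_of_bdd (B := ∑ q ∈ T m, |w q|)
    · exact (Finset.measurable_sum _ fun q _ =>
        ((measurable_cnt _ h).sub_const _).const_mul _).abs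
    · intro y
      rw [abs_abs]
      refine (abs_sum_le_sum_abs _ _).trans (sum_le_sum fun q hq => ?_)
      rw [abs_mul]
      calc |w q| * |cnt (q / m) h y - ((q / m : ℕ) : ℝ) * h| ≤ |w q| * 1 :=
            mul_le_mul_of_nonneg_left (abs_cnt_sub_le _ _ _) (abs_nonneg _)
        _ = _ := mul_one _
  have hle : ∀ y, |∑ m ∈ Icc 1 Q, (moebius m : ℝ) *
      ∑ q ∈ T m, w q * (cnt (q / m) h y - ((q / m : ℕ) : ℝ) * h)| ≤
      ∑ m ∈ Icc 1 Q, |∑ q ∈ T m, w q * (cnt (q / m) h y - ((q / m : ℕ) : ℝ) * h)| := by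
    intro y
    refine (abs_sum_le_sum_abs _ _).trans (sum_le_sum fun m _ => ?_)
    rw [abs_mul]
    have : |(moebius m : ℝ)| ≤ 1 := by
      have := abs_moebius_le_one (n := m)
      exact_mod_cast this
    calc _ ≤ 1 * |∑ q ∈ T m, w q * (cnt (q / m) h y - ((q / m : ℕ) : ℝ) * h)| :=
          mul_le_mul_of_nonneg_right this (abs_nonneg _)
      _ = _ := one_mul _
  simp only [hrew]
  calc ∫ y in (0 : ℝ)..1, |∑ m ∈ Icc 1 Q, (moebius m : ℝ) *
      ∑ q ∈ T m, w q * (cnt (q / m) h y - ((q / m : ℕ) : ℝ) * h)|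
      ≤ ∫ y in (0 : ℝ)..1, ∑ m ∈ Icc 1 Q,
        |∑ q ∈ T m, w q * (cnt (q / m) h y - ((q / m : ℕ) : ℝ) * h)| := by
        apply intervalIntegral.integral_mono_on (by norm_num)
        · apply intervalIntegrable_of_bdd
            (B := ∑ m ∈ Icc 1 Q, ∑ q ∈ T m, |w q|)
          · exact (Finset.measurable_sum _ fun m _ => (Finset.measurable_sum _ fun q _ =>
              ((measurable_cnt _ h).sub_const _).const_mul _).const_mul _).abs
          · intro y
            rw [abs_abs]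
            refine (hle y).trans (sum_le_sum fun m _ => ?_)
            refine (abs_sum_le_sum_abs _ _).trans (sum_le_sum fun q hq => ?_)
            rw [abs_mul]
            calc |w q| * |cnt (q / m) h y - ((q / m : ℕ) : ℝ) * h| ≤ |w q| * 1 :=
                  mul_le_mul_of_nonneg_left (abs_cnt_sub_le _ _ _) (abs_nonneg _)
              _ = _ := mul_one _
        · have : IntervalIntegrable (∑ m ∈ Icc 1 Q, fun y =>
              |∑ q ∈ T m, w q * (cnt (q / m) h y - ((q / m : ℕ) : ℝ) * h)|) volume 0 1 :=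
            IntervalIntegrable.sum _ fun m _ => hI m
          have e4 : (∑ m ∈ Icc 1 Q, fun y =>
              |∑ q ∈ T m, w q * (cnt (q / m) h y - ((q / m : ℕ) : ℝ) * h)|) = fun y =>
              ∑ m ∈ Icc 1 Q, |∑ q ∈ T m, w q * (cnt (q / m) h y - ((q / m : ℕ) : ℝ) * h)| := by
            funext y; simp
          rwa [e4] at this
        · intro y _; exact hle y
    _ = ∑ m ∈ Icc 1 Q, ∫ y in (0 : ℝ)..1,
        |∑ q ∈ T m, w q * (cnt (q / m) h y - ((q / m : ℕ) : ℝ) * h)| :=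
        intervalIntegral.integral_finsetSum fun m _ => hI m
    _ ≤ ∑ m ∈ Icc 1 Q, √(2 * h * wm * D * C) * √(1 / (m : ℝ) ^ 3) := sum_le_sum hbd
    _ = √(2 * h * wm * D * C) * ∑ m ∈ Icc 1 Q, √(1 / (m : ℝ) ^ 3) := by rw [mul_sum]
    _ ≤ √(2 * h * wm * D * C) * 3 := by
        refine mul_le_mul_of_nonneg_left ?_ (Real.sqrt_nonneg _)
        have := sum_sqrt_cube Q hQ
        have h2 : 0 ≤ 2 / √(Q : ℝ) := by positivity
        linarith
    _ = _ := by ring

end Pool.Agent.KS6_2.LL
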