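import Pool.Agent.KS6_2.LL.Weak

open MeasureTheory Finset Filter Topology

namespace Pool.Agent.KS6_2.LL

lemma integrable_tail {f : ℝ → ℝ} (hf : Measurable f) (f01 : ∀ x, 0 ≤ f x ∧ f x ≤ 1) {M : ℝ}
    (hfM : ∀ x, M ≤ x → f x = 1) : IntegrableOn (fun x => 1 - f x) (Set.Ioi 0) := by
  have h1 : IntegrableOn (fun x => 1 - f x) (Set.Ioc 0 M) := by
    have : IsFiniteMeasure (volume.restrict (Set.Ioc 0 M)) := ⟨by
      rw [Measure.restrict_apply_univ, Real.volume_Ioc]; exact ENNReal.ofReal_lt_top⟩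
    refine Integrable.of_bound (C := 1) (measurable_const.sub hf).aestronglyMeasurable ?_
    filter_upwards with x
    have := f01 x
    rw [Real.norm_eq_abs, abs_le]
    constructor <;> linarith
  refine h1.of_forall_sdiff_eq_zero measurableSet_Ioi ?_
  rintro x ⟨hx1, hx2⟩
  rw [hfM x, sub_self]
  by_contra h
  exact hx2 ⟨hx1, (not_le.1 h).le⟩

lemma integral_tail {f : ℝ → ℝ} {M : ℝ} (hfM : ∀ x, M ≤ x → f x = 1) :
    ∫ x in Set.Ioi 0, (1 - f x) = ∫ x in Set.Ioc 0 M, (1 - f x) := by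
  apply setIntegral_eq_of_subset_of_forall_sdiff_eq_zero measurableSet_Ioi
    (fun x hx => hx.1)
  rintro x ⟨hx1, hx2⟩
  rw [hfM x, sub_self]
  by_contra h
  exact hx2 ⟨hx1, (not_le.1 h).le⟩

lemma int_close {f g : ℝ → ℝ} (hf : Measurable f) (hg : Measurable g)
    (f01 : ∀ x, 0 ≤ f x ∧ f x ≤ 1) (g01 : ∀ x, 0 ≤ g x ∧ g x ≤ 1) {M η : ℝ} (hM : 0 ≤ M)
    (hfM : ∀ x, M ≤ x → f x = 1) (hgM : ∀ x, M ≤ x → g x = 1)
    (hfg : ∀ x, 0 ≤ x → x ≤ M → |f x - g x| ≤ η) :
    |(∫ x in Set.Ioi 0, (1 - f x)) - ∫ x in Set.Ioi 0, (1 - g x)| ≤ η * M := by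
  have i1 := (integrable_tail hf f01 hfM).mono_set
    (s := Set.Ioc 0 M) (fun x hx => hx.1)
  have i2 := (integrable_tail hg g01 hgM).mono_set
    (s := Set.Ioc 0 M) (fun x hx => hx.1)
  rw [integral_tail hfM, integral_tail hgM, ← integral_sub i1 i2, ← Real.norm_eq_abs]
  have h1 := norm_setIntegral_le_of_norm_le_const (μ := volume) (s := Set.Ioc 0 M) (C := η)
    (f := fun x => 1 - f x - (1 - g x)) (by rw [Real.volume_Ioc]; exact ENNReal.ofReal_lt_top)
    (fun x hx => by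
      have e : 1 - f x - (1 - g x) = -(f x - g x) := by ring
      rw [e, norm_neg, Real.norm_eq_abs]
      exact hfg x hx.1.le hx.2)
  rw [Real.volume_real_Ioc_of_le hM, sub_zero] at h1
  exact h1

/-- the colour of a point -/
noncomputable def col (N : ℕ) (p : ℝ × ℝ) : Fin (N + 1) × Fin (2 * N + 1) :=
  (⟨min ⌊N * p.1⌋₊ N, by omega⟩, ⟨min ⌊N * p.2⌋₊ (2 * N), by omega⟩)

lemma floor_close {N : ℕ} (hN : 0 < N) {x : ℝ} (hx : 0 ≤ x) {m : ℕ} (hxm : x ≤ m) :
    0 ≤ ((min ⌊N * x⌋₊ (m * N) : ℕ) : ℝ) / N ∧ ((min ⌊N * x⌋₊ (m * N) : ℕ) : ℝ) / N ≤ m ∧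
      |x - ((min ⌊N * x⌋₊ (m * N) : ℕ) : ℝ) / N| ≤ 1 / N := by
  have hN' : (0 : ℝ) < N := by exact_mod_cast hN
  have h1 : ⌊N * x⌋₊ ≤ m * N := by
    have : (N : ℝ) * x ≤ ((m * N : ℕ) : ℝ) := by
      push_cast; rw [mul_comm]; gcongr
    have := Nat.floor_le_floor this
    rwa [Nat.floor_natCast] at this
  rw [min_eq_left h1]
  have h2 : (⌊N * x⌋₊ : ℝ) ≤ N * x := Nat.floor_le (by positivity)
  have h3 := Nat.lt_floor_add_one (N * x)
  refine ⟨by positivity, ?_, ?_⟩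
  · rw [div_le_iff₀ hN']
    exact_mod_cast h1
  · have e : x - (⌊N * x⌋₊ : ℝ) / N = (N * x - ⌊N * x⌋₊) / N := by field_simp
    rw [e, abs_div, abs_of_pos hN']
    gcongr
    rw [abs_le]; constructor <;> linarith

lemma pt_range {c α : ℝ} (hc : 0 < c) (h : Bad c α) {Q : ℕ} (hQ : 0 < Real.log Q)
    (hQc : Real.log (1 / c) ≤ Real.log Q) {q : ℕ} (hq : q ∈ Icc 1 Q) :
    (0 ≤ (pt α Q q).1 ∧ (pt α Q q).1 ≤ 1) ∧ 0 ≤ (pt α Q q).2 ∧ (pt α Q q).2 ≤ 2 := by
  obtain ⟨h1, h2⟩ := mem_Icc.1 hq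
  have hq0 : (0 : ℝ) < q := by exact_mod_cast h1
  have hqQ : (q : ℝ) ≤ Q := by exact_mod_cast h2
  have h3 : Real.log q ≤ Real.log Q := Real.log_le_log hq0 hqQ
  have h4 : 0 ≤ Real.log q := Real.log_natCast_nonneg q
  have h5 := log_inv_nint_pos hc h h1
  have hn := nint_pos_bad hc h h1
  have h6 : Real.log (1 / nint (q * α)) ≤ 2 * Real.log Q := by
    have h7 : 1 / nint (q * α) ≤ q * (1 / c) := by
      have := h q h1
      rw [div_le_iff₀ hn]
      calc (1 : ℝ) = c * (1 / c) := by field_simp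
        _ ≤ (q * nint (q * α)) * (1 / c) := by gcongr
        _ = _ := by ring
    have h8 := Real.log_le_log (by positivity) h7
    rw [Real.log_mul hq0.ne' (by positivity)] at h8
    linarith
  unfold pt
  refine ⟨⟨by positivity, ?_⟩, by positivity, ?_⟩
  · rw [div_le_one hQ]; exact h3
  · rw [div_le_iff₀ hQ]; exact h6

/-- **convergence to the Poisson process on the cone** -/
theorem proc_lim {c α : ℝ} (hc : 0 < c) (h : Bad c α) {F : ℝ → ℝ → ℝ → ℝ}
    (hF : Continuous fun z : ℝ × ℝ × ℝ => F z.1 z.2.1 z.2.2)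
    (h01 : ∀ s v x, 0 ≤ F s v x ∧ F s v x ≤ 1) {M : ℝ} (hM : ∀ s v x, M ≤ x → F s v x = 1)
    {E : Set ℝ} (hE : MeasurableSet E) (hEf : volume E ≠ ⊤) :
    Tendsto (fun Q : ℕ => ∫ y in E, ∏ q ∈ PQ α Q y, F (pt α Q q).1 (pt α Q q).2 (val α Q q y)) atTop
      (𝓝 (volume.real E *
        Real.exp (-(4 * (∫ p in Tri, ∫ x in Set.Ioi 0, (1 - F p.1 p.2 x)) / z3)))) := by
  have hlog : Tendsto (fun Q : ℕ => Real.log Q) atTop atTop :=
    Real.tendsto_log_atTop.comp tendsto_natCast_atTop_atTop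
  have hz3 := z3_pos
  set M' : ℝ := max M 1 with hM'
  have hM'0 : 0 < M' := lt_of_lt_of_le one_pos (le_max_right _ _)
  have hM1 : ∀ s v x, M' ≤ x → F s v x = 1 := fun s v x hx => hM s v x ((le_max_left _ _).trans hx)
  have hFm : ∀ s v, Measurable (F s v) := by
    intro s v
    have : Continuous (F s v) := hF.comp (by fun_prop : Continuous fun x : ℝ => (s, v, x))
    exact this.measurable
  set G : ℝ × ℝ → ℝ := fun p => ∫ x in Set.Ioi 0, (1 - F p.1 p.2 x) with hG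
  have hG1 : ∀ p, G p = ∫ x in (0 : ℝ)..M', (1 - F p.1 p.2 x) := by
    intro p
    rw [hG, intervalIntegral.integral_of_le hM'0.le]
    exact integral_tail (hM1 p.1 p.2)
  have hGc : Continuous G := by
    have : G = fun p : ℝ × ℝ => ∫ x in (0 : ℝ)..M', (1 - F p.1 p.2 x) := funext hG1
    rw [this]
    apply intervalIntegral.continuous_parametric_intervalIntegral_of_continuous'
    have h1 : Continuous fun z : (ℝ × ℝ) × ℝ => F z.1.1 z.1.2 z.2 :=
      hF.comp (by fun_prop : Continuous fun z : (ℝ × ℝ) × ℝ => (z.1.1, z.1.2, z.2))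
    exact continuous_const.sub h1
  have hGb : ∀ p, |G p| ≤ M' := by
    intro p
    rw [hG1 p]
    have h1 := intervalIntegral.norm_integral_le_of_norm_le_const (a := 0) (b := M') (C := 1)
      (f := fun x => 1 - F p.1 p.2 x) (fun x _ => by
        have := h01 p.1 p.2 x
        rw [Real.norm_eq_abs, abs_le]; constructor <;> linarith)
    rw [sub_zero, abs_of_pos hM'0, one_mul, Real.norm_eq_abs] at h1
    exact h1
  set b : ℕ → ℝ := fun Q => 2 * ∑ q ∈ Icc 1 Q, rr α q * ph α q / Real.log Q ^ 2 * G (pt α Q q) with hb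
  have hblim : Tendsto b atTop (𝓝 (4 * (∫ p in Tri, G p) / z3)) := by
    have h1 := (cone_lim hc h hGc hGb).const_mul 2
    have e : 2 * (2 * (∫ p in Tri, G p) / z3) = 4 * (∫ p in Tri, G p) / z3 := by ring
    rw [e] at h1
    exact h1
  have hexp : Tendsto (fun Q => volume.real E * Real.exp (-b Q)) atTop
      (𝓝 (volume.real E * Real.exp (-(4 * (∫ p in Tri, G p) / z3)))) :=
    ((Real.continuous_exp.tendsto _).comp hblim.neg).const_mul _
  suffices hdiff : Tendsto (fun Q : ℕ => (∫ y in E, ∏ q ∈ PQ α Q y,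
      F (pt α Q q).1 (pt α Q q).2 (val α Q q y)) - volume.real E * Real.exp (-b Q)) atTop (𝓝 0) by
    have := hdiff.add hexp
    rw [zero_add] at this
    refine this.congr fun Q => ?_
    ring
  set V : ℝ := volume.real E with hV
  have hV0 : 0 ≤ V := measureReal_nonneg
  rw [Metric.tendsto_atTop]
  intro ε hε
  set K : ℝ := 1 / z3 + 1 with hK
  have hK0 : 0 < K := by positivity
  set η : ℝ := ε / (16 * (V + 1) * K * M') with hη
  have hη0 : 0 < η := by positivity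
  have hcomp : IsCompact (Set.Icc (0 : ℝ) 1 ×ˢ (Set.Icc (0 : ℝ) 2 ×ˢ Set.Icc (0 : ℝ) M')) :=
    isCompact_Icc.prod (isCompact_Icc.prod isCompact_Icc)
  have huc := hcomp.uniformContinuousOn_of_continuous hF.continuousOn
  rw [Metric.uniformContinuousOn_iff] at huc
  obtain ⟨δ, hδ, huc⟩ := huc η hη0
  obtain ⟨N, hN⟩ := exists_nat_gt (1 / δ)
  have hN0 : (0 : ℝ) < N := lt_trans (by positivity) hN
  have hN1 : 0 < N := by exact_mod_cast hN0
  have hNδ : 1 / (N : ℝ) < δ := by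
    rw [div_lt_iff₀ hδ] at hN
    rw [div_lt_iff₀ hN0]; linarith
  -- the colours
  set cr : Fin (N + 1) × Fin (2 * N + 1) → ℝ × ℝ := fun i => ((i.1 : ℕ) / (N : ℝ), (i.2 : ℕ) / (N : ℝ))
    with hcr
  have hclose : ∀ p : ℝ × ℝ, (0 ≤ p.1 ∧ p.1 ≤ 1) ∧ 0 ≤ p.2 ∧ p.2 ≤ 2 → ∀ x, 0 ≤ x → x ≤ M' →
      |F (cr (col N p)).1 (cr (col N p)).2 x - F p.1 p.2 x| ≤ η := by
    intro p hp x hx hxM
    obtain ⟨⟨a1, a2⟩, a3, a4⟩ := hp
    obtain ⟨b1, b2, b3⟩ := floor_close hN1 a1 (m := 1) (by simpa using a2)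
    obtain ⟨c1, c2, c3⟩ := floor_close hN1 a3 (m := 2) (by simpa using a4)
    simp only [one_mul, Nat.cast_one] at b1 b2 b3
    have d1 := huc ((cr (col N p)).1, (cr (col N p)).2, x)
      ⟨⟨b1, b2⟩, ⟨c1, by rw [Nat.cast_ofNat] at c2; exact c2⟩, hx, hxM⟩ (p.1, p.2, x)
      ⟨⟨a1, a2⟩, ⟨a3, a4⟩, hx, hxM⟩ (by
        rw [Prod.dist_eq, Prod.dist_eq, max_lt_iff, max_lt_iff]
        refine ⟨?_, ?_, ?_⟩
        · rw [dist_comm, Real.dist_eq]; exact lt_of_le_of_lt b3 hNδ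
        · rw [dist_comm, Real.dist_eq]; exact lt_of_le_of_lt c3 hNδ
        · simp only [dist_self]; exact hδ)
    rw [Real.dist_eq] at d1
    exact d1.le
  set φp : Fin (N + 1) × Fin (2 * N + 1) → ℝ → ℝ := fun i x =>
    if x < M' then min 1 (F (cr i).1 (cr i).2 x + η) else 1 with hφp
  set φm : Fin (N + 1) × Fin (2 * N + 1) → ℝ → ℝ := fun i x =>
    if x < M' then max 0 (F (cr i).1 (cr i).2 x - η) else 1 with hφm
  have hmp : ∀ i, Measurable (φp i) := fun i =>
    Measurable.ite measurableSet_Iio (measurable_const.min ((hFm _ _).add_const _)) measurable_const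
  have hmm : ∀ i, Measurable (φm i) := fun i =>
    Measurable.ite measurableSet_Iio (measurable_const.max ((hFm _ _).sub_const _)) measurable_const
  have hp01 : ∀ i x, 0 ≤ φp i x ∧ φp i x ≤ 1 := by
    intro i x
    have := h01 (cr i).1 (cr i).2 x
    simp only [hφp]
    split_ifs
    · exact ⟨le_min zero_le_one (by linarith), min_le_left _ _⟩
    · exact ⟨zero_le_one, le_rfl⟩
  have hm01 : ∀ i x, 0 ≤ φm i x ∧ φm i x ≤ 1 := by
    intro i x
    have := h01 (cr i).1 (cr i).2 x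
    simp only [hφm]
    split_ifs
    · exact ⟨le_max_left _ _, max_le zero_le_one (by linarith)⟩
    · exact ⟨zero_le_one, le_rfl⟩
  have hpM : ∀ i x, M' ≤ x → φp i x = 1 := fun i x hx => if_neg (not_lt.2 hx)
  have hmM : ∀ i x, M' ≤ x → φm i x = 1 := fun i x hx => if_neg (not_lt.2 hx)
  -- comparison
  have hFp : ∀ p : ℝ × ℝ, (0 ≤ p.1 ∧ p.1 ≤ 1) ∧ 0 ≤ p.2 ∧ p.2 ≤ 2 → ∀ x, 0 ≤ x →
      F p.1 p.2 x ≤ φp (col N p) x := by
    intro p hp x hx
    simp only [hφp]
    split_ifs with h1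
    · apply le_min (h01 _ _ _).2
      have := (abs_le.1 (hclose p hp x hx h1.le)).1
      linarith
    · exact (h01 _ _ _).2
  have hFmm : ∀ p : ℝ × ℝ, (0 ≤ p.1 ∧ p.1 ≤ 1) ∧ 0 ≤ p.2 ∧ p.2 ≤ 2 → ∀ x, 0 ≤ x →
      φm (col N p) x ≤ F p.1 p.2 x := by
    intro p hp x hx
    simp only [hφm]
    split_ifs with h1
    · apply max_le (h01 _ _ _).1
      have := (abs_le.1 (hclose p hp x hx h1.le)).2
      linarith
    · rw [hM1 _ _ x (not_lt.1 h1)]
  have hIp : ∀ p : ℝ × ℝ, (0 ≤ p.1 ∧ p.1 ≤ 1) ∧ 0 ≤ p.2 ∧ p.2 ≤ 2 →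
      |(∫ x in Set.Ioi 0, (1 - φp (col N p) x)) - G p| ≤ 2 * η * M' := by
    intro p hp
    apply int_close (hmp _) (hFm _ _) (hp01 _) (h01 _ _) hM'0.le (hpM _) (hM1 _ _)
    intro x hx hxM
    have h1 := abs_le.1 (hclose p hp x hx hxM)
    have h2 := h01 p.1 p.2 x
    simp only [hφp]
    split_ifs with h3
    · rw [abs_le]
      constructor
      · have : F p.1 p.2 x ≤ min 1 (F (cr (col N p)).1 (cr (col N p)).2 x + η) :=
          le_min h2.2 (by linarith [h1.1])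
        linarith
      · have : min 1 (F (cr (col N p)).1 (cr (col N p)).2 x + η) ≤ _ := min_le_right _ _
        linarith [h1.2]
    · rw [hM1 _ _ x (not_lt.1 h3), sub_self, abs_zero]; positivity
  have hIm : ∀ p : ℝ × ℝ, (0 ≤ p.1 ∧ p.1 ≤ 1) ∧ 0 ≤ p.2 ∧ p.2 ≤ 2 →
      |(∫ x in Set.Ioi 0, (1 - φm (col N p) x)) - G p| ≤ 2 * η * M' := by
    intro p hp
    apply int_close (hmm _) (hFm _ _) (hm01 _) (h01 _ _) hM'0.le (hmM _) (hM1 _ _)
    intro x hx hxM
    have h1 := abs_le.1 (hclose p hp x hx hxM)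
    have h2 := h01 p.1 p.2 x
    simp only [hφm]
    split_ifs with h3
    · rw [abs_le]
      constructor
      · have : F (cr (col N p)).1 (cr (col N p)).2 x - η ≤ max 0 _ := le_max_right _ _
        linarith [h1.1]
      · have : max 0 (F (cr (col N p)).1 (cr (col N p)).2 x - η) ≤ F p.1 p.2 x :=
          max_le h2.1 (by linarith [h1.2])
        linarith
    · rw [hM1 _ _ x (not_lt.1 h3), sub_self, abs_zero]; positivity
  have hgp := gf_unif hc h hmp hp01 (fun i => integrable_tail (hmp i) (hp01 i) (hpM i)) hE hEf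
    (ε := ε / 4) (by positivity)
  have hgm := gf_unif hc h hmm hm01 (fun i => integrable_tail (hmm i) (hm01 i) (hmM i)) hE hEf
    (ε := ε / 4) (by positivity)
  have hTS : ∀ᶠ Q : ℕ in atTop, TS α Q / Real.log Q ^ 2 ≤ K := by
    have := (tendsto_TS hc h).eventually_lt_const (u := K) (by rw [hK]; linarith)
    filter_upwards [this] with Q hQ using hQ.le
  obtain ⟨Q0, hQ0⟩ := eventually_atTop.1 (hgp.and (hgm.and (hTS.and ((hlog.eventually_gt_atTop 0).and
    (hlog.eventually_ge_atTop (Real.log (1 / c)))))))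
  refine ⟨Q0, fun Q hQ => ?_⟩
  obtain ⟨g1, g2, g3, g4, g5⟩ := hQ0 Q hQ
  set κ : ℕ → Fin (N + 1) × Fin (2 * N + 1) := fun q => col N (pt α Q q) with hκ
  have k1 := abs_le.1 (g1 κ)
  have k2 := abs_le.1 (g2 κ)
  -- the exponents
  have hex : ∀ I : ℕ → ℝ, (∀ q ∈ Icc 1 Q, |I q - G (pt α Q q)| ≤ 2 * η * M') →
      |ex α I Q - b Q| ≤ 4 * K * η * M' := by
    intro I hI
    have e1 : ex α I Q - b Q = ∑ q ∈ Icc 1 Q, 2 * (rr α q * ph α q / Real.log Q ^ 2) *
        (I q - G (pt α Q q)) := by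
      simp only [hb]
      unfold ex
      rw [mul_sum, ← sum_sub_distrib]
      refine sum_congr rfl fun q _ => ?_
      ring
    rw [e1]
    calc |∑ q ∈ Icc 1 Q, 2 * (rr α q * ph α q / Real.log Q ^ 2) * (I q - G (pt α Q q))|
        ≤ ∑ q ∈ Icc 1 Q, |2 * (rr α q * ph α q / Real.log Q ^ 2) * (I q - G (pt α Q q))| :=
          abs_sum_le_sum_abs _ _
      _ ≤ ∑ q ∈ Icc 1 Q, 2 * (rr α q * ph α q / Real.log Q ^ 2) * (2 * η * M') := by
          refine sum_le_sum fun q hq => ?_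
          have h1 := (mem_Icc.1 hq).1
          have h2 : 0 ≤ rr α q * ph α q := mul_nonneg (rr_nonneg _ _) (ph_nonneg α (by omega))
          rw [abs_mul, abs_of_nonneg (by positivity)]
          exact mul_le_mul_of_nonneg_left (hI q hq) (by positivity)
      _ = (TS α Q / Real.log Q ^ 2) * (4 * η * M') := by
          rw [TS_eq_ph, sum_div, sum_mul]
          refine sum_congr rfl fun q _ => ?_
          ring
      _ ≤ K * (4 * η * M') := by gcongr
      _ = _ := by ring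
  have hsmall : V * (4 * K * η * M') ≤ ε / 4 := by
    have e1 : V * (4 * K * η * M') = (V / (V + 1)) * (ε / 4) := by
      rw [hη]; field_simp; ring
    rw [e1]
    have : V / (V + 1) ≤ 1 := by rw [div_le_one (by positivity)]; linarith
    calc _ ≤ 1 * (ε / 4) := by gcongr
      _ = _ := one_mul _
  have hexp_close : ∀ I : ℕ → ℝ, (∀ q, 0 ≤ I q) → (∀ q ∈ Icc 1 Q, |I q - G (pt α Q q)| ≤ 2 * η * M') →
      |V * Real.exp (-ex α I Q) - V * Real.exp (-b Q)| ≤ ε / 4 := by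
    intro I hI0 hI
    rw [← mul_sub, abs_mul, abs_of_nonneg hV0]
    refine le_trans ?_ hsmall
    apply mul_le_mul_of_nonneg_left _ hV0
    refine (exp_lip ?_ ?_).trans (hex I hI)
    · unfold ex
      apply sum_nonneg
      intro q hq
      have h1 := (mem_Icc.1 hq).1
      have h2 : 0 ≤ ph α q := ph_nonneg α (by omega)
      have h3 := rr_nonneg α q
      have h4 := hI0 q
      positivity
    · simp only [hb]
      apply mul_nonneg (by norm_num)
      apply sum_nonneg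
      intro q hq
      have h1 := (mem_Icc.1 hq).1
      have h2 : 0 ≤ ph α q := ph_nonneg α (by omega)
      have h3 := rr_nonneg α q
      have h4 : 0 ≤ G (pt α Q q) := by
        simp only [hG]
        exact integral_nonneg fun x => by
          have := (h01 (pt α Q q).1 (pt α Q q).2 x).2
          simp only [Pi.zero_apply]; linarith
      positivity
  have hIp0 : ∀ i, 0 ≤ ∫ x in Set.Ioi 0, (1 - φp i x) := fun i => integral_nonneg fun x => by
    have := (hp01 i x).2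
    simp only [Pi.zero_apply]; linarith
  have hIm0 : ∀ i, 0 ≤ ∫ x in Set.Ioi 0, (1 - φm i x) := fun i => integral_nonneg fun x => by
    have := (hm01 i x).2
    simp only [Pi.zero_apply]; linarith
  have hrange := fun q hq => pt_range hc h g4 g5 (q := q) hq
  have l1 := abs_le.1 (hexp_close (fun q => ∫ x in Set.Ioi 0, (1 - φp (κ q) x)) (fun q => hIp0 _)
    (fun q hq => hIp _ (hrange q hq)))
  have l2 := abs_le.1 (hexp_close (fun q => ∫ x in Set.Ioi 0, (1 - φm (κ q) x)) (fun q => hIm0 _)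
    (fun q hq => hIm _ (hrange q hq)))
  -- integrability
  have hfin : IsFiniteMeasure (volume.restrict E) := ⟨by
    rw [Measure.restrict_apply_univ]; exact hEf.lt_top⟩
  have hint : ∀ f : ℕ → ℝ → ℝ, (∀ q, Measurable (f q)) → (∀ q x, 0 ≤ f q x ∧ f q x ≤ 1) →
      IntegrableOn (fun y => ∏ q ∈ PQ α Q y, f q (val α Q q y)) E := by
    intro f hf hf01
    refine Integrable.of_bound (C := 1) (measurable_prod_PQ α Q hf).aestronglyMeasurable ?_
    filter_upwards with y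
    rw [Real.norm_eq_abs, abs_of_nonneg (prod_nonneg fun q _ => (hf01 _ _).1)]
    exact prod_le_one (fun q _ => (hf01 _ _).1) (fun q _ => (hf01 _ _).2)
  have i0 := hint (fun q => F (pt α Q q).1 (pt α Q q).2) (fun q => hFm _ _) (fun q x => h01 _ _ _)
  have i1 := hint (fun q => φp (κ q)) (fun q => hmp _) (fun q x => hp01 _ _)
  have i2 := hint (fun q => φm (κ q)) (fun q => hmm _) (fun q x => hm01 _ _)
  have m1 : ∫ y in E, ∏ q ∈ PQ α Q y, F (pt α Q q).1 (pt α Q q).2 (val α Q q y) ≤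
      ∫ y in E, ∏ q ∈ PQ α Q y, φp (κ q) (val α Q q y) := by
    apply setIntegral_mono i0 i1
    intro y
    apply prod_le_prod (fun q _ => (h01 _ _ _).1)
    intro q hq
    exact hFp _ (hrange q (mem_filter.1 hq).1) _ (val_nonneg _ _ _ _)
  have m2 : ∫ y in E, ∏ q ∈ PQ α Q y, φm (κ q) (val α Q q y) ≤
      ∫ y in E, ∏ q ∈ PQ α Q y, F (pt α Q q).1 (pt α Q q).2 (val α Q q y) := by
    apply setIntegral_mono i2 i0
    intro y
    apply prod_le_prod (fun q _ => (hm01 _ _).1)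
    intro q hq
    exact hFmm _ (hrange q (mem_filter.1 hq).1) _ (val_nonneg _ _ _ _)
  rw [Real.dist_eq, sub_zero, abs_lt]
  constructor
  · linarith [k2.1, l2.1]
  · linarith [k1.2, l1.2]

end Pool.Agent.KS6_2.LL
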