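import Pool.Agent.KS6_2.LL.Dev

open MeasureTheory Finset

namespace Pool.Agent.KS6_2.LL

/-- modulus of continuity of the translates of a set -/
def Mod (W : Set ℝ) (J : ENNReal) : Prop :=
  ∀ s : ℝ, 0 ≤ s → volume (symmDiff W {y | y - s ∈ W}) ≤ J * ENNReal.ofReal s

lemma Mod.mono {W : Set ℝ} {J J' : ENNReal} (h : Mod W J) (hJ : J ≤ J') : Mod W J' :=
  fun s hs => (h s hs).trans (by gcongr)

lemma Mod.union {A B : Set ℝ} {J J' : ENNReal} (hA : Mod A J) (hB : Mod B J') :
    Mod (A ∪ B) (J + J') := by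
  intro s hs
  rw [add_mul]
  refine le_trans ?_ (add_le_add (hA s hs) (hB s hs))
  refine le_trans (measure_mono ?_) (measure_union_le _ _)
  intro y
  simp only [Set.mem_symmDiff, Set.mem_union, Set.mem_ofPred_eq]
  tauto

lemma Mod.inter {A B : Set ℝ} {J J' : ENNReal} (hA : Mod A J) (hB : Mod B J') :
    Mod (A ∩ B) (J + J') := by
  intro s hs
  rw [add_mul]
  refine le_trans ?_ (add_le_add (hA s hs) (hB s hs))
  refine le_trans (measure_mono ?_) (measure_union_le _ _)
  intro y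
  simp only [Set.mem_symmDiff, Set.mem_union, Set.mem_inter_iff, Set.mem_ofPred_eq]
  tauto

lemma Mod.sdiff {A B : Set ℝ} {J J' : ENNReal} (hA : Mod A J) (hB : Mod B J') :
    Mod (A \ B) (J + J') := by
  intro s hs
  rw [add_mul]
  refine le_trans ?_ (add_le_add (hA s hs) (hB s hs))
  refine le_trans (measure_mono ?_) (measure_union_le _ _)
  intro y
  simp only [Set.mem_symmDiff, Set.mem_union, Set.mem_sdiff, Set.mem_ofPred_eq]
  tauto

lemma Mod_empty : Mod ∅ 0 := by
  intro s _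
  have : symmDiff (∅ : Set ℝ) {y | y - s ∈ (∅ : Set ℝ)} = ∅ := by
    ext y; simp
  rw [this]; simp

lemma Mod_biUnion {ι : Type*} [DecidableEq ι] (S : Finset ι) (A : ι → Set ℝ) (J : ι → ENNReal)
    (h : ∀ i ∈ S, Mod (A i) (J i)) : Mod (⋃ i ∈ S, A i) (∑ i ∈ S, J i) := by
  induction S using Finset.induction_on with
  | empty => simpa using Mod_empty
  | insert a s ha ih =>
    rw [Finset.set_biUnion_insert, sum_insert ha]
    exact (h a (mem_insert_self _ _)).union (ih fun i hi => h i (mem_insert_of_mem hi))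

lemma Mod_Ioo (a b : ℝ) : Mod (Set.Ioo a b) 2 := by
  intro s hs
  have h1 : symmDiff (Set.Ioo a b) {y | y - s ∈ Set.Ioo a b} ⊆
      Set.Icc a (a + s) ∪ Set.Icc b (b + s) := by
    intro y
    simp only [Set.mem_symmDiff, Set.mem_union, Set.mem_Ioo, Set.mem_ofPred_eq, Set.mem_Icc,
      not_and_or, not_lt]
    rintro (⟨⟨h1, h2⟩, h3 | h3⟩ | ⟨⟨h1, h2⟩, h3 | h3⟩)
    · left; constructor <;> linarith
    · exfalso; linarith
    · exfalso; linarith
    · right; constructor <;> linarith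
  refine (measure_mono h1).trans ((measure_union_le _ _).trans ?_)
  rw [Real.volume_Icc, Real.volume_Icc]
  have e1 : a + s - a = s := by ring
  have e2 : b + s - b = s := by ring
  rw [e1, e2, two_mul]

/-- the real form -/
lemma Mod.real {W : Set ℝ} {J : ℝ} (hJ : 0 ≤ J) (h : Mod W (ENNReal.ofReal J)) {s : ℝ} (hs : 0 ≤ s) :
    volume.real (symmDiff W {y | y - s ∈ W}) ≤ J * s := by
  have h1 := h s hs
  rw [← ENNReal.ofReal_mul hJ] at h1
  exact ENNReal.toReal_le_of_le_ofReal (by positivity) h1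

/-- components of a union of intervals -/
lemma Mod_Comp_Ioo {l r : ℝ} (hl : 0 ≤ l) {q : ℕ} (hq : 0 < q) {a : ℝ} (ha : 0 < a) (p : ℤ) :
    Mod (Comp (Set.Ioo l r) q a p) 4 := by
  have hq' : (0 : ℝ) < q := by exact_mod_cast hq
  have e : Comp (Set.Ioo l r) q a p = Set.Ioo ((p - r / a) / q) ((p - l / a) / q) ∪
      Set.Ioo ((p + l / a) / q) ((p + r / a) / q) := by
    ext y
    unfold Comp
    simp only [Set.mem_ofPred_eq, Set.mem_Ioo, Set.mem_union]
    rw [div_lt_iff₀ hq', lt_div_iff₀ hq', div_lt_iff₀ hq', lt_div_iff₀ hq']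
    have h1 : l < a * |(q : ℝ) * y - p| ↔ l / a < |(q : ℝ) * y - p| := by
      rw [div_lt_iff₀ ha, mul_comm]
    have h2 : a * |(q : ℝ) * y - p| < r ↔ |(q : ℝ) * y - p| < r / a := by
      rw [lt_div_iff₀ ha, mul_comm]
    rw [h1, h2]
    have hla : 0 ≤ l / a := by positivity
    rcases le_total 0 ((q : ℝ) * y - p) with h3 | h3
    · rw [abs_of_nonneg h3]
      constructor
      · rintro ⟨h4, h5⟩; right; constructor <;> linarith
      · rintro (⟨h4, h5⟩ | ⟨h4, h5⟩)
        · exfalso; linarith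
        · constructor <;> linarith
    · rw [abs_of_nonpos h3]
      constructor
      · rintro ⟨h4, h5⟩; left; constructor <;> linarith
      · rintro (⟨h4, h5⟩ | ⟨h4, h5⟩)
        · constructor <;> linarith
        · exfalso; linarith
  rw [e]
  have := (Mod_Ioo ((p - r / a) / q) ((p - l / a) / q)).union
    (Mod_Ioo ((p + l / a) / q) ((p + r / a) / q))
  have e4 : (2 : ENNReal) + 2 = 4 := by norm_num
  rwa [e4] at this

lemma Mod_Comp_union {ι : Type*} [DecidableEq ι] (I : Finset ι) (l r : ι → ℝ)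
    (hl : ∀ i ∈ I, 0 ≤ l i) {q : ℕ} (hq : 0 < q) {a : ℝ} (ha : 0 < a) (p : ℤ) :
    Mod (Comp (⋃ i ∈ I, Set.Ioo (l i) (r i)) q a p) (4 * I.card) := by
  have e : Comp (⋃ i ∈ I, Set.Ioo (l i) (r i)) q a p = ⋃ i ∈ I, Comp (Set.Ioo (l i) (r i)) q a p := by
    ext y
    unfold Comp
    simp only [Set.mem_ofPred_eq, Set.mem_iUnion]
  rw [e]
  have := Mod_biUnion I (fun i => Comp (Set.Ioo (l i) (r i)) q a p) (fun _ => 4)
    (fun i hi => Mod_Comp_Ioo (hl i hi) hq ha p)
  rw [sum_const, nsmul_eq_mul, mul_comm] at this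
  exact this

namespace Sys

variable (d : Sys)

lemma win_V_periodic {S : Finset ℕ} (hS : ∀ q ∈ S, 0 < q) (h : ℝ) :
    Function.Periodic (win (d.V S) h) 1 := by
  have hV : ∀ y, y + 1 ∈ d.V S ↔ y ∈ d.V S := by
    intro y
    unfold V
    simp only [Set.mem_iUnion]
    constructor
    · rintro ⟨q, hq, h1⟩; exact ⟨q, hq, (d.A_add_one (hS q hq) y).1 h1⟩
    · rintro ⟨q, hq, h1⟩; exact ⟨q, hq, (d.A_add_one (hS q hq) y).2 h1⟩
  have hper := periodic_chi hV
  intro y
  unfold win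
  congr 1
  funext s
  have := hper (y + s)
  rw [← this]
  congr 1
  ring

/-- one step of the recursion -/
lemma step {S : Finset ℕ} (hS : ∀ q ∈ S, 0 < q) {W : Set ℝ} (hW : MeasurableSet W) {A : ℕ}
    (hWA : W ⊆ Set.Ioc (-(A : ℝ)) A) {J : ℝ} (hJ0 : 0 ≤ J) (hJ : Mod W (ENNReal.ofReal J))
    {h δ : ℝ} (hh : 0 < h) (hδ : ∫ y in (0 : ℝ)..1, |win (d.V S) h y - h * d.Lam S| ≤ δ) :
    |volume.real (W ∩ d.V S) - d.Lam S * volume.real W| ≤ J * h + 2 * A * δ / h := by
  have hWf : volume W ≠ ⊤ := ne_top_of_le_ne_top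
    (by rw [Real.volume_Ioc]; exact ENNReal.ofReal_ne_top) (measure_mono hWA)
  have h1 := integral_win_set (d.measurableSet_V S) hW hWf hh.le (ω := J * h) (by
    intro s h0 h1
    exact (hJ.real hJ0 h0).trans (by gcongr))
  set f : ℝ → ℝ := fun y => |win (d.V S) h y - h * d.Lam S| with hf
  have hwc : Continuous (win (d.V S) h) := continuous_win (d.measurableSet_V S) h
  have hfc : Continuous f := (hwc.sub continuous_const).abs
  have hfp : Function.Periodic f 1 := by
    intro y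
    simp only [hf]
    rw [d.win_V_periodic hS h y]
  have hA0 : (0 : ℝ) ≤ A := Nat.cast_nonneg _
  have hI : ∫ y in Set.Ioc (-(A : ℝ)) A, f y = 2 * A * ∫ y in (0 : ℝ)..1, f y := by
    have h2 := hfp.intervalIntegral_add_zsmul_eq (2 * A : ℤ) (-(A : ℝ))
      (fun t₁ t₂ => hfc.intervalIntegrable _ _)
    have e : -(A : ℝ) + (2 * A : ℤ) • (1 : ℝ) = A := by
      rw [zsmul_eq_mul]; push_cast; ring
    rw [e, zsmul_eq_mul, hfp.intervalIntegral_add_eq (-(A : ℝ)) 0, zero_add] at h2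
    rw [← intervalIntegral.integral_of_le (by linarith), h2]
    push_cast
    ring
  have hint : IntegrableOn f (Set.Ioc (-(A : ℝ)) A) := by
    have := hfc.intervalIntegrable (μ := volume) (-(A : ℝ)) A
    rwa [intervalIntegrable_iff_integrableOn_Ioc_of_le (by linarith)] at this
  have hwint : IntegrableOn (win (d.V S) h) W := by
    have := hwc.intervalIntegrable (μ := volume) (-(A : ℝ)) A
    rw [intervalIntegrable_iff_integrableOn_Ioc_of_le (by linarith)] at this
    exact this.mono_set hWA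
  have h2 : |(∫ y in W, win (d.V S) h y) - h * d.Lam S * volume.real W| ≤ 2 * A * δ := by
    have e : h * d.Lam S * volume.real W = ∫ _y in W, h * d.Lam S := by
      rw [setIntegral_const, smul_eq_mul, mul_comm]
    rw [e, ← integral_sub hwint (integrableOn_const hWf)]
    calc |∫ y in W, (win (d.V S) h y - h * d.Lam S)| ≤ ∫ y in W, f y := by
          rw [← Real.norm_eq_abs]
          exact norm_integral_le_integral_norm _
      _ ≤ ∫ y in Set.Ioc (-(A : ℝ)) A, f y :=
          setIntegral_mono_set hint (by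
            filter_upwards with y
            exact abs_nonneg _) (LE.le.eventuallyLE hWA)
      _ = 2 * A * ∫ y in (0 : ℝ)..1, f y := hI
      _ ≤ 2 * A * δ := by gcongr
  have h3 : |h * (volume.real (W ∩ d.V S) - d.Lam S * volume.real W)| ≤ h * (J * h) + 2 * A * δ := by
    have e : h * (volume.real (W ∩ d.V S) - d.Lam S * volume.real W) =
        ((∫ y in W, win (d.V S) h y) - h * d.Lam S * volume.real W) -
        ((∫ y in W, win (d.V S) h y) - h * volume.real (W ∩ d.V S)) := by ring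
    rw [e]
    exact (abs_sub _ _).trans (by linarith)
  rw [abs_mul, abs_of_pos hh] at h3
  have e : J * h + 2 * A * δ / h = (h * (J * h) + 2 * A * δ) / h := by field_simp
  rw [e, le_div_iff₀ hh]
  linarith

/-- the components -/
lemma A_inter {q : ℕ} (hq : 0 < q) (hax : 2 * d.x ≤ d.a q) (A : ℕ) :
    d.A q ∩ Set.Ioc (-(A : ℝ)) A = (⋃ r ∈ (Icc (-(q * A + 1) : ℤ) (q * A + 1)).filter
      (fun r => Int.gcd (d.g q) r = 1), Comp (d.U q) q (d.a q) r) ∩ Set.Ioc (-(A : ℝ)) A := by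
  have hq' : (0 : ℝ) < q := by exact_mod_cast hq
  have ha := d.ha q hq
  ext y
  simp only [Set.mem_inter_iff, Set.mem_iUnion, mem_filter, mem_Icc]
  constructor
  · rintro ⟨h1, h2⟩
    refine ⟨⟨round ((q : ℝ) * y), ⟨?_, h1.2⟩, h1.1⟩, h2⟩
    rw [Set.mem_Ioc] at h2
    have h3 : (q : ℝ) * y ≤ q * A := mul_le_mul_of_nonneg_left h2.2 hq'.le
    have h4 : -(q * A : ℝ) ≤ q * y := by
      have := mul_le_mul_of_nonneg_left h2.1.le hq'.le
      linarith
    have h5 := abs_le.1 (abs_sub_round ((q : ℝ) * y))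
    constructor
    · have : (-(q * A + 1) : ℝ) ≤ round ((q : ℝ) * y) := by linarith
      exact_mod_cast this
    · have : (round ((q : ℝ) * y) : ℝ) ≤ q * A + 1 := by linarith
      exact_mod_cast this
  · rintro ⟨⟨r, ⟨_, h1⟩, h2⟩, h3⟩
    refine ⟨?_, h3⟩
    have h4 : d.a q * |(q : ℝ) * y - r| ∈ d.U q := h2
    have h5 := (d.hUx q h4).2
    have h6 : |(q : ℝ) * y - r| < 1 / 2 := by
      by_contra h7
      push Not at h7
      have : d.a q * (1 / 2) ≤ d.a q * |(q : ℝ) * y - r| := mul_le_mul_of_nonneg_left h7 ha.le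
      linarith
    have h7 := round_eq_of_abs_lt h6
    constructor
    · show d.a q * nint (q * y) ∈ d.U q
      unfold nint
      rw [h7]; exact h4
    · show Int.gcd (d.g q) (round ((q : ℝ) * y)) = 1
      rw [h7]; exact h1

/-- modulus after removing the sets of a block -/
lemma Mod_sdiff_V {S : Finset ℕ} (hS : ∀ q ∈ S, 0 < q) (hax : ∀ q ∈ S, 2 * d.x ≤ d.a q) {W : Set ℝ}
    {A : ℕ} (hWA : W ⊆ Set.Ioc (-(A : ℝ)) A) {J : ENNReal} (hJ : Mod W J) {JU : ENNReal}
    (hJU : ∀ q ∈ S, ∀ r : ℤ, Mod (Comp (d.U q) q (d.a q) r) JU) :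
    Mod (W \ d.V S) (J + ∑ q ∈ S, (q * (2 * A + 3) : ℕ) * JU) := by
  have e : W \ d.V S = W \ ⋃ q ∈ S, ⋃ r ∈ (Icc (-(q * A + 1) : ℤ) (q * A + 1)).filter
      (fun r => Int.gcd (d.g q) r = 1), Comp (d.U q) q (d.a q) r := by
    ext y
    simp only [Set.mem_sdiff]
    apply and_congr_right
    intro hy
    unfold V
    simp only [Set.mem_iUnion₂]
    apply not_congr
    apply exists_congr
    intro q
    apply exists_congr
    intro hq
    have h1 := Set.ext_iff.1 (d.A_inter (hS q hq) (hax q hq) A) y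
    have h2 : y ∈ Set.Ioc (-(A : ℝ)) A := hWA hy
    constructor
    · intro h3
      have := (h1.1 ⟨h3, h2⟩).1
      simpa only [Set.mem_iUnion₂] using this
    · intro h3
      exact (h1.2 ⟨by simpa only [Set.mem_iUnion₂] using h3, h2⟩).1
  rw [e]
  refine hJ.sdiff (Mod_biUnion S _ _ fun q hq => ?_)
  refine (Mod_biUnion _ _ (fun _ => JU) fun r _ => hJU q hq r).mono ?_
  rw [sum_const, nsmul_eq_mul]
  gcongr
  refine (card_filter_le _ _).trans ?_
  rw [Int.card_Icc]
  have hq1 := hS q hq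
  have : ((q * A + 1 : ℤ) + 1 - (-(q * A + 1))) = ((2 * (q * A) + 3 : ℕ) : ℤ) := by push_cast; ring
  rw [this, Int.toNat_natCast]
  nlinarith

end Sys

end Pool.Agent.KS6_2.LL
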