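import Pool.Agent.KS6_2.LL.Good

open MeasureTheory Finset

namespace Pool.Agent.KS6_2.LL

lemma exp_diff {a b : ℝ} (ha : 0 ≤ a) (hb : 0 ≤ b) : |Real.exp (-a) - Real.exp (-(a + b))| ≤ b := by
  have h1 : Real.exp (-(a + b)) = Real.exp (-a) * Real.exp (-b) := by
    rw [← Real.exp_add]; congr 1; ring
  have h2 : Real.exp (-a) ≤ 1 := by rw [Real.exp_le_one_iff]; linarith
  have h3 : Real.exp (-b) ≤ 1 := by rw [Real.exp_le_one_iff]; linarith
  have h4 : 1 - b ≤ Real.exp (-b) := Real.one_sub_le_exp_neg b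
  have h5 := Real.exp_pos (-a)
  rw [h1, show Real.exp (-a) - Real.exp (-a) * Real.exp (-b) = Real.exp (-a) * (1 - Real.exp (-b)) by ring,
    abs_mul, abs_of_pos h5, abs_of_nonneg (by linarith)]
  calc Real.exp (-a) * (1 - Real.exp (-b)) ≤ 1 * b := by
        apply mul_le_mul h2 (by linarith) (by linarith) zero_le_one
    _ = b := one_mul b

lemma sum_union_le_add {f : ℕ → ℝ} (hf : ∀ q, 0 ≤ f q) (A B : Finset ℕ) :
    ∑ q ∈ A ∪ B, f q ≤ ∑ q ∈ A, f q + ∑ q ∈ B, f q := by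
  rw [← sum_union_inter]
  have := sum_nonneg (s := A ∩ B) fun q _ => hf q
  linarith

lemma sum_biUnion_le_sum {f : ℕ → ℝ} (hf : ∀ q, 0 ≤ f q) (S : Finset ℕ) (g : ℕ → Finset ℕ) :
    ∑ q ∈ S.biUnion g, f q ≤ ∑ b ∈ S, ∑ q ∈ g b, f q := by
  induction S using Finset.induction_on with
  | empty => simp
  | insert a s ha ih =>
    rw [biUnion_insert, sum_insert ha]
    exact (sum_union_le_add hf _ _).trans (add_le_add le_rfl ih)

namespace Dat

variable (e : Dat)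

/-- the discarded denominators -/
lemma rest_subset {K Q : ℕ} (hK : 1 ≤ K) {t : ℝ}
    (hY : ∀ q ∈ Icc 1 Q, (q : ℝ) ^ 2 * nint (q * e.α) <
      e.x / e.N ^ 2 * Real.exp (8 * K * (K + 1) * t)) :
    Icc 1 Q \ (range K).biUnion (e.Bl K t Q) ⊆
      ((Icc 1 Q).filter (fun q : ℕ => Real.exp (-(4 * K * t)) ≤ nint (q * e.α)) ∪
      (Icc 1 Q).filter (fun q : ℕ => (q : ℝ) ^ 2 * nint (q * e.α) <
        e.x / e.N ^ 2 * Real.exp (8 * K * t))) ∪
      (range K).biUnion (fun b => (Icc 1 Q).filter (fun q : ℕ =>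
        e.x / e.N ^ 2 * Real.exp (8 * K * (b + 2) * t - 8 * t) ≤ q ^ 2 * nint (q * e.α) ∧
        q ^ 2 * nint (q * e.α) <
          Real.exp (8 * t) * (e.x / e.N ^ 2 * Real.exp (8 * K * (b + 2) * t - 8 * t)))) := by
  intro q hq
  obtain ⟨hq1, hq2⟩ := mem_sdiff.1 hq
  rw [mem_union, mem_union, mem_filter, mem_filter, mem_biUnion]
  by_cases h1 : Real.exp (-(4 * K * t)) ≤ nint (q * e.α)
  · left; left; exact ⟨hq1, h1⟩
  by_cases h2 : (q : ℝ) ^ 2 * nint (q * e.α) < e.x / e.N ^ 2 * Real.exp (8 * K * t)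
  · left; right; exact ⟨hq1, h2⟩
  right
  push Not at h1 h2
  have hex : ∃ b : ℕ, (q : ℝ) ^ 2 * nint (q * e.α) <
      e.x / e.N ^ 2 * Real.exp (8 * K * (b + 2) * t) := by
    refine ⟨K - 1, ?_⟩
    have e1 : ((K - 1 : ℕ) : ℝ) + 2 = K + 1 := by
      rw [Nat.cast_sub hK]; push_cast; ring
    rw [e1]
    exact hY q hq1
  classical
  set b := Nat.find hex with hb
  have hb1 := Nat.find_spec hex
  have hbK : b < K := by
    have : b ≤ K - 1 := by
      apply Nat.find_min'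
      have e1 : ((K - 1 : ℕ) : ℝ) + 2 = K + 1 := by
        rw [Nat.cast_sub hK]; push_cast; ring
      rw [e1]
      exact hY q hq1
    omega
  have hlow : e.x / e.N ^ 2 * Real.exp (8 * K * (b + 1) * t) ≤ (q : ℝ) ^ 2 * nint (q * e.α) := by
    rcases Nat.eq_zero_or_pos b with h0 | h0
    · rw [h0]; push_cast
      have e1 : 8 * (K : ℝ) * (0 + 1) * t = 8 * K * t := by ring
      rw [e1]; exact h2
    · have h3 := Nat.find_min hex (m := b - 1) (by omega)
      push Not at h3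
      have e1 : ((b - 1 : ℕ) : ℝ) + 2 = b + 1 := by
        rw [Nat.cast_sub h0]; push_cast; ring
      rwa [e1] at h3
  refine ⟨b, mem_range.2 hbK, ?_⟩
  rw [mem_filter]
  refine ⟨hq1, ?_, ?_⟩
  · by_contra h4
    push Not at h4
    exact hq2 (mem_biUnion.2 ⟨b, mem_range.2 hbK, mem_filter.2 ⟨hq1, h1, hlow, h4⟩⟩)
  · have e1 : Real.exp (8 * t) * (e.x / e.N ^ 2 * Real.exp (8 * K * (b + 2) * t - 8 * t)) =
        e.x / e.N ^ 2 * Real.exp (8 * K * (b + 2) * t) := by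
      have : Real.exp (8 * K * (b + 2) * t) = Real.exp (8 * t) *
          Real.exp (8 * K * (b + 2) * t - 8 * t) := by
        rw [← Real.exp_add]; congr 1; ring
      rw [this]; ring
    rw [e1]; exact hb1

lemma rest_sum {K Q : ℕ} (hK : 1 ≤ K) (hQ : 1 ≤ Q) {t : ℝ} (ht : 0 ≤ t)
    (hY : ∀ q ∈ Icc 1 Q, (q : ℝ) ^ 2 * nint (q * e.α) <
      e.x / e.N ^ 2 * Real.exp (8 * K * (K + 1) * t))
    (hNx : 2 * e.x ≤ e.N ^ 2 * e.c) {CR : ℝ} (hCR0 : 0 < CR)
    (hCR : ∀ Q : ℕ, 1 ≤ Q → RS e.α Q ≤ CR * (1 + Real.log Q) ^ 2) :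
    ∑ q ∈ Icc 1 Q \ (range K).biUnion (e.Bl K t Q), rr e.α q ≤
      (72 / e.c) * (1 + Real.log Q) * (1 + 4 * K * t) + CR * (1 + 8 * K * t) ^ 2 +
      K * ((72 / e.c) * (1 + Real.log Q) * (1 + 8 * t)) := by
  have hc := e.hc
  have hrr : ∀ q, 0 ≤ rr e.α q := rr_nonneg e.α
  have h1 := strip_b e.hc e.hα hQ (L := 4 * K * t) (by positivity)
  have h3 : ∀ b ∈ range K, ∑ q ∈ (Icc 1 Q).filter (fun q : ℕ =>
        e.x / e.N ^ 2 * Real.exp (8 * K * (b + 2) * t - 8 * t) ≤ q ^ 2 * nint (q * e.α) ∧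
        q ^ 2 * nint (q * e.α) <
          Real.exp (8 * t) * (e.x / e.N ^ 2 * Real.exp (8 * K * (b + 2) * t - 8 * t))), rr e.α q ≤
      (72 / e.c) * (1 + Real.log Q) * (1 + 8 * t) := by
    intro b _
    exact strip_a e.hc e.hα hQ (R := e.x / e.N ^ 2 * Real.exp (8 * K * (b + 2) * t - 8 * t))
      (L := 8 * t) (mul_pos e.xN_pos (Real.exp_pos _)) (by positivity)
  have h2 : ∑ q ∈ (Icc 1 Q).filter (fun q : ℕ => (q : ℝ) ^ 2 * nint (q * e.α) <
        e.x / e.N ^ 2 * Real.exp (8 * K * t)), rr e.α q ≤ CR * (1 + 8 * K * t) ^ 2 := by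
    set M : ℕ := ⌊Real.exp (8 * K * t)⌋₊ with hM
    have hM1 : 1 ≤ M := by
      apply Nat.le_floor
      rw [Nat.cast_one]
      exact Real.one_le_exp (by positivity)
    have hsub : (Icc 1 Q).filter (fun q : ℕ => (q : ℝ) ^ 2 * nint (q * e.α) <
        e.x / e.N ^ 2 * Real.exp (8 * K * t)) ⊆ Icc 1 M := by
      intro q hq
      obtain ⟨h4, h5⟩ := mem_filter.1 hq
      rw [mem_Icc] at h4 ⊢
      refine ⟨h4.1, Nat.le_floor ?_⟩
      have hq' : (0 : ℝ) < q := by exact_mod_cast h4.1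
      have h6 := e.hα q h4.1
      have h7 : e.c * q < e.x / e.N ^ 2 * Real.exp (8 * K * t) := by
        refine lt_of_le_of_lt ?_ h5
        calc e.c * q ≤ (q * nint (q * e.α)) * q := by gcongr
          _ = _ := by ring
      have h8 : e.x / e.N ^ 2 ≤ e.c := by
        have := e.hN
        rw [div_le_iff₀ (by positivity)]
        have := e.hx
        linarith
      have h9 : e.c * q < e.c * Real.exp (8 * K * t) :=
        lt_of_lt_of_le h7 (mul_le_mul_of_nonneg_right h8 (Real.exp_pos _).le)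
      exact (lt_of_mul_lt_mul_left h9 hc.le).le
    calc _ ≤ RS e.α M := sum_le_sum_of_subset_of_nonneg hsub fun _ _ _ => hrr _
      _ ≤ CR * (1 + Real.log M) ^ 2 := hCR M hM1
      _ ≤ CR * (1 + 8 * K * t) ^ 2 := by
          have h4 : 0 ≤ Real.log M := Real.log_natCast_nonneg M
          have h5 : Real.log M ≤ 8 * K * t := by
            have hM0 : (0 : ℝ) < M := by exact_mod_cast hM1
            rw [Real.log_le_iff_le_exp hM0]
            exact Nat.floor_le (Real.exp_pos _).le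
          gcongr
  calc _ ≤ ∑ q ∈ ((Icc 1 Q).filter (fun q : ℕ => Real.exp (-(4 * K * t)) ≤ nint (q * e.α)) ∪
      (Icc 1 Q).filter (fun q : ℕ => (q : ℝ) ^ 2 * nint (q * e.α) <
        e.x / e.N ^ 2 * Real.exp (8 * K * t))) ∪
      (range K).biUnion (fun b => (Icc 1 Q).filter (fun q : ℕ =>
        e.x / e.N ^ 2 * Real.exp (8 * K * (b + 2) * t - 8 * t) ≤ q ^ 2 * nint (q * e.α) ∧
        q ^ 2 * nint (q * e.α) <
          Real.exp (8 * t) * (e.x / e.N ^ 2 * Real.exp (8 * K * (b + 2) * t - 8 * t)))), rr e.α q :=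
        sum_le_sum_of_subset_of_nonneg (e.rest_subset hK hY) fun _ _ _ => hrr _
    _ ≤ _ := by
        refine (sum_union_le_add hrr _ _).trans ?_
        refine add_le_add ((sum_union_le_add hrr _ _).trans (add_le_add h1 h2)) ?_
        refine (sum_biUnion_le_sum hrr _ _).trans ?_
        refine (sum_le_sum h3).trans (le_of_eq ?_)
        rw [sum_const, card_range, nsmul_eq_mul]

theorem total {K Q : ℕ} {t : ℝ}
    (hNx : 2 * e.x ≤ e.N ^ 2 * e.c) {W : Set ℝ} {A : ℕ}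
    (hWA : W ⊆ Set.Ioc (-(A : ℝ)) A) {E R : ℝ}
    (hgood : |volume.real (W \ e.sys.V ((range K).biUnion (e.Bl K t Q))) -
      volume.real W * Real.exp (-e.sys.Lam ((range K).biUnion (e.Bl K t Q)))| ≤ E)
    (hrest : 2 * e.x / e.N ^ 2 * ∑ q ∈ Icc 1 Q \ (range K).biUnion (e.Bl K t Q), rr e.α q ≤ R) :
    |volume.real (W \ e.sys.V (Icc 1 Q)) - volume.real W * Real.exp (-e.sys.Lam (Icc 1 Q))| ≤
      E + (4 * A + 3) * R := by
  have hA0 : (0 : ℝ) ≤ A := Nat.cast_nonneg _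
  have hWf : volume W ≠ ⊤ := ne_top_of_le_ne_top
    (by rw [Real.volume_Ioc]; exact ENNReal.ofReal_ne_top) (measure_mono hWA)
  have hvol : volume.real W ≤ 2 * A := by
    calc volume.real W ≤ volume.real (Set.Ioc (-(A : ℝ)) A) :=
          measureReal_mono hWA (by rw [Real.volume_Ioc]; exact ENNReal.ofReal_ne_top)
      _ = 2 * A := by rw [Real.volume_real_Ioc_of_le (by linarith)]; ring
  set G := (range K).biUnion (e.Bl K t Q) with hG
  set B := Icc 1 Q \ G with hB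
  have hGs : G ⊆ Icc 1 Q := by
    intro q hq
    obtain ⟨b, _, hb⟩ := mem_biUnion.1 hq
    exact e.Bl_subset K t Q b hb
  have hGB : Icc 1 Q = G ∪ B := (union_sdiff_of_subset hGs).symm
  have hdisj : Disjoint G B := disjoint_sdiff
  have hLam : e.sys.Lam (Icc 1 Q) = e.sys.Lam G + e.sys.Lam B := by
    rw [hGB]; exact e.Lam_disjUnion hdisj
  have hBpos : ∀ q ∈ B, 0 < q := fun q hq => (mem_Icc.1 (mem_sdiff.1 hq).1).1
  have hGpos : ∀ q ∈ G, 0 < q := fun q hq => (mem_Icc.1 (hGs hq)).1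
  have hLB0 := e.Lam_nonneg hBpos
  have hLG0 := e.Lam_nonneg hGpos
  have hLB : e.sys.Lam B ≤ R := (e.Lam_le hBpos).trans hrest
  have hR0 : 0 ≤ R := hLB0.trans hLB
  have h1 := exp_diff hLG0 hLB0
  have haxc : ∀ q : ℕ, 0 < q → 2 * e.x ≤ e.sys.a q := by
    intro q hq
    show 2 * e.x ≤ e.N ^ 2 * (q * nint (q * e.α))
    refine hNx.trans ?_
    exact mul_le_mul_of_nonneg_left (e.hα q hq) (by positivity)
  have h2 : |volume.real (W \ e.sys.V (Icc 1 Q)) - volume.real (W \ e.sys.V G)| ≤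
      (2 * A + 3) * R := by
    have hf : ∀ S : Finset ℕ, volume (W \ e.sys.V S) ≠ ⊤ := fun S =>
      ne_top_of_le_ne_top hWf (measure_mono Set.sdiff_subset)
    have hBf : ∀ q ∈ B, volume (e.sys.A q ∩ Set.Ioc (-(A : ℝ)) A) ≠ ⊤ := fun q _ =>
      ne_top_of_le_ne_top (by rw [Real.volume_Ioc]; exact ENNReal.ofReal_ne_top)
        (measure_mono Set.inter_subset_right)
    have hUf : volume (⋃ q ∈ B, e.sys.A q ∩ Set.Ioc (-(A : ℝ)) A) ≠ ⊤ :=
      ((measure_biUnion_finset_le _ _).trans_lt (ENNReal.sum_lt_top.2 fun q hq =>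
        (hBf q hq).lt_top)).ne
    have h3 : volume.real (W \ e.sys.V (Icc 1 Q)) ≤ volume.real (W \ e.sys.V G) := by
      refine measureReal_mono ?_ (hf _)
      intro y hy
      refine ⟨hy.1, fun h4 => hy.2 ?_⟩
      unfold Sys.V at h4 ⊢
      rw [Set.mem_iUnion₂] at h4 ⊢
      obtain ⟨q, hq, h5⟩ := h4
      exact ⟨q, hGs hq, h5⟩
    have h4 : volume.real (W \ e.sys.V G) ≤ volume.real (W \ e.sys.V (Icc 1 Q)) +
        volume.real (⋃ q ∈ B, e.sys.A q ∩ Set.Ioc (-(A : ℝ)) A) := by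
      refine le_trans (measureReal_mono ?_ ?_) (measureReal_union_le _ _)
      · intro y hy
        by_cases h5 : y ∈ e.sys.V (Icc 1 Q)
        · right
          unfold Sys.V at h5
          rw [Set.mem_iUnion₂] at h5
          obtain ⟨q, hq, h5⟩ := h5
          rw [Set.mem_iUnion₂]
          refine ⟨q, mem_sdiff.2 ⟨hq, fun h6 => hy.2 ?_⟩, h5, hWA hy.1⟩
          unfold Sys.V
          rw [Set.mem_iUnion₂]
          exact ⟨q, h6, h5⟩
        · left; exact ⟨hy.1, h5⟩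
      · exact ((measure_union_le _ _).trans_lt (ENNReal.add_lt_top.2
          ⟨(hf _).lt_top, hUf.lt_top⟩)).ne
    have h5 : volume.real (⋃ q ∈ B, e.sys.A q ∩ Set.Ioc (-(A : ℝ)) A) ≤ (2 * A + 3) * R := by
      calc _ ≤ ∑ q ∈ B, volume.real (e.sys.A q ∩ Set.Ioc (-(A : ℝ)) A) :=
            measureReal_biUnion_finset_le _ _
        _ ≤ ∑ q ∈ B, (2 * A + 3) * (2 * e.x / e.N ^ 2 * rr e.α q) :=
            sum_le_sum fun q hq => e.vol_A_le (hBpos q hq) (haxc q (hBpos q hq)) A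
        _ = (2 * A + 3) * (2 * e.x / e.N ^ 2 * ∑ q ∈ B, rr e.α q) := by
            rw [← mul_sum, ← mul_sum]
        _ ≤ _ := by gcongr
    rw [abs_le]
    constructor <;> linarith
  have h3 : |volume.real W * (Real.exp (-e.sys.Lam G) - Real.exp (-(e.sys.Lam G + e.sys.Lam B)))| ≤
      2 * A * R := by
    rw [abs_mul, abs_of_nonneg measureReal_nonneg]
    exact mul_le_mul hvol (h1.trans hLB) (abs_nonneg _) (by positivity)
  rw [hLam]
  have e1 : volume.real (W \ e.sys.V (Icc 1 Q)) -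
      volume.real W * Real.exp (-(e.sys.Lam G + e.sys.Lam B)) =
      (volume.real (W \ e.sys.V (Icc 1 Q)) - volume.real (W \ e.sys.V G)) +
      (volume.real (W \ e.sys.V G) - volume.real W * Real.exp (-e.sys.Lam G)) +
      volume.real W * (Real.exp (-e.sys.Lam G) - Real.exp (-(e.sys.Lam G + e.sys.Lam B))) := by ring
  rw [e1]
  calc _ ≤ (2 * A + 3) * R + E + 2 * A * R :=
        (abs_add_le _ _).trans (add_le_add ((abs_add_le _ _).trans (add_le_add h2 hgood)) h3)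
    _ = _ := by ring

end Dat

end Pool.Agent.KS6_2.LL
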