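import Pool.Agent.KS6_2.LL.Asy

open Finset

namespace Pool.Agent.KS6_2.LL

lemma shell_sum (S : Finset ℕ) (f : ℕ → ℝ) {B τ : ℝ} (hτ : 0 < τ)
    (hB : ∀ t, 0 < t → ((S.filter (fun q => f q ≤ t)).card : ℝ) ≤ B * t) (n : ℕ) :
    ∑ q ∈ S.filter (fun q => τ ≤ f q ∧ f q < 2 ^ n * τ), 1 / f q ≤ 2 * B * n := by
  induction n with
  | zero =>
    rw [sum_eq_zero]
    · simp
    · intro q hq
      obtain ⟨_, h1, h2⟩ := mem_filter.1 hq
      exfalso; simp only [pow_zero, one_mul] at h2; linarith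
  | succ n ih =>
    have hpos : 0 < 2 ^ n * τ := by positivity
    have h1 : S.filter (fun q => τ ≤ f q ∧ f q < 2 ^ (n + 1) * τ) ⊆
        S.filter (fun q => τ ≤ f q ∧ f q < 2 ^ n * τ) ∪
        S.filter (fun q => 2 ^ n * τ ≤ f q ∧ f q ≤ 2 ^ (n + 1) * τ) := by
      intro q hq
      obtain ⟨h1, h2, h3⟩ := mem_filter.1 hq
      rw [mem_union, mem_filter, mem_filter]
      rcases lt_or_ge (f q) (2 ^ n * τ) with h4 | h4
      · left; exact ⟨h1, h2, h4⟩
      · right; exact ⟨h1, h4, h3.le⟩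
    have hnn : ∀ q ∈ S.filter (fun q => τ ≤ f q ∧ f q < 2 ^ n * τ) ∪
        S.filter (fun q => 2 ^ n * τ ≤ f q ∧ f q ≤ 2 ^ (n + 1) * τ), 0 ≤ 1 / f q := by
      intro q hq
      rw [mem_union, mem_filter, mem_filter] at hq
      rcases hq with ⟨_, h2, _⟩ | ⟨_, h2, _⟩
      · exact div_nonneg zero_le_one (by linarith)
      · exact div_nonneg zero_le_one (by linarith)
    have h2 : ∑ q ∈ S.filter (fun q => 2 ^ n * τ ≤ f q ∧ f q ≤ 2 ^ (n + 1) * τ), 1 / f q ≤ 2 * B := by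
      calc ∑ q ∈ S.filter (fun q => 2 ^ n * τ ≤ f q ∧ f q ≤ 2 ^ (n + 1) * τ), 1 / f q
          ≤ ∑ _q ∈ S.filter (fun q => 2 ^ n * τ ≤ f q ∧ f q ≤ 2 ^ (n + 1) * τ), 1 / (2 ^ n * τ) := by
            refine sum_le_sum fun q hq => ?_
            obtain ⟨_, h2, _⟩ := mem_filter.1 hq
            exact one_div_le_one_div_of_le hpos h2
        _ = ((S.filter (fun q => 2 ^ n * τ ≤ f q ∧ f q ≤ 2 ^ (n + 1) * τ)).card : ℝ) *
            (1 / (2 ^ n * τ)) := by rw [sum_const, nsmul_eq_mul]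
        _ ≤ (B * (2 ^ (n + 1) * τ)) * (1 / (2 ^ n * τ)) := by
            apply mul_le_mul_of_nonneg_right _ (by positivity)
            refine le_trans ?_ (hB (2 ^ (n + 1) * τ) (by positivity))
            have : S.filter (fun q => 2 ^ n * τ ≤ f q ∧ f q ≤ 2 ^ (n + 1) * τ) ⊆
                S.filter (fun q => f q ≤ 2 ^ (n + 1) * τ) := by
              intro q hq
              obtain ⟨h3, _, h4⟩ := mem_filter.1 hq
              exact mem_filter.2 ⟨h3, h4⟩
            exact_mod_cast card_le_card this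
        _ = 2 * B := by rw [pow_succ]; field_simp
    calc _ ≤ ∑ q ∈ S.filter (fun q => τ ≤ f q ∧ f q < 2 ^ n * τ) ∪
        S.filter (fun q => 2 ^ n * τ ≤ f q ∧ f q ≤ 2 ^ (n + 1) * τ), 1 / f q :=
          sum_le_sum_of_subset_of_nonneg h1 fun q hq _ => hnn q hq
      _ ≤ ∑ q ∈ S.filter (fun q => τ ≤ f q ∧ f q < 2 ^ n * τ), 1 / f q +
        ∑ q ∈ S.filter (fun q => 2 ^ n * τ ≤ f q ∧ f q ≤ 2 ^ (n + 1) * τ), 1 / f q := by
          rw [← sum_union_inter]
          have : 0 ≤ ∑ q ∈ S.filter (fun q => τ ≤ f q ∧ f q < 2 ^ n * τ) ∩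
              S.filter (fun q => 2 ^ n * τ ≤ f q ∧ f q ≤ 2 ^ (n + 1) * τ), 1 / f q :=
            sum_nonneg fun q hq => hnn q (mem_union_left _ (mem_inter.1 hq).1)
          linarith
      _ ≤ 2 * B * n + 2 * B := add_le_add ih h2
      _ = 2 * B * ((n + 1 : ℕ) : ℝ) := by push_cast; ring

lemma gap_card {c α : ℝ} (hc : 0 < c) (h : Bad c α) {X : ℕ} (hX : 0 < X) {t : ℝ} (ht : 0 < t) :
    (((Ico X (2 * X)).filter (fun q : ℕ => nint (q * α) ≤ t)).card : ℝ) ≤ (6 * X / c) * t := by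
  have hX' : (0 : ℝ) < X := by exact_mod_cast hX
  set S := (Ico X (2 * X)).filter (fun q : ℕ => nint (q * α) ≤ t) with hS
  rcases S.eq_empty_or_nonempty with h0 | ⟨q0, hq0⟩
  · rw [h0, card_empty, Nat.cast_zero]; positivity
  · have h1 := card_separated (S := S) (Y := 2 * X) (g := c / (2 * t)) (by positivity)
      (by positivity) (fun q hq => by
        have := (mem_Ico.1 (mem_filter.1 hq).1).2
        exact_mod_cast this.le) (fun q hq q' hq' hlt => by
        have a1 := (mem_filter.1 hq).2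
        have a2 := (mem_filter.1 hq').2
        have hm : ((q' : ℤ) - q) ≠ 0 := by omega
        have h2 := bad_int h hm (round ((q' : ℝ) * α) - round ((q : ℝ) * α))
        have h3 : |(((q' : ℤ) - q : ℤ) : ℝ) * α - ((round ((q' : ℝ) * α) - round ((q : ℝ) * α) : ℤ) : ℝ)|
            ≤ 2 * t := by
          have e : (((q' : ℤ) - q : ℤ) : ℝ) * α -
              ((round ((q' : ℝ) * α) - round ((q : ℝ) * α) : ℤ) : ℝ) =
              (q' * α - round ((q' : ℝ) * α)) - (q * α - round ((q : ℝ) * α)) := by push_cast; ring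
          rw [e]
          refine (abs_sub _ _).trans ?_
          unfold nint at a1 a2
          linarith
        have h4 : (((q' : ℤ) - q).natAbs : ℝ) = (q' : ℝ) - q := by
          rw [Nat.cast_natAbs, abs_of_nonneg (by omega)]; push_cast; ring
        rw [h4] at h2
        have h5 : (0 : ℝ) ≤ (q' : ℝ) - q := by
          have : (q : ℝ) ≤ q' := by exact_mod_cast hlt.le
          linarith
        have h6 := h2.trans (mul_le_mul_of_nonneg_left h3 h5)
        rw [div_le_iff₀ (by positivity)]; linarith)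
    have h2 := mem_filter.1 hq0
    have h3 := mem_Ico.1 h2.1
    have h4 := div_le_nint h (q := q0) (by omega)
    have h5 : (0 : ℝ) < q0 := by exact_mod_cast (by omega : 0 < q0)
    have h6 : (q0 : ℝ) ≤ 2 * X := by exact_mod_cast h3.2.le
    have h7 : c ≤ 2 * X * t := by
      have : c / q0 ≤ t := h4.trans h2.2
      rw [div_le_iff₀ h5] at this
      nlinarith
    have h8 : (1 : ℝ) ≤ 2 * X * t / c := by rw [le_div_iff₀ hc]; linarith
    calc (S.card : ℝ) ≤ 2 * X / (c / (2 * t)) + 1 := h1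
      _ = 4 * X * t / c + 1 := by rw [div_div_eq_mul_div]; ring
      _ ≤ 4 * X * t / c + 2 * X * t / c := by linarith
      _ = 6 * X / c * t := by ring

lemma strip {c α : ℝ} (hc : 0 < c) (h : Bad c α) {Q : ℕ} {T : Finset ℕ} (hT : T ⊆ Icc 1 Q) (n : ℕ)
    (hτ : ∀ i : ℕ, ∃ τ : ℝ, 0 < τ ∧ ∀ q ∈ T, 2 ^ i ≤ q → q < 2 ^ (i + 1) →
      τ ≤ nint (q * α) ∧ nint (q * α) < 2 ^ n * τ) :
    ∑ q ∈ T, rr α q ≤ (Nat.log 2 Q + 1) * (12 * n / c) := by
  have h1 : ∀ q ∈ T, Nat.log 2 q ∈ range (Nat.log 2 Q + 1) := by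
    intro q hq
    have := (mem_Icc.1 (hT hq)).2
    rw [mem_range]
    have := Nat.log_mono_right (b := 2) this
    omega
  rw [← sum_fiberwise_of_maps_to h1]
  have h2 : ∀ i ∈ range (Nat.log 2 Q + 1), ∑ q ∈ T with Nat.log 2 q = i, rr α q ≤ 12 * n / c := by
    intro i _
    obtain ⟨τ, hτ0, hτi⟩ := hτ i
    have h3 : T.filter (fun q => Nat.log 2 q = i) ⊆
        ((Ico (2 ^ i) (2 * 2 ^ i)).filter (fun q : ℕ => τ ≤ nint (q * α) ∧ nint (q * α) < 2 ^ n * τ)) := by
      intro q hq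
      obtain ⟨h4, h5⟩ := mem_filter.1 hq
      have hq1 := (mem_Icc.1 (hT h4)).1
      have h6 := (Nat.log_eq_iff (b := 2) (n := q) (m := i) (by right; omega)).1 h5
      rw [mem_filter, mem_Ico]
      exact ⟨⟨h6.1, by rw [← pow_succ']; exact h6.2⟩, hτi q h4 h6.1 h6.2⟩
    have hp : (0 : ℝ) < 2 ^ i := by positivity
    calc ∑ q ∈ T with Nat.log 2 q = i, rr α q ≤
        ∑ q ∈ (Ico (2 ^ i) (2 * 2 ^ i)).filter
          (fun q : ℕ => τ ≤ nint (q * α) ∧ nint (q * α) < 2 ^ n * τ), rr α q :=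
          sum_le_sum_of_subset_of_nonneg h3 fun _ _ _ => rr_nonneg _ _
      _ ≤ ∑ q ∈ (Ico (2 ^ i) (2 * 2 ^ i)).filter
          (fun q : ℕ => τ ≤ nint (q * α) ∧ nint (q * α) < 2 ^ n * τ),
          (1 / 2 ^ i : ℝ) * (1 / nint (q * α)) := by
          refine sum_le_sum fun q hq => ?_
          obtain ⟨h4, h5, _⟩ := mem_filter.1 hq
          have h6 : ((2 ^ i : ℕ) : ℝ) ≤ q := by exact_mod_cast (mem_Ico.1 h4).1
          push_cast at h6
          have h7 : 0 < nint (q * α) := lt_of_lt_of_le hτ0 h5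
          unfold rr
          rw [one_div_mul_one_div]
          apply one_div_le_one_div_of_le (by positivity)
          gcongr
      _ ≤ (1 / 2 ^ i : ℝ) * (2 * (6 * ((2 ^ i : ℕ) : ℝ) / c) * n) := by
          rw [← mul_sum]
          apply mul_le_mul_of_nonneg_left _ (by positivity)
          exact shell_sum _ (fun q : ℕ => nint (q * α)) hτ0
            (fun t ht => gap_card hc h (by positivity) ht) n
      _ = 12 * n / c := by push_cast; field_simp; ring
  calc _ ≤ ∑ _i ∈ range (Nat.log 2 Q + 1), 12 * (n : ℝ) / c := sum_le_sum h2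
    _ = _ := by rw [sum_const, card_range, nsmul_eq_mul]; push_cast; ring

lemma log_two_ge : (1 / 2 : ℝ) ≤ Real.log 2 := by
  have := Real.log_two_gt_d9
  linarith

lemma natlog_le {Q : ℕ} (hQ : 1 ≤ Q) : ((Nat.log 2 Q : ℕ) : ℝ) + 1 ≤ 2 * (1 + Real.log Q) := by
  have h1 : 2 ^ Nat.log 2 Q ≤ Q := Nat.pow_log_le_self 2 (by omega)
  have h2 : ((2 ^ Nat.log 2 Q : ℕ) : ℝ) ≤ Q := by exact_mod_cast h1
  have h3 := Real.log_le_log (by positivity) h2
  push_cast at h3
  rw [Real.log_pow] at h3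
  have h4 := log_two_ge
  have h5 : (0 : ℝ) ≤ (Nat.log 2 Q : ℝ) := Nat.cast_nonneg _
  nlinarith

lemma strip_a {c α : ℝ} (hc : 0 < c) (h : Bad c α) {Q : ℕ} (hQ : 1 ≤ Q) {R L : ℝ} (hR : 0 < R)
    (hL : 0 ≤ L) :
    ∑ q ∈ (Icc 1 Q).filter (fun q : ℕ => R ≤ q ^ 2 * nint (q * α) ∧
      q ^ 2 * nint (q * α) < Real.exp L * R), rr α q ≤ (72 / c) * (1 + Real.log Q) * (1 + L) := by
  set n : ℕ := ⌈(L + Real.log 4) / Real.log 2⌉₊ with hn
  have hl2 := log_two_ge
  have hl20 : 0 < Real.log 2 := by linarith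
  have hl4 : Real.log 4 = 2 * Real.log 2 := by
    rw [show (4 : ℝ) = 2 ^ 2 by norm_num, Real.log_pow]; norm_num
  have hl40 : 0 ≤ Real.log 4 := by rw [hl4]; linarith
  have hnge : (L + Real.log 4) / Real.log 2 ≤ n := Nat.le_ceil _
  have hnle : (n : ℝ) ≤ 3 * (1 + L) := by
    have h1 : (n : ℝ) < (L + Real.log 4) / Real.log 2 + 1 := Nat.ceil_lt_add_one (by positivity)
    have h2 : (L + Real.log 4) / Real.log 2 = L / Real.log 2 + 2 := by
      rw [hl4]; field_simp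
    have h3 : L / Real.log 2 ≤ 2 * L := by
      rw [div_le_iff₀ hl20]; nlinarith
    linarith
  have hpow : 4 * Real.exp L ≤ 2 ^ n := by
    have h1 : (2 : ℝ) ^ n = Real.exp (n * Real.log 2) := by
      rw [mul_comm, Real.exp_mul, Real.exp_log (by norm_num), Real.rpow_natCast]
    rw [h1]
    have h2 : 4 * Real.exp L = Real.exp (L + Real.log 4) := by
      rw [Real.exp_add, Real.exp_log (by norm_num)]; ring
    rw [h2]
    apply Real.exp_le_exp.2
    rwa [div_le_iff₀ hl20] at hnge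
  have h1 := strip hc h (Q := Q) (T := (Icc 1 Q).filter (fun q : ℕ => R ≤ q ^ 2 * nint (q * α) ∧
      q ^ 2 * nint (q * α) < Real.exp L * R)) (filter_subset _ _) n (by
    intro i
    refine ⟨R / 4 ^ (i + 1), by positivity, fun q hq h1 h2 => ?_⟩
    obtain ⟨_, h3, h4⟩ := mem_filter.1 hq
    have h1' : (2 : ℝ) ^ i ≤ q := by exact_mod_cast h1
    have h2' : (q : ℝ) < 2 ^ (i + 1) := by exact_mod_cast h2
    have hq0 : (0 : ℝ) < q := lt_of_lt_of_le (by positivity) h1'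
    have h5 : (q : ℝ) ^ 2 ≤ 4 ^ (i + 1) := by
      have : (q : ℝ) ^ 2 ≤ (2 ^ (i + 1)) ^ 2 := by gcongr
      rwa [← pow_mul, mul_comm, pow_mul, show (2 : ℝ) ^ 2 = 4 by norm_num] at this
    have h6 : (4 : ℝ) ^ i ≤ q ^ 2 := by
      have : ((2 : ℝ) ^ i) ^ 2 ≤ q ^ 2 := by gcongr
      rwa [← pow_mul, mul_comm, pow_mul, show (2 : ℝ) ^ 2 = 4 by norm_num] at this
    constructor
    · rw [div_le_iff₀ (by positivity)]
      calc R ≤ q ^ 2 * nint (q * α) := h3
        _ ≤ 4 ^ (i + 1) * nint (q * α) := by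
          apply mul_le_mul_of_nonneg_right h5 (nint_nonneg _)
        _ = _ := by ring
    · have h7 : 4 ^ i * nint (q * α) < Real.exp L * R :=
        lt_of_le_of_lt (mul_le_mul_of_nonneg_right h6 (nint_nonneg _)) h4
      have h8 : 4 ^ i * (2 ^ n * (R / 4 ^ (i + 1))) = 2 ^ n * R / 4 := by
        rw [pow_succ]; field_simp
      have h9 : Real.exp L * R ≤ 2 ^ n * R / 4 := by
        rw [le_div_iff₀ (by norm_num)]
        nlinarith
      have h10 : 4 ^ i * nint (q * α) < 4 ^ i * (2 ^ n * (R / 4 ^ (i + 1))) := by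
        rw [h8]; linarith
      exact lt_of_mul_lt_mul_left h10 (by positivity))
  refine h1.trans ?_
  have h2 := natlog_le hQ
  have h0 : 0 ≤ Real.log Q := Real.log_natCast_nonneg Q
  calc ((Nat.log 2 Q : ℕ) + 1 : ℝ) * (12 * n / c) ≤ (2 * (1 + Real.log Q)) * (12 * (3 * (1 + L)) / c) := by
        gcongr
    _ = _ := by ring

lemma strip_b {c α : ℝ} (hc : 0 < c) (h : Bad c α) {Q : ℕ} (hQ : 1 ≤ Q) {L : ℝ}
    (hL : 0 ≤ L) :
    ∑ q ∈ (Icc 1 Q).filter (fun q : ℕ => Real.exp (-L) ≤ nint (q * α)), rr α q ≤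
      (72 / c) * (1 + Real.log Q) * (1 + L) := by
  set n : ℕ := ⌈L / Real.log 2⌉₊ with hn
  have hl2 := log_two_ge
  have hl20 : 0 < Real.log 2 := by linarith
  have hnge : L / Real.log 2 ≤ n := Nat.le_ceil _
  have hnle : (n : ℝ) ≤ 3 * (1 + L) := by
    have h1 : (n : ℝ) < L / Real.log 2 + 1 := Nat.ceil_lt_add_one (by positivity)
    have h3 : L / Real.log 2 ≤ 2 * L := by
      rw [div_le_iff₀ hl20]; nlinarith
    linarith
  have hpow : Real.exp L ≤ 2 ^ n := by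
    have h1 : (2 : ℝ) ^ n = Real.exp (n * Real.log 2) := by
      rw [mul_comm, Real.exp_mul, Real.exp_log (by norm_num), Real.rpow_natCast]
    rw [h1]
    apply Real.exp_le_exp.2
    rwa [div_le_iff₀ hl20] at hnge
  have h1 := strip hc h (Q := Q) (T := (Icc 1 Q).filter
      (fun q : ℕ => Real.exp (-L) ≤ nint (q * α))) (filter_subset _ _) n (by
    intro i
    refine ⟨Real.exp (-L), by positivity, fun q hq h1 h2 => ⟨(mem_filter.1 hq).2, ?_⟩⟩
    have h3 := nint_le_half (q * α)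
    have h4 : (1 : ℝ) ≤ 2 ^ n * Real.exp (-L) := by
      calc (1 : ℝ) = Real.exp L * Real.exp (-L) := by rw [← Real.exp_add]; simp
        _ ≤ _ := by gcongr
    linarith)
  refine h1.trans ?_
  have h2 := natlog_le hQ
  have h0 : 0 ≤ Real.log Q := Real.log_natCast_nonneg Q
  calc ((Nat.log 2 Q : ℕ) + 1 : ℝ) * (12 * n / c) ≤ (2 * (1 + Real.log Q)) * (12 * (3 * (1 + L)) / c) := by
        gcongr
    _ = _ := by ring

end Pool.Agent.KS6_2.LL
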