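import Pool.Agent.KS6_2.LL.Asy
import Pool.Agent.KS6_2.LL.Arc

open Finset Filter Topology ArithmeticFunction

namespace Pool.Agent.KS6_2.LL

/-- the sum of the inverse cubes -/
noncomputable def z3 : ℝ := ∑' n : ℕ, 1 / ((n : ℝ) + 1) ^ 3

lemma z3_mul : z3 * ∑' m : ℕ, (moebius m : ℝ) / (m : ℝ) ^ 3 = 1 := by
  have h := LSeries_one_mul_Lseries_moebius (s := 3) (by norm_num)
  rw [LSeries_one_eq_riemannZeta (by norm_num)] at h
  have e1 : riemannZeta 3 = (z3 : ℂ) := by
    rw [zeta_eq_tsum_one_div_nat_add_one_cpow (by norm_num), z3, Complex.ofReal_tsum]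
    refine tsum_congr fun n => ?_
    push_cast
    congr 1
    have : ((3 : ℕ) : ℂ) = 3 := by norm_num
    rw [← this, Complex.cpow_natCast]
  have e2 : LSeries (fun n => ((moebius n : ℤ) : ℂ)) 3 =
      ((∑' m : ℕ, (moebius m : ℝ) / (m : ℝ) ^ 3 : ℝ) : ℂ) := by
    unfold LSeries
    rw [Complex.ofReal_tsum]
    refine tsum_congr fun n => ?_
    rcases Nat.eq_zero_or_pos n with h0 | h0
    · rw [h0]; simp [LSeries.term]
    · rw [LSeries.term_of_ne_zero h0.ne']
      push_cast
      congr 1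
      have : ((3 : ℕ) : ℂ) = 3 := by norm_num
      rw [← this, Complex.cpow_natCast]
  rw [e1] at h
  have h' : (z3 : ℂ) * LSeries (fun n => ((moebius n : ℤ) : ℂ)) 3 = 1 := h
  rw [e2] at h'
  exact_mod_cast h'

lemma z3_pos : 0 < z3 := by
  have h := z3_mul
  have h0 : 0 ≤ z3 := tsum_nonneg fun n => by positivity
  rcases h0.lt_or_eq with h1 | h1
  · exact h1
  · rw [← h1, zero_mul] at h; norm_num at h

lemma tsum_moebius_cube : ∑' m : ℕ, (moebius m : ℝ) / (m : ℝ) ^ 3 = 1 / z3 := by
  have h := z3_mul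
  rw [eq_div_iff z3_pos.ne']; linarith

/-- the common divisor of `q` and the nearest integer to `q α` -/
noncomputable def gg (α : ℝ) (q : ℕ) : ℕ := Int.gcd q (round ((q : ℝ) * α))

lemma gg_dvd (α : ℝ) (q : ℕ) : gg α q ∣ q := by
  unfold gg
  exact_mod_cast Int.gcd_dvd_left (a := (q : ℤ)) (b := round ((q : ℝ) * α))

lemma gg_pos (α : ℝ) {q : ℕ} (hq : 0 < q) : 0 < gg α q :=
  Int.gcd_pos_of_ne_zero_left _ (by exact_mod_cast hq.ne')

/-- the sum over the multiples -/
noncomputable def FS (α : ℝ) (Q m : ℕ) : ℝ := ∑ q ∈ (Icc 1 Q).filter (fun q => m ∣ gg α q), rr α q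

lemma FS_nonneg (α : ℝ) (Q m : ℕ) : 0 ≤ FS α Q m := sum_nonneg fun _ _ => rr_nonneg _ _

lemma FS_le {c α : ℝ} (hc : 0 < c) (h : Bad c α) (Q : ℕ) {m : ℕ} (hm : 0 < m) :
    FS α Q m ≤ RS α (Q / m) / m ^ 2 := by
  have hm' : (0 : ℝ) < m := by exact_mod_cast hm
  have h1 : ∀ q ∈ (Icc 1 Q).filter (fun q => m ∣ gg α q), rr α q ≤ rr α (q / m) / m ^ 2 := by
    intro q hq
    obtain ⟨h1, h2⟩ := mem_filter.1 hq
    rw [mem_Icc] at h1
    obtain ⟨k, hk⟩ := h2.trans (gg_dvd α q)
    have hk0 : 0 < k := by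
      rcases Nat.eq_zero_or_pos k with h0 | h0
      · rw [h0, mul_zero] at hk; omega
      · exact h0
    have e1 : q / m = k := by rw [hk]; exact Nat.mul_div_cancel_left k hm
    obtain ⟨p, hp⟩ : (m : ℤ) ∣ round ((q : ℝ) * α) := by
      have h3 : (gg α q : ℤ) ∣ round ((q : ℝ) * α) := Int.gcd_dvd_right _ _
      exact (Int.natCast_dvd_natCast.2 h2).trans h3
    rw [e1]
    have hk' : (0 : ℝ) < k := by exact_mod_cast hk0
    have h4 : (m : ℝ) * nint (k * α) ≤ nint (q * α) := by
      have h5 := nint_le_abs_sub ((k : ℝ) * α) p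
      have h6 : nint (q * α) = m * |(k : ℝ) * α - p| := by
        unfold nint
        rw [hp, hk]
        have : ((m * k : ℕ) : ℝ) * α - (((m : ℤ) * p : ℤ) : ℝ) = m * (k * α - p) := by
          push_cast; ring
        rw [this, abs_mul, Nat.abs_cast]
      rw [h6]
      exact mul_le_mul_of_nonneg_left h5 hm'.le
    have h7 := nint_pos_bad hc h (q := k) hk0
    unfold rr
    rw [div_div]
    apply one_div_le_one_div_of_le (by positivity)
    calc (k : ℝ) * nint (k * α) * m ^ 2 = (m * k) * (m * nint (k * α)) := by ring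
      _ ≤ (m * k) * nint (q * α) := by gcongr
      _ = q * nint (q * α) := by rw [hk]; push_cast; ring
  calc FS α Q m ≤ ∑ q ∈ (Icc 1 Q).filter (fun q => m ∣ gg α q), rr α (q / m) / m ^ 2 :=
        sum_le_sum h1
    _ = ∑ k ∈ ((Icc 1 Q).filter (fun q => m ∣ gg α q)).image (fun q => q / m), rr α k / m ^ 2 := by
        rw [sum_image]
        intro q hq q' hq' heq
        obtain ⟨k, hk⟩ := (mem_filter.1 hq).2.trans (gg_dvd α q)
        obtain ⟨k', hk'⟩ := (mem_filter.1 hq').2.trans (gg_dvd α q')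
        simp only at heq
        rw [hk, hk', Nat.mul_div_cancel_left k hm, Nat.mul_div_cancel_left k' hm] at heq
        rw [hk, hk', heq]
    _ ≤ ∑ k ∈ Icc 1 (Q / m), rr α k / m ^ 2 := by
        apply sum_le_sum_of_subset_of_nonneg
        · intro k hk
          obtain ⟨q, hq, rfl⟩ := mem_image.1 hk
          obtain ⟨h2, h3⟩ := mem_filter.1 hq
          rw [mem_Icc] at h2
          obtain ⟨k, hk⟩ := h3.trans (gg_dvd α q)
          have hk0 : 0 < k := by
            rcases Nat.eq_zero_or_pos k with h0 | h0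
            · rw [h0, mul_zero] at hk; omega
            · exact h0
          rw [mem_Icc]
          constructor
          · simp only [hk, Nat.mul_div_cancel_left k hm]; exact hk0
          · exact Nat.div_le_div_right h2.2
        · intro k _ _
          exact div_nonneg (rr_nonneg _ _) (by positivity)
    _ = RS α (Q / m) / m ^ 2 := by rw [← sum_div]; rfl

lemma le_FS {c α : ℝ} (hc : 0 < c) (h : Bad c α) (Q : ℕ) {m : ℕ} (hm : 0 < m) :
    (RS α (Q / m) - 2 * m * (1 + Real.log Q)) / m ^ 2 ≤ FS α Q m := by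
  have hm' : (0 : ℝ) < m := by exact_mod_cast hm
  set G := (Icc 1 (Q / m)).filter (fun k : ℕ => nint (k * α) < 1 / (2 * m)) with hG
  have h1 : RS α (Q / m) - 2 * m * (1 + Real.log Q) ≤ ∑ k ∈ G, rr α k := by
    unfold RS
    rw [← sum_filter_add_sum_filter_not (Icc 1 (Q / m)) (fun k : ℕ => nint (k * α) < 1 / (2 * m))]
    have h2 : ∑ k ∈ (Icc 1 (Q / m)).filter (fun k : ℕ => ¬ nint (k * α) < 1 / (2 * m)), rr α k ≤
        ∑ k ∈ Icc 1 (Q / m), 2 * (m : ℝ) * (1 / k) := by
      refine le_trans (sum_le_sum (g := fun k : ℕ => 2 * (m : ℝ) * (1 / k)) ?_)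
        (sum_le_sum_of_subset_of_nonneg (filter_subset _ _) fun k _ _ => by positivity)
      intro k hk
      obtain ⟨h3, h4⟩ := mem_filter.1 hk
      rw [mem_Icc] at h3
      push Not at h4
      have hk' : (0 : ℝ) < k := by exact_mod_cast h3.1
      unfold rr
      have e : 2 * (m : ℝ) * (1 / k) = 1 / (k * (1 / (2 * m))) := by field_simp
      rw [e]
      apply one_div_le_one_div_of_le (by positivity)
      gcongr
    have h3 : ∑ k ∈ Icc 1 (Q / m), 2 * (m : ℝ) * (1 / k) ≤ 2 * m * (1 + Real.log Q) := by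
      rw [← mul_sum]
      apply mul_le_mul_of_nonneg_left _ (by positivity)
      refine (harmonic_le _).trans ?_
      rcases Nat.eq_zero_or_pos (Q / m) with h0 | h0
      · rw [h0, Nat.cast_zero, Real.log_zero]
        have : 0 ≤ Real.log Q := Real.log_natCast_nonneg Q
        linarith
      · have : Real.log ((Q / m : ℕ) : ℝ) ≤ Real.log Q := by
          apply Real.log_le_log (by exact_mod_cast h0)
          exact_mod_cast Nat.div_le_self Q m
        linarith
    linarith
  have h2 : (∑ k ∈ G, rr α k) / m ^ 2 ≤ FS α Q m := by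
    unfold FS
    rw [sum_div]
    have h3 : ∀ k ∈ G, rr α k / m ^ 2 = rr α (m * k) ∧ m ∣ gg α (m * k) := by
      intro k hk
      obtain ⟨h4, h5⟩ := mem_filter.1 hk
      rw [mem_Icc] at h4
      have hk' : (0 : ℝ) < k := by exact_mod_cast h4.1
      have e1 : round (((m * k : ℕ) : ℝ) * α) = m * round ((k : ℝ) * α) := by
        apply round_eq_of_abs_lt
        have : ((m * k : ℕ) : ℝ) * α - ((m * round ((k : ℝ) * α) : ℤ) : ℝ) =
            m * (k * α - round ((k : ℝ) * α)) := by push_cast; ring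
        rw [this, abs_mul, Nat.abs_cast]
        calc (m : ℝ) * |k * α - round ((k : ℝ) * α)| < m * (1 / (2 * m)) := by
              apply mul_lt_mul_of_pos_left h5 hm'
          _ = 1 / 2 := by field_simp
      constructor
      · unfold rr nint
        rw [e1]
        have : ((m * k : ℕ) : ℝ) * α - ((m * round ((k : ℝ) * α) : ℤ) : ℝ) =
            m * (k * α - round ((k : ℝ) * α)) := by push_cast; ring
        rw [this, abs_mul, Nat.abs_cast]
        push_cast
        rw [div_div]
        congr 1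
        ring
      · unfold gg
        rw [e1]
        push_cast
        rw [Int.gcd_mul_left, Int.natAbs_natCast]
        exact Dvd.intro _ rfl
    calc ∑ k ∈ G, rr α k / m ^ 2 = ∑ k ∈ G, rr α (m * k) := sum_congr rfl fun k hk => (h3 k hk).1
      _ = ∑ q ∈ G.image (fun k => m * k), rr α q := by
          rw [sum_image]
          intro k _ k' _ heq
          exact Nat.eq_of_mul_eq_mul_left hm heq
      _ ≤ _ := by
          apply sum_le_sum_of_subset_of_nonneg
          · intro q hq
            obtain ⟨k, hk, rfl⟩ := mem_image.1 hq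
            have h4 := mem_Icc.1 (mem_filter.1 hk).1
            rw [mem_filter, mem_Icc]
            refine ⟨⟨Nat.mul_pos hm h4.1, ?_⟩, (h3 k hk).2⟩
            calc m * k ≤ m * (Q / m) := Nat.mul_le_mul_left _ h4.2
              _ ≤ Q := Nat.mul_div_le Q m
          · intro _ _ _; exact rr_nonneg _ _
  refine le_trans ?_ h2
  gcongr

/-- dilating the range does not matter -/
lemma RS_div {c α : ℝ} (hc : 0 < c) (h : Bad c α) : ∃ C : ℝ, 0 < C ∧ ∀ Q m : ℕ, 1 ≤ Q → 0 < m →
    RS α Q - C * m * (1 + Real.log Q) ≤ RS α (Q / m) := by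
  have hc2 := bad_le_half h
  have hl : 0 ≤ Real.log (1 / (2 * c)) := by
    apply Real.log_nonneg
    rw [le_div_iff₀ (by positivity)]; linarith
  refine ⟨(2 / c) * (1 + Real.log (1 / (2 * c))), by positivity, fun Q m hQ hm => ?_⟩
  have hm' : (0 : ℝ) < m := by exact_mod_cast hm
  have hQ' : (0 : ℝ) < Q := by exact_mod_cast hQ
  rw [RS_split (Nat.div_le_self Q m)]
  have h1 : ∑ q ∈ Ioc (Q / m) Q, rr α q ≤ (m / Q) * ∑ q ∈ Icc 1 Q, 1 / nint (q * α) := by
    rw [mul_sum]
    refine le_trans (sum_le_sum (g := fun q : ℕ => (m / Q : ℝ) * (1 / nint (q * α))) ?_)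
      (sum_le_sum_of_subset_of_nonneg ?_ ?_)
    · intro q hq
      obtain ⟨h2, h3⟩ := mem_Ioc.1 hq
      have hq0 : 0 < q := lt_of_le_of_lt (Nat.zero_le _) h2
      have hq' : (0 : ℝ) < q := by exact_mod_cast hq0
      have h4 : (Q : ℝ) ≤ m * q := by
        have : Q ≤ m * q := by
          have := (Nat.div_lt_iff_lt_mul hm).1 h2
          rw [mul_comm]; exact this.le
        exact_mod_cast this
      have h5 := nint_pos_bad hc h (q := q) hq0
      unfold rr
      rw [← one_div_mul_one_div]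
      apply mul_le_mul_of_nonneg_right _ (by positivity)
      rw [div_le_div_iff₀ hq' hQ']; linarith
    · intro q hq
      obtain ⟨h2, h3⟩ := mem_Ioc.1 hq
      rw [mem_Icc]
      exact ⟨lt_of_le_of_lt (Nat.zero_le _) h2, h3⟩
    · intro q _ _
      exact mul_nonneg (by positivity) (div_nonneg zero_le_one (nint_nonneg _))
  have h2 := sum_recip hc h hQ
  have h3 : (m / Q : ℝ) * ∑ q ∈ Icc 1 Q, 1 / nint (q * α) ≤
      (m / Q : ℝ) * ((2 / c) * (1 + Real.log (1 / (2 * c))) * (Q * (1 + Real.log Q))) := by gcongr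
  have e : (m / Q : ℝ) * ((2 / c) * (1 + Real.log (1 / (2 * c))) * (Q * (1 + Real.log Q))) =
      (2 / c) * (1 + Real.log (1 / (2 * c))) * m * (1 + Real.log Q) := by field_simp
  rw [e] at h3
  linarith

/-- the total weight -/
noncomputable def TS (α : ℝ) (Q : ℕ) : ℝ :=
  ∑ q ∈ Icc 1 Q, rr α q * ∑ m ∈ (gg α q).divisors, (moebius m : ℝ) / m

lemma TS_eq (α : ℝ) (Q : ℕ) : TS α Q = ∑' m : ℕ, (moebius m : ℝ) / m * FS α Q m := by
  have hz : ∀ m ∉ range (Q + 1), (moebius m : ℝ) / m * FS α Q m = 0 := by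
    intro m hm
    rw [mem_range, not_lt] at hm
    have : FS α Q m = 0 := by
      unfold FS
      rw [sum_eq_zero]
      intro q hq
      obtain ⟨h1, h2⟩ := mem_filter.1 hq
      rw [mem_Icc] at h1
      have := Nat.le_of_dvd (by omega) (h2.trans (gg_dvd α q))
      omega
    rw [this, mul_zero]
  rw [tsum_eq_sum hz]
  unfold TS FS
  have e1 : ∀ q ∈ Icc 1 Q, rr α q * ∑ m ∈ (gg α q).divisors, (moebius m : ℝ) / m =
      ∑ m ∈ range (Q + 1), (moebius m : ℝ) / m * (if m ∣ gg α q then rr α q else 0) := by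
    intro q hq
    rw [mem_Icc] at hq
    have e2 : (gg α q).divisors = (range (Q + 1)).filter (fun m => m ∣ gg α q) := by
      ext m
      rw [Nat.mem_divisors, mem_filter, mem_range]
      constructor
      · rintro ⟨h1, _⟩
        have := Nat.le_of_dvd (by omega) (h1.trans (gg_dvd α q))
        exact ⟨by omega, h1⟩
      · rintro ⟨_, h1⟩
        exact ⟨h1, (gg_pos α (by omega)).ne'⟩
    rw [e2, sum_filter, mul_sum]
    refine sum_congr rfl fun m _ => ?_
    split_ifs <;> ring
  rw [sum_congr rfl e1, sum_comm]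
  refine sum_congr rfl fun m _ => ?_
  rw [sum_filter, mul_sum]

theorem tendsto_TS {c α : ℝ} (hc : 0 < c) (h : Bad c α) :
    Tendsto (fun Q : ℕ => TS α Q / Real.log Q ^ 2) atTop (𝓝 (1 / z3)) := by
  have hlog : Tendsto (fun Q : ℕ => Real.log Q) atTop atTop :=
    Real.tendsto_log_atTop.comp tendsto_natCast_atTop_atTop
  have hRS := tendsto_RS hc h
  have herr : Tendsto (fun Q : ℕ => (1 + Real.log Q) / Real.log Q ^ 2) atTop (𝓝 0) := by
    have h1 : Tendsto (fun t : ℝ => (1 + t) / t ^ 2) atTop (𝓝 0) := by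
      have h2 : Tendsto (fun t : ℝ => t⁻¹ ^ 2 + t⁻¹) atTop (𝓝 (0 ^ 2 + 0)) :=
        (tendsto_inv_atTop_zero.pow 2).add tendsto_inv_atTop_zero
      simp only [ne_eq, OfNat.ofNat_ne_zero, not_false_eq_true, zero_pow, add_zero] at h2
      refine h2.congr' ?_
      filter_upwards [eventually_gt_atTop 0] with t ht
      field_simp
    exact h1.comp hlog
  obtain ⟨C, hC, hdiv⟩ := RS_div hc h
  have hF : ∀ m : ℕ, 0 < m → Tendsto (fun Q : ℕ => FS α Q m / Real.log Q ^ 2) atTop
      (𝓝 (1 / (m : ℝ) ^ 2)) := by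
    intro m hm
    have hm' : (0 : ℝ) < m := by exact_mod_cast hm
    have hup : Tendsto (fun Q : ℕ => (RS α Q / Real.log Q ^ 2) / (m : ℝ) ^ 2) atTop (𝓝 (1 / (m : ℝ) ^ 2)) :=
      hRS.div_const _
    have hlo : Tendsto (fun Q : ℕ => (RS α Q / Real.log Q ^ 2) / (m : ℝ) ^ 2 -
        ((C * m + 2 * m) * ((1 + Real.log Q) / Real.log Q ^ 2)) / (m : ℝ) ^ 2) atTop
        (𝓝 (1 / (m : ℝ) ^ 2)) := by
      have := hup.sub ((herr.const_mul (C * m + 2 * m)).div_const ((m : ℝ) ^ 2))
      rw [mul_zero, zero_div, sub_zero] at this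
      exact this
    refine tendsto_of_tendsto_of_tendsto_of_le_of_le' hlo hup ?_ ?_
    · filter_upwards [eventually_ge_atTop 2] with Q hQ
      have hQ' : (1 : ℝ) < Q := by exact_mod_cast (by omega : 1 < Q)
      have hl : 0 < Real.log Q := Real.log_pos hQ'
      have h1 := le_FS hc h Q hm
      have h2 := hdiv Q m (by omega) hm
      have h3 : (RS α Q - (C * m + 2 * m) * (1 + Real.log Q)) / m ^ 2 ≤ FS α Q m := by
        refine le_trans ?_ h1
        exact div_le_div_of_nonneg_right (by linarith) (by positivity)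
      calc _ = ((RS α Q - (C * m + 2 * m) * (1 + Real.log Q)) / m ^ 2) / Real.log Q ^ 2 := by
            field_simp
        _ ≤ _ := by gcongr
    · filter_upwards [eventually_ge_atTop 2] with Q hQ
      have hQ' : (1 : ℝ) < Q := by exact_mod_cast (by omega : 1 < Q)
      have hl : 0 < Real.log Q := Real.log_pos hQ'
      have h1 := FS_le hc h Q hm
      have h2 := RS_mono (α := α) (Nat.div_le_self Q m)
      calc _ ≤ (RS α Q / m ^ 2) / Real.log Q ^ 2 := by
            gcongr
            exact h1.trans (by gcongr)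
        _ = _ := by field_simp
  have hev : ∀ᶠ Q : ℕ in atTop, RS α Q / Real.log Q ^ 2 ≤ 2 := by
    have := hRS.eventually_lt_const (u := 2) (by norm_num)
    filter_upwards [this] with Q hQ using hQ.le
  have hT := tendsto_tsum_of_dominated_convergence (β := ℕ) (𝓕 := atTop)
    (f := fun (Q : ℕ) (m : ℕ) => (moebius m : ℝ) / m * FS α Q m / Real.log Q ^ 2)
    (g := fun m : ℕ => (moebius m : ℝ) / (m : ℝ) ^ 3) (bound := fun m : ℕ => 2 * (1 / (m : ℝ) ^ 3))
    ?_ ?_ ?_
  · rw [tsum_moebius_cube] at hT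
    refine hT.congr fun Q => ?_
    rw [TS_eq, tsum_div_const]
  · exact (Real.summable_one_div_nat_pow.2 (by norm_num)).mul_left 2
  · intro m
    rcases Nat.eq_zero_or_pos m with h0 | h0
    · rw [h0]; simp
    · have hm' : (0 : ℝ) < m := by exact_mod_cast h0
      have h1 := (hF m h0).const_mul ((moebius m : ℝ) / m)
      have e : (moebius m : ℝ) / m * (1 / (m : ℝ) ^ 2) = (moebius m : ℝ) / (m : ℝ) ^ 3 := by
        field_simp
      rw [e] at h1
      refine h1.congr fun Q => ?_
      ring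
  · filter_upwards [hev, eventually_ge_atTop 2] with Q hQ hQ2 m
    have hQ' : (1 : ℝ) < Q := by exact_mod_cast (by omega : 1 < Q)
    have hl : 0 < Real.log Q := Real.log_pos hQ'
    rcases Nat.eq_zero_or_pos m with h0 | h0
    · rw [h0]; simp
    · have hm' : (0 : ℝ) < m := by exact_mod_cast h0
      have hmu : |(moebius m : ℝ)| ≤ 1 := by
        have := abs_moebius_le_one (n := m)
        exact_mod_cast this
      have h1 : FS α Q m ≤ RS α Q / m ^ 2 :=
        (FS_le hc h Q h0).trans (by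
          gcongr
          exact RS_mono (Nat.div_le_self Q m))
      have h2 := FS_nonneg α Q m
      rw [Real.norm_eq_abs, abs_div, abs_mul, abs_div, Nat.abs_cast, abs_of_nonneg h2,
        abs_of_pos (by positivity : 0 < Real.log Q ^ 2)]
      calc |(moebius m : ℝ)| / m * FS α Q m / Real.log Q ^ 2
          ≤ 1 / m * (RS α Q / m ^ 2) / Real.log Q ^ 2 := by gcongr
        _ = (RS α Q / Real.log Q ^ 2) * (1 / m ^ 3) := by field_simp
        _ ≤ 2 * (1 / m ^ 3) := by gcongr

end Pool.Agent.KS6_2.LL
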