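import Pool.Agent.KS6_2.LL.Chain
import Pool.Agent.KS6_2.LL.Pair
import Pool.Agent.KS6_2.LL.Zet
import Pool.Agent.KS6_2.LL.Strip

open MeasureTheory Finset ArithmeticFunction

namespace Pool.Agent.KS6_2.LL

lemma sum_moebius_div {n : ℕ} (hn : 0 < n) :
    ∑ m ∈ n.divisors, (moebius m : ℝ) / m = (Nat.totient n : ℝ) / n := by
  have h := (sum_eq_iff_sum_mul_moebius_eq (R := ℝ) (f := fun k => (Nat.totient k : ℝ))
    (g := fun k => (k : ℝ))).1 (fun k _ => by exact_mod_cast Nat.sum_totient k) n hn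
  rw [← h, Nat.sum_divisorsAntidiagonal (fun i j => ((moebius i : ℤ) : ℝ) * (j : ℝ)), sum_div]
  refine sum_congr rfl fun m hm => ?_
  obtain ⟨k, hk⟩ := (Nat.mem_divisors.1 hm).1
  have hm0 : 0 < m := Nat.pos_of_mem_divisors hm
  have hm' : (m : ℝ) ≠ 0 := by exact_mod_cast hm0.ne'
  have hk0 : k ≠ 0 := by
    rintro rfl; rw [mul_zero] at hk; omega
  have hk' : (k : ℝ) ≠ 0 := by exact_mod_cast hk0
  rw [hk, Nat.mul_div_cancel_left k hm0]
  push_cast
  field_simp

lemma phi_bounds {n : ℕ} (hn : 0 < n) : 0 ≤ ∑ m ∈ n.divisors, (moebius m : ℝ) / m ∧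
    ∑ m ∈ n.divisors, (moebius m : ℝ) / m ≤ 1 := by
  rw [sum_moebius_div hn]
  have hn' : (0 : ℝ) < n := by exact_mod_cast hn
  constructor
  · positivity
  · rw [div_le_one hn']; exact_mod_cast Nat.totient_le n

/-- the data of the problem -/
structure Dat where
  α : ℝ
  c : ℝ
  N : ℝ
  U : ℕ → Set ℝ
  x : ℝ
  hc : 0 < c
  hα : Bad c α
  hN : 0 < N
  hU : ∀ q, MeasurableSet (U q)
  hUx : ∀ q, U q ⊆ Set.Ioo 0 x
  hx : 0 < x

/-- the system -/
noncomputable def Dat.sys (e : Dat) : Sys where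
  U := e.U
  x := e.x
  a q := e.N ^ 2 * (q * nint (q * e.α))
  g q := gg e.α q
  hU := e.hU
  hUx := e.hUx
  hx := e.hx
  hg q hq := ⟨gg_pos e.α hq, gg_dvd e.α q⟩
  ha q hq := by
    have h1 := nint_pos_bad e.hc e.hα (q := q) hq
    have h2 : (0 : ℝ) < q := by exact_mod_cast hq
    have h3 := e.hN
    positivity

namespace Dat

variable (e : Dat)

lemma x_div (q : ℕ) : e.sys.x / e.sys.a q = e.x / e.N ^ 2 * rr e.α q := by
  show e.x / (e.N ^ 2 * (q * nint (q * e.α))) = _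
  unfold rr
  rw [div_mul_eq_div_div, mul_one_div]

lemma w_mul {q : ℕ} (hq : 0 < q) : e.sys.w q * q = 2 * e.sys.u q / e.N ^ 2 * rr e.α q := by
  have hq' : (q : ℝ) ≠ 0 := by exact_mod_cast hq.ne'
  show 2 * e.sys.u q / (q * (e.N ^ 2 * (q * nint (q * e.α)))) * q = _
  unfold rr
  rw [div_mul_eq_mul_div, mul_comm (2 * e.sys.u q) (q : ℝ), mul_div_mul_left _ _ hq',
    div_mul_eq_div_div, mul_one_div]

/-- the part of the primitive vectors -/
noncomputable def _root_.Pool.Agent.KS6_2.LL.ph (α : ℝ) (q : ℕ) : ℝ :=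
  ∑ m ∈ (gg α q).divisors, (moebius m : ℝ) / m

lemma _root_.Pool.Agent.KS6_2.LL.ph_nonneg (α : ℝ) {q : ℕ} (hq : 0 < q) : 0 ≤ ph α q :=
  (phi_bounds (gg_pos α hq)).1

lemma _root_.Pool.Agent.KS6_2.LL.ph_le_one (α : ℝ) {q : ℕ} (hq : 0 < q) : ph α q ≤ 1 :=
  (phi_bounds (gg_pos α hq)).2

lemma Lam_eq {S : Finset ℕ} (hS : ∀ q ∈ S, 0 < q) : e.sys.Lam S =
    ∑ q ∈ S, 2 * e.sys.u q / e.N ^ 2 * rr e.α q * ph e.α q := by
  unfold Sys.Lam
  refine sum_congr rfl fun q hq => ?_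
  rw [e.w_mul (hS q hq)]
  rfl

lemma Lam_nonneg {S : Finset ℕ} (hS : ∀ q ∈ S, 0 < q) : 0 ≤ e.sys.Lam S := by
  rw [e.Lam_eq hS]
  refine sum_nonneg fun q hq => ?_
  have h1 := e.sys.u_nonneg q
  have h2 := rr_nonneg e.α q
  have h3 := ph_nonneg e.α (hS q hq)
  positivity

lemma Lam_le {S : Finset ℕ} (hS : ∀ q ∈ S, 0 < q) :
    e.sys.Lam S ≤ 2 * e.x / e.N ^ 2 * ∑ q ∈ S, rr e.α q := by
  rw [e.Lam_eq hS, mul_sum]
  refine sum_le_sum fun q hq => ?_
  have h1 : e.sys.u q ≤ e.x := e.sys.u_le q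
  have h2 := rr_nonneg e.α q
  have h3 := ph_nonneg e.α (hS q hq)
  have h4 := ph_le_one e.α (hS q hq)
  have h5 := e.sys.u_nonneg q
  have h6 := e.hx
  calc 2 * e.sys.u q / e.N ^ 2 * rr e.α q * ph e.α q ≤ 2 * e.x / e.N ^ 2 * rr e.α q * 1 := by gcongr
    _ = _ := mul_one _

lemma Lam_disjUnion {S S' : Finset ℕ} (h : Disjoint S S') :
    e.sys.Lam (S ∪ S') = e.sys.Lam S + e.sys.Lam S' := by
  unfold Sys.Lam
  rw [sum_union h]

/-- the second hypothesis of the deviation theorem -/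
lemma sum_dvd {S : Finset ℕ} {Q : ℕ} (hS : S ⊆ Icc 1 Q) {m : ℕ} (hm : 1 ≤ m) :
    ∑ q ∈ S.filter (fun q => m ∣ e.sys.g q), e.sys.w q * q ≤
      (2 * e.x / e.N ^ 2 * RS e.α Q) / m ^ 2 := by
  have hN := e.hN
  have hm' : (0 : ℝ) < m := by exact_mod_cast hm
  calc ∑ q ∈ S.filter (fun q => m ∣ e.sys.g q), e.sys.w q * q
      ≤ ∑ q ∈ S.filter (fun q => m ∣ gg e.α q), 2 * e.x / e.N ^ 2 * rr e.α q := by
        refine sum_le_sum fun q hq => ?_
        rw [e.w_mul (mem_Icc.1 (hS (mem_filter.1 hq).1)).1]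
        have h1 : e.sys.u q ≤ e.x := e.sys.u_le q
        have h2 := rr_nonneg e.α q
        gcongr
    _ = 2 * e.x / e.N ^ 2 * ∑ q ∈ S.filter (fun q => m ∣ gg e.α q), rr e.α q := by
        rw [mul_sum]
    _ ≤ 2 * e.x / e.N ^ 2 * FS e.α Q m := by
        apply mul_le_mul_of_nonneg_left
        · unfold FS
          apply sum_le_sum_of_subset_of_nonneg
          · exact filter_subset_filter _ hS
          · intro _ _ _; exact rr_nonneg _ _
        · have := e.hx; positivity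
    _ ≤ 2 * e.x / e.N ^ 2 * (RS e.α Q / m ^ 2) := by
        apply mul_le_mul_of_nonneg_left _ (by have := e.hx; positivity)
        refine (FS_le e.hc e.hα Q hm).trans ?_
        gcongr
        exact RS_mono (Nat.div_le_self Q m)
    _ = _ := by ring

/-- distinct triples do not lie on the same line -/
lemma det_ne {S : Finset ℕ} (hS : ∀ q ∈ S, 0 < q) {η T : ℝ} (hη : ∀ q ∈ S, nint (q * e.α) ≤ η)
    (hη0 : 0 < η) (hTη : 2 * T * η ≤ 1) {q q' : ℕ} (hq : q ∈ S) (hq' : q' ∈ S) (hne : q ≠ q') {y : ℝ}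
    (hy : y ∈ e.sys.A q ∩ Lo q T) (hy' : y ∈ e.sys.A q' ∩ Lo q' T) :
    round ((q : ℝ) * y) * q' - round ((q' : ℝ) * y) * q ≠ 0 := by
  intro h0
  apply hne
  have hq0 := hS q hq
  have hq0' := hS q' hq'
  set r := round ((q : ℝ) * y) with hr
  set r' := round ((q' : ℝ) * y) with hr'
  set p := round ((q : ℝ) * e.α) with hp
  set p' := round ((q' : ℝ) * e.α) with hp'
  have hprim : Int.gcd (Int.gcd q p : ℤ) r = 1 := hy.1.2
  have hprim' : Int.gcd (Int.gcd q' p' : ℤ) r' = 1 := hy'.1.2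
  have hlo : ((Int.gcd q r : ℕ) : ℝ) < T := hy.2
  have hlo' : ((Int.gcd q' r' : ℕ) : ℝ) < T := hy'.2
  set G := Int.gcd q r with hG
  set G' := Int.gcd q' r' with hG'
  have hG0 : 0 < G := Int.gcd_pos_of_ne_zero_left _ (by exact_mod_cast hq0.ne')
  have hG0' : 0 < G' := Int.gcd_pos_of_ne_zero_left _ (by exact_mod_cast hq0'.ne')
  have e1 : G * q' = G' * q := by
    have h1 : Int.gcd ((q : ℤ) * q') (r * q') = G * q' := by
      rw [Int.gcd_mul_right, Int.natAbs_natCast]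
    have h2 : Int.gcd ((q' : ℤ) * q) (r' * q) = G' * q := by
      rw [Int.gcd_mul_right, Int.natAbs_natCast]
    rw [← h1, ← h2]
    have h3 : r * (q' : ℤ) = r' * q := by linarith
    rw [h3, mul_comm (q : ℤ) q']
  have e1z : (G : ℤ) * q' = G' * q := by exact_mod_cast e1
  have e1r : (G : ℝ) * q' = G' * q := by exact_mod_cast e1
  have e2 : (G : ℤ) * p' = G' * p := by
    have h1 : (((G : ℤ) * p' - G' * p : ℤ) : ℝ) = G' * (q * e.α - p) - G * (q' * e.α - p') := by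
      push_cast
      linear_combination e.α * e1r
    have h2 : |(((G : ℤ) * p' - G' * p : ℤ) : ℝ)| < 1 := by
      rw [h1]
      have a1 : |(q : ℝ) * e.α - p| ≤ η := hη q hq
      have a2 : |(q' : ℝ) * e.α - p'| ≤ η := hη q' hq'
      calc _ ≤ |(G' : ℝ) * (q * e.α - p)| + |(G : ℝ) * (q' * e.α - p')| := abs_sub _ _
        _ ≤ G' * η + G * η := by
            rw [abs_mul, abs_mul, Nat.abs_cast, Nat.abs_cast]
            gcongr
        _ < T * η + T * η := by
            apply add_lt_add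
            · exact mul_lt_mul_of_pos_right hlo' hη0
            · exact mul_lt_mul_of_pos_right hlo hη0
        _ ≤ 1 := by linarith
    have h3 : |((G : ℤ) * p' - G' * p)| < 1 := by exact_mod_cast h2
    have h4 := Int.abs_lt_one_iff.1 h3
    linarith
  have e3 : (G : ℤ) * r' = G' * r := by
    have h1 : (q' : ℤ) ≠ 0 := by exact_mod_cast hq0'.ne'
    apply mul_right_cancel₀ h1
    linear_combination r' * e1z - G' * h0
  have f1 : Int.gcd (Int.gcd ((G' : ℤ) * q) (G' * p) : ℤ) (G' * r) = G' := by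
    rw [Int.gcd_mul_left, Int.natAbs_natCast]
    push_cast
    rw [Int.gcd_mul_left, Int.natAbs_natCast, hprim, mul_one]
  have f2 : Int.gcd (Int.gcd ((G : ℤ) * q') (G * p') : ℤ) (G * r') = G := by
    rw [Int.gcd_mul_left, Int.natAbs_natCast]
    push_cast
    rw [Int.gcd_mul_left, Int.natAbs_natCast, hprim', mul_one]
  rw [e1z, e2, e3, f1] at f2
  rw [f2] at e1
  exact (Nat.eq_of_mul_eq_mul_left hG0 e1).symm

/-- first moment bound -/
lemma vol_A_le {q : ℕ} (hq : 0 < q) (hax : 2 * e.x ≤ e.sys.a q) (A : ℕ) :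
    volume.real (e.sys.A q ∩ Set.Ioc (-(A : ℝ)) A) ≤
      (2 * A + 3) * (2 * e.x / e.N ^ 2 * rr e.α q) := by
  have hN := e.hN
  have hfin : volume (e.sys.U q) ≠ ⊤ := by
    refine ne_top_of_le_ne_top ?_ (measure_mono (e.hUx q))
    rw [Real.volume_Ioo]; exact ENNReal.ofReal_ne_top
  rw [e.sys.A_inter hq hax A]
  have hcf : ∀ r : ℤ, volume (Comp (e.sys.U q) q (e.sys.a q) r) ≠ ⊤ := by
    intro r
    rw [volume_Comp (e.sys.hU q) (fun z hz => (e.hUx q hz).1) hq (e.sys.ha q hq)]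
    exact ENNReal.mul_ne_top ENNReal.ofReal_ne_top hfin
  set R := (Icc (-(q * A + 1) : ℤ) (q * A + 1)).filter (fun r => Int.gcd (e.sys.g q) r = 1) with hR
  have hw0 : 0 ≤ e.sys.w q := e.sys.w_nonneg hq
  calc volume.real ((⋃ r ∈ R, Comp (e.sys.U q) q (e.sys.a q) r) ∩ Set.Ioc (-(A : ℝ)) A)
      ≤ volume.real (⋃ r ∈ R, Comp (e.sys.U q) q (e.sys.a q) r) := by
        refine measureReal_mono Set.inter_subset_left ?_
        exact ((measure_biUnion_finset_le _ _).trans_lt (ENNReal.sum_lt_top.2 fun r _ =>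
          (hcf r).lt_top)).ne
    _ ≤ ∑ r ∈ R, volume.real (Comp (e.sys.U q) q (e.sys.a q) r) := measureReal_biUnion_finset_le _ _
    _ = R.card * e.sys.w q := by
        rw [← nsmul_eq_mul, ← sum_const]
        refine sum_congr rfl fun r _ => ?_
        rw [real_volume_Comp (e.sys.hU q) (fun z hz => (e.hUx q hz).1) hq (e.sys.ha q hq)]
        rfl
    _ ≤ ((q * (2 * A + 3) : ℕ) : ℝ) * e.sys.w q := by
        apply mul_le_mul_of_nonneg_right _ hw0
        have : R.card ≤ q * (2 * A + 3) := by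
          refine (card_filter_le _ _).trans ?_
          rw [Int.card_Icc]
          have : ((q * A + 1 : ℤ) + 1 - (-(q * A + 1))) = ((2 * (q * A) + 3 : ℕ) : ℤ) := by
            push_cast; ring
          rw [this, Int.toNat_natCast]
          nlinarith
        exact_mod_cast this
    _ = (2 * A + 3) * (e.sys.w q * q) := by push_cast; ring
    _ ≤ _ := by
        rw [e.w_mul hq]
        have h1 : e.sys.u q ≤ e.x := e.sys.u_le q
        have := rr_nonneg e.α q
        gcongr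

end Dat

end Pool.Agent.KS6_2.LL
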