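import Pool.Agent.KS6_2.LL.Strip
import Pool.Agent.KS6_2.LL.Zet

open Finset Filter Topology ArithmeticFunction

namespace Pool.Agent.KS6_2.LL

lemma block_sum_thr {α : ℝ} {P : ℕ} {p : ℤ} (hp : IsCoprime (P : ℤ) p)
    (ha : P * |P * α - p| ≤ 1) (y : ℝ) {τ : ℝ} (hτ : 0 < τ) (hτ2 : τ ≤ 1 / 2) :
    |∑ s ∈ (range P).filter (fun s : ℕ => τ ≤ nint (y + s * α)), 1 / nint (y + s * α) -
      2 * P * Real.log (1 / τ)| ≤ 5 * P + 12 / τ := by
  have hP0 : (0 : ℝ) ≤ P := Nat.cast_nonneg _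
  set K : ℕ := ⌈1 / τ⌉₊ with hK
  have hτ1 : 2 ≤ 1 / τ := by rw [le_div_iff₀ hτ]; linarith
  have hKge : 1 / τ ≤ K := Nat.le_ceil _
  have hKle : (K : ℝ) ≤ 1 / τ + 1 := (Nat.ceil_lt_add_one (by positivity)).le
  have hK2 : (2 : ℝ) ≤ K := hτ1.trans hKge
  have hK1 : 1 ≤ K := by
    have : (1 : ℝ) ≤ K := by linarith
    exact_mod_cast this
  set S := (range P).filter (fun s : ℕ => τ ≤ nint (y + s * α)) with hS
  have hSpos : ∀ s ∈ S, 0 < nint (y + s * α) := fun s hs => lt_of_lt_of_le hτ (mem_filter.1 hs).2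
  have hSK : ∀ s ∈ S, 1 / nint (y + s * α) ≤ K := fun s hs =>
    (one_div_le_one_div_of_le hτ (mem_filter.1 hs).2).trans hKge
  set cc : ℕ → ℝ := fun k => ((S.filter
    (fun s : ℕ => nint (y + s * α) ≤ 1 / (k : ℝ))).card : ℝ) with hcc
  have hswap : ∑ s ∈ S, ∑ k ∈ Icc 1 K,
      (if nint (y + s * α) ≤ 1 / (k : ℝ) then (1 : ℝ) else 0) = ∑ k ∈ Icc 1 K, cc k := by
    rw [sum_comm]
    refine sum_congr rfl fun k _ => ?_
    rw [hcc, ← sum_filter, sum_const, nsmul_eq_mul, mul_one]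
  have hH : ∑ k ∈ Icc 1 K, (1 : ℝ) / k ≤ 1 + Real.log K := harmonic_le K
  have hH2 : Real.log K ≤ ∑ k ∈ Icc 1 K, (1 : ℝ) / k := by
    have h := log_add_one_le_harmonic K
    have e : ((harmonic K : ℚ) : ℝ) = ∑ j ∈ Icc 1 K, (1 : ℝ) / j := by
      rw [harmonic_eq_sum_Icc]; push_cast; simp
    rw [e] at h
    refine le_trans (Real.log_le_log (by linarith) ?_) h
    push_cast; linarith
  have hlogK1 : Real.log (1 / τ) ≤ Real.log K := Real.log_le_log (by positivity) hKge
  have hlogK2 : Real.log K ≤ Real.log (1 / τ) + 1 / 2 := by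
    have h1 : (K : ℝ) ≤ (1 / τ) * (1 + τ) := by
      have : (1 / τ) * (1 + τ) = 1 / τ + 1 := by field_simp
      linarith
    have h2 := Real.log_le_log (by linarith) h1
    rw [Real.log_mul (by positivity) (by positivity)] at h2
    have h3 := Real.log_le_sub_one_of_pos (x := 1 + τ) (by positivity)
    linarith
  have hupper : ∑ s ∈ S, 1 / nint (y + s * α) ≤ 2 * P * (1 + Real.log K) + 3 * K + P := by
    have h1 : ∑ s ∈ S, 1 / nint (y + s * α) ≤ ∑ s ∈ S, (∑ k ∈ Icc 1 K,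
        (if nint (y + s * α) ≤ 1 / (k : ℝ) then (1 : ℝ) else 0) + 1) := by
      refine sum_le_sum fun s hs => ?_
      rw [← floor_eq_sum (hSpos s hs) (hSK s hs)]
      exact (Nat.lt_floor_add_one _).le
    rw [sum_add_distrib, hswap, sum_const, nsmul_eq_mul, mul_one] at h1
    have hSP : (S.card : ℝ) ≤ P := by
      have : S.card ≤ P := (card_filter_le _ _).trans (by rw [card_range])
      exact_mod_cast this
    have h2 : ∑ k ∈ Icc 1 K, cc k ≤ ∑ k ∈ Icc 1 K, (2 * (P : ℝ) * (1 / k) + 3) := by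
      refine sum_le_sum fun k hk => ?_
      have hk0 : (0 : ℝ) < k := by exact_mod_cast (mem_Icc.1 hk).1
      have h3 := block_count_le hp ha y (t := 1 / (k : ℝ)) (by positivity)
      have h4 : cc k ≤ (((range P).filter (fun s : ℕ => nint (y + s * α) ≤ 1 / (k : ℝ))).card : ℝ) := by
        simp only [hcc]
        exact_mod_cast card_le_card (filter_subset_filter _ (filter_subset _ _))
      linarith
    rw [sum_add_distrib, sum_const, Nat.card_Icc, nsmul_eq_mul, ← mul_sum] at h2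
    have h4 : (((K + 1 - 1 : ℕ)) : ℝ) = K := by simp
    rw [h4] at h2
    have h5 : 2 * (P : ℝ) * ∑ k ∈ Icc 1 K, (1 : ℝ) / k ≤ 2 * P * (1 + Real.log K) :=
      mul_le_mul_of_nonneg_left hH (by positivity)
    linarith
  have hlower : 2 * P * Real.log K - 2 * P - (6 + 2 * P * τ) * K ≤
      ∑ s ∈ S, 1 / nint (y + s * α) := by
    have h1 : ∑ s ∈ S, ∑ k ∈ Icc 1 K,
        (if nint (y + s * α) ≤ 1 / (k : ℝ) then (1 : ℝ) else 0) ≤
        ∑ s ∈ S, 1 / nint (y + s * α) := by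
      refine sum_le_sum fun s hs => ?_
      exact (sum_le_floor (hSpos s hs) K).trans (Nat.floor_le (by
        have := hSpos s hs; positivity))
    rw [hswap] at h1
    refine le_trans ?_ h1
    have h2 : ∑ k ∈ Icc 1 K, (2 * (P : ℝ) * (1 / k) - (6 + 2 * P * τ) -
        (if k = 1 then 2 * (P : ℝ) else 0)) ≤ ∑ k ∈ Icc 1 K, cc k := by
      refine sum_le_sum fun k hk => ?_
      have hk1 := (mem_Icc.1 hk).1
      have hPτ : 0 ≤ 2 * (P : ℝ) * τ := by positivity
      split_ifs with h1k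
      · have : 0 ≤ cc k := Nat.cast_nonneg _
        rw [h1k]
        rw [h1k] at this
        push_cast
        linarith
      · have hk2 : (2 : ℝ) ≤ k := by exact_mod_cast (by omega : 2 ≤ k)
        have h3 := le_block_count hp ha y (t := 1 / (k : ℝ)) (by
          rw [div_le_div_iff₀ (by linarith) (by norm_num)]; linarith)
        have h4 := block_count_le hp ha y (t := τ) hτ.le
        have h5 : (((range P).filter (fun s : ℕ => nint (y + s * α) ≤ 1 / (k : ℝ))).card : ℝ) ≤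
            cc k + (((range P).filter (fun s : ℕ => nint (y + s * α) ≤ τ)).card : ℝ) := by
          have h6 : (range P).filter (fun s : ℕ => nint (y + s * α) ≤ 1 / (k : ℝ)) ⊆
              S.filter (fun s : ℕ => nint (y + s * α) ≤ 1 / (k : ℝ)) ∪
              (range P).filter (fun s : ℕ => nint (y + s * α) ≤ τ) := by
            intro s hs
            obtain ⟨a1, a2⟩ := mem_filter.1 hs
            refine mem_union.2 ?_
            rcases le_total τ (nint (y + s * α)) with a3 | a3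
            · left; exact mem_filter.2 ⟨mem_filter.2 ⟨a1, a3⟩, a2⟩
            · right; exact mem_filter.2 ⟨a1, a3⟩
          have h7 := (card_le_card h6).trans (card_union_le _ _)
          simp only [hcc]
          exact_mod_cast h7
        linarith
    refine le_trans ?_ h2
    rw [sum_sub_distrib, sum_sub_distrib, sum_const, Nat.card_Icc, nsmul_eq_mul, ← mul_sum,
      sum_ite_eq' (Icc 1 K) 1, if_pos (mem_Icc.2 ⟨le_rfl, hK1⟩)]
    have h4 : (((K + 1 - 1 : ℕ)) : ℝ) = K := by simp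
    rw [h4]
    have h5 := mul_le_mul_of_nonneg_left hH2 (by positivity : (0 : ℝ) ≤ 2 * P)
    linarith
  have hτK : τ * K ≤ 3 / 2 := by
    calc τ * K ≤ τ * (1 / τ + 1) := by gcongr
      _ = 1 + τ := by field_simp
      _ ≤ 3 / 2 := by linarith
  have h12 : 6 * (K : ℝ) ≤ 12 / τ := by
    have e : 12 / τ = 12 * (1 / τ) := by ring
    rw [e]; linarith
  have hPl1 : 2 * (P : ℝ) * Real.log K ≤ 2 * P * (Real.log (1 / τ) + 1 / 2) := by gcongr
  have hPl2 : 2 * (P : ℝ) * Real.log (1 / τ) ≤ 2 * P * Real.log K := by gcongr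
  have hPτK : 2 * (P : ℝ) * τ * K ≤ 3 * P := by
    calc 2 * (P : ℝ) * τ * K = 2 * P * (τ * K) := by ring
      _ ≤ 2 * P * (3 / 2) := by gcongr
      _ = _ := by ring
  rw [abs_le]
  constructor <;> nlinarith

/-- the truncated sum -/
noncomputable def RT (α τ : ℝ) (Q : ℕ) : ℝ :=
  ∑ q ∈ (Icc 1 Q).filter (fun q : ℕ => τ ≤ nint (q * α)), rr α q

lemma RT_nonneg (α τ : ℝ) (Q : ℕ) : 0 ≤ RT α τ Q := sum_nonneg fun _ _ => rr_nonneg _ _

lemma RT_le_RS (α τ : ℝ) (Q : ℕ) : RT α τ Q ≤ RS α Q :=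
  sum_le_sum_of_subset_of_nonneg (filter_subset _ _) fun _ _ _ => rr_nonneg _ _

lemma RT_mono {α τ : ℝ} {Q Q' : ℕ} (h : Q ≤ Q') : RT α τ Q ≤ RT α τ Q' := by
  unfold RT
  apply sum_le_sum_of_subset_of_nonneg
    (filter_subset_filter _ (Icc_subset_Icc le_rfl h))
  intro _ _ _; exact rr_nonneg _ _

lemma RT_split {α τ : ℝ} {X Q : ℕ} (h : X ≤ Q) : RT α τ Q = RT α τ X +
    ∑ q ∈ (Ioc X Q).filter (fun q : ℕ => τ ≤ nint (q * α)), rr α q := by
  unfold RT
  rw [← sum_union, ← filter_union]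
  · congr 1
    congr 1
    ext q; simp only [mem_Icc, mem_union, mem_Ioc]; omega
  · apply disjoint_filter_filter
    rw [disjoint_left]; intro q; simp only [mem_Icc, mem_Ioc]; omega

lemma block_est_thr {c α : ℝ} (hc : 0 < c) (h : Bad c α) {ε : ℝ} (hε : 0 < ε) (hε2 : ε ≤ 1 / 2) :
    ∃ C : ℝ, 0 ≤ C ∧ ∀ τ : ℝ, 0 < τ → τ ≤ ε → ∀ Q : ℕ, 2 / τ ≤ Q → ∃ X : ℕ, 1 / τ ≤ X ∧ X < Q ∧
      ∑ q ∈ (Ioc X Q).filter (fun q : ℕ => τ ≤ nint (q * α)), rr α q ≤
        (1 / (1 - ε)) * ((2 * Real.log (1 / τ) + C) * (Real.log Q - Real.log X)) ∧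
      ((1 - ε) * (2 * Real.log (1 / τ)) - C) * (Real.log Q - Real.log X) ≤
        ∑ q ∈ (Ioc X Q).filter (fun q : ℕ => τ ≤ nint (q * α)), rr α q := by
  refine ⟨5 + 12 / (c * ε), by positivity, fun τ hτ hτε Q hQτ => ?_⟩
  set C : ℝ := 5 + 12 / (c * ε) with hC
  have hτ2 : τ ≤ 1 / 2 := hτε.trans hε2
  have hQε : 1 ≤ ε * Q := by
    have : 2 ≤ τ * Q := by rw [div_le_iff₀ hτ] at hQτ; linarith
    have : τ * Q ≤ ε * Q := by gcongr
    linarith
  set n : ℕ := ⌊ε * Q⌋₊ with hn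
  have hn1 : 0 < n := Nat.floor_pos.2 hQε
  obtain ⟨P, p, hP0, hPn, hPc, hcop, happ⟩ := exists_block h hn1
  have hnle : (n : ℝ) ≤ ε * Q := Nat.floor_le (by linarith)
  have hnlt : ε * Q < n + 1 := Nat.lt_floor_add_one _
  have hPle : (P : ℝ) ≤ ε * Q := by
    have : (P : ℝ) ≤ n := by exact_mod_cast hPn
    linarith
  have hPge : c * ε * Q ≤ P := by
    calc c * ε * Q = c * (ε * Q) := by ring
      _ ≤ c * (n + 1) := by gcongr
      _ ≤ P := hPc
  have hPr : (0 : ℝ) < P := by exact_mod_cast hP0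
  have hQr : (0 : ℝ) < Q := by
    rcases Nat.eq_zero_or_pos Q with h0 | h0
    · rw [h0] at hQε; norm_num at hQε
    · exact_mod_cast h0
  have hPQ : (P : ℝ) < Q := by nlinarith
  have hPQ' : P < Q := by exact_mod_cast hPQ
  obtain ⟨X, hX⟩ : ∃ X, Q = X + P := ⟨Q - P, by omega⟩
  have hXr : (X : ℝ) = Q - P := by rw [hX]; push_cast; ring
  have hX1 : 1 ≤ X := by omega
  have hX0 : (0 : ℝ) < X := by exact_mod_cast hX1
  have hXge : (1 - ε) * Q ≤ X := by rw [hXr]; linarith
  have hXτ : 1 / τ ≤ X := by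
    have : (1 / 2 : ℝ) * Q ≤ X := by nlinarith
    have e : 2 / τ = 2 * (1 / τ) := by ring
    rw [e] at hQτ; linarith
  refine ⟨X, hXτ, by omega, ?_⟩
  have h12 : 12 / τ ≤ 12 / (c * ε) * P := by
    have h1 : 1 / τ ≤ P / (c * ε) := by
      rw [le_div_iff₀ (by positivity)]
      have : 1 / τ ≤ Q := hXτ.trans (by rw [hXr]; linarith)
      calc 1 / τ * (c * ε) ≤ Q * (c * ε) := by gcongr
        _ = c * ε * Q := by ring
        _ ≤ P := hPge
    calc 12 / τ = 12 * (1 / τ) := by ring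
      _ ≤ 12 * (P / (c * ε)) := by gcongr
      _ = _ := by ring
  have hy : ∀ s : ℕ, ((X + 1 : ℕ) : ℝ) * α + s * α = ((X + 1 + s : ℕ) : ℝ) * α := by
    intro s; push_cast; ring
  have hbs := block_sum_thr hcop happ (((X + 1 : ℕ) : ℝ) * α) hτ hτ2
  have hre : ∑ s ∈ (range P).filter (fun s : ℕ => τ ≤ nint (((X + 1 : ℕ) : ℝ) * α + s * α)),
      1 / nint (((X + 1 : ℕ) : ℝ) * α + s * α) =
      ∑ q ∈ (Ioc X Q).filter (fun q : ℕ => τ ≤ nint (q * α)), 1 / nint (q * α) := by
    rw [sum_filter, sum_filter]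
    have e1 : Ioc X Q = Ico (X + 1) (X + 1 + P) := by
      ext q; simp only [mem_Ioc, mem_Ico]; omega
    rw [e1, sum_Ico_eq_sum_range]
    have e2 : X + 1 + P - (X + 1) = P := by omega
    rw [e2]
    refine sum_congr rfl fun s _ => ?_
    rw [hy]
  rw [hre] at hbs
  set B : ℝ := ∑ q ∈ (Ioc X Q).filter (fun q : ℕ => τ ≤ nint (q * α)), 1 / nint (q * α) with hB
  set L : ℝ := Real.log (1 / τ) with hL
  have hL0 : 0 ≤ L := by
    apply Real.log_nonneg
    rw [le_div_iff₀ hτ]; linarith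
  have hB1 : B ≤ P * (2 * L + C) := by
    have h1 := (abs_le.1 hbs).2
    rw [hC]; linarith
  have hB2 : P * (2 * L - C) ≤ B := by
    have h1 := (abs_le.1 hbs).1
    rw [hC]; linarith
  have hS1 : ∑ q ∈ (Ioc X Q).filter (fun q : ℕ => τ ≤ nint (q * α)), rr α q ≤ 1 / X * B := by
    rw [hB, mul_sum]
    refine sum_le_sum fun q hq => ?_
    have h1 := mem_Ioc.1 (mem_filter.1 hq).1
    have h2 : (X : ℝ) ≤ q := by exact_mod_cast h1.1.le
    have h3 := nint_pos_bad hc h (q := q) (by omega)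
    unfold rr
    rw [one_div_mul_one_div]
    apply one_div_le_one_div_of_le (by positivity)
    gcongr
  have hS2 : 1 / Q * B ≤ ∑ q ∈ (Ioc X Q).filter (fun q : ℕ => τ ≤ nint (q * α)), rr α q := by
    rw [hB, mul_sum]
    refine sum_le_sum fun q hq => ?_
    have h1 := mem_Ioc.1 (mem_filter.1 hq).1
    have h2 : (q : ℝ) ≤ Q := by exact_mod_cast h1.2
    have h3 := nint_pos_bad hc h (q := q) (by omega)
    have h4 : (0 : ℝ) < q := by exact_mod_cast (by omega : 0 < q)
    unfold rr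
    rw [one_div_mul_one_div]
    apply one_div_le_one_div_of_le (by positivity)
    gcongr
  set l : ℝ := Real.log Q - Real.log X with hl
  have hl1 : l ≤ P / X := by
    rw [hl, ← Real.log_div hQr.ne' hX0.ne']
    have h1 := Real.log_le_sub_one_of_pos (x := (Q : ℝ) / X) (by positivity)
    have e : (Q : ℝ) / X - 1 = P / X := by
      rw [div_sub_one hX0.ne']
      congr 1; rw [hXr]; ring
    linarith
  have hl2 : P / Q ≤ l := by
    have h1 := Real.log_le_sub_one_of_pos (x := (X : ℝ) / Q) (by positivity)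
    rw [Real.log_div hX0.ne' hQr.ne'] at h1
    have e : 1 - (X : ℝ) / Q = P / Q := by rw [hXr]; field_simp; ring
    linarith
  have hl0 : 0 ≤ l := le_trans (by positivity) hl2
  have hε1 : 0 < 1 - ε := by linarith
  have hQX : (Q : ℝ) / X ≤ 1 / (1 - ε) := by
    rw [div_le_div_iff₀ hX0 hε1]; linarith
  have hl3 : (P : ℝ) / X ≤ 1 / (1 - ε) * l := by
    calc (P : ℝ) / X = (Q / X) * (P / Q) := by field_simp
      _ ≤ 1 / (1 - ε) * l := by gcongr
  have hl4 : (1 - ε) * l ≤ P / Q := by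
    have h1 : (1 - ε) ≤ X / Q := by rw [le_div_iff₀ hQr]; exact hXge
    calc (1 - ε) * l ≤ (X / Q) * (P / X) := by gcongr
      _ = P / Q := by field_simp
  have hC0 : 0 ≤ C := by rw [hC]; positivity
  clear_value l B L C
  constructor
  · calc _ ≤ 1 / X * B := hS1
      _ ≤ 1 / X * (P * (2 * L + C)) := by gcongr
      _ = (P / X) * (2 * L + C) := by ring
      _ ≤ (1 / (1 - ε) * l) * (2 * L + C) := by gcongr
      _ = _ := by ring
  · calc ((1 - ε) * (2 * L) - C) * l = ((1 - ε) * l) * (2 * L) - l * C := by ring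
      _ ≤ (P / Q) * (2 * L) - (P / Q) * C := by gcongr
      _ = 1 / Q * (P * (2 * L - C)) := by ring
      _ ≤ 1 / Q * B := by gcongr
      _ ≤ _ := hS2

/-- asymptotics of the truncated sum -/
theorem RT_bounds {c α : ℝ} (hc : 0 < c) (h : Bad c α) {ε : ℝ} (hε : 0 < ε) (hε2 : ε ≤ 1 / 2) :
    ∃ C : ℝ, 0 ≤ C ∧ ∀ τ : ℝ, 0 < τ → τ ≤ c * ε → ∀ Q : ℕ, 1 / τ ≤ Q →
      RT α τ Q ≤ (1 / (1 - ε)) * (2 * Real.log (1 / τ) * Real.log Q - Real.log (1 / τ) ^ 2) +
        C * (1 + Real.log Q) ∧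
      (1 - ε) * (2 * Real.log (1 / τ) * Real.log Q - Real.log (1 / τ) ^ 2) -
        C * (1 + Real.log Q) ≤ RT α τ Q := by
  obtain ⟨C1, hC1, hblock⟩ := block_est_thr hc h hε hε2
  obtain ⟨C2, hC2, hRS⟩ := RS_bounds hc h hε hε2
  have hc2 := bad_le_half h
  have hε1 : 0 < 1 - ε := by linarith
  have hinv : 1 ≤ 1 / (1 - ε) := by rw [le_div_iff₀ hε1]; linarith
  have hinv2 : 1 / (1 - ε) ≤ 2 := by rw [div_le_iff₀ hε1]; linarith
  set Lc : ℝ := Real.log (2 / c) with hLc
  have hLc0 : 0 ≤ Lc := by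
    apply Real.log_nonneg
    rw [le_div_iff₀ hc]; linarith
  refine ⟨20 + 10 * C1 + 10 * C2 + 4 * Lc, by positivity, fun τ hτ hτc Q hQ => ?_⟩
  have hτε : τ ≤ ε := hτc.trans (by nlinarith)
  have hτ2 : τ ≤ 1 / 2 := hτε.trans hε2
  set L : ℝ := Real.log (1 / τ) with hL
  have hτ1 : 2 ≤ 1 / τ := by rw [le_div_iff₀ hτ]; linarith
  have hL0 : 0 ≤ L := Real.log_nonneg (by linarith)
  have hlogτ : Real.log (1 / τ) = -Real.log τ := by rw [one_div, Real.log_inv]
  set Q1 : ℕ := ⌈2 / τ⌉₊ with hQ1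
  have hup : ∀ Q : ℕ, 1 / τ ≤ Q → RT α τ Q ≤ RT α τ Q1 +
      (1 / (1 - ε)) * ((2 * L + C1) * (Real.log Q - L)) := by
    intro Q
    induction Q using Nat.strong_induction_on with
    | _ Q ih =>
      intro hQ
      have hlogQ : L ≤ Real.log Q := Real.log_le_log (by positivity) hQ
      rcases lt_or_ge (Q : ℝ) (2 / τ) with hlt | hge
      · have h1 : Q ≤ Q1 := by
          have : (Q : ℝ) ≤ Q1 := hlt.le.trans (Nat.le_ceil _)
          exact_mod_cast this
        have h2 := RT_mono (α := α) (τ := τ) h1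
        have h3 : 0 ≤ (1 / (1 - ε)) * ((2 * L + C1) * (Real.log Q - L)) := by
          have : 0 ≤ Real.log Q - L := by linarith
          positivity
        linarith
      · obtain ⟨X, hX1, hXQ, hu, _⟩ := hblock τ hτ hτε Q hge
        have iu := ih X hXQ hX1
        rw [RT_split hXQ.le]
        calc _ ≤ (RT α τ Q1 + (1 / (1 - ε)) * ((2 * L + C1) * (Real.log X - L))) +
              (1 / (1 - ε)) * ((2 * L + C1) * (Real.log Q - Real.log X)) := add_le_add iu hu
          _ = _ := by ring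
  have hlow : ∀ Q : ℕ, 1 / τ ≤ Q → RT α τ ⌊1 / τ⌋₊ +
      ((1 - ε) * (2 * L) - C1) * (Real.log Q - L) - 2 * L ≤ RT α τ Q := by
    intro Q
    induction Q using Nat.strong_induction_on with
    | _ Q ih =>
      intro hQ
      have hlogQ : L ≤ Real.log Q := Real.log_le_log (by positivity) hQ
      rcases lt_or_ge (Q : ℝ) (2 / τ) with hlt | hge
      · have h1 : ⌊1 / τ⌋₊ ≤ Q := by
          have := Nat.floor_le_floor hQ
          rwa [Nat.floor_natCast] at this
        have h2 := RT_mono (α := α) (τ := τ) h1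
        have hQ0 : (0 : ℝ) < Q := by linarith
        have h3 : Real.log Q - L ≤ 1 := by
          have h4 := Real.log_le_log hQ0 hlt.le
          have e : (2 : ℝ) / τ = 2 * (1 / τ) := by ring
          rw [e, Real.log_mul (by norm_num) (by positivity)] at h4
          have := Real.log_two_lt_d9
          linarith
        have h4 : 0 ≤ Real.log Q - L := by linarith
        have h5 : ((1 - ε) * (2 * L) - C1) * (Real.log Q - L) ≤ 2 * L := by
          have h6 : ((1 - ε) * (2 * L) - C1) ≤ 2 * L := by nlinarith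
          calc _ ≤ (2 * L) * (Real.log Q - L) := mul_le_mul_of_nonneg_right h6 h4
            _ ≤ (2 * L) * 1 := by gcongr
            _ = _ := mul_one _
        linarith
      · obtain ⟨X, hX1, hXQ, _, hl⟩ := hblock τ hτ hτε Q hge
        have il := ih X hXQ hX1
        rw [RT_split hXQ.le]
        calc _ = (RT α τ ⌊1 / τ⌋₊ + ((1 - ε) * (2 * L) - C1) * (Real.log X - L) - 2 * L) +
              ((1 - ε) * (2 * L) - C1) * (Real.log Q - Real.log X) := by ring
          _ ≤ _ := add_le_add il hl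
  have hQ0 : (0 : ℝ) < Q := by linarith
  have hlogQ : L ≤ Real.log Q := Real.log_le_log (by positivity) hQ
  set A := Real.log Q with hA
  have hA0 : 0 ≤ A := by linarith
  constructor
  · -- upper bound
    have h1 := hup Q hQ
    have hQ1le : (Q1 : ℝ) ≤ 3 / τ := by
      have h2 : (Q1 : ℝ) < 2 / τ + 1 := Nat.ceil_lt_add_one (by positivity)
      have e1 : (3 : ℝ) / τ = 2 / τ + 1 / τ := by ring
      rw [e1]; linarith
    have hQ1ge : 2 / τ ≤ Q1 := Nat.le_ceil _
    have hQ1pos : 1 ≤ Q1 := by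
      have e1 : (2 : ℝ) / τ = 2 * (1 / τ) := by ring
      have : (1 : ℝ) ≤ Q1 := by rw [e1] at hQ1ge; linarith
      exact_mod_cast this
    have hlogQ1 : Real.log Q1 ≤ L + 2 := by
      have h2 := Real.log_le_log (by exact_mod_cast hQ1pos) hQ1le
      have e1 : (3 : ℝ) / τ = 3 * (1 / τ) := by ring
      rw [e1, Real.log_mul (by norm_num) (by positivity)] at h2
      have h3 : Real.log 3 ≤ 2 := by
        have := Real.log_le_sub_one_of_pos (x := 3) (by norm_num)
        linarith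
      linarith
    have hlogQ10 : 0 ≤ Real.log Q1 := Real.log_natCast_nonneg _
    have h2 : RT α τ Q1 ≤ (1 / (1 - ε)) * (L + 2) ^ 2 + C2 * (1 + (L + 2)) := by
      refine (RT_le_RS _ _ _).trans ((hRS Q1 hQ1pos).1.trans ?_)
      gcongr
    have hCL : C2 * (1 + (L + 2)) ≤ 3 * C2 * (1 + A) := by nlinarith
    have hsq : (1 / (1 - ε)) * (L + 2) ^ 2 ≤ (1 / (1 - ε)) * L ^ 2 + 8 * (1 + A) := by
      have : (1 / (1 - ε)) * (L + 2) ^ 2 = (1 / (1 - ε)) * L ^ 2 + (1 / (1 - ε)) * (4 * L + 4) := by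
        ring
      rw [this]
      have : (1 / (1 - ε)) * (4 * L + 4) ≤ 2 * (4 * L + 4) := by gcongr
      linarith
    have hC1A : (1 / (1 - ε)) * (C1 * (A - L)) ≤ 2 * C1 * (1 + A) := by
      have h5 : C1 * (A - L) ≤ C1 * (1 + A) := by gcongr; linarith
      have h6 : 0 ≤ C1 * (1 + A) := by positivity
      calc _ ≤ (1 / (1 - ε)) * (C1 * (1 + A)) := by gcongr
        _ ≤ 2 * (C1 * (1 + A)) := by gcongr
        _ = _ := by ring
    have e2 : (1 / (1 - ε)) * ((2 * L + C1) * (A - L)) =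
        (1 / (1 - ε)) * (2 * L * A - 2 * L ^ 2) + (1 / (1 - ε)) * (C1 * (A - L)) := by ring
    have e3 : (1 / (1 - ε)) * (2 * L * A - L ^ 2) =
        (1 / (1 - ε)) * (2 * L * A - 2 * L ^ 2) + (1 / (1 - ε)) * L ^ 2 := by ring
    have h7 : 0 ≤ C1 * (1 + A) := by positivity
    have h8 : 0 ≤ C2 * (1 + A) := by positivity
    have h9 : 0 ≤ Lc * (1 + A) := by positivity
    rw [e3]
    rw [e2] at h1
    linarith
  · -- lower bound
    have h1 := hlow Q hQ
    set Y : ℕ := ⌊c / τ⌋₊ with hY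
    have hcτ : 2 ≤ c / τ := by
      rw [le_div_iff₀ hτ]
      have : τ ≤ c * (1 / 2) := hτc.trans (by gcongr)
      linarith
    have hY1 : 1 ≤ Y := by
      apply Nat.le_floor
      rw [Nat.cast_one]; linarith
    have hYge : c / (2 * τ) ≤ Y := by
      have h2 : c / τ < Y + 1 := Nat.lt_floor_add_one _
      have e1 : c / (2 * τ) = (c / τ) / 2 := by field_simp
      rw [e1]; linarith
    have hRTY : RS α Y ≤ RT α τ ⌊1 / τ⌋₊ := by
      unfold RS RT
      apply sum_le_sum_of_subset_of_nonneg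
      · intro q hq
        rw [mem_filter, mem_Icc]
        obtain ⟨h2, h3⟩ := mem_Icc.1 hq
        have hqr : (0 : ℝ) < q := by exact_mod_cast h2
        have hqc : (q : ℝ) ≤ c / τ := by
          have : (q : ℝ) ≤ Y := by exact_mod_cast h3
          exact this.trans (Nat.floor_le (by positivity))
        refine ⟨⟨h2, ?_⟩, ?_⟩
        · apply Nat.le_floor
          refine hqc.trans ?_
          gcongr
          linarith
        · refine le_trans ?_ (div_le_nint h h2)
          rw [le_div_iff₀ hqr]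
          rw [le_div_iff₀ hτ] at hqc
          linarith
      · intro _ _ _; exact rr_nonneg _ _
    have hlogY : L - Lc ≤ Real.log Y := by
      have h2 := Real.log_le_log (by positivity) hYge
      have e1 : c / (2 * τ) = (1 / τ) / (2 / c) := by field_simp
      rw [e1, Real.log_div (by positivity) (by positivity)] at h2
      exact h2
    have hlogY2 : Real.log Y ≤ A := by
      apply Real.log_le_log (by exact_mod_cast hY1)
      have h2 : (Y : ℝ) ≤ c / τ := Nat.floor_le (by positivity)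
      refine h2.trans (le_trans ?_ hQ)
      gcongr
      linarith
    have hlogY0 : 0 ≤ Real.log Y := Real.log_natCast_nonneg _
    have h2 := (hRS Y hY1).2
    have hsq : L ^ 2 - 2 * Lc * L ≤ Real.log Y ^ 2 := by
      rcases le_total L (2 * Lc) with h3 | h3
      · nlinarith [sq_nonneg (Real.log Y)]
      · have h4 : (L - Lc) ^ 2 ≤ Real.log Y ^ 2 := by
          have : 0 ≤ L - Lc := by linarith
          gcongr
        nlinarith [sq_nonneg Lc]
    have h3 : (1 - ε) * (L ^ 2 - 2 * Lc * L) ≤ (1 - ε) * Real.log Y ^ 2 := by gcongr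
    have h4 : C2 * (1 + Real.log Y) ≤ C2 * (1 + A) := by gcongr
    have h5 : (1 - ε) * (2 * Lc * L) ≤ 2 * Lc * (1 + A) := by
      calc (1 - ε) * (2 * Lc * L) ≤ 1 * (2 * Lc * L) := by gcongr; linarith
        _ ≤ 2 * Lc * (1 + A) := by
          rw [one_mul]
          have : L ≤ 1 + A := by linarith
          gcongr
    have h6 : C1 * (A - L) ≤ C1 * (1 + A) := by gcongr; linarith
    have e2 : ((1 - ε) * (2 * L) - C1) * (A - L) =
        (1 - ε) * (2 * L * A - 2 * L ^ 2) - C1 * (A - L) := by ring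
    have e3 : (1 - ε) * (2 * L * A - L ^ 2) =
        (1 - ε) * (2 * L * A - 2 * L ^ 2) + (1 - ε) * L ^ 2 := by ring
    have h7 : 0 ≤ C1 * (1 + A) := by positivity
    have h8 : 0 ≤ C2 * (1 + A) := by positivity
    have h9 : 0 ≤ Lc * (1 + A) := by positivity
    have e4 : (1 - ε) * (L ^ 2 - 2 * Lc * L) = (1 - ε) * L ^ 2 - (1 - ε) * (2 * Lc * L) := by ring
    rw [e3]
    rw [e2] at h1
    rw [e4] at h3
    linarith

end Pool.Agent.KS6_2.LL
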