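import Pool.Agent.KS6_2.LL.Cnt

open MeasureTheory Finset

namespace Pool.Agent.KS6_2.LL

/-- the sum of `gcd (k, n)` over `k ≤ n` -/
lemma sum_gcd_le {n : ℕ} (hn : 0 < n) :
    ∑ k ∈ Icc 1 n, (Nat.gcd k n : ℝ) ≤ n * (n.divisors.card : ℝ) := by
  have h1 : ∀ k ∈ Icc 1 n, (Nat.gcd k n : ℝ) ≤ ∑ d ∈ n.divisors, if d ∣ k then (d : ℝ) else 0 := by
    intro k _
    have hmem : Nat.gcd k n ∈ n.divisors := Nat.mem_divisors.2 ⟨Nat.gcd_dvd_right _ _, hn.ne'⟩
    have h2 := Finset.single_le_sum (f := fun d : ℕ => if d ∣ k then (d : ℝ) else 0)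
      (fun d _ => by split_ifs <;> positivity) hmem
    simp only [Nat.gcd_dvd_left, if_true] at h2
    exact h2
  refine (sum_le_sum h1).trans ?_
  rw [sum_comm]
  have h3 : ∀ d ∈ n.divisors, ∑ k ∈ Icc 1 n, (if d ∣ k then (d : ℝ) else 0) = n := by
    intro d hd
    have hdn := Nat.dvd_of_mem_divisors hd
    have hd0 : 0 < d := Nat.pos_of_mem_divisors hd
    rw [← sum_filter, sum_const, nsmul_eq_mul]
    have h4 : ((Icc 1 n).filter (fun k => d ∣ k)).card = n / d := by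
      rw [← Nat.Ioc_filter_dvd_card_eq_div n d]
      congr 1
    rw [h4, Nat.cast_div hdn (by positivity)]
    field_simp
  rw [sum_congr rfl h3, sum_const, nsmul_eq_mul, mul_comm]

lemma sum_sum_gcd_le {S : Finset ℕ} (hS : ∀ k ∈ S, 0 < k) {w : ℕ → ℝ} (hw : ∀ k ∈ S, 0 ≤ w k)
    {wm D : ℝ} (hwm : ∀ k ∈ S, w k ≤ wm) (hD : ∀ k ∈ S, (k.divisors.card : ℝ) ≤ D) :
    ∑ k ∈ S, ∑ k' ∈ S, w k * w k' * (Nat.gcd k k' : ℝ) ≤ 2 * wm * D * ∑ k ∈ S, w k * k := by
  have h1 : ∀ k ∈ S, ∀ k' ∈ S, w k * w k' * (Nat.gcd k k' : ℝ) ≤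
      (if k ≤ k' then w k * w k' * (Nat.gcd k k' : ℝ) else 0) +
      (if k' ≤ k then w k * w k' * (Nat.gcd k k' : ℝ) else 0) := by
    intro k hk k' hk'
    have : 0 ≤ w k * w k' * (Nat.gcd k k' : ℝ) :=
      mul_nonneg (mul_nonneg (hw k hk) (hw k' hk')) (Nat.cast_nonneg _)
    rcases le_total k k' with h | h
    · rw [if_pos h]; split_ifs <;> linarith
    · rw [if_pos h]; split_ifs <;> linarith
  have h2 : ∀ k' ∈ S, ∑ k ∈ S, (if k ≤ k' then w k * w k' * (Nat.gcd k k' : ℝ) else 0) ≤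
      wm * D * (w k' * k') := by
    intro k' hk'
    have hwm0 : 0 ≤ wm := (hw k' hk').trans (hwm k' hk')
    calc ∑ k ∈ S, (if k ≤ k' then w k * w k' * (Nat.gcd k k' : ℝ) else 0)
        ≤ ∑ k ∈ S, (if k ≤ k' then wm * w k' * (Nat.gcd k k' : ℝ) else 0) := by
          refine sum_le_sum fun k hk => ?_
          split_ifs
          · have := hwm k hk
            have := hw k' hk'
            gcongr
          · exact le_rfl
      _ = ∑ k ∈ S.filter (fun k => k ≤ k'), wm * w k' * (Nat.gcd k k' : ℝ) := by rw [sum_filter]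
      _ ≤ ∑ k ∈ Icc 1 k', wm * w k' * (Nat.gcd k k' : ℝ) := by
          apply sum_le_sum_of_subset_of_nonneg
          · intro k hk
            rw [mem_filter] at hk
            exact mem_Icc.2 ⟨hS k hk.1, hk.2⟩
          · intro k _ _
            exact mul_nonneg (mul_nonneg hwm0 (hw k' hk')) (Nat.cast_nonneg _)
      _ = wm * w k' * ∑ k ∈ Icc 1 k', (Nat.gcd k k' : ℝ) := by rw [mul_sum]
      _ ≤ wm * w k' * (k' * D) := by
          refine mul_le_mul_of_nonneg_left ?_ (mul_nonneg hwm0 (hw k' hk'))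
          refine (sum_gcd_le (hS k' hk')).trans ?_
          exact mul_le_mul_of_nonneg_left (hD k' hk') (Nat.cast_nonneg _)
      _ = _ := by ring
  calc ∑ k ∈ S, ∑ k' ∈ S, w k * w k' * (Nat.gcd k k' : ℝ)
      ≤ ∑ k ∈ S, ∑ k' ∈ S, ((if k ≤ k' then w k * w k' * (Nat.gcd k k' : ℝ) else 0) +
      (if k' ≤ k then w k * w k' * (Nat.gcd k k' : ℝ) else 0)) :=
        sum_le_sum fun k hk => sum_le_sum fun k' hk' => h1 k hk k' hk'
    _ = ∑ k' ∈ S, ∑ k ∈ S, (if k ≤ k' then w k * w k' * (Nat.gcd k k' : ℝ) else 0) +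
        ∑ k ∈ S, ∑ k' ∈ S, (if k' ≤ k then w k' * w k * (Nat.gcd k' k : ℝ) else 0) := by
        simp only [sum_add_distrib]
        rw [sum_comm]
        congr 1
        refine sum_congr rfl fun k _ => sum_congr rfl fun k' _ => ?_
        rw [mul_comm (w k) (w k'), Nat.gcd_comm]
    _ ≤ ∑ k' ∈ S, wm * D * (w k' * k') + ∑ k ∈ S, wm * D * (w k * k) :=
        add_le_add (sum_le_sum h2) (sum_le_sum h2)
    _ = _ := by rw [← mul_sum]; ring

/-- **variance of weighted counts** -/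
theorem var_le {S : Finset ℕ} (hS : ∀ k ∈ S, 0 < k) {w : ℕ → ℝ} (hw : ∀ k ∈ S, 0 ≤ w k)
    {wm D : ℝ} (hwm : ∀ k ∈ S, w k ≤ wm) (hD : ∀ k ∈ S, (k.divisors.card : ℝ) ≤ D)
    {h : ℝ} (hh : 0 ≤ h) :
    ∫ y in (0 : ℝ)..1, (∑ k ∈ S, w k * (cnt k h y - k * h)) ^ 2 ≤
      h * (2 * wm * D * ∑ k ∈ S, w k * k) := by
  have hI1 : ∀ k, IntervalIntegrable (cnt k h) volume 0 1 := fun k =>
    intervalIntegrable_of_bdd (measurable_cnt k h) (bdd_cnt k h) 0 1
  have hI2 : ∀ k k', IntervalIntegrable (fun y => cnt k h y * cnt k' h y) volume 0 1 := fun k k' =>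
    intervalIntegrable_of_bdd ((measurable_cnt k h).mul (measurable_cnt k' h)) (bdd_cnt_mul k k' h) 0 1
  have hI3 : ∀ k k', IntervalIntegrable
      (fun y => (cnt k h y - k * h) * (cnt k' h y - k' * h)) volume 0 1 := by
    intro k k'
    apply intervalIntegrable_of_bdd (B := 1 * 1)
    · exact ((measurable_cnt k h).sub_const _).mul ((measurable_cnt k' h).sub_const _)
    · intro y
      rw [abs_mul]
      exact mul_le_mul (abs_cnt_sub_le _ _ _) (abs_cnt_sub_le _ _ _) (abs_nonneg _) (by norm_num)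
  have hcov : ∀ k ∈ S, ∀ k' ∈ S, ∫ y in (0 : ℝ)..1, (cnt k h y - k * h) * (cnt k' h y - k' * h) ≤
      (Nat.gcd k k' : ℝ) * h := by
    intro k hk k' hk'
    have e : ∫ y in (0 : ℝ)..1, (cnt k h y - k * h) * (cnt k' h y - k' * h) =
        (∫ y in (0 : ℝ)..1, cnt k h y * cnt k' h y) - k * k' * h ^ 2 := by
      have e1 : (fun y => (cnt k h y - k * h) * (cnt k' h y - k' * h)) = fun y =>
          cnt k h y * cnt k' h y - (k' * h) * cnt k h y - (k * h) * cnt k' h y + (k * h) * (k' * h) := by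
        funext y; ring
      rw [e1, intervalIntegral.integral_add (((hI2 k k').sub ((hI1 k).const_mul _)).sub
        ((hI1 k').const_mul _)) intervalIntegrable_const,
        intervalIntegral.integral_sub ((hI2 k k').sub ((hI1 k).const_mul _)) ((hI1 k').const_mul _),
        intervalIntegral.integral_sub (hI2 k k') ((hI1 k).const_mul _),
        intervalIntegral.integral_const_mul, intervalIntegral.integral_const_mul,
        integral_cnt (hS k hk), integral_cnt (hS k' hk'), intervalIntegral.integral_const]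
      simp only [smul_eq_mul]
      ring
    rw [e]
    have := integral_cnt_mul (hS k hk) (hS k' hk') hh
    linarith
  have e2 : ∫ y in (0 : ℝ)..1, (∑ k ∈ S, w k * (cnt k h y - k * h)) ^ 2 =
      ∑ k ∈ S, ∑ k' ∈ S, w k * w k' * ∫ y in (0 : ℝ)..1, (cnt k h y - k * h) * (cnt k' h y - k' * h) := by
    have e3 : (fun y => (∑ k ∈ S, w k * (cnt k h y - k * h)) ^ 2) = fun y =>
        ∑ k ∈ S, ∑ k' ∈ S, w k * w k' * ((cnt k h y - k * h) * (cnt k' h y - k' * h)) := by
      funext y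
      rw [sq, sum_mul_sum]
      refine sum_congr rfl fun k _ => sum_congr rfl fun k' _ => ?_
      ring
    rw [e3, intervalIntegral.integral_finsetSum]
    · refine sum_congr rfl fun k _ => ?_
      rw [intervalIntegral.integral_finsetSum]
      · refine sum_congr rfl fun k' _ => ?_
        rw [intervalIntegral.integral_const_mul]
      · intro k' _
        exact (hI3 k k').const_mul _
    · intro k _
      have : IntervalIntegrable (∑ k' ∈ S, fun y => w k * w k' * ((cnt k h y - k * h) * (cnt k' h y - k' * h)))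
          volume 0 1 := IntervalIntegrable.sum _ fun k' _ => (hI3 k k').const_mul _
      have e4 : (∑ k' ∈ S, fun y => w k * w k' * ((cnt k h y - k * h) * (cnt k' h y - k' * h))) =
          fun y => ∑ k' ∈ S, w k * w k' * ((cnt k h y - k * h) * (cnt k' h y - k' * h)) := by
        funext y; simp
      rwa [e4] at this
  rw [e2]
  calc _ ≤ ∑ k ∈ S, ∑ k' ∈ S, w k * w k' * ((Nat.gcd k k' : ℝ) * h) :=
        sum_le_sum fun k hk => sum_le_sum fun k' hk' =>
          mul_le_mul_of_nonneg_left (hcov k hk k' hk') (mul_nonneg (hw k hk) (hw k' hk'))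
    _ = h * ∑ k ∈ S, ∑ k' ∈ S, w k * w k' * (Nat.gcd k k' : ℝ) := by
        simp only [mul_sum]
        refine sum_congr rfl fun k _ => sum_congr rfl fun k' _ => ?_
        ring
    _ ≤ _ := mul_le_mul_of_nonneg_left (sum_sum_gcd_le hS hw hwm hD) hh

/-- Cauchy-Schwarz -/
lemma integral_abs_le_sqrt {f : ℝ → ℝ} (hf : Measurable f) {B : ℝ} (hB : ∀ y, |f y| ≤ B) {V : ℝ}
    (hV : ∫ y in (0 : ℝ)..1, f y ^ 2 ≤ V) : ∫ y in (0 : ℝ)..1, |f y| ≤ √V := by
  set m := ∫ y in (0 : ℝ)..1, |f y| with hm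
  have hB0 : 0 ≤ B := (abs_nonneg _).trans (hB 0)
  have hI : IntervalIntegrable (fun y => |f y|) volume 0 1 :=
    intervalIntegrable_of_bdd hf.abs (fun y => by rw [abs_abs]; exact hB y) 0 1
  have hI2 : IntervalIntegrable (fun y => f y ^ 2) volume 0 1 :=
    intervalIntegrable_of_bdd (hf.pow_const 2) (B := B ^ 2) (fun y => by
      rw [abs_pow]; exact pow_le_pow_left₀ (abs_nonneg _) (hB y) 2) 0 1
  have h1 : 0 ≤ ∫ y in (0 : ℝ)..1, (|f y| - m) ^ 2 :=
    intervalIntegral.integral_nonneg (by norm_num) fun y _ => sq_nonneg _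
  have e : (fun y => (|f y| - m) ^ 2) = fun y => f y ^ 2 - (2 * m) * |f y| + m ^ 2 := by
    funext y
    rw [sub_sq, sq_abs]; ring
  rw [e, intervalIntegral.integral_add (hI2.sub (hI.const_mul _)) intervalIntegrable_const,
    intervalIntegral.integral_sub hI2 (hI.const_mul _), intervalIntegral.integral_const_mul, ← hm,
    intervalIntegral.integral_const] at h1
  simp only [smul_eq_mul] at h1
  apply Real.le_sqrt_of_sq_le
  nlinarith

lemma integral_abs_cnt_le {S : Finset ℕ} (hS : ∀ k ∈ S, 0 < k) {w : ℕ → ℝ} (hw : ∀ k ∈ S, 0 ≤ w k)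
    {wm D : ℝ} (hwm : ∀ k ∈ S, w k ≤ wm) (hD : ∀ k ∈ S, (k.divisors.card : ℝ) ≤ D)
    {h : ℝ} (hh : 0 ≤ h) :
    ∫ y in (0 : ℝ)..1, |∑ k ∈ S, w k * (cnt k h y - k * h)| ≤
      √(h * (2 * wm * D * ∑ k ∈ S, w k * k)) := by
  refine integral_abs_le_sqrt ?_ (B := ∑ k ∈ S, w k) ?_ (var_le hS hw hwm hD hh)
  · exact Finset.measurable_sum _ fun k _ => ((measurable_cnt k h).sub_const _).const_mul _
  · intro y
    refine (abs_sum_le_sum_abs _ _).trans (sum_le_sum fun k hk => ?_)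
    rw [abs_mul, abs_of_nonneg (hw k hk)]
    calc w k * |cnt k h y - k * h| ≤ w k * 1 :=
          mul_le_mul_of_nonneg_left (abs_cnt_sub_le k h y) (hw k hk)
      _ = w k := mul_one _

end Pool.Agent.KS6_2.LL
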