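import Pool.Agent.KS6_2.LL.Cone2

open MeasureTheory Finset Filter Topology

namespace Pool.Agent.KS6_2.LL

/-- the position of `q` in the cone -/
noncomputable def pt (α : ℝ) (Q q : ℕ) : ℝ × ℝ :=
  (Real.log q / Real.log Q, Real.log (1 / nint (q * α)) / Real.log Q)

lemma TS_pos {c α : ℝ} (hc : 0 < c) (h : Bad c α) {Q : ℕ} (hQ : 1 ≤ Q) : 0 < TS α Q := by
  rw [TS_eq_ph]
  have h1 : rr α 1 * ph α 1 ≤ ∑ q ∈ Icc 1 Q, rr α q * ph α q := by
    apply single_le_sum (f := fun q => rr α q * ph α q) _ (mem_Icc.2 ⟨le_rfl, hQ⟩)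
    intro q hq
    have := (mem_Icc.1 hq).1
    exact mul_nonneg (rr_nonneg _ _) (ph_nonneg α (by omega))
  refine lt_of_lt_of_le ?_ h1
  have h2 : gg α 1 = 1 := Nat.dvd_one.1 (gg_dvd α 1)
  have h3 : ph α 1 = 1 := by
    unfold ph
    rw [h2]; simp
  have h4 := nint_pos_bad hc h (q := 1) le_rfl
  rw [h3, mul_one]
  unfold rr
  push_cast at h4 ⊢
  positivity

/-- the probability measures -/
noncomputable def PM (α : ℝ) (Q : ℕ) : Measure (ℝ × ℝ) :=
  ∑ q ∈ Icc 1 Q, ENNReal.ofReal (rr α q * ph α q / TS α Q) • Measure.dirac (pt α Q q)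

lemma PM_apply {c α : ℝ} (hc : 0 < c) (h : Bad c α) {Q : ℕ} (hQ : 1 ≤ Q) {A : Set (ℝ × ℝ)}
    [DecidablePred (fun q => pt α Q q ∈ A)] (hA : MeasurableSet A) :
    PM α Q A = ENNReal.ofReal
      ((∑ q ∈ (Icc 1 Q).filter (fun q => pt α Q q ∈ A), rr α q * ph α q) / TS α Q) := by
  have hT := TS_pos hc h hQ
  unfold PM
  rw [Measure.finsetSum_apply, sum_filter, sum_div, ENNReal.ofReal_sum_of_nonneg]
  · refine sum_congr rfl fun q _ => ?_
    rw [Measure.smul_apply, Measure.dirac_apply' _ hA, smul_eq_mul]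
    split_ifs with h1
    · rw [Set.indicator_of_mem h1]; simp
    · rw [Set.indicator_of_notMem h1]; simp
  · intro q hq
    have := (mem_Icc.1 hq).1
    split_ifs
    · exact div_nonneg (mul_nonneg (rr_nonneg _ _) (ph_nonneg α (by omega))) hT.le
    · simp

lemma PM_prob {c α : ℝ} (hc : 0 < c) (h : Bad c α) {Q : ℕ} (hQ : 1 ≤ Q) :
    IsProbabilityMeasure (PM α Q) := ⟨by
  classical
  rw [PM_apply hc h hQ MeasurableSet.univ]
  have : (Icc 1 Q).filter (fun q => pt α Q q ∈ (Set.univ : Set (ℝ × ℝ))) = Icc 1 Q := by simp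
  rw [this, ← TS_eq_ph, div_self (TS_pos hc h hQ).ne', ENNReal.ofReal_one]⟩

lemma integral_PM {c α : ℝ} (hc : 0 < c) (h : Bad c α) {Q : ℕ} (hQ : 1 ≤ Q)
    (G : ℝ × ℝ → ℝ) :
    ∫ p, G p ∂(PM α Q) = (∑ q ∈ Icc 1 Q, rr α q * ph α q * G (pt α Q q)) / TS α Q := by
  have hT := TS_pos hc h hQ
  unfold PM
  rw [integral_finsetSum_measure, sum_div]
  · refine sum_congr rfl fun q hq => ?_
    have := (mem_Icc.1 hq).1
    have h1 : 0 ≤ rr α q * ph α q / TS α Q :=
      div_nonneg (mul_nonneg (rr_nonneg _ _) (ph_nonneg α (by omega))) hT.le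
    rw [integral_smul_measure, integral_dirac, ENNReal.toReal_ofReal h1, smul_eq_mul]
    ring
  · intro q _
    apply Integrable.smul_measure _ ENNReal.ofReal_ne_top
    exact integrable_dirac (by simp)

/-- the open triangle -/
def Tri : Set (ℝ × ℝ) := {p | 0 < p.2 ∧ p.2 < p.1 ∧ p.1 ≤ 1}

lemma measurableSet_Tri : MeasurableSet Tri := by
  unfold Tri
  exact (measurableSet_lt measurable_const measurable_snd).inter
    ((measurableSet_lt measurable_snd measurable_fst).inter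
      (measurableSet_le measurable_fst measurable_const))

/-- the limit measure -/
noncomputable def LM : Measure (ℝ × ℝ) := ENNReal.ofReal 2 • volume.restrict Tri

lemma integral_min {s v : ℝ} (hs : 0 ≤ s) (hv : 0 ≤ v) :
    ∫ x in (0 : ℝ)..s, min x v = s * min v s - min v s ^ 2 / 2 := by
  rcases le_total s v with h | h
  · rw [min_eq_right h]
    have : ∫ x in (0 : ℝ)..s, min x v = ∫ x in (0 : ℝ)..s, x := by
      apply intervalIntegral.integral_congr
      intro x hx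
      rw [Set.uIcc_of_le hs] at hx
      exact min_eq_left (hx.2.trans h)
    rw [this, integral_id]; ring
  · rw [min_eq_left h]
    have hi : ∀ a b : ℝ, IntervalIntegrable (fun x => min x v) volume a b := fun a b =>
      (continuous_id.min continuous_const).intervalIntegrable _ _
    rw [← intervalIntegral.integral_add_adjacent_intervals (hi 0 v) (hi v s)]
    have e1 : ∫ x in (0 : ℝ)..v, min x v = ∫ x in (0 : ℝ)..v, x := by
      apply intervalIntegral.integral_congr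
      intro x hx
      rw [Set.uIcc_of_le hv] at hx
      exact min_eq_left hx.2
    have e2 : ∫ x in v..s, min x v = ∫ _x in v..s, v := by
      apply intervalIntegral.integral_congr
      intro x hx
      rw [Set.uIcc_of_le h] at hx
      exact min_eq_right hx.1
    rw [e1, e2, integral_id, intervalIntegral.integral_const, smul_eq_mul]; ring

lemma volume_Tri_inter {s v : ℝ} (hs : 0 ≤ s) (hs1 : s ≤ 1) (hv : 0 ≤ v) :
    volume (Tri ∩ (Set.Iic s ×ˢ Set.Iic v)) = ENNReal.ofReal (s * min v s - min v s ^ 2 / 2) := by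
  have hm : MeasurableSet (Tri ∩ (Set.Iic s ×ˢ Set.Iic v)) :=
    measurableSet_Tri.inter (measurableSet_Iic.prod measurableSet_Iic)
  rw [Measure.volume_eq_prod, Measure.prod_apply hm]
  have e1 : ∀ x : ℝ, volume (Prod.mk x ⁻¹' (Tri ∩ (Set.Iic s ×ˢ Set.Iic v))) =
      (Set.Ioc 0 s).indicator (fun x => ENNReal.ofReal (min x v)) x := by
    intro x
    by_cases hx : x ∈ Set.Ioc 0 s
    · rw [Set.indicator_of_mem hx]
      have h1 : Set.Ioo (0 : ℝ) (min x v) ⊆ Prod.mk x ⁻¹' (Tri ∩ (Set.Iic s ×ˢ Set.Iic v)) := by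
        intro y hy
        have a1 := hy.1
        have a2 := (lt_min_iff.1 hy.2)
        exact ⟨⟨a1, a2.1, hx.2.trans hs1⟩, hx.2, a2.2.le⟩
      have h2 : Prod.mk x ⁻¹' (Tri ∩ (Set.Iic s ×ˢ Set.Iic v)) ⊆ Set.Ioc (0 : ℝ) (min x v) := by
        rintro y ⟨⟨b1, b2, b3⟩, b4, b5⟩
        exact ⟨b1, le_min b2.le b5⟩
      apply le_antisymm
      · refine (measure_mono h2).trans ?_
        rw [Real.volume_Ioc, sub_zero]
      · refine le_trans ?_ (measure_mono h1)
        rw [Real.volume_Ioo, sub_zero]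
    · rw [Set.indicator_of_notMem hx]
      have h1 : Prod.mk x ⁻¹' (Tri ∩ (Set.Iic s ×ˢ Set.Iic v)) = ∅ := by
        ext y
        simp only [Set.mem_preimage, Set.mem_empty_iff_false, iff_false]
        rintro ⟨⟨b1, b2, b3⟩, b4, b5⟩
        exact hx ⟨lt_trans b1 b2, b4⟩
      rw [h1, measure_empty]
  simp only [e1]
  rw [lintegral_indicator measurableSet_Ioc, ← integral_min hs hv,
    intervalIntegral.integral_of_le hs, ofReal_integral_eq_lintegral_ofReal]
  · have := (continuous_id.min continuous_const : Continuous (fun x : ℝ => min x v))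
    exact this.integrableOn_Ioc
  · refine (ae_restrict_iff' measurableSet_Ioc).2 ?_
    filter_upwards with x hx
    exact le_min hx.1.le hv

lemma LM_prob : IsProbabilityMeasure LM := ⟨by
  unfold LM
  rw [Measure.smul_apply, Measure.restrict_apply_univ]
  have h1 := volume_Tri_inter (s := 1) (v := 1) zero_le_one le_rfl zero_le_one
  have h2 : Tri ∩ (Set.Iic (1 : ℝ) ×ˢ Set.Iic (1 : ℝ)) = Tri := by
    apply Set.inter_eq_left.2
    rintro p ⟨h1, h2, h3⟩
    exact ⟨h3, h2.le.trans h3⟩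
  rw [h2] at h1
  rw [h1, smul_eq_mul, ← ENNReal.ofReal_mul (by norm_num)]
  norm_num⟩

lemma LM_real {s v : ℝ} (hs : 0 ≤ s) (hs1 : s ≤ 1) (hv : 0 ≤ v) :
    LM.real (Set.Iic s ×ˢ Set.Iic v) = 2 * min v s * s - min v s ^ 2 := by
  unfold LM
  rw [measureReal_def, Measure.smul_apply, Measure.restrict_apply
    (measurableSet_Iic.prod measurableSet_Iic), Set.inter_comm, volume_Tri_inter hs hs1 hv,
    smul_eq_mul, ← ENNReal.ofReal_mul (by norm_num), ENNReal.toReal_ofReal]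
  · ring
  · have h1 : min v s ≤ s := min_le_right _ _
    have h2 : 0 ≤ min v s := le_min hv hs
    nlinarith

lemma log_inv_nint_pos {c α : ℝ} (hc : 0 < c) (h : Bad c α) {q : ℕ} (hq : 1 ≤ q) :
    0 < Real.log (1 / nint (q * α)) := by
  have h1 := nint_pos_bad hc h hq
  have h2 := nint_le_half (q * α)
  apply Real.log_pos
  rw [lt_div_iff₀ h1]; linarith

lemma log_floor_rpow {s : ℝ} (hs : 0 ≤ s) :
    Tendsto (fun Q : ℕ => Real.log (⌊(Q : ℝ) ^ s⌋₊ : ℝ) / Real.log Q) atTop (𝓝 s) := by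
  have hlog : Tendsto (fun Q : ℕ => Real.log Q) atTop atTop :=
    Real.tendsto_log_atTop.comp tendsto_natCast_atTop_atTop
  have hi : Tendsto (fun Q : ℕ => 1 / Real.log Q) atTop (𝓝 0) := by
    simp only [one_div]
    exact tendsto_inv_atTop_zero.comp hlog
  have hlo : Tendsto (fun Q : ℕ => s - Real.log 2 * (1 / Real.log Q)) atTop
      (𝓝 (s - Real.log 2 * 0)) := tendsto_const_nhds.sub (hi.const_mul _)
  rw [mul_zero, sub_zero] at hlo
  refine tendsto_of_tendsto_of_tendsto_of_le_of_le' hlo tendsto_const_nhds ?_ ?_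
  · filter_upwards [hlog.eventually_gt_atTop 0, eventually_ge_atTop 1] with Q hQ hQ1
    have hQr : (1 : ℝ) ≤ Q := by exact_mod_cast hQ1
    have h1 : (1 : ℝ) ≤ (Q : ℝ) ^ s := Real.one_le_rpow hQr hs
    have h2 : (Q : ℝ) ^ s / 2 ≤ ⌊(Q : ℝ) ^ s⌋₊ := by
      have h3 := Nat.lt_floor_add_one ((Q : ℝ) ^ s)
      have h4 : 1 ≤ ⌊(Q : ℝ) ^ s⌋₊ := Nat.le_floor (by rwa [Nat.cast_one])
      have h5 : (1 : ℝ) ≤ ⌊(Q : ℝ) ^ s⌋₊ := by exact_mod_cast h4
      linarith
    have h3 := Real.log_le_log (by positivity) h2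
    rw [Real.log_div (by positivity) (by norm_num), Real.log_rpow (by linarith)] at h3
    rw [le_div_iff₀ hQ]
    have e : (s - Real.log 2 * (1 / Real.log Q)) * Real.log Q = s * Real.log Q - Real.log 2 := by
      field_simp
    rw [e]; exact h3
  · filter_upwards [hlog.eventually_gt_atTop 0, eventually_ge_atTop 1] with Q hQ hQ1
    have hQr : (1 : ℝ) ≤ Q := by exact_mod_cast hQ1
    have h1 : (1 : ℝ) ≤ (Q : ℝ) ^ s := Real.one_le_rpow hQr hs
    have h4 : 1 ≤ ⌊(Q : ℝ) ^ s⌋₊ := Nat.le_floor (by rwa [Nat.cast_one])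
    have h5 : (1 : ℝ) ≤ ⌊(Q : ℝ) ^ s⌋₊ := by exact_mod_cast h4
    have h2 := Real.log_le_log (by linarith) (Nat.floor_le (a := (Q : ℝ) ^ s) (by linarith))
    rw [Real.log_rpow (by linarith)] at h2
    rw [div_le_iff₀ hQ]; exact h2

lemma PM_real {c α : ℝ} (hc : 0 < c) (h : Bad c α) {Q : ℕ} (hQ : 1 ≤ Q) {A : Set (ℝ × ℝ)}
    [DecidablePred (fun q => pt α Q q ∈ A)] (hA : MeasurableSet A) :
    (PM α Q).real A =
      (∑ q ∈ (Icc 1 Q).filter (fun q => pt α Q q ∈ A), rr α q * ph α q) / TS α Q := by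
  rw [measureReal_def, PM_apply hc h hQ hA, ENNReal.toReal_ofReal]
  apply div_nonneg _ (TS_pos hc h hQ).le
  apply sum_nonneg
  intro q hq
  have := (mem_Icc.1 (mem_filter.1 hq).1).1
  exact mul_nonneg (rr_nonneg _ _) (ph_nonneg α (by omega))

/-- the distribution functions converge -/
lemma cdf_lim {c α : ℝ} (hc : 0 < c) (h : Bad c α) (s v : ℝ) :
    Tendsto (fun Q : ℕ => (PM α Q).real (Set.Iic s ×ˢ Set.Iic v)) atTop
      (𝓝 (LM.real (Set.Iic s ×ˢ Set.Iic v))) := by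
  classical
  have hlog : Tendsto (fun Q : ℕ => Real.log Q) atTop atTop :=
    Real.tendsto_log_atTop.comp tendsto_natCast_atTop_atTop
  have hm : MeasurableSet (Set.Iic s ×ˢ Set.Iic v) := measurableSet_Iic.prod measurableSet_Iic
  by_cases hsv : 0 ≤ s ∧ 0 ≤ v
  · obtain ⟨hs, hv⟩ := hsv
    set s' : ℝ := min s 1 with hs'
    have hs'0 : 0 ≤ s' := le_min hs zero_le_one
    have hs'1 : s' ≤ 1 := min_le_right _ _
    have hLM : LM.real (Set.Iic s ×ˢ Set.Iic v) = LM.real (Set.Iic s' ×ˢ Set.Iic v) := by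
      unfold LM
      rw [measureReal_def, measureReal_def, Measure.smul_apply, Measure.smul_apply,
        Measure.restrict_apply hm, Measure.restrict_apply (measurableSet_Iic.prod measurableSet_Iic)]
      congr 3
      ext p
      constructor
      · rintro ⟨⟨h1, h2⟩, h3⟩
        exact ⟨⟨le_min h1 h3.2.2, h2⟩, h3⟩
      · rintro ⟨⟨h1, h2⟩, h3⟩
        exact ⟨⟨(le_min_iff.1 (show p.1 ≤ min s 1 from h1)).1, h2⟩, h3⟩
    rw [hLM, LM_real hs'0 hs'1 hv]
    have hTT := TT_lim hc h (X := fun Q => ⌊(Q : ℝ) ^ s'⌋₊) (τ := fun Q => (Q : ℝ) ^ (-v))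
      (s := s') (v := v)
      (by filter_upwards [eventually_ge_atTop 1] with Q hQ
          have : (0 : ℝ) < Q := by exact_mod_cast hQ
          positivity)
      (by filter_upwards [eventually_ge_atTop 1] with Q hQ
          exact Real.rpow_le_one_of_one_le_of_nonpos (by exact_mod_cast hQ) (by linarith))
      (by filter_upwards [eventually_ge_atTop 1] with Q hQ
          apply Nat.le_floor
          rw [Nat.cast_one]
          exact Real.one_le_rpow (by exact_mod_cast hQ) hs'0)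
      (by filter_upwards [eventually_ge_atTop 1] with Q hQ
          have hQr : (1 : ℝ) ≤ Q := by exact_mod_cast hQ
          have h1 : (Q : ℝ) ^ s' ≤ Q := by
            calc (Q : ℝ) ^ s' ≤ (Q : ℝ) ^ (1 : ℝ) := Real.rpow_le_rpow_of_exponent_le hQr hs'1
              _ = Q := Real.rpow_one _
          have := Nat.floor_le_floor h1
          rwa [Nat.floor_natCast] at this)
      hs'0 hv (log_floor_rpow hs'0)
      (by
        refine tendsto_const_nhds.congr' ?_
        filter_upwards [hlog.eventually_gt_atTop 0, eventually_ge_atTop 1] with Q hQ hQ1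
        have hQ0 : (0 : ℝ) < Q := by exact_mod_cast hQ1
        rw [one_div, ← Real.rpow_neg hQ0.le, neg_neg, Real.log_rpow hQ0]
        field_simp)
    have h1 := hTT.div (tendsto_TS hc h) (by have := z3_pos; positivity)
    have e1 : (2 * min v s' * s' - min v s' ^ 2) / z3 / (1 / z3) =
        2 * min v s' * s' - min v s' ^ 2 := by
      have := z3_pos
      field_simp
    rw [e1] at h1
    refine h1.congr' ?_
    filter_upwards [hlog.eventually_gt_atTop 0, eventually_ge_atTop 1] with Q hQ hQ1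
    have hQ0 : (0 : ℝ) < Q := by exact_mod_cast hQ1
    have hQr : (1 : ℝ) ≤ Q := by exact_mod_cast hQ1
    rw [PM_real hc h hQ1 hm]
    have e2 : (Icc 1 Q).filter (fun q => pt α Q q ∈ Set.Iic s ×ˢ Set.Iic v) =
        (Icc 1 ⌊(Q : ℝ) ^ s'⌋₊).filter (fun q : ℕ => (Q : ℝ) ^ (-v) ≤ nint (q * α)) := by
      ext q
      simp only [mem_filter, mem_Icc, Set.mem_prod, Set.mem_Iic, pt]
      have key1 : 1 ≤ q → ((q ≤ Q ∧ Real.log q / Real.log Q ≤ s) ↔ q ≤ ⌊(Q : ℝ) ^ s'⌋₊) := by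
        intro hq1
        have hq0 : (0 : ℝ) < q := by exact_mod_cast hq1
        rw [Nat.le_floor_iff (by positivity), Real.le_rpow_iff_log_le hq0 hQ0, div_le_iff₀ hQ,
          hs', min_mul_of_nonneg _ _ hQ.le, one_mul, le_min_iff, and_comm]
        apply and_congr_right
        intro _
        rw [Real.log_le_log_iff hq0 hQ0, Nat.cast_le]
      have key2 : 1 ≤ q → (Real.log (1 / nint (q * α)) / Real.log Q ≤ v ↔
          (Q : ℝ) ^ (-v) ≤ nint (q * α)) := by
        intro hq1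
        have hn := nint_pos_bad hc h hq1
        rw [div_le_iff₀ hQ, Real.rpow_le_iff_le_log hQ0 hn, one_div, Real.log_inv]
        constructor <;> intro h <;> linarith
      constructor
      · rintro ⟨⟨a1, a2⟩, a3, a4⟩
        exact ⟨⟨a1, (key1 a1).1 ⟨a2, a3⟩⟩, (key2 a1).1 a4⟩
      · rintro ⟨⟨a1, a2⟩, a3⟩
        obtain ⟨b1, b2⟩ := (key1 a1).2 a2
        exact ⟨⟨a1, b1⟩, b2, (key2 a1).2 a3⟩
    rw [e2]
    show TT α ((Q : ℝ) ^ (-v)) ⌊(Q : ℝ) ^ s'⌋₊ / Real.log Q ^ 2 / (TS α Q / Real.log Q ^ 2) =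
      TT α ((Q : ℝ) ^ (-v)) ⌊(Q : ℝ) ^ s'⌋₊ / TS α Q
    rw [div_div_div_cancel_right₀ (by positivity)]
  · have hL : LM.real (Set.Iic s ×ˢ Set.Iic v) = 0 := by
      unfold LM
      rw [measureReal_def, Measure.smul_apply, Measure.restrict_apply hm]
      have : (Set.Iic s ×ˢ Set.Iic v) ∩ Tri = ∅ := by
        ext p
        simp only [Set.mem_empty_iff_false, iff_false]
        rintro ⟨⟨h1, h2⟩, h3, h4, h5⟩
        apply hsv
        rw [Set.mem_Iic] at h1 h2
        constructor <;> linarith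
      rw [this]; simp
    rw [hL]
    refine tendsto_const_nhds.congr' ?_
    filter_upwards [hlog.eventually_gt_atTop 0, eventually_ge_atTop 1] with Q hQ hQ1
    rw [PM_real hc h hQ1 hm]
    have : (Icc 1 Q).filter (fun q => pt α Q q ∈ Set.Iic s ×ˢ Set.Iic v) = ∅ := by
      apply filter_false_of_mem
      intro q hq
      have hq1 := (mem_Icc.1 hq).1
      rintro ⟨h1, h2⟩
      simp only [pt, Set.mem_Iic] at h1 h2
      have h3 : 0 ≤ Real.log q := Real.log_natCast_nonneg q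
      have h4 := (log_inv_nint_pos hc h hq1).le
      exact hsv ⟨le_trans (by positivity) h1, le_trans (by positivity) h2⟩
    rw [this]; simp

lemma rect_real (μ : Measure (ℝ × ℝ)) [IsFiniteMeasure μ] {a b c d : ℝ} (hab : a ≤ b) (hcd : c ≤ d) :
    μ.real (Set.Ioc a b ×ˢ Set.Ioc c d) =
      μ.real (Set.Iic b ×ˢ Set.Iic d) - μ.real (Set.Iic a ×ˢ Set.Iic d) -
      (μ.real (Set.Iic b ×ˢ Set.Iic c) - μ.real (Set.Iic a ×ˢ Set.Iic c)) := by
  have hm : ∀ x y : ℝ, MeasurableSet (Set.Iic x ×ˢ Set.Iic y) := fun x y =>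
    measurableSet_Iic.prod measurableSet_Iic
  have h1 : ∀ y : ℝ, μ.real (Set.Ioc a b ×ˢ Set.Iic y) =
      μ.real (Set.Iic b ×ˢ Set.Iic y) - μ.real (Set.Iic a ×ˢ Set.Iic y) := by
    intro y
    have e : Set.Ioc a b ×ˢ Set.Iic y = (Set.Iic b ×ˢ Set.Iic y) \ (Set.Iic a ×ˢ Set.Iic y) := by
      ext p
      simp only [Set.mem_prod, Set.mem_Ioc, Set.mem_Iic, Set.mem_sdiff, not_and, not_le]
      constructor
      · rintro ⟨⟨h1, h2⟩, h3⟩
        exact ⟨⟨h2, h3⟩, fun h4 => absurd h1 (not_lt.2 h4)⟩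
      · rintro ⟨⟨h1, h2⟩, h3⟩
        refine ⟨⟨?_, h1⟩, h2⟩
        by_contra h4
        exact absurd (h3 (not_lt.1 h4)) (not_lt.2 h2)
    rw [e, measureReal_sdiff (Set.prod_mono (Set.Iic_subset_Iic.2 hab) le_rfl) (hm _ _)]
  have e : Set.Ioc a b ×ˢ Set.Ioc c d = (Set.Ioc a b ×ˢ Set.Iic d) \ (Set.Ioc a b ×ˢ Set.Iic c) := by
    ext p
    simp only [Set.mem_prod, Set.mem_Ioc, Set.mem_Iic, Set.mem_sdiff, not_and, not_le]
    constructor
    · rintro ⟨h1, h2, h3⟩
      exact ⟨⟨h1, h3⟩, fun _ => h2⟩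
    · rintro ⟨⟨h1, h2⟩, h3⟩
      exact ⟨h1, h3 h1, h2⟩
  rw [e, measureReal_sdiff (Set.prod_mono le_rfl (Set.Iic_subset_Iic.2 hcd))
    (measurableSet_Ioc.prod measurableSet_Iic), h1, h1]

/-- **equidistribution in the cone** -/
theorem cone_lim {c α : ℝ} (hc : 0 < c) (h : Bad c α) {G : ℝ × ℝ → ℝ} (hG : Continuous G)
    {B : ℝ} (hB : ∀ p, |G p| ≤ B) :
    Tendsto (fun Q : ℕ => ∑ q ∈ Icc 1 Q, rr α q * ph α q / Real.log Q ^ 2 * G (pt α Q q)) atTop
      (𝓝 (2 * (∫ p in Tri, G p) / z3)) := by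
  have := LM_prob
  have : ∀ Q : ℕ, IsProbabilityMeasure (PM α (Q + 1)) := fun Q => PM_prob hc h (by omega)
  set P : ℕ → ProbabilityMeasure (ℝ × ℝ) := fun Q => ⟨PM α (Q + 1), inferInstance⟩ with hP
  set L : ProbabilityMeasure (ℝ × ℝ) := ⟨LM, inferInstance⟩ with hL
  set S : Set (Set (ℝ × ℝ)) := {A | ∃ a b c d : ℝ, A = Set.Ioc a b ×ˢ Set.Ioc c d} with hS
  have hSpi : IsPiSystem S := by
    rintro _ ⟨a, b, c, d, rfl⟩ _ ⟨a', b', c', d', rfl⟩ _
    refine ⟨max a a', min b b', max c c', min d d', ?_⟩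
    rw [Set.prod_inter_prod, Set.Ioc_inter_Ioc, Set.Ioc_inter_Ioc]
  have hconv : Tendsto P atTop (𝓝 L) := by
    apply hSpi.tendsto_probabilityMeasure_of_tendsto_of_mem
    · rintro _ ⟨a, b, c, d, rfl⟩
      exact measurableSet_Ioc.prod measurableSet_Ioc
    · intro u hu x hx
      obtain ⟨ε, hε, hball⟩ := Metric.isOpen_iff.1 hu x hx
      refine ⟨Set.Ioc (x.1 - ε / 2) (x.1 + ε / 2) ×ˢ Set.Ioc (x.2 - ε / 2) (x.2 + ε / 2),
        ⟨_, _, _, _, rfl⟩, ?_, ?_⟩
      · exact prod_mem_nhds (Ioc_mem_nhds (by linarith) (by linarith))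
          (Ioc_mem_nhds (by linarith) (by linarith))
      · rintro y ⟨⟨h1, h2⟩, h3, h4⟩
        apply hball
        rw [Metric.mem_ball, Prod.dist_eq, max_lt_iff, Real.dist_eq, Real.dist_eq, abs_lt, abs_lt]
        refine ⟨⟨?_, ?_⟩, ?_, ?_⟩ <;> linarith
    · rintro _ ⟨a, b, c', d, rfl⟩
      have h0 : Tendsto (fun Q : ℕ => (PM α (Q + 1)).real (Set.Ioc a b ×ˢ Set.Ioc c' d)) atTop
          (𝓝 (LM.real (Set.Ioc a b ×ˢ Set.Ioc c' d))) := by
        rcases le_or_gt a b with hab | hab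
        · rcases le_or_gt c' d with hcd | hcd
          · have hc1 := fun x y => (tendsto_add_atTop_iff_nat 1).2 (cdf_lim hc h x y)
            have h1 := ((hc1 b d).sub (hc1 a d)).sub ((hc1 b c').sub (hc1 a c'))
            rw [← rect_real LM hab hcd] at h1
            refine h1.congr fun Q => ?_
            rw [← rect_real (PM α (Q + 1)) hab hcd]
          · rw [Set.Ioc_eq_empty (not_lt.2 hcd.le), Set.prod_empty]
            simp
        · rw [Set.Ioc_eq_empty (not_lt.2 hab.le), Set.empty_prod]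
          simp
      have h1 : Tendsto (fun Q : ℕ => ((P Q (Set.Ioc a b ×ˢ Set.Ioc c' d) : NNReal) : ℝ)) atTop
          (𝓝 ((L (Set.Ioc a b ×ˢ Set.Ioc c' d) : NNReal) : ℝ)) := h0
      exact_mod_cast h1
  rw [ProbabilityMeasure.tendsto_iff_forall_integral_tendsto] at hconv
  have h1 := hconv (BoundedContinuousFunction.ofNormedAddCommGroup G hG B (fun p => by
    rw [Real.norm_eq_abs]; exact hB p))
  have h2 : Tendsto (fun Q : ℕ => ∫ p, G p ∂(PM α (Q + 1))) atTop (𝓝 (∫ p, G p ∂LM)) := h1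
  have h3 := (tendsto_add_atTop_iff_nat (f := fun Q => ∫ p, G p ∂(PM α Q)) 1).1 h2
  have h4 := h3.mul (tendsto_TS hc h)
  have e1 : (∫ p, G p ∂LM) * (1 / z3) = 2 * (∫ p in Tri, G p) / z3 := by
    unfold LM
    rw [integral_smul_measure, ENNReal.toReal_ofReal (by norm_num), smul_eq_mul]
    ring
  rw [e1] at h4
  refine h4.congr' ?_
  filter_upwards [eventually_ge_atTop 1] with Q hQ
  rw [integral_PM hc h hQ, sum_div, sum_mul]
  refine sum_congr rfl fun q _ => ?_
  have := (TS_pos hc h hQ).ne'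
  field_simp

end Pool.Agent.KS6_2.LL
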