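import Pool.Agent.KS6_2.LL.Arc

open MeasureTheory Finset

namespace Pool.Agent.KS6_2.LL

/-- the indicator function -/
noncomputable def chi (X : Set ℝ) (y : ℝ) : ℝ := X.indicator (fun _ => (1 : ℝ)) y

/-- the part of `X` in the window `(y, y + h]` -/
noncomputable def win (X : Set ℝ) (h y : ℝ) : ℝ := ∫ s in (0 : ℝ)..h, chi X (y + s)

lemma measurable_chi {X : Set ℝ} (hX : MeasurableSet X) : Measurable (chi X) :=
  measurable_const.indicator hX

lemma chi_nonneg (X : Set ℝ) (y : ℝ) : 0 ≤ chi X y :=
  Set.indicator_nonneg (fun _ _ => zero_le_one) y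

lemma chi_le_one (X : Set ℝ) (y : ℝ) : chi X y ≤ 1 :=
  Set.indicator_le_self' (fun _ _ => zero_le_one) y

lemma abs_chi_le (X : Set ℝ) (y : ℝ) : |chi X y| ≤ 1 := by
  rw [abs_of_nonneg (chi_nonneg X y)]; exact chi_le_one X y

lemma chi_integrable {X : Set ℝ} (hX : MeasurableSet X) (a b : ℝ) :
    IntervalIntegrable (chi X) volume a b :=
  intervalIntegrable_of_bdd (measurable_chi hX) (abs_chi_le X) a b

lemma win_eq_integral (X : Set ℝ) (h y : ℝ) : win X h y = ∫ t in y..(y + h), chi X t := by
  unfold win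
  rw [intervalIntegral.integral_comp_add_left]
  simp

lemma setIntegral_chi {X : Set ℝ} (hX : MeasurableSet X) (W : Set ℝ) (s : ℝ) :
    ∫ y in W, chi X (y + s) = volume.real (W ∩ {y | y + s ∈ X}) := by
  have hm : MeasurableSet {y : ℝ | y + s ∈ X} := (measurable_id.add_const s) hX
  have e : (fun y => chi X (y + s)) = {y : ℝ | y + s ∈ X}.indicator (fun _ => (1 : ℝ)) := by
    funext y
    unfold chi
    by_cases h : y + s ∈ X
    · rw [Set.indicator_of_mem h, Set.indicator_of_mem (by exact h)]
    · rw [Set.indicator_of_notMem h, Set.indicator_of_notMem (by exact h)]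
  rw [e, integral_indicator hm, Measure.restrict_restrict hm, setIntegral_const]
  simp only [smul_eq_mul, mul_one]
  rw [Set.inter_comm]

lemma win_eq {X : Set ℝ} (hX : MeasurableSet X) {h : ℝ} (hh : 0 ≤ h) (y : ℝ) :
    win X h y = volume.real (X ∩ Set.Ioc y (y + h)) := by
  rw [win_eq_integral, intervalIntegral.integral_of_le (by linarith)]
  have := setIntegral_chi hX (Set.Ioc y (y + h)) 0
  simp only [add_zero] at this
  rw [this, Set.inter_comm]
  rfl

lemma continuous_win {X : Set ℝ} (hX : MeasurableSet X) (h : ℝ) : Continuous (win X h) := by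
  have e : win X h = fun y => (∫ t in (0 : ℝ)..(y + h), chi X t) - ∫ t in (0 : ℝ)..y, chi X t := by
    funext y
    rw [win_eq_integral, intervalIntegral.integral_interval_sub_left (chi_integrable hX _ _)
      (chi_integrable hX _ _)]
  rw [e]
  have h1 : Continuous (fun b => ∫ t in (0 : ℝ)..b, chi X t) :=
    intervalIntegral.continuous_primitive (fun a b => chi_integrable hX a b) 0
  exact (h1.comp (continuous_id.add continuous_const)).sub h1

lemma swap {X : Set ℝ} (hX : MeasurableSet X) {W : Set ℝ} (hWf : volume W ≠ ⊤)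
    {h : ℝ} (hh : 0 ≤ h) :
    ∫ y in W, win X h y = ∫ s in (0 : ℝ)..h, volume.real (W ∩ {y | y + s ∈ X}) := by
  unfold win
  have e : ∀ y, ∫ s in (0 : ℝ)..h, chi X (y + s) = ∫ s in Set.Ioc 0 h, chi X (y + s) := fun y =>
    intervalIntegral.integral_of_le hh
  simp only [e]
  have : IsFiniteMeasure (volume.restrict W) := ⟨by
    rw [Measure.restrict_apply_univ]; exact hWf.lt_top⟩
  rw [integral_integral_swap]
  · rw [intervalIntegral.integral_of_le hh]
    refine integral_congr_ae ?_
    filter_upwards with s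
    exact setIntegral_chi hX W s
  · refine Integrable.of_bound (C := 1) ?_ ?_
    · exact ((measurable_chi hX).comp (measurable_fst.add measurable_snd)).aestronglyMeasurable
    · filter_upwards with z
      rw [Real.norm_eq_abs]
      exact abs_chi_le X _

lemma periodic_chi {X : Set ℝ} (hper : ∀ y, y + 1 ∈ X ↔ y ∈ X) : Function.Periodic (chi X) 1 := by
  intro y
  unfold chi
  by_cases h : y ∈ X
  · rw [Set.indicator_of_mem h, Set.indicator_of_mem ((hper y).2 h)]
  · rw [Set.indicator_of_notMem h, Set.indicator_of_notMem (fun h' => h ((hper y).1 h'))]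

/-- periodic sets: the measure of the part in an interval of length one -/
lemma volume_periodic {X : Set ℝ} (hX : MeasurableSet X) (hper : ∀ y, y + 1 ∈ X ↔ y ∈ X) (s : ℝ) :
    volume.real (Set.Ioc 0 1 ∩ {y | y + s ∈ X}) = volume.real (X ∩ Set.Ioc 0 1) := by
  rw [← setIntegral_chi hX, ← intervalIntegral.integral_of_le zero_le_one,
    integral_shift (periodic_chi hper)]
  have := setIntegral_chi hX (Set.Ioc 0 1) 0
  simp only [add_zero] at this
  rw [intervalIntegral.integral_of_le zero_le_one, this, Set.inter_comm]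
  rfl

lemma volume_periodic' {X : Set ℝ} (hX : MeasurableSet X) (hper : ∀ y, y + 1 ∈ X ↔ y ∈ X) (s : ℝ) :
    volume.real (X ∩ Set.Ioc s (s + 1)) = volume.real (X ∩ Set.Ioc 0 1) := by
  have h1 := periodic_chi hper
  have h2 := h1.intervalIntegral_add_eq s 0
  rw [zero_add, intervalIntegral.integral_of_le (by linarith),
    intervalIntegral.integral_of_le zero_le_one] at h2
  have h3 := setIntegral_chi hX (Set.Ioc s (s + 1)) 0
  have h4 := setIntegral_chi hX (Set.Ioc 0 1) 0
  simp only [add_zero] at h3 h4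
  rw [h3, h4] at h2
  rw [Set.inter_comm, Set.inter_comm X]
  exact h2

lemma integral_win_periodic {X : Set ℝ} (hX : MeasurableSet X) (hper : ∀ y, y + 1 ∈ X ↔ y ∈ X)
    {h : ℝ} (hh : 0 ≤ h) :
    ∫ y in (0 : ℝ)..1, win X h y = h * volume.real (X ∩ Set.Ioc 0 1) := by
  rw [intervalIntegral.integral_of_le zero_le_one,
    swap hX (by rw [Real.volume_Ioc]; exact ENNReal.ofReal_ne_top) hh]
  simp only [volume_periodic hX hper]
  rw [intervalIntegral.integral_const]
  simp

/-- averaging over a set with small boundary -/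
lemma integral_win_set {X : Set ℝ} (hX : MeasurableSet X) {W : Set ℝ} (hW : MeasurableSet W)
    (hWf : volume W ≠ ⊤) {h : ℝ} (hh : 0 ≤ h) {ω : ℝ}
    (hω : ∀ s, 0 ≤ s → s ≤ h → volume.real (symmDiff W {y | y - s ∈ W}) ≤ ω) :
    |(∫ y in W, win X h y) - h * volume.real (W ∩ X)| ≤ h * ω := by
  rw [swap hX hWf hh]
  have hsh : ∀ s : ℝ, volume {y | y - s ∈ W} = volume W := by
    intro s
    have e : {y : ℝ | y - s ∈ W} = (fun y => y + (-s)) ⁻¹' W := by
      ext y; simp [sub_eq_add_neg]
    rw [e, measure_preimage_add_right]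
  have hkey : ∀ s, 0 ≤ s → s ≤ h →
      |volume.real (W ∩ {y | y + s ∈ X}) - volume.real (W ∩ X)| ≤ ω := by
    intro s h0 h1
    have e : volume.real (W ∩ {y | y + s ∈ X}) = volume.real ({y | y - s ∈ W} ∩ X) := by
      have e1 : W ∩ {y | y + s ∈ X} = (fun y => y + s) ⁻¹' ({y | y - s ∈ W} ∩ X) := by
        ext y; simp
      unfold Measure.real
      rw [e1, measure_preimage_add_right]
    rw [e]
    refine le_trans ?_ (hω s h0 h1)
    have hfs : volume (symmDiff W {y | y - s ∈ W}) ≠ ⊤ := by
      refine ne_top_of_le_ne_top ?_ (measure_mono (symmDiff_le_sup (a := W)))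
      exact ((measure_union_le _ _).trans_lt (ENNReal.add_lt_top.2
        ⟨hWf.lt_top, by rw [hsh]; exact hWf.lt_top⟩)).ne
    have hf1 : volume (W ∩ X) ≠ ⊤ := ne_top_of_le_ne_top hWf (measure_mono Set.inter_subset_left)
    have hf2 : volume ({y | y - s ∈ W} ∩ X) ≠ ⊤ := by
      refine ne_top_of_le_ne_top ?_ (measure_mono Set.inter_subset_left)
      rw [hsh]; exact hWf
    rw [abs_le]
    constructor
    · have h2 : W ∩ X ⊆ ({y | y - s ∈ W} ∩ X) ∪ symmDiff W {y | y - s ∈ W} := by
        rintro y ⟨h3, h4⟩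
        by_cases h5 : y - s ∈ W
        · left; exact ⟨h5, h4⟩
        · right; left; exact ⟨h3, h5⟩
      have h3 := measureReal_mono h2 ((measure_union_le _ _).trans_lt
        (ENNReal.add_lt_top.2 ⟨hf2.lt_top, hfs.lt_top⟩)).ne
      have h4 := measureReal_union_le (μ := volume) ({y | y - s ∈ W} ∩ X)
        (symmDiff W {y | y - s ∈ W})
      linarith
    · have h2 : {y | y - s ∈ W} ∩ X ⊆ (W ∩ X) ∪ symmDiff W {y | y - s ∈ W} := by
        rintro y ⟨h3, h4⟩
        by_cases h5 : y ∈ W
        · left; exact ⟨h5, h4⟩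
        · right; right; exact ⟨h3, h5⟩
      have h3 := measureReal_mono h2 ((measure_union_le _ _).trans_lt
        (ENNReal.add_lt_top.2 ⟨hf1.lt_top, hfs.lt_top⟩)).ne
      have h4 := measureReal_union_le (μ := volume) (W ∩ X) (symmDiff W {y | y - s ∈ W})
      linarith
  have hcont : IntervalIntegrable (fun s => volume.real (W ∩ {y | y + s ∈ X})) volume 0 h := by
    have hme : Measurable (fun s : ℝ => volume (W ∩ {y | y + s ∈ X})) := by
      have hset : MeasurableSet {p : ℝ × ℝ | p.2 ∈ W ∧ p.2 + p.1 ∈ X} :=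
        (measurable_snd hW).inter ((measurable_snd.add measurable_fst) hX)
      exact measurable_measure_prodMk_left hset
    apply intervalIntegrable_of_bdd (B := volume.real W) hme.ennreal_toReal
    intro s
    rw [abs_of_nonneg ENNReal.toReal_nonneg]
    exact measureReal_mono Set.inter_subset_left hWf
  have e2 : h * volume.real (W ∩ X) = ∫ _s in (0 : ℝ)..h, volume.real (W ∩ X) := by
    rw [intervalIntegral.integral_const]; simp
  rw [e2, ← intervalIntegral.integral_sub hcont intervalIntegrable_const]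
  have h3 := intervalIntegral.norm_integral_le_of_norm_le_const (a := (0 : ℝ)) (b := h) (C := ω)
    (f := fun s => volume.real (W ∩ {y | y + s ∈ X}) - volume.real (W ∩ X)) (by
      intro s hs
      rw [Set.uIoc_of_le hh] at hs
      rw [Real.norm_eq_abs]
      exact hkey s hs.1.le hs.2)
  rw [Real.norm_eq_abs, sub_zero, abs_of_nonneg hh] at h3
  linarith

end Pool.Agent.KS6_2.LL
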